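import Mathlib
import Pool.Agent.Lib.MP_3240be_co.H82.Basic
import Pool.Agent.Lib.MP_3240be_co.H36.Chrom.Main

set_option autoImplicit false

/-!
# Theorem Q: interface

`D` is a well connected graph (`TC p D`), `H` contains `D` and is contained in a `D`-tree.  Then
`H` is not Ramsey-equivalent to any larger connected graph.

Paper: finding on MP_3240be_co by helper22, `THEOREM Q`.
-/

namespace MP3240Q

open Pool.Agent.Lib.MP_3240be_co.H82 (TC Good)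
open Pool.Agent.Lib.MP_3240be_co.H36.Chrom (Sparse ArrowsT)

/-! ## D-trees -/

/-- `D` is bipartite. -/
def Bip {U : Type} (D : SimpleGraph U) : Prop :=
  ∃ κ : U → Bool, ∀ x y, D.Adj x y → κ x ≠ κ y

/-- `D`-trees `T` with vertex set `A` and set of free vertices `F`. -/
inductive DTree {k : ℕ} (D : SimpleGraph (Fin k)) : SimpleGraph ℕ → Set ℕ → Set ℕ → Prop
  | start (y : ℕ) : DTree D ⊥ {y} {y}
  | pendant (T : SimpleGraph ℕ) (A F : Set ℕ) (y z : ℕ) (h : DTree D T A F)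
      (hy : y ∈ A) (hz : z ∉ A) :
      DTree D (T ⊔ SimpleGraph.edge y z) (insert z A) (insert z F)
  | copy (T : SimpleGraph ℕ) (A F : Set ℕ) (f : Fin k ↪ ℕ) (r a b : Fin k) (h : DTree D T A F)
      (hr : f r ∈ F) (hnew : ∀ v, v ≠ r → f v ∉ A) (hab : D.Adj a b) (hra : r ≠ a)
      (hrb : r ≠ b) :
      DTree D (T ⊔ D.map f) (A ∪ Set.range f) (F ∪ f '' {v | v ≠ a ∧ v ≠ b})
  | bip (T : SimpleGraph ℕ) (A F : Set ℕ) (t : ℕ) (f : Fin t ⊕ Fin t ↪ ℕ) (r : Fin t ⊕ Fin t)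
      (h : DTree D T A F) (hD : ¬ Bip D) (hr : f r ∈ F) (hnew : ∀ v, v ≠ r → f v ∉ A) :
      DTree D (T ⊔ (completeBipartiteGraph (Fin t) (Fin t)).map f) (A ∪ Set.range f)
        (F ∪ Set.range f)

/-- The theorem. -/
def MainStatement : Prop :=
  ∀ (p : Prop) (k n n' : ℕ) (D : SimpleGraph (Fin k)) (H : SimpleGraph (Fin n))
    (H' : SimpleGraph (Fin n')), TC p D →
    (∃ f : Fin k → Fin n, Function.Injective f ∧ ∀ x y, D.Adj x y → H.Adj (f x) (f y)) →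
    (∃ (T : SimpleGraph ℕ) (A F : Set ℕ), DTree D T A F ∧
      ∃ f : Fin n → ℕ, Function.Injective f ∧ (∀ x, f x ∈ A) ∧
        ∀ x y, H.Adj x y → T.Adj (f x) (f y)) →
    H'.Connected →
    (∃ f : Fin n → Fin n', Function.Injective f ∧ ∀ x y, H.Adj x y → H'.Adj (f x) (f y)) →
    (¬ ∃ f : Fin n' → Fin n, Function.Injective f ∧ ∀ x y, H'.Adj x y → H.Adj (f x) (f y)) →
    ∃ (V : Type) (_ : Finite V) (F : SimpleGraph V), ArrowsT F H ∧ ¬ ArrowsT F H'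

/-! ## Monochromatic copies -/

/-- An injective map that sends the edges of `D` to edges of `S` of colour `c`. -/
def Mono {U V : Type} (S : SimpleGraph V) (C : V → V → Bool) (D : SimpleGraph U) (c : Bool)
    (f : U → V) : Prop :=
  Function.Injective f ∧ ∀ i j, D.Adj i j → S.Adj (f i) (f j) ∧ C (f i) (f j) = c

/-- `g` is a copy of `K_{t,t}` in colour `c`. -/
def KK {V : Type} (S : SimpleGraph V) (C : V → V → Bool) (c : Bool) (t : ℕ)
    (g : Fin t ⊕ Fin t → V) : Prop :=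
  Function.Injective g ∧ ∀ i j, S.Adj (g (Sum.inl i)) (g (Sum.inr j)) ∧
    C (g (Sum.inl i)) (g (Sum.inr j)) = c

/-- `y` has `N` different neighbours of colour `c` outside the passengers `Q`. -/
def Nb {L Q : Type} (S : SimpleGraph (L ⊕ Q)) (C : L ⊕ Q → L ⊕ Q → Bool) (c : Bool) (N : ℕ)
    (y : L ⊕ Q) : Prop :=
  ∃ g : Fin N → L, Function.Injective g ∧ ∀ i, S.Adj y (Sum.inl (g i)) ∧
    C y (Sum.inl (g i)) = c

/-- A copy of `D` in colour `c` in which only the roles `a` and `b` may be passengers, and these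
have many neighbours of colour `c` outside the passengers. -/
def Cop {k : ℕ} {L Q : Type} (D : SimpleGraph (Fin k)) (S : SimpleGraph (L ⊕ Q))
    (C : L ⊕ Q → L ⊕ Q → Bool) (c : Bool) (N : ℕ) (a b : Fin k) : Prop :=
  ∃ f : Fin k → L ⊕ Q, Mono S C D c f ∧ (∀ v, v ≠ a → v ≠ b → ∃ l, f v = Sum.inl l) ∧
    ∀ v q, f v = Sum.inr q → Nb S C c N (Sum.inr q)

/-- What one colour of the gadget contains. -/
structure Rich {k : ℕ} {L Q : Type} (D : SimpleGraph (Fin k)) (N t : ℕ)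
    (S : SimpleGraph (L ⊕ Q)) (C : L ⊕ Q → L ⊕ Q → Bool) (c : Bool) : Prop where
  edge : ∃ l l' : L, S.Adj (Sum.inl l) (Sum.inl l') ∧ C (Sum.inl l) (Sum.inl l') = c
  cop : ∀ a b, D.Adj a b → Cop D S C c N a b
  kk : ¬ Bip D → ∃ g : Fin t ⊕ Fin t → L, KK S C c t (fun i => Sum.inl (g i))

/-- The gadget `S` with its good colouring `C₀` (`true` = red). -/
structure Piece {k n : ℕ} {L : Type} (D : SimpleGraph (Fin k)) (H : SimpleGraph (Fin n))
    (N t : ℕ) (S : SimpleGraph (L ⊕ Fin n)) (C₀ : L ⊕ Fin n → L ⊕ Fin n → Bool) : Prop where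
  pat : ∀ q q', S.Adj (Sum.inr q) (Sum.inr q') ↔ H.Adj q q'
  symm : ∀ x y, C₀ x y = C₀ y x
  red : ∀ q y, S.Adj (Sum.inr q) y → C₀ (Sum.inr q) y = true → ∃ q', y = Sum.inr q'
  isred : ∀ q q', H.Adj q q' → C₀ (Sum.inr q) (Sum.inr q') = true
  only : ∀ c f, Mono S C₀ D c f → ∀ v, ∃ q, f v = Sum.inr q
  two : ∃ l l' : L, l ≠ l'
  arr : ∀ C : L ⊕ Fin n → L ⊕ Fin n → Bool, (∀ x y, C x y = C y x) →
    (∃ c, ∀ q q', H.Adj q q' → C (Sum.inr q) (Sum.inr q') = c) ∨ ∃ c, Rich D N t S C c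

/-- The pattern `P` with its intended colouring `c₁` (`true` = red): the gadget before the
senders are attached. -/
structure Pat {k n : ℕ} {Y : Type} (p : Prop) (D : SimpleGraph (Fin k)) (H : SimpleGraph (Fin n))
    (N : ℕ) (P : SimpleGraph (Y ⊕ Fin n)) (c₁ : Y ⊕ Fin n → Y ⊕ Fin n → Bool) : Prop where
  pat : ∀ q q', P.Adj (Sum.inr q) (Sum.inr q') ↔ H.Adj q q'
  symm : ∀ x y, c₁ x y = c₁ y x
  red : ∀ q y, P.Adj (Sum.inr q) y → c₁ (Sum.inr q) y = true → ∃ q', y = Sum.inr q'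
  isred : ∀ q q', H.Adj q q' → c₁ (Sum.inr q) (Sum.inr q') = true
  only : ∀ c f, Mono P c₁ D c f → ∀ v, ∃ q, f v = Sum.inr q
  bip : p → Bip P
  two : ∃ l l' : Y, l ≠ l'
  arr : ∀ (C : Y ⊕ Fin n → Y ⊕ Fin n → Bool) (β : Bool → Bool), (∀ x y, C x y = C y x) →
    (∀ d d', P.Adj (Sum.inl d) (Sum.inl d') →
      C (Sum.inl d) (Sum.inl d') = β (c₁ (Sum.inl d) (Sum.inl d'))) →
    (∃ (c : Bool) (f : Fin k → Y), Mono P C D c (fun v => Sum.inl (f v))) ∨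
    (∃ c, ∀ q q', H.Adj q q' → C (Sum.inr q) (Sum.inr q') = c) ∨
    ∃ c, (∃ l l' : Y, P.Adj (Sum.inl l) (Sum.inl l') ∧ C (Sum.inl l) (Sum.inl l') = c) ∧
      ∀ a b, D.Adj a b → Cop D P C c N a b

/-- Row PAT (from SYM, NBL, RPA, PBI, MCO and `good` of H36/Chrom/Hyper). -/
def PatStatement : Prop :=
  ∀ (p : Prop) (k n N : ℕ) (D : SimpleGraph (Fin k)) (H : SimpleGraph (Fin n)), TC p D →
    (p → Bip H) → ∃ (Y : Type) (_ : Finite Y) (P : SimpleGraph (Y ⊕ Fin n))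
      (c₁ : Y ⊕ Fin n → Y ⊕ Fin n → Bool), Pat p D H N P c₁

/-- Row PIE (from PAT, ATT, GAM): the gadget. -/
def PieceStatement : Prop :=
  ∀ (p : Prop) (k n N t : ℕ) (D : SimpleGraph (Fin k)) (H : SimpleGraph (Fin n)), TC p D →
    (p → Bip H) → ∃ (L : Type) (_ : Finite L) (S : SimpleGraph (L ⊕ Fin n))
      (C₀ : L ⊕ Fin n → L ⊕ Fin n → Bool), Piece D H N t S C₀

/-! ## The pattern -/

/-- The label of a blocking copy: the pair `x u` of passengers, the edge `a b` of `D` that is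
put there, and the vertex `w` of `D` whose deletion gives the red pieces. -/
structure Lab (n k : ℕ) : Type where
  x : Fin n
  u : Fin n
  a : Fin k
  b : Fin k
  w : Fin k

/-- The vertices of the pattern other than the passengers. -/
inductive GX (n k : ℕ) (G M : Type) : Type
  | z (v : Fin k) : GX n k G M
  | l (c : Lab n k) (i : G) (v : Fin k) : GX n k G M
  | r (c : Lab n k) (m : M) (v y : Fin k) : GX n k G M

instance {n k : ℕ} : Finite (Lab n k) := by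
  refine Finite.of_injective (β := Fin n × Fin n × Fin k × Fin k × Fin k)
    (fun c => (c.x, c.u, c.a, c.b, c.w)) ?_
  rintro ⟨x, u, a, b, w⟩ ⟨x', u', a', b', w'⟩ h
  simp_all

instance {n k : ℕ} {G M : Type} [Finite G] [Finite M] : Finite (GX n k G M) := by
  refine Finite.of_injective (β := Fin k ⊕ (Lab n k × G × Fin k) ⊕
    (Lab n k × M × Fin k × Fin k)) (fun d => match d with
    | GX.z v => Sum.inl v
    | GX.l c i v => Sum.inr (Sum.inl (c, i, v))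
    | GX.r c m v y => Sum.inr (Sum.inr (c, m, v, y))) ?_
  intro d d' h
  rcases d with v | ⟨c, i, v⟩ | ⟨c, m, v, y⟩ <;>
    rcases d' with v' | ⟨c', i', v'⟩ | ⟨c', m', v', y'⟩ <;> simp_all

section Pattern

variable {n k : ℕ} {G M : Type} (D : SimpleGraph (Fin k)) (H : SimpleGraph (Fin n))
  (Ok : Lab n k → Prop) (a₀ b₀ : Fin k) (δ : M → Fin k → G)

/-- The red copy of `D - w` attached to the hyperedge `m`. -/
noncomputable def rho (c : Lab n k) (m : M) (v y : Fin k) : GX n k G M := by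
  classical
  exact if D.Adj c.w y then GX.l c (δ m y) v else GX.r c m v y

/-- The free edges between the passengers and the blocking copies. -/
def Fr (q : Fin n) (c : Lab n k) (v : Fin k) : Prop :=
  Ok c ∧ v ≠ c.a ∧ v ≠ c.b ∧ ((q = c.x ∧ D.Adj c.a v) ∨ (q = c.u ∧ D.Adj c.b v))

/-- The blue edges. -/
def EB (s t : GX n k G M ⊕ Fin n) : Prop :=
  (∃ v v', D.Adj v v' ∧ ¬ (v = a₀ ∧ v' = b₀) ∧ ¬ (v = b₀ ∧ v' = a₀) ∧
    s = Sum.inl (GX.z v) ∧ t = Sum.inl (GX.z v')) ∨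
  (∃ c i v v', Ok c ∧ D.Adj v v' ∧ v ≠ c.a ∧ v ≠ c.b ∧ v' ≠ c.a ∧ v' ≠ c.b ∧
    s = Sum.inl (GX.l c i v) ∧ t = Sum.inl (GX.l c i v')) ∨
  (∃ q c i v, Fr D Ok q c v ∧ s = Sum.inr q ∧ t = Sum.inl (GX.l c i v)) ∨
  (∃ q c i v, Fr D Ok q c v ∧ t = Sum.inr q ∧ s = Sum.inl (GX.l c i v))

/-- The red edges. -/
def ER (s t : GX n k G M ⊕ Fin n) : Prop :=
  (∃ v v', ((v = a₀ ∧ v' = b₀) ∨ (v = b₀ ∧ v' = a₀)) ∧
    s = Sum.inl (GX.z v) ∧ t = Sum.inl (GX.z v')) ∨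
  (∃ q q', H.Adj q q' ∧ s = Sum.inr q ∧ t = Sum.inr q') ∨
  (∃ c m v y y', Ok c ∧ v ≠ c.a ∧ v ≠ c.b ∧ y ≠ c.w ∧ y' ≠ c.w ∧ D.Adj y y' ∧
    s = Sum.inl (rho D δ c m v y) ∧ t = Sum.inl (rho D δ c m v y'))

/-- The pattern as a graph. -/
def Pt : SimpleGraph (GX n k G M ⊕ Fin n) :=
  SimpleGraph.fromRel (fun s t => EB D Ok a₀ b₀ s t ∨ ER D H Ok a₀ b₀ δ s t)

end Pattern

/-- Row SYM: the two kinds of edges are symmetric, disjoint and have no loops. -/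
def SymStatement : Prop :=
  ∀ (n k : ℕ) (G M : Type) (D : SimpleGraph (Fin k)) (H : SimpleGraph (Fin n))
    (Ok : Lab n k → Prop) (a₀ b₀ : Fin k) (δ : M → Fin k → G), a₀ ≠ b₀ →
    (∀ m, Function.Injective (δ m)) → ∀ s t : GX n k G M ⊕ Fin n,
      (EB D Ok a₀ b₀ s t → EB D Ok a₀ b₀ t s) ∧
      (ER D H Ok a₀ b₀ δ s t → ER D H Ok a₀ b₀ δ t s) ∧
      ¬ EB D Ok a₀ b₀ s s ∧ ¬ ER D H Ok a₀ b₀ δ s s ∧
      (EB D Ok a₀ b₀ s t → ¬ ER D H Ok a₀ b₀ δ s t)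

/-- Row NBL: there is no blue copy of `D` (port of `no_blue` in H82/Gadget82). -/
def NblStatement : Prop :=
  ∀ (p : Prop) (n k : ℕ) (G M : Type) (D : SimpleGraph (Fin k)) (H : SimpleGraph (Fin n))
    (Ok : Lab n k → Prop) (a₀ b₀ : Fin k), TC p D → D.Adj a₀ b₀ →
    (∀ c, Ok c → H.Adj c.x c.u ∧ D.Adj c.a c.b) →
    (p → ∃ cl : GX n k G M ⊕ Fin n → Bool, (∀ s t, EB D Ok a₀ b₀ s t → cl s ≠ cl t) ∧
      ∀ x u, H.Adj x u → cl (Sum.inr x) ≠ cl (Sum.inr u)) →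
    ∀ f : Fin k → GX n k G M ⊕ Fin n, Function.Injective f →
      (∀ i j, D.Adj i j → EB D Ok a₀ b₀ (f i) (f j)) → False

/-- Row ONE: a copy of `D` in a union of pieces glued at single vertices along a sparse family
lies in one piece.  `In m v` = the vertex `v` of `D` is mapped into the piece `m`. -/
def OneStatement : Prop :=
  ∀ (p : Prop) (k : ℕ) (D : SimpleGraph (Fin k)), TC p D → ∀ (M : Type) (mm : Fin k → Fin k → M)
    (In : M → Fin k → Prop), (∀ i j, D.Adj i j → In (mm i j) i ∧ In (mm i j) j) →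
    (∀ S : Finset M, 2 ≤ S.card → S.card ≤ k * k → ∃ m ∈ S, ∀ i j, In m i → In m j →
      (∃ m' ∈ S, m' ≠ m ∧ In m' i) → (∃ m' ∈ S, m' ≠ m ∧ In m' j) → i = j) →
    ∃ m, ∀ i j, D.Adj i j → mm i j = m

/-- Row RPA: a red copy of `D` lies on the passengers (port of `red_pass` in H82/Gadget82). -/
def RpaStatement : Prop :=
  ∀ (p : Prop) (n k : ℕ) (G M : Type) (D : SimpleGraph (Fin k)) (H : SimpleGraph (Fin n))
    (Ok : Lab n k → Prop) (a₀ b₀ : Fin k) (δ : M → Fin k → G), TC p D → Sparse (k * k) δ →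
    ∀ f : Fin k → GX n k G M ⊕ Fin n, Function.Injective f →
      (∀ i j, D.Adj i j → ER D H Ok a₀ b₀ δ (f i) (f j)) → ∀ i, ∃ q, f i = Sum.inr q

/-- Row PBI: a proper 2-colouring of the pattern (port of `pattern_bip` in H82/Gadget82). -/
def PbiStatement : Prop :=
  ∀ (n k : ℕ) (G M : Type) (D : SimpleGraph (Fin k)) (H : SimpleGraph (Fin n))
    (Ok : Lab n k → Prop) (a₀ b₀ : Fin k) (δ : M → Fin k → G) (κD : Fin k → Bool)
    (κH : Fin n → Bool), (∀ x y, D.Adj x y → κD x ≠ κD y) → (∀ x y, H.Adj x y → κH x ≠ κH y) →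
    D.Adj a₀ b₀ → (∀ c, Ok c → H.Adj c.x c.u ∧ D.Adj c.a c.b ∧ κH c.x = κD c.a) →
    ∃ cl : GX n k G M ⊕ Fin n → Bool, (∀ s t, EB D Ok a₀ b₀ s t → cl s ≠ cl t) ∧
      (∀ s t, ER D H Ok a₀ b₀ δ s t → cl s ≠ cl t) ∧ ∀ q, cl (Sum.inr q) = κH q

/-- Row COL: refine a colouring such that every colour that is used twice comes from a class with
at least `N` elements. -/
def ColStatement : Prop :=
  ∀ (G K : Type) [Finite G] (cls : G → K) (N : ℕ), ∃ col : G → K × Fin (N + 1),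
    ∀ i j, i ≠ j → col i = col j → cls i = cls j ∧
      ∃ g : Fin N → G, Function.Injective g ∧ ∀ s, cls (g s) = cls i

/-- Many blocking copies with label `c` are completely of colour `β₀`. -/
def BC {n k : ℕ} {G M : Type} (D : SimpleGraph (Fin k)) (Ok : Lab n k → Prop) (N : ℕ)
    (C : GX n k G M ⊕ Fin n → GX n k G M ⊕ Fin n → Bool) (β₀ : Bool) (c : Lab n k) : Prop :=
  (∃ i : G, ∀ q v, Fr D Ok q c v → C (Sum.inr q) (Sum.inl (GX.l c i v)) = β₀) ∧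
  ∃ g : Fin N → G, Function.Injective g ∧
    ∀ s q v, Fr D Ok q c v → C (Sum.inr q) (Sum.inl (GX.l c (g s) v)) = β₀

/-- Many points with label `c` have the same free edge `q v` of colour `β₁`, among them the
points of a hyperedge `m`. -/
def RC {n k : ℕ} {G M : Type} (D : SimpleGraph (Fin k)) (Ok : Lab n k → Prop)
    (δ : M → Fin k → G) (N : ℕ)
    (C : GX n k G M ⊕ Fin n → GX n k G M ⊕ Fin n → Bool) (β₁ : Bool) (c : Lab n k) : Prop :=
  ∃ (q : Fin n) (v : Fin k) (g : Fin N → G) (m : M), Function.Injective g ∧ Fr D Ok q c v ∧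
    (∀ s, C (Sum.inr q) (Sum.inl (GX.l c (g s) v)) = β₁) ∧
    ∀ y, C (Sum.inr q) (Sum.inl (GX.l c (δ m y) v)) = β₁

/-- Row ALT (from COL). -/
def AltStatement : Prop :=
  ∀ (n k N : ℕ) (G M : Type) [Finite G] (D : SimpleGraph (Fin k)) (Ok : Lab n k → Prop)
    (δ : M → Fin k → G), 2 ≤ k → (∀ m, Function.Injective (δ m)) →
    (∀ col : G → Option (Bool × Fin k) × Fin (N + 1), ∃ m, ∀ t t', col (δ m t) = col (δ m t')) →
    ∀ (C : GX n k G M ⊕ Fin n → GX n k G M ⊕ Fin n → Bool) (β₀ β₁ : Bool), β₀ ≠ β₁ →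
    ∀ c, BC D Ok N C β₀ c ∨ RC D Ok δ N C β₁ c

/-- Row MCB: the copies of `D` of colour `β₀`. -/
def McbStatement : Prop :=
  ∀ (p : Prop) (n k N : ℕ) (G M : Type) (D : SimpleGraph (Fin k))
    (H : SimpleGraph (Fin n)) (Ok : Lab n k → Prop) (a₀ b₀ : Fin k) (δ : M → Fin k → G), TC p D →
    (∀ c, Ok c → H.Adj c.x c.u ∧ D.Adj c.a c.b) →
    ∀ (C : GX n k G M ⊕ Fin n → GX n k G M ⊕ Fin n → Bool), (∀ s t, C s t = C t s) →
    ∀ β₀ : Bool,
    (∀ d d', EB D Ok a₀ b₀ (Sum.inl d) (Sum.inl d' : GX n k G M ⊕ Fin n) →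
      C (Sum.inl d) (Sum.inl d') = β₀) →
    ∀ c, Ok c → C (Sum.inr c.x) (Sum.inr c.u) = β₀ → BC D Ok N C β₀ c →
      Cop D (Pt D H Ok a₀ b₀ δ) C β₀ N c.a c.b

/-- Row MCR: the copies of `D` of colour `β₁`. -/
def McrStatement : Prop :=
  ∀ (p : Prop) (n k N : ℕ) (G M : Type) (D : SimpleGraph (Fin k))
    (H : SimpleGraph (Fin n)) (Ok : Lab n k → Prop) (a₀ b₀ : Fin k) (δ : M → Fin k → G), TC p D →
    (∀ m, Function.Injective (δ m)) →
    ∀ (C : GX n k G M ⊕ Fin n → GX n k G M ⊕ Fin n → Bool), (∀ s t, C s t = C t s) →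
    ∀ β₁ : Bool,
    (∀ d d', ER D H Ok a₀ b₀ δ (Sum.inl d) (Sum.inl d') → C (Sum.inl d) (Sum.inl d') = β₁) →
    ∀ c, RC D Ok δ N C β₁ c → ∀ b, Cop D (Pt D H Ok a₀ b₀ δ) C β₁ N c.w b

/-- Row MCO (from ALT, MCB, MCR): if the edges outside the passengers have the intended colours `φ 0` (blue) and `φ 1`
(red), then the passengers are red or one colour contains the required copies of `D`
(stronger form of `mono_copy` in H82/Gadget82). -/
def McoStatement : Prop :=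
  ∀ (p : Prop) (n k N : ℕ) (G M : Type) [Finite G] (D : SimpleGraph (Fin k))
    (H : SimpleGraph (Fin n)) (Ok : Lab n k → Prop) (a₀ b₀ : Fin k) (δ : M → Fin k → G), TC p D →
    (∀ c, Ok c → H.Adj c.x c.u ∧ D.Adj c.a c.b) →
    (∀ x u a b w, H.Adj x u → D.Adj a b → Ok ⟨x, u, a, b, w⟩ ∨ Ok ⟨u, x, a, b, w⟩) →
    (∀ m, Function.Injective (δ m)) →
    (∀ col : G → Option (Bool × Fin k) × Fin (N + 1), ∃ m, ∀ t t', col (δ m t) = col (δ m t')) →
    ∀ (C : GX n k G M ⊕ Fin n → GX n k G M ⊕ Fin n → Bool), (∀ s t, C s t = C t s) →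
    ∀ β₀ β₁ : Bool, β₀ ≠ β₁ →
    (∀ d d', EB D Ok a₀ b₀ (Sum.inl d) (Sum.inl d' : GX n k G M ⊕ Fin n) →
      C (Sum.inl d) (Sum.inl d') = β₀) →
    (∀ d d', ER D H Ok a₀ b₀ δ (Sum.inl d) (Sum.inl d') → C (Sum.inl d) (Sum.inl d') = β₁) →
    (∀ q q', H.Adj q q' → C (Sum.inr q) (Sum.inr q') = β₁) ∨
      ∃ c, ∀ a b, D.Adj a b → Cop D (Pt D H Ok a₀ b₀ δ) C c N a b

/-- Row ATT: `attach` of H82/Attach with passengers `Z`: the senders work as soon as there is no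
monochromatic copy of `H` that avoids `Z`. -/
def AttStatement : Prop :=
  ∀ (p : Prop) (n : ℕ) (H : SimpleGraph (Fin n)), TC p H → ∀ (W J : Type) [Finite W] [Finite J]
    (G : SimpleGraph W) (Z : W → Prop) (p₁ p₂ q₁ q₂ : J → W), (∀ j, G.Adj (p₁ j) (p₂ j)) →
    (∀ j, G.Adj (q₁ j) (q₂ j)) →
    (∀ j, p₁ j ≠ q₁ j ∧ p₁ j ≠ q₂ j ∧ p₂ j ≠ q₁ j ∧ p₂ j ≠ q₂ j) →
    (∀ j, ¬ G.Adj (p₁ j) (q₁ j) ∧ ¬ G.Adj (p₁ j) (q₂ j) ∧ ¬ G.Adj (p₂ j) (q₁ j) ∧
      ¬ G.Adj (p₂ j) (q₂ j)) →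
    (∀ j, ¬ Z (p₁ j) ∧ ¬ Z (p₂ j) ∧ ¬ Z (q₁ j) ∧ ¬ Z (q₂ j)) →
    (p → ∃ cl : W → Bool, (∀ x y, G.Adj x y → cl x ≠ cl y) ∧ ∀ j, cl (p₁ j) = cl (q₁ j)) →
    ∃ (V : Type) (_ : Finite V) (F : SimpleGraph V) (ι : W → V), Function.Injective ι ∧
      (∀ u v, F.Adj (ι u) (ι v) ↔ G.Adj u v) ∧
      (∀ C : V → V → Bool, (∀ x y, C x y = C y x) →
        (∀ (b : Bool) (f : Fin n → V), Mono F C H b f → ∃ i z, Z z ∧ f i = ι z) →
        ∀ j, C (ι (p₁ j)) (ι (p₂ j)) = C (ι (q₁ j)) (ι (q₂ j))) ∧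
      (∀ c : W → W → Bool, (∀ x y, c x y = c y x) →
        (∀ j, c (p₁ j) (p₂ j) = c (q₁ j) (q₂ j)) →
        ∃ C : V → V → Bool, (∀ x y, C x y = C y x) ∧ (∀ u v, C (ι u) (ι v) = c u v) ∧
          ∀ (b : Bool) (f : Fin n → V), Mono F C H b f → ∀ i, ∃ w, f i = ι w) ∧
      (∀ u w, F.Adj (ι u) w →
        (∃ v, w = ι v) ∨ ∃ j, u = p₁ j ∨ u = p₂ j ∨ u = q₁ j ∨ u = q₂ j)

/-- Row GAM: for a non-bipartite `D` (any graph) a finite graph with a colouring without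
monochromatic `D`, such that every colouring has in some colour `D` and `K_{t,t}`, or `K_{t,t}` in
both colours.  Complete `χ(D)`-partite graph with large parts, Ramsey for the parts. -/
def GamStatement : Prop :=
  ∀ (k t : ℕ) (D : SimpleGraph (Fin k)), ¬ Bip D →
    ∃ (X : Type) (_ : Finite X) (Γ : SimpleGraph X),
      (∃ C : X → X → Bool, (∀ x y, C x y = C y x) ∧ ∀ c f, ¬ Mono Γ C D c f) ∧
      ∀ C : X → X → Bool, (∀ x y, C x y = C y x) →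
        (∃ c, (∃ f, Mono Γ C D c f) ∧ ∃ g, KK Γ C c t g) ∨ ∀ c, ∃ g, KK Γ C c t g

/-! ## Gluing the gadgets along a sparse hypergraph -/

/-- The copy number `m` of the gadget in the host. -/
def em {L Q I M : Type} (δ : M → L → I) (m : M) : L ⊕ Q → I ⊕ (M × Q)
  | Sum.inl l => Sum.inl (δ m l)
  | Sum.inr q => Sum.inr (m, q)

/-- The host: copies of `S`, one for every hyperedge; the passengers are private. -/
def Gl {L Q I M : Type} (S : SimpleGraph (L ⊕ Q)) (δ : M → L → I) : SimpleGraph (I ⊕ (M × Q)) where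
  Adj x y := x ≠ y ∧ ∃ m u v, S.Adj u v ∧ em δ m u = x ∧ em δ m v = y
  symm := ⟨fun _ _ ⟨h, m, u, v, h1, h2, h3⟩ => ⟨h.symm, m, v, u, h1.symm, h3, h2⟩⟩
  loopless := ⟨fun _ h => h.1 rfl⟩

/-- Two hyperedges share at most one point. -/
def Lin {L I M : Type} (δ : M → L → I) : Prop :=
  ∀ m m' t t' s s', m ≠ m' → δ m t = δ m' t' → δ m s = δ m' s' → δ m t = δ m s

/-- Row LIN. -/
def LinStatement : Prop :=
  ∀ (L I M : Type) (δ : M → L → I) (g : ℕ), 2 ≤ g → Sparse g δ → Lin δ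

/-- Row NFH: the good colourings of the gadgets give a colouring of the host without `H'`. -/
def NfhStatement : Prop :=
  ∀ (p : Prop) (k n n' N t : ℕ) (D : SimpleGraph (Fin k)) (H : SimpleGraph (Fin n))
    (H' : SimpleGraph (Fin n')), TC p D → H'.Connected →
    (∃ f : Fin k → Fin n', Function.Injective f ∧ ∀ x y, D.Adj x y → H'.Adj (f x) (f y)) →
    (¬ ∃ f : Fin n' → Fin n, Function.Injective f ∧ ∀ x y, H'.Adj x y → H.Adj (f x) (f y)) →
    ∀ (L I M : Type) (S : SimpleGraph (L ⊕ Fin n)) (C₀ : L ⊕ Fin n → L ⊕ Fin n → Bool)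
      (δ : M → L → I), Piece D H N t S C₀ → (∀ m, Function.Injective (δ m)) →
      Sparse (k * k + 2) δ → ¬ ArrowsT (Gl S δ) H'

/-! ## Types -/

/-- `XS δ χ R j x`: from the point `x` one can go `j` steps: for every role `l` there are `R`
hyperedges `m` with `χ m` that have `x` in the role `l` and all whose points allow `j - 1`
steps. -/
def XS {L I M : Type} (δ : M → L → I) (χ : M → Prop) (R : ℕ) : ℕ → I → Prop
  | 0, _ => True
  | j + 1, x => ∀ l : L, ∃ g : Fin R → M, Function.Injective g ∧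
      ∀ i, χ (g i) ∧ δ (g i) l = x ∧ ∀ l', XS δ χ R j (δ (g i) l')

/-- The statement of row HYP of the board `whw_modules` (H43/Defs). -/
def HypStatement : Prop :=
  ∀ (g B : ℕ) (T K : Type) [Finite T] [Finite K] [Nonempty K] (t0 t1 : T), t0 ≠ t1 →
    ∃ (I M : Type) (_ : Finite I) (_ : Finite M) (δ : M → T → I),
      (∀ m, Function.Injective (δ m)) ∧ Sparse g δ ∧
      ∀ (lab : I → K) (bad : I → Finset M), (∀ i, (bad i).card ≤ B) →
        ∃ m, (∀ t t', lab (δ m t) = lab (δ m t')) ∧ ∀ t, m ∉ bad (δ m t)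

/-- Row TYP (from HYP). -/
def TypStatement : Prop :=
  ∀ (g R N : ℕ) (L Φ : Type) [Finite L] [Finite Φ] (l0 l1 : L), l0 ≠ l1 →
    ∃ (I M : Type) (_ : Finite I) (_ : Finite M) (δ : M → L → I),
      (∀ m, Function.Injective (δ m)) ∧ Sparse g δ ∧
      ∀ χ : M → Φ, ∃ φ x, XS δ (fun m => χ m = φ) R N x

/-! ## Greedy embedding of D-trees -/

/-- Row MON: the sets decrease. -/
def MonStatement : Prop :=
  ∀ (L I M : Type) (δ : M → L → I) (χ : M → Prop) (R j : ℕ) (x : I),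
    XS δ χ R (j + 1) x → XS δ χ R j x

/-- An embedding of `T` in colour `c` of the host; the free vertices allow `j + 1` further steps
and all vertices have `N` neighbours that allow `j` further steps. -/
structure St {L Q I M : Type} (S : SimpleGraph (L ⊕ Q)) (δ : M → L → I)
    (C : I ⊕ (M × Q) → I ⊕ (M × Q) → Bool) (χ : M → Prop) (c : Bool) (N j : ℕ)
    (T : SimpleGraph ℕ) (A F : Set ℕ) (g : ℕ → I ⊕ (M × Q)) : Prop where
  inj : Set.InjOn g A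
  adj : ∀ u v, T.Adj u v → (Gl S δ).Adj (g u) (g v) ∧ C (g u) (g v) = c
  free : ∀ u ∈ F, ∃ x, g u = Sum.inl x ∧ XS δ χ N (j + 1) x
  nb : ∀ u ∈ A, ∃ h : Fin N → I, Function.Injective h ∧
    ∀ i, XS δ χ N j (h i) ∧ (Gl S δ).Adj (g u) (Sum.inl (h i)) ∧ C (g u) (Sum.inl (h i)) = c

/-- The data of a colouring `C` of the host: the hyperedges with `χ m` have the same coloured
gadget, and colour `c` of this gadget is rich. -/
structure Host {k : ℕ} {L Q I M : Type} (D : SimpleGraph (Fin k)) (N t : ℕ)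
    (S : SimpleGraph (L ⊕ Q)) (δ : M → L → I) (C : I ⊕ (M × Q) → I ⊕ (M × Q) → Bool)
    (χ : M → Prop) (Cφ : L ⊕ Q → L ⊕ Q → Bool) (c : Bool) : Prop where
  inj : ∀ m, Function.Injective (δ m)
  lin : Lin δ
  symm : ∀ x y, C x y = C y x
  col : ∀ m, χ m → ∀ s s', C (em δ m s) (em δ m s') = Cφ s s'
  rich : Rich D N t S Cφ c

/-- Row FNB: a point that allows `j + 1` steps has `N` neighbours of colour `c` that allow `j`
steps (use `rich.edge`). -/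
def FnbStatement : Prop :=
  ∀ (k N t : ℕ) (L Q I M : Type) (D : SimpleGraph (Fin k)) (S : SimpleGraph (L ⊕ Q))
    (δ : M → L → I) (C : I ⊕ (M × Q) → I ⊕ (M × Q) → Bool) (χ : M → Prop)
    (Cφ : L ⊕ Q → L ⊕ Q → Bool) (c : Bool), Host D N t S δ C χ Cφ c → ∀ (j : ℕ) (x : I),
    XS δ χ N (j + 1) x → ∃ h : Fin N → I, Function.Injective h ∧
      ∀ i, XS δ χ N j (h i) ∧ (Gl S δ).Adj (Sum.inl x) (Sum.inl (h i)) ∧
        C (Sum.inl x) (Sum.inl (h i)) = c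

/-- Row FRE: among the hyperedges through `x` one avoids a small set `B` of vertices of the host
(except `x` itself). -/
def FreStatement : Prop :=
  ∀ (N : ℕ) (L Q I M : Type) (δ : M → L → I) (χ : M → Prop), (∀ m, Function.Injective (δ m)) →
    Lin δ → ∀ (j : ℕ) (x : I) (l : L) (B : Set (I ⊕ (M × Q))), B.Finite → B.ncard < N →
    XS δ χ N (j + 1) x → ∃ m, χ m ∧ δ m l = x ∧ (∀ l', XS δ χ N j (δ m l')) ∧
      ∀ s : L ⊕ Q, em δ m s ∈ B → s = Sum.inl l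

/-- Row PEN: the pendant step. -/
def PenStatement : Prop :=
  ∀ (k N t : ℕ) (L Q I M : Type) (D : SimpleGraph (Fin k)) (S : SimpleGraph (L ⊕ Q))
    (δ : M → L → I) (C : I ⊕ (M × Q) → I ⊕ (M × Q) → Bool) (χ : M → Prop)
    (Cφ : L ⊕ Q → L ⊕ Q → Bool) (c : Bool), Host D N t S δ C χ Cφ c →
    ∀ (j : ℕ) (T : SimpleGraph ℕ) (A F : Set ℕ) (g : ℕ → I ⊕ (M × Q)), A.Finite →
    A.ncard < N → (∀ u v, T.Adj u v → u ∈ A ∧ v ∈ A) → F ⊆ A →
    St S δ C χ c N (j + 1) T A F g → ∀ y z, y ∈ A → z ∉ A →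
    ∃ g', St S δ C χ c N j (T ⊔ SimpleGraph.edge y z) (insert z A) (insert z F) g'

/-- Row CPY: gluing a copy of `D`. -/
def CpyStatement : Prop :=
  ∀ (k N t : ℕ) (L Q I M : Type) (D : SimpleGraph (Fin k)) (S : SimpleGraph (L ⊕ Q))
    (δ : M → L → I) (C : I ⊕ (M × Q) → I ⊕ (M × Q) → Bool) (χ : M → Prop)
    (Cφ : L ⊕ Q → L ⊕ Q → Bool) (c : Bool), Host D N t S δ C χ Cφ c →
    ∀ (j : ℕ) (T : SimpleGraph ℕ) (A F : Set ℕ) (g : ℕ → I ⊕ (M × Q)), A.Finite →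
    A.ncard < N → (∀ u v, T.Adj u v → u ∈ A ∧ v ∈ A) → F ⊆ A →
    St S δ C χ c N (j + 1) T A F g →
    ∀ (f : Fin k ↪ ℕ) (r a b : Fin k), f r ∈ F → (∀ v, v ≠ r → f v ∉ A) → D.Adj a b →
      r ≠ a → r ≠ b →
      ∃ g', St S δ C χ c N j (T ⊔ D.map f) (A ∪ Set.range f) (F ∪ f '' {v | v ≠ a ∧ v ≠ b}) g'

/-- Row BST: gluing a complete bipartite graph. -/
def BstStatement : Prop :=
  ∀ (k N t : ℕ) (L Q I M : Type) (D : SimpleGraph (Fin k)) (S : SimpleGraph (L ⊕ Q))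
    (δ : M → L → I) (C : I ⊕ (M × Q) → I ⊕ (M × Q) → Bool) (χ : M → Prop)
    (Cφ : L ⊕ Q → L ⊕ Q → Bool) (c : Bool), Host D N t S δ C χ Cφ c → ¬ Bip D →
    ∀ (j : ℕ) (T : SimpleGraph ℕ) (A F : Set ℕ) (g : ℕ → I ⊕ (M × Q)), A.Finite →
    A.ncard < N → (∀ u v, T.Adj u v → u ∈ A ∧ v ∈ A) → F ⊆ A →
    St S δ C χ c N (j + 1) T A F g →
    ∀ (t' : ℕ) (f : Fin t' ⊕ Fin t' ↪ ℕ) (r : Fin t' ⊕ Fin t'), t' ≤ t → f r ∈ F →
      (∀ v, v ≠ r → f v ∉ A) →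
      ∃ g', St S δ C χ c N j (T ⊔ (completeBipartiteGraph (Fin t') (Fin t')).map f)
        (A ∪ Set.range f) (F ∪ Set.range f) g'

/-- Row DTF: simple facts on D-trees. -/
def DtfStatement : Prop :=
  ∀ (k : ℕ) (D : SimpleGraph (Fin k)) (T : SimpleGraph ℕ) (A F : Set ℕ), DTree D T A F →
    A.Finite ∧ (∀ u v, T.Adj u v → u ∈ A ∧ v ∈ A) ∧ F ⊆ A ∧ (Bip D → Bip T)

/-- Row EMB (from MON, FNB, PEN, CPY, BST, DTF): induction on the D-tree. -/
def EmbStatement : Prop :=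
  ∀ (k : ℕ) (D : SimpleGraph (Fin k)) (T : SimpleGraph ℕ) (A F : Set ℕ), DTree D T A F →
    ∃ B : ℕ, ∀ (N t : ℕ), B ≤ N → B ≤ t → ∀ (L Q I M : Type) (S : SimpleGraph (L ⊕ Q))
      (δ : M → L → I) (C : I ⊕ (M × Q) → I ⊕ (M × Q) → Bool) (χ : M → Prop)
      (Cφ : L ⊕ Q → L ⊕ Q → Bool) (c : Bool), Host D N t S δ C χ Cφ c →
      ∀ x j, B ≤ j → XS δ χ N j x → ∃ g : ℕ → I ⊕ (M × Q), Set.InjOn g A ∧
        ∀ u v, T.Adj u v → (Gl S δ).Adj (g u) (g v) ∧ C (g u) (g v) = c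

end MP3240Q
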