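import Mathlib
import Pool.Agent.Lib.MP_3240be_co.Q22.Defs

set_option autoImplicit false

/-!
# Theorem Q2: interface

Second version of Theorem Q: small graphs may be glued at every vertex of a D-tree, also at the
vertices that are not free.
-/

namespace MP3240Q

open Pool.Agent.Lib.MP_3240be_co.H82 (TC Good)
open Pool.Agent.Lib.MP_3240be_co.H36.Chrom (Sparse ArrowsT)

/-! ## D-trees, second version -/

/-- `A` is isomorphic to a subgraph of `B`. -/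
def Sub {U V : Type} (A : SimpleGraph U) (B : SimpleGraph V) : Prop :=
  ∃ f : U → V, Function.Injective f ∧ ∀ x y, A.Adj x y → B.Adj (f x) (f y)

/-- `U` is small relative to `D`: a proper subgraph of `D`, or bipartite with a class that is
smaller than every colour class of `D` (no condition on the class if `D` is not bipartite). -/
def Small {k t : ℕ} (D : SimpleGraph (Fin k)) (U : SimpleGraph (Fin t)) : Prop :=
  (Sub U D ∧ ¬ Sub D U) ∨ ∃ κ : Fin t → Bool, (∀ x y, U.Adj x y → κ x ≠ κ y) ∧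
    ∀ κ' : Fin k → Bool, (∀ x y, D.Adj x y → κ' x ≠ κ' y) →
      Nat.card {v // κ v = true} < Nat.card {v // κ' v = true}

/-- `D`-trees `T` with vertex set `A` and set of free vertices `F`. -/
inductive DTree2 {k : ℕ} (D : SimpleGraph (Fin k)) : SimpleGraph ℕ → Set ℕ → Set ℕ → Prop
  | start (y : ℕ) : DTree2 D ⊥ {y} {y}
  | small (T : SimpleGraph ℕ) (A F : Set ℕ) (t : ℕ) (U : SimpleGraph (Fin t)) (f : Fin t ↪ ℕ)
      (r : Fin t) (h : DTree2 D T A F) (hU : Small D U) (hr : f r ∈ A)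
      (hnew : ∀ v, v ≠ r → f v ∉ A) :
      DTree2 D (T ⊔ U.map f) (A ∪ Set.range f) (F ∪ f '' {v | v ≠ r})
  | copy (T : SimpleGraph ℕ) (A F : Set ℕ) (f : Fin k ↪ ℕ) (r a b : Fin k) (h : DTree2 D T A F)
      (hr : f r ∈ F) (hnew : ∀ v, v ≠ r → f v ∉ A) (hab : D.Adj a b) (hra : r ≠ a)
      (hrb : r ≠ b) :
      DTree2 D (T ⊔ D.map f) (A ∪ Set.range f) (F ∪ f '' {v | v ≠ a ∧ v ≠ b})

/-- The theorem. -/
def Main2Statement : Prop :=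
  ∀ (p : Prop) (k n n' : ℕ) (D : SimpleGraph (Fin k)) (H : SimpleGraph (Fin n))
    (H' : SimpleGraph (Fin n')), TC p D → Sub D H →
    (∃ (T : SimpleGraph ℕ) (A F : Set ℕ), DTree2 D T A F ∧
      ∃ f : Fin n → ℕ, Function.Injective f ∧ (∀ x, f x ∈ A) ∧
        ∀ x y, H.Adj x y → T.Adj (f x) (f y)) →
    H'.Connected → Sub H H' → ¬ Sub H' H →
    ∃ (V : Type) (_ : Finite V) (F : SimpleGraph V), ArrowsT F H ∧ ¬ ArrowsT F H'

/-- Row SMF: facts on small graphs. -/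
def SmfStatement : Prop :=
  ∀ (k t : ℕ) (D : SimpleGraph (Fin k)) (U : SimpleGraph (Fin t)), Small D U →
    ¬ Sub D U ∧ (Bip D → Bip U)

/-! ## Rich colours, second version -/

/-- A finite graph of any size. -/
abbrev SG : Type := Σ t : ℕ, SimpleGraph (Fin t)

/-- `N` copies of `U` in colour `c` at the passenger `q` in the role `w`, disjoint apart from `q`,
with all other vertices in `L`. -/
def Hang {L Q : Type} {t : ℕ} (U : SimpleGraph (Fin t)) (S : SimpleGraph (L ⊕ Q))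
    (C : L ⊕ Q → L ⊕ Q → Bool) (c : Bool) (N : ℕ) (q : Q) (w : Fin t) : Prop :=
  ∃ g : Fin N → Fin t → L ⊕ Q, (∀ ν, Mono S C U c (g ν)) ∧ (∀ ν, g ν w = Sum.inr q) ∧
    (∀ ν v, v ≠ w → ∃ l, g ν v = Sum.inl l) ∧
    ∀ ν ν' v v', v ≠ w → g ν v = g ν' v' → ν = ν'

/-- A copy of `D` in colour `c` in which only the roles `a`, `b` may be passengers, and at these
passengers all graphs of the family hang in every role. -/
def Cop2 {k : ℕ} {L Q : Type} (D : SimpleGraph (Fin k)) (𝓛 : Set SG) (S : SimpleGraph (L ⊕ Q))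
    (C : L ⊕ Q → L ⊕ Q → Bool) (c : Bool) (N : ℕ) (a b : Fin k) : Prop :=
  ∃ f : Fin k → L ⊕ Q, Mono S C D c f ∧ (∀ v, v ≠ a → v ≠ b → ∃ l, f v = Sum.inl l) ∧
    ∀ v q, f v = Sum.inr q → ∀ x ∈ 𝓛, ∀ w : Fin x.1, Hang x.2 S C c N q w

structure Rich2 {k : ℕ} {L Q : Type} (D : SimpleGraph (Fin k)) (𝓛 : Set SG) (N : ℕ)
    (S : SimpleGraph (L ⊕ Q)) (C : L ⊕ Q → L ⊕ Q → Bool) (c : Bool) : Prop where
  edge : ∃ l l' : L, S.Adj (Sum.inl l) (Sum.inl l') ∧ C (Sum.inl l) (Sum.inl l') = c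
  small : ∀ x ∈ 𝓛, ∃ f : Fin x.1 → L, Mono S C x.2 c (fun v => Sum.inl (f v))
  cop : ∀ a b, D.Adj a b → Cop2 D 𝓛 S C c N a b

/-- The gadget, second version. -/
structure Piece2 {k n : ℕ} {L : Type} (D : SimpleGraph (Fin k)) (H : SimpleGraph (Fin n))
    (𝓛 : Set SG) (N : ℕ) (S : SimpleGraph (L ⊕ Fin n))
    (C₀ : L ⊕ Fin n → L ⊕ Fin n → Bool) : Prop where
  pat : ∀ q q', S.Adj (Sum.inr q) (Sum.inr q') ↔ H.Adj q q'
  symm : ∀ x y, C₀ x y = C₀ y x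
  red : ∀ q y, S.Adj (Sum.inr q) y → C₀ (Sum.inr q) y = true → ∃ q', y = Sum.inr q'
  isred : ∀ q q', H.Adj q q' → C₀ (Sum.inr q) (Sum.inr q') = true
  only : ∀ c f, Mono S C₀ D c f → ∀ v, ∃ q, f v = Sum.inr q
  two : ∃ l l' : L, l ≠ l'
  arr : ∀ C : L ⊕ Fin n → L ⊕ Fin n → Bool, (∀ x y, C x y = C y x) →
    (∃ c, ∀ q q', H.Adj q q' → C (Sum.inr q) (Sum.inr q') = c) ∨ ∃ c, Rich2 D 𝓛 N S C c

/-- Row PI2 (from PA3, ATT, GM2). -/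
def Piece2Statement : Prop :=
  ∀ (p : Prop) (k n N : ℕ) (D : SimpleGraph (Fin k)) (H : SimpleGraph (Fin n)) (𝓛 : Set SG),
    TC p D → (p → Bip H) → 𝓛.Finite → (∀ x ∈ 𝓛, Small D x.2) → 1 ≤ N →
    ∃ (L : Type) (_ : Finite L) (S : SimpleGraph (L ⊕ Fin n))
      (C₀ : L ⊕ Fin n → L ⊕ Fin n → Bool), Piece2 D H 𝓛 N S C₀

/-- Row CNV: the second gadget as a first gadget with `N = t = 0` (needed for row NFH of the
first board). -/
def CnvStatement : Prop :=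
  ∀ (k n N : ℕ) (L : Type) (D : SimpleGraph (Fin k)) (H : SimpleGraph (Fin n)) (𝓛 : Set SG)
    (S : SimpleGraph (L ⊕ Fin n)) (C₀ : L ⊕ Fin n → L ⊕ Fin n → Bool),
    Piece2 D H 𝓛 N S C₀ → Piece D H 0 0 S C₀

/-- The pattern with the controlled graph, before the senders are attached. -/
structure Pat3 {k n : ℕ} {Y : Type} (p : Prop) (D : SimpleGraph (Fin k))
    (H : SimpleGraph (Fin n)) (𝓛 : Set SG) (N : ℕ) (P : SimpleGraph (Y ⊕ Fin n))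
    (c₁ : Y ⊕ Fin n → Y ⊕ Fin n → Bool) : Prop where
  pat : ∀ q q', P.Adj (Sum.inr q) (Sum.inr q') ↔ H.Adj q q'
  symm : ∀ x y, c₁ x y = c₁ y x
  red : ∀ q y, P.Adj (Sum.inr q) y → c₁ (Sum.inr q) y = true → ∃ q', y = Sum.inr q'
  isred : ∀ q q', H.Adj q q' → c₁ (Sum.inr q) (Sum.inr q') = true
  only : ∀ c f, Mono P c₁ D c f → ∀ v, ∃ q, f v = Sum.inr q
  bip : p → Bip P
  two : ∃ l l' : Y, l ≠ l'
  arr : ∀ (C : Y ⊕ Fin n → Y ⊕ Fin n → Bool) (β : Bool → Bool), (∀ x y, C x y = C y x) →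
    (∀ d d', P.Adj (Sum.inl d) (Sum.inl d') →
      C (Sum.inl d) (Sum.inl d') = β (c₁ (Sum.inl d) (Sum.inl d'))) →
    (∃ (c : Bool) (f : Fin k → Y), Mono P C D c (fun v => Sum.inl (f v))) ∨
    (∃ c, ∀ q q', H.Adj q q' → C (Sum.inr q) (Sum.inr q') = c) ∨ ∃ c, Rich2 D 𝓛 N P C c

/-- Row PA3 (from PA2): add a disjoint controlled graph: `D` with one red edge (other edges
blue), every graph of the family completely blue and completely red. -/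
def Pa3Statement : Prop :=
  ∀ (p : Prop) (k n N : ℕ) (D : SimpleGraph (Fin k)) (H : SimpleGraph (Fin n)) (𝓛 : Set SG),
    TC p D → (p → Bip H) → 𝓛.Finite → (∀ x ∈ 𝓛, ¬ Sub D x.2 ∧ (Bip D → Bip x.2)) → 1 ≤ N →
    ∃ (Y : Type) (_ : Finite Y) (P : SimpleGraph (Y ⊕ Fin n))
      (c₁ : Y ⊕ Fin n → Y ⊕ Fin n → Bool), Pat3 p D H 𝓛 N P c₁

/-- The pattern. -/
structure Pat2 {k n : ℕ} {Y : Type} (p : Prop) (D : SimpleGraph (Fin k))
    (H : SimpleGraph (Fin n)) (𝓛 : Set SG) (N : ℕ) (P : SimpleGraph (Y ⊕ Fin n))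
    (c₁ : Y ⊕ Fin n → Y ⊕ Fin n → Bool) : Prop where
  pat : ∀ q q', P.Adj (Sum.inr q) (Sum.inr q') ↔ H.Adj q q'
  symm : ∀ x y, c₁ x y = c₁ y x
  red : ∀ q y, P.Adj (Sum.inr q) y → c₁ (Sum.inr q) y = true → ∃ q', y = Sum.inr q'
  isred : ∀ q q', H.Adj q q' → c₁ (Sum.inr q) (Sum.inr q') = true
  only : ∀ c f, Mono P c₁ D c f → ∀ v, ∃ q, f v = Sum.inr q
  bip : p → Bip P
  arr : ∀ (C : Y ⊕ Fin n → Y ⊕ Fin n → Bool) (β : Bool → Bool), (∀ x y, C x y = C y x) →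
    β false ≠ β true →
    (∀ d d', P.Adj (Sum.inl d) (Sum.inl d') →
      C (Sum.inl d) (Sum.inl d') = β (c₁ (Sum.inl d) (Sum.inl d'))) →
    (∃ c, ∀ q q', H.Adj q q' → C (Sum.inr q) (Sum.inr q') = c) ∨
    ∃ c, ∀ a b, D.Adj a b → Cop2 D 𝓛 P C c N a b

/-- Row PA2 (from SY2, NB2, RP2, PB2, AL2, RCL, BCL, BCD, LBS, CST). -/
def Pa2Statement : Prop :=
  ∀ (p : Prop) (k n N : ℕ) (D : SimpleGraph (Fin k)) (H : SimpleGraph (Fin n)) (𝓛 : Set SG),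
    TC p D → (p → Bip H) → 𝓛.Finite → (∀ x ∈ 𝓛, ¬ Sub D x.2 ∧ (Bip D → Bip x.2)) → 1 ≤ N →
    ∃ (Y : Type) (_ : Finite Y) (P : SimpleGraph (Y ⊕ Fin n))
      (c₁ : Y ⊕ Fin n → Y ⊕ Fin n → Bool), Pat2 p D H 𝓛 N P c₁

/-! ## The pattern -/

/-- The vertices of the pattern other than the passengers: `Λ` = labels of blobs, `G` = points,
`P` = kinds of red pieces, `M` = hyperedges. -/
inductive GY (Λ P G M : Type) (K N : ℕ) : Type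
  | l (c : Λ) (i : G) (v : Fin K) : GY Λ P G M K N
  | r (c : Λ) (v : Fin K) (ρ : P) (ν : Fin N) (m : M) (y : Fin K) : GY Λ P G M K N

instance {Λ P G M : Type} {K N : ℕ} [Finite Λ] [Finite P] [Finite G] [Finite M] :
    Finite (GY Λ P G M K N) := by
  refine Finite.of_injective (β := (Λ × G × Fin K) ⊕ (Λ × Fin K × P × Fin N × M × Fin K))
    (fun d => match d with
    | GY.l c i v => Sum.inl (c, i, v)
    | GY.r c v ρ ν m y => Sum.inr (c, v, ρ, ν, m, y)) ?_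
  intro d d' h
  rcases d with ⟨c, i, v⟩ | ⟨c, v, ρ, ν, m, y⟩ <;>
    rcases d' with ⟨c', i', v'⟩ | ⟨c', v', ρ', ν', m', y'⟩ <;> simp_all

section Pattern2

variable {Λ P G M : Type} {n K N : ℕ} (H : SimpleGraph (Fin n)) (Bl : Λ → SimpleGraph (Fin K))
  (pr : Λ → Fin K → Option (Fin n)) (Rd : P → SimpleGraph (Fin K)) (rt : P → Fin K)
  (δ : M → P × Fin N × Fin K → G)

/-- The red copy number `ν` of `Rd ρ - rt ρ` attached to the points `m` at the position `v`. -/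
noncomputable def rho2 (c : Λ) (v : Fin K) (ρ : P) (ν : Fin N) (m : M) (y : Fin K) :
    GY Λ P G M K N := by
  classical
  exact if (Rd ρ).Adj (rt ρ) y then GY.l c (δ m (ρ, ν, y)) v else GY.r c v ρ ν m y

/-- The blob `c` has a free edge from the passenger `q` to the position `v`. -/
def Fr2 (c : Λ) (q : Fin n) (v : Fin K) : Prop :=
  ∃ v₀, (Bl c).Adj v₀ v ∧ pr c v₀ = some q ∧ pr c v = none

/-- The blue edges: blobs (`pr c v = some q`: the vertex `v` of the blob is the passenger `q`). -/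
def EB2 (s t : GY Λ P G M K N ⊕ Fin n) : Prop :=
  (∃ c i v v', (Bl c).Adj v v' ∧ pr c v = none ∧ pr c v' = none ∧
    s = Sum.inl (GY.l c i v) ∧ t = Sum.inl (GY.l c i v')) ∨
  (∃ c i q v, Fr2 Bl pr c q v ∧ s = Sum.inr q ∧ t = Sum.inl (GY.l c i v)) ∨
  (∃ c i q v, Fr2 Bl pr c q v ∧ t = Sum.inr q ∧ s = Sum.inl (GY.l c i v))

/-- The red edges. -/
def ER2 (s t : GY Λ P G M K N ⊕ Fin n) : Prop :=
  (∃ q q', H.Adj q q' ∧ s = Sum.inr q ∧ t = Sum.inr q') ∨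
  (∃ c v ρ ν m y y', pr c v = none ∧ y ≠ rt ρ ∧ y' ≠ rt ρ ∧ (Rd ρ).Adj y y' ∧
    s = Sum.inl (rho2 Rd rt δ c v ρ ν m y) ∧ t = Sum.inl (rho2 Rd rt δ c v ρ ν m y'))

/-- The pattern as a graph. -/
def Pt2 : SimpleGraph (GY Λ P G M K N ⊕ Fin n) :=
  SimpleGraph.fromRel (fun s t => EB2 Bl pr s t ∨ ER2 H pr Rd rt δ s t)

end Pattern2

/-- The conditions on the labels. -/
structure Lbl (p : Prop) {k n K : ℕ} {Λ P : Type} (D : SimpleGraph (Fin k))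
    (H : SimpleGraph (Fin n)) (Bl : Λ → SimpleGraph (Fin K)) (pr : Λ → Fin K → Option (Fin n))
    (Rd : P → SimpleGraph (Fin K)) (rt : P → Fin K) (κH : Fin n → Bool) : Prop where
  two : ∀ c, ∃ x u, H.Adj x u ∧ ∀ v q, pr c v = some q → q = x ∨ q = u
  inj : ∀ c v v' q, pr c v = some q → pr c v' = some q → v = v'
  bfree : ∀ c, ¬ ∃ f : Fin k → Fin K, Function.Injective f ∧ ∀ i j, D.Adj i j →
    (Bl c).Adj (f i) (f j) ∧ (pr c (f i) = none ∨ pr c (f j) = none)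
  rfree : ∀ ρ, ¬ ∃ f : Fin k → Fin K, Function.Injective f ∧ (∀ i, f i ≠ rt ρ) ∧
    ∀ i j, D.Adj i j → (Rd ρ).Adj (f i) (f j)
  bbip : p → ∀ c, ∃ κ : Fin K → Bool, (∀ v v', (Bl c).Adj v v' → κ v ≠ κ v') ∧
    ∀ v q, pr c v = some q → κ v = κH q
  rbip : p → ∀ ρ, ∃ κ : Fin K → Bool, ∀ y y', (Rd ρ).Adj y y' → κ y ≠ κ y'

/-- Row SY2 (compare Q22/Sym.lean). -/
def Sy2Statement : Prop :=
  ∀ (Λ P G M : Type) (n K N : ℕ) (H : SimpleGraph (Fin n)) (Bl : Λ → SimpleGraph (Fin K))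
    (pr : Λ → Fin K → Option (Fin n)) (Rd : P → SimpleGraph (Fin K)) (rt : P → Fin K)
    (δ : M → P × Fin N × Fin K → G), (∀ m, Function.Injective (δ m)) →
    ∀ s t : GY Λ P G M K N ⊕ Fin n,
      (EB2 Bl pr s t → EB2 Bl pr t s) ∧
      (ER2 H pr Rd rt δ s t → ER2 H pr Rd rt δ t s) ∧
      ¬ EB2 Bl pr s s ∧ ¬ ER2 H pr Rd rt δ s s ∧
      (EB2 Bl pr s t → ¬ ER2 H pr Rd rt δ s t)

/-- Row NB2 (compare Q22/Nbl.lean): no blue copy of `D`. -/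
def Nb2Statement : Prop :=
  ∀ (p : Prop) (Λ P G M : Type) (k n K N : ℕ) (D : SimpleGraph (Fin k))
    (H : SimpleGraph (Fin n)) (Bl : Λ → SimpleGraph (Fin K))
    (pr : Λ → Fin K → Option (Fin n)) (Rd : P → SimpleGraph (Fin K)) (rt : P → Fin K)
    (κH : Fin n → Bool), TC p D → Lbl p D H Bl pr Rd rt κH →
    (p → ∃ cl : GY Λ P G M K N ⊕ Fin n → Bool, (∀ s t, EB2 Bl pr s t → cl s ≠ cl t) ∧
      ∀ x u, H.Adj x u → cl (Sum.inr x) ≠ cl (Sum.inr u)) →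
    ∀ f : Fin k → GY Λ P G M K N ⊕ Fin n, Function.Injective f →
      (∀ i j, D.Adj i j → EB2 Bl pr (f i) (f j)) → False

/-- Row RP2 (from ONE; compare Q22/Rpa.lean): red copies of `D` lie on the passengers. -/
def Rp2Statement : Prop :=
  ∀ (p : Prop) (Λ P G M : Type) (k n K N : ℕ) (D : SimpleGraph (Fin k))
    (H : SimpleGraph (Fin n)) (Bl : Λ → SimpleGraph (Fin K))
    (pr : Λ → Fin K → Option (Fin n)) (Rd : P → SimpleGraph (Fin K)) (rt : P → Fin K)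
    (κH : Fin n → Bool) (δ : M → P × Fin N × Fin K → G), TC p D →
    Lbl p D H Bl pr Rd rt κH → (∀ m, Function.Injective (δ m)) → Sparse (k * k) δ →
    ∀ f : Fin k → GY Λ P G M K N ⊕ Fin n, Function.Injective f →
      (∀ i j, D.Adj i j → ER2 H pr Rd rt δ (f i) (f j)) → ∀ i, ∃ q, f i = Sum.inr q

/-- Row PB2 (compare Q22/Pbi.lean): a proper 2-colouring of the pattern. -/
def Pb2Statement : Prop :=
  ∀ (p : Prop) (Λ P G M : Type) (k n K N : ℕ) (D : SimpleGraph (Fin k))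
    (H : SimpleGraph (Fin n)) (Bl : Λ → SimpleGraph (Fin K))
    (pr : Λ → Fin K → Option (Fin n)) (Rd : P → SimpleGraph (Fin K)) (rt : P → Fin K)
    (κH : Fin n → Bool) (δ : M → P × Fin N × Fin K → G), p →
    Lbl p D H Bl pr Rd rt κH → (∀ x y, H.Adj x y → κH x ≠ κH y) →
    ∃ cl : GY Λ P G M K N ⊕ Fin n → Bool, (∀ s t, EB2 Bl pr s t → cl s ≠ cl t) ∧
      (∀ s t, ER2 H pr Rd rt δ s t → cl s ≠ cl t) ∧ ∀ q, cl (Sum.inr q) = κH q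

/-- Row AL2 (from COL; compare Q22/Alt.lean): `N + 1` copies of the blob `c` have all free edges
of colour `β₀`, or some hyperedge `m` has only free edges of colour `β₁` from one passenger to one
position. -/
def Al2Statement : Prop :=
  ∀ (Λ P G M : Type) [Finite G] (n K N : ℕ) (Bl : Λ → SimpleGraph (Fin K))
    (pr : Λ → Fin K → Option (Fin n)) (δ : M → P × Fin N × Fin K → G),
    (∃ τ τ' : P × Fin N × Fin K, τ ≠ τ') → (∀ m, Function.Injective (δ m)) →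
    (∀ col : G → Option (Fin n × Fin K) × Fin (N + 2), ∃ m,
      ∀ τ τ', col (δ m τ) = col (δ m τ')) →
    ∀ (C : GY Λ P G M K N ⊕ Fin n → GY Λ P G M K N ⊕ Fin n → Bool) (β₀ β₁ : Bool), β₀ ≠ β₁ →
    ∀ c, (∃ g : Fin (N + 1) → G, Function.Injective g ∧ ∀ s q v, Fr2 Bl pr c q v →
        C (Sum.inr q) (Sum.inl (GY.l c (g s) v)) = β₀) ∨
      ∃ q v m, Fr2 Bl pr c q v ∧ ∀ τ, C (Sum.inr q) (Sum.inl (GY.l c (δ m τ) v)) = β₁

/-- Row RCL (compare Q22/Mcr.lean): red pieces at the passenger `q`. -/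
def RclStatement : Prop :=
  ∀ (Λ P G M : Type) (n K N : ℕ) (H : SimpleGraph (Fin n)) (Bl : Λ → SimpleGraph (Fin K))
    (pr : Λ → Fin K → Option (Fin n)) (Rd : P → SimpleGraph (Fin K)) (rt : P → Fin K)
    (δ : M → P × Fin N × Fin K → G), (∀ m, Function.Injective (δ m)) →
    ∀ (C : GY Λ P G M K N ⊕ Fin n → GY Λ P G M K N ⊕ Fin n → Bool) (β₁ : Bool),
    (∀ s t, C s t = C t s) →
    (∀ d d', ER2 H pr Rd rt δ (Sum.inl d) (Sum.inl d') → C (Sum.inl d) (Sum.inl d') = β₁) →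
    ∀ c q v m, Fr2 Bl pr c q v → (∀ τ, C (Sum.inr q) (Sum.inl (GY.l c (δ m τ) v)) = β₁) →
    ∀ ρ, Hang (Rd ρ) (Pt2 H Bl pr Rd rt δ) C β₁ N q (rt ρ)

/-- Row BCL: a blob with one passenger. -/
def BclStatement : Prop :=
  ∀ (Λ P G M : Type) (n K N : ℕ) (H : SimpleGraph (Fin n)) (Bl : Λ → SimpleGraph (Fin K))
    (pr : Λ → Fin K → Option (Fin n)) (Rd : P → SimpleGraph (Fin K)) (rt : P → Fin K)
    (δ : M → P × Fin N × Fin K → G)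
    (C : GY Λ P G M K N ⊕ Fin n → GY Λ P G M K N ⊕ Fin n → Bool) (β₀ : Bool),
    (∀ s t, C s t = C t s) →
    (∀ d d', EB2 Bl pr (Sum.inl d : GY Λ P G M K N ⊕ Fin n) (Sum.inl d') →
      C (Sum.inl d) (Sum.inl d') = β₀) →
    ∀ c w q, pr c w = some q → (∀ v, v ≠ w → pr c v = none) →
    (∃ g : Fin (N + 1) → G, Function.Injective g ∧ ∀ s q v, Fr2 Bl pr c q v →
      C (Sum.inr q) (Sum.inl (GY.l c (g s) v)) = β₀) →
    Hang (Bl c) (Pt2 H Bl pr Rd rt δ) C β₀ N q w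

/-- Row BCD (compare Q22/Mcb.lean): a blob with two passengers joined by an edge of colour
`β₀`. -/
def BcdStatement : Prop :=
  ∀ (Λ P G M : Type) (n K N : ℕ) (H : SimpleGraph (Fin n)) (Bl : Λ → SimpleGraph (Fin K))
    (pr : Λ → Fin K → Option (Fin n)) (Rd : P → SimpleGraph (Fin K)) (rt : P → Fin K)
    (δ : M → P × Fin N × Fin K → G)
    (C : GY Λ P G M K N ⊕ Fin n → GY Λ P G M K N ⊕ Fin n → Bool) (β₀ : Bool),
    (∀ s t, C s t = C t s) →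
    (∀ d d', EB2 Bl pr (Sum.inl d : GY Λ P G M K N ⊕ Fin n) (Sum.inl d') →
      C (Sum.inl d) (Sum.inl d') = β₀) →
    ∀ c a b x u, a ≠ b → H.Adj x u → pr c a = some x → pr c b = some u →
    (∀ v, v ≠ a → v ≠ b → pr c v = none) → C (Sum.inr x) (Sum.inr u) = β₀ →
    (∃ g : Fin (N + 1) → G, Function.Injective g ∧ ∀ s q v, Fr2 Bl pr c q v →
      C (Sum.inr q) (Sum.inl (GY.l c (g s) v)) = β₀) →
    ∃ f : Fin K → GY Λ P G M K N ⊕ Fin n, Mono (Pt2 H Bl pr Rd rt δ) C (Bl c) β₀ f ∧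
      f a = Sum.inr x ∧ f b = Sum.inr u ∧ ∀ v, v ≠ a → v ≠ b → ∃ l, f v = Sum.inl l

/-- Row LBS: the concrete labels. -/
def LbsStatement : Prop :=
  ∀ (p : Prop) (k n : ℕ) (D : SimpleGraph (Fin k)) (H : SimpleGraph (Fin n)) (𝓛 : Set SG)
    (κH : Fin n → Bool), TC p D → (p → ∀ x y, H.Adj x y → κH x ≠ κH y) → 𝓛.Finite →
    (∀ x ∈ 𝓛, ¬ Sub D x.2 ∧ (Bip D → Bip x.2)) →
    ∃ (K : ℕ) (hk : k ≤ K) (hs : ∀ x ∈ 𝓛, x.1 ≤ K) (Λ P : Type) (_ : Finite Λ) (_ : Finite P)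
      (Bl : Λ → SimpleGraph (Fin K)) (pr : Λ → Fin K → Option (Fin n))
      (Rd : P → SimpleGraph (Fin K)) (rt : P → Fin K),
      Lbl p D H Bl pr Rd rt κH ∧ 2 ≤ K ∧ Nonempty P ∧
      (∀ x u a b, H.Adj x u → D.Adj a b → ∃ c, Bl c = D.map (Fin.castLEEmb hk) ∧
        ((pr c (Fin.castLE hk a) = some x ∧ pr c (Fin.castLE hk b) = some u) ∨
          (pr c (Fin.castLE hk a) = some u ∧ pr c (Fin.castLE hk b) = some x)) ∧
        ∀ v, v ≠ Fin.castLE hk a → v ≠ Fin.castLE hk b → pr c v = none) ∧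
      (∀ x u, H.Adj x u → ∀ (g : SG) (hg : g ∈ 𝓛) (w : Fin g.1),
        ∃ c, Bl c = g.2.map (Fin.castLEEmb (hs g hg)) ∧
          pr c (Fin.castLE (hs g hg) w) = some x ∧
          ∀ v, v ≠ Fin.castLE (hs g hg) w → pr c v = none) ∧
      (∀ w, ∃ ρ, Rd ρ = D.map (Fin.castLEEmb hk) ∧ rt ρ = Fin.castLE hk w) ∧
      ∀ (g : SG) (hg : g ∈ 𝓛) (w : Fin g.1), ∃ ρ, Rd ρ = g.2.map (Fin.castLEEmb (hs g hg)) ∧
        rt ρ = Fin.castLE (hs g hg) w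

/-- Row CST: restriction to a smaller vertex set. -/
def CstStatement : Prop :=
  ∀ (L Q : Type) (t K N : ℕ) (h : t ≤ K) (A : SimpleGraph (Fin t)) (S : SimpleGraph (L ⊕ Q))
    (C : L ⊕ Q → L ⊕ Q → Bool) (c : Bool),
    (∀ f, Mono S C (A.map (Fin.castLEEmb h)) c f → Mono S C A c (fun v => f (Fin.castLE h v))) ∧
    ∀ q w, Hang (A.map (Fin.castLEEmb h)) S C c N q (Fin.castLE h w) → Hang A S C c N q w

/-! ## The graph `Γ` for the small graphs that are not subgraphs of `D` -/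

/-- The conclusion of rows GMA, GMB, GM2. -/
def Gam2 {k : ℕ} (D : SimpleGraph (Fin k)) (𝓛 : Set SG) {X : Type} (Γ : SimpleGraph X) : Prop :=
  (∃ C : X → X → Bool, (∀ x y, C x y = C y x) ∧ ∀ c f, ¬ Mono Γ C D c f) ∧
  ∀ C : X → X → Bool, (∀ x y, C x y = C y x) →
    (∃ c, (∃ f, Mono Γ C D c f) ∧ ∀ x ∈ 𝓛, Sub x.2 D ∨ ∃ g, Mono Γ C x.2 c g) ∨
    ∀ c, ∀ x ∈ 𝓛, Sub x.2 D ∨ ∃ g, Mono Γ C x.2 c g

/-- Row GMA (from GAM): `D` not bipartite. -/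
def GmaStatement : Prop :=
  ∀ (k : ℕ) (D : SimpleGraph (Fin k)) (𝓛 : Set SG), ¬ Bip D → 𝓛.Finite →
    (∀ x ∈ 𝓛, Small D x.2) → ∃ (X : Type) (_ : Finite X) (Γ : SimpleGraph X), Gam2 D 𝓛 Γ

/-- Row GMB: `D` bipartite, `Γ = K_(2h, m)` with `h + 1` = the size of the smallest colour class
of `D`. -/
def GmbStatement : Prop :=
  ∀ (k : ℕ) (D : SimpleGraph (Fin k)) (𝓛 : Set SG), Bip D → 𝓛.Finite →
    (∀ x ∈ 𝓛, Small D x.2) → (∃ x y, D.Adj x y) →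
    ∃ (X : Type) (_ : Finite X) (Γ : SimpleGraph X), Bip Γ ∧ Gam2 D 𝓛 Γ

/-- Row GM2 (from GMA, GMB). -/
def Gm2Statement : Prop :=
  ∀ (p : Prop) (k : ℕ) (D : SimpleGraph (Fin k)) (𝓛 : Set SG), TC p D → 𝓛.Finite →
    (∀ x ∈ 𝓛, Small D x.2) →
    ∃ (X : Type) (_ : Finite X) (Γ : SimpleGraph X), (p → Bip Γ) ∧ Gam2 D 𝓛 Γ

/-! ## Greedy embedding, second version -/

/-- The data of a colouring of the host. -/
structure Host2 {k : ℕ} {L Q I M : Type} (D : SimpleGraph (Fin k)) (𝓛 : Set SG) (N : ℕ)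
    (S : SimpleGraph (L ⊕ Q)) (δ : M → L → I) (C : I ⊕ (M × Q) → I ⊕ (M × Q) → Bool)
    (χ : M → Prop) (Cφ : L ⊕ Q → L ⊕ Q → Bool) (c : Bool) : Prop where
  inj : ∀ m, Function.Injective (δ m)
  lin : Lin δ
  symm : ∀ x y, C x y = C y x
  col : ∀ m, χ m → ∀ s s', C (em δ m s) (em δ m s') = Cφ s s'
  rich : Rich2 D 𝓛 N S Cφ c

/-- An embedding of `T` in colour `c` of the host. -/
structure St2 {L Q I M : Type} (𝓛 : Set SG) (S : SimpleGraph (L ⊕ Q)) (δ : M → L → I)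
    (C : I ⊕ (M × Q) → I ⊕ (M × Q) → Bool) (χ : M → Prop) (Cφ : L ⊕ Q → L ⊕ Q → Bool)
    (c : Bool) (N j : ℕ) (T : SimpleGraph ℕ) (A F : Set ℕ) (g : ℕ → I ⊕ (M × Q)) : Prop where
  inj : Set.InjOn g A
  adj : ∀ u v, T.Adj u v → (Gl S δ).Adj (g u) (g v) ∧ C (g u) (g v) = c
  free : ∀ u ∈ F, ∃ x, g u = Sum.inl x ∧ XS δ χ N (j + 1) x
  all : ∀ u ∈ A, (∃ x, g u = Sum.inl x ∧ XS δ χ N (j + 1) x) ∨
    ∃ m q, g u = Sum.inr (m, q) ∧ χ m ∧ (∀ l, XS δ χ N (j + 1) (δ m l)) ∧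
      ∀ x ∈ 𝓛, ∀ w : Fin x.1, Hang x.2 S Cφ c N q w

/-- Row SMP (from MON, FRE): a small graph glued at a point. -/
def SmpStatement : Prop :=
  ∀ (k N : ℕ) (L Q I M : Type) (D : SimpleGraph (Fin k)) (𝓛 : Set SG)
    (S : SimpleGraph (L ⊕ Q)) (δ : M → L → I) (C : I ⊕ (M × Q) → I ⊕ (M × Q) → Bool)
    (χ : M → Prop) (Cφ : L ⊕ Q → L ⊕ Q → Bool) (c : Bool), Host2 D 𝓛 N S δ C χ Cφ c →
    ∀ (j : ℕ) (T : SimpleGraph ℕ) (A F : Set ℕ) (g : ℕ → I ⊕ (M × Q)), A.Finite →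
    A.ncard < N → (∀ u v, T.Adj u v → u ∈ A ∧ v ∈ A) → F ⊆ A →
    St2 𝓛 S δ C χ Cφ c N (j + 1) T A F g →
    ∀ (t : ℕ) (U : SimpleGraph (Fin t)), (⟨t, U⟩ : SG) ∈ 𝓛 → ∀ (f : Fin t ↪ ℕ) (r : Fin t),
      f r ∈ A → (∀ v, v ≠ r → f v ∉ A) → (∃ x, g (f r) = Sum.inl x ∧ XS δ χ N (j + 2) x) →
      ∃ g', St2 𝓛 S δ C χ Cφ c N j (T ⊔ U.map f) (A ∪ Set.range f) (F ∪ f '' {v | v ≠ r}) g'

/-- Row SMQ (from MON): a small graph glued at a passenger. -/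
def SmqStatement : Prop :=
  ∀ (k N : ℕ) (L Q I M : Type) (D : SimpleGraph (Fin k)) (𝓛 : Set SG)
    (S : SimpleGraph (L ⊕ Q)) (δ : M → L → I) (C : I ⊕ (M × Q) → I ⊕ (M × Q) → Bool)
    (χ : M → Prop) (Cφ : L ⊕ Q → L ⊕ Q → Bool) (c : Bool), Host2 D 𝓛 N S δ C χ Cφ c →
    ∀ (j : ℕ) (T : SimpleGraph ℕ) (A F : Set ℕ) (g : ℕ → I ⊕ (M × Q)), A.Finite →
    A.ncard < N → (∀ u v, T.Adj u v → u ∈ A ∧ v ∈ A) → F ⊆ A →
    St2 𝓛 S δ C χ Cφ c N (j + 1) T A F g →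
    ∀ (t : ℕ) (U : SimpleGraph (Fin t)), (⟨t, U⟩ : SG) ∈ 𝓛 → ∀ (f : Fin t ↪ ℕ) (r : Fin t),
      f r ∈ A → (∀ v, v ≠ r → f v ∉ A) →
      (∃ m q, g (f r) = Sum.inr (m, q) ∧ χ m ∧ (∀ l, XS δ χ N (j + 2) (δ m l)) ∧
        ∀ x ∈ 𝓛, ∀ w : Fin x.1, Hang x.2 S Cφ c N q w) →
      ∃ g', St2 𝓛 S δ C χ Cφ c N j (T ⊔ U.map f) (A ∪ Set.range f) (F ∪ f '' {v | v ≠ r}) g'

/-- Row CP2 (from MON, FRE; compare Q22/Cpy.lean): gluing a copy of `D`. -/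
def Cp2Statement : Prop :=
  ∀ (k N : ℕ) (L Q I M : Type) (D : SimpleGraph (Fin k)) (𝓛 : Set SG)
    (S : SimpleGraph (L ⊕ Q)) (δ : M → L → I) (C : I ⊕ (M × Q) → I ⊕ (M × Q) → Bool)
    (χ : M → Prop) (Cφ : L ⊕ Q → L ⊕ Q → Bool) (c : Bool), Host2 D 𝓛 N S δ C χ Cφ c →
    ∀ (j : ℕ) (T : SimpleGraph ℕ) (A F : Set ℕ) (g : ℕ → I ⊕ (M × Q)), A.Finite →
    A.ncard < N → (∀ u v, T.Adj u v → u ∈ A ∧ v ∈ A) → F ⊆ A →
    St2 𝓛 S δ C χ Cφ c N (j + 1) T A F g →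
    ∀ (f : Fin k ↪ ℕ) (r a b : Fin k), f r ∈ F → (∀ v, v ≠ r → f v ∉ A) → D.Adj a b →
      r ≠ a → r ≠ b →
      ∃ g', St2 𝓛 S δ C χ Cφ c N j (T ⊔ D.map f) (A ∪ Set.range f)
        (F ∪ f '' {v | v ≠ a ∧ v ≠ b}) g'

/-- Row DT2 (from SMF; compare Q22/Dtf.lean): simple facts on D-trees. -/
def Dt2Statement : Prop :=
  ∀ (k : ℕ) (D : SimpleGraph (Fin k)) (T : SimpleGraph ℕ) (A F : Set ℕ), DTree2 D T A F →
    A.Finite ∧ (∀ u v, T.Adj u v → u ∈ A ∧ v ∈ A) ∧ F ⊆ A ∧ (Bip D → Bip T)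

/-- Row EM2 (from MON, SMP, SMQ, CP2, DT2; compare Q22/Emb.lean): induction on the D-tree; `𝓛`
= the small graphs that are used. -/
def Em2Statement : Prop :=
  ∀ (k : ℕ) (D : SimpleGraph (Fin k)) (T : SimpleGraph ℕ) (A F : Set ℕ), DTree2 D T A F →
    ∃ (𝓛 : Set SG) (B : ℕ), 𝓛.Finite ∧ (∀ x ∈ 𝓛, Small D x.2) ∧
      ∀ (𝓛' : Set SG) (N : ℕ), 𝓛 ⊆ 𝓛' → B ≤ N → ∀ (L Q I M : Type)
      (S : SimpleGraph (L ⊕ Q)) (δ : M → L → I) (C : I ⊕ (M × Q) → I ⊕ (M × Q) → Bool)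
      (χ : M → Prop) (Cφ : L ⊕ Q → L ⊕ Q → Bool) (c : Bool), Host2 D 𝓛' N S δ C χ Cφ c →
      ∀ x j, XS δ χ N (j + B) x → ∃ g, St2 𝓛' S δ C χ Cφ c N j T A F g

end MP3240Q
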