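import Mathlib
import Pool.Agent.Lib.MP_3240be_co.Q22.Defs2

set_option autoImplicit false

/-!
# Row PA3: the pattern with the controlled graph
-/

namespace MP3240Q

open Pool.Agent.Lib.MP_3240be_co.H82 (TC Good)
open Pool.Agent.Lib.MP_3240be_co.H36.Chrom (Sparse ArrowsT)

namespace Pa3

/-- The vertices of the controlled graph. -/
abbrev XX (k : ℕ) (𝓛 : Set SG) : Type := Fin k ⊕ (Σ x : 𝓛, Fin x.1.1 × Bool)

/-- The controlled graph. -/
def GX3 {k : ℕ} (D : SimpleGraph (Fin k)) (𝓛 : Set SG) : SimpleGraph (XX k 𝓛) where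
  Adj s t := (∃ v v', D.Adj v v' ∧ s = Sum.inl v ∧ t = Sum.inl v') ∨
    ∃ (x : 𝓛) (i j : Fin x.1.1) (b : Bool), x.1.2.Adj i j ∧ s = Sum.inr ⟨x, i, b⟩ ∧
      t = Sum.inr ⟨x, j, b⟩
  symm := ⟨fun s t h => by
    rcases h with ⟨v, v', h, h1, h2⟩ | ⟨x, i, j, b, h, h1, h2⟩
    · exact Or.inl ⟨v', v, h.symm, h2, h1⟩
    · exact Or.inr ⟨x, j, i, b, h.symm, h2, h1⟩⟩
  loopless := ⟨fun s h => by
    rcases h with ⟨v, v', h, h1, h2⟩ | ⟨x, i, j, b, h, h1, h2⟩
    · exact h.ne (Sum.inl_injective (h1.symm.trans h2))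
    · have h3 := Sum.inr_injective (h1.symm.trans h2)
      have h4 := eq_of_heq (Sigma.mk.inj h3).2
      exact h.ne (Prod.mk.inj h4).1⟩

/-- The colours of the controlled graph. -/
noncomputable def cX {k : ℕ} (𝓛 : Set SG) (a₀ b₀ : Fin k) : XX k 𝓛 → XX k 𝓛 → Bool := by
  classical
  exact fun s t => match s, t with
  | Sum.inl v, Sum.inl v' => decide ((v = a₀ ∧ v' = b₀) ∨ (v = b₀ ∧ v' = a₀))
  | Sum.inr s, Sum.inr t => s.2.2 && t.2.2
  | _, _ => false

/-- The vertices of the new pattern, sorted. -/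
def psi {Y X Q : Type} : (Y ⊕ X) ⊕ Q → (Y ⊕ Q) ⊕ X
  | Sum.inl (Sum.inl y) => Sum.inl (Sum.inl y)
  | Sum.inl (Sum.inr x) => Sum.inr x
  | Sum.inr q => Sum.inl (Sum.inr q)

theorem psi_inj {Y X Q : Type} : Function.Injective (psi : (Y ⊕ X) ⊕ Q → (Y ⊕ Q) ⊕ X) := by
  rintro ((y | x) | q) ((y' | x') | q') h <;> simp_all [psi]

/-- The new pattern. -/
def NP {Y X Q : Type} (P : SimpleGraph (Y ⊕ Q)) (G : SimpleGraph X) :
    SimpleGraph ((Y ⊕ X) ⊕ Q) := (P ⊕g G).comap psi

/-- The colours of a disjoint union. -/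
def cS {A B : Type} (c₁ : A → A → Bool) (c₂ : B → B → Bool) : A ⊕ B → A ⊕ B → Bool
  | Sum.inl a, Sum.inl a' => c₁ a a'
  | Sum.inr b, Sum.inr b' => c₂ b b'
  | _, _ => false

theorem cS_symm {A B : Type} (c₁ : A → A → Bool) (c₂ : B → B → Bool)
    (h1 : ∀ x y, c₁ x y = c₁ y x) (h2 : ∀ x y, c₂ x y = c₂ y x) :
    ∀ x y, cS c₁ c₂ x y = cS c₁ c₂ y x := by
  rintro (a | b) (a' | b')
  · exact h1 a a'
  · rfl
  · rfl
  · exact h2 b b'

theorem cX_symm {k : ℕ} (𝓛 : Set SG) (a₀ b₀ : Fin k) :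
    ∀ x y, cX 𝓛 a₀ b₀ x y = cX 𝓛 a₀ b₀ y x := by
  rintro (v | s) (v' | t)
  · refine decide_eq_decide.2 ⟨?_, ?_⟩
    · rintro (⟨h1, h2⟩ | ⟨h1, h2⟩)
      · exact Or.inr ⟨h2, h1⟩
      · exact Or.inl ⟨h2, h1⟩
    · rintro (⟨h1, h2⟩ | ⟨h1, h2⟩)
      · exact Or.inr ⟨h2, h1⟩
      · exact Or.inl ⟨h2, h1⟩
  · rfl
  · rfl
  · show (s.2.2 && t.2.2) = (t.2.2 && s.2.2)
    exact Bool.and_comm _ _

/-- A connected graph lies on one side. -/
theorem side {p : Prop} {U A B : Type} {D : SimpleGraph U} (hD : TC p D) (P : SimpleGraph A)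
    (G : SimpleGraph B) (f : U → A ⊕ B) (hf : ∀ i j, D.Adj i j → (P ⊕g G).Adj (f i) (f j)) :
    (∀ i, ∃ a, f i = Sum.inl a) ∨ ∀ i, ∃ b, f i = Sum.inr b := by
  obtain ⟨i₀⟩ := hD.ne
  rcases h0 : f i₀ with a | b
  · refine Or.inl (hD.conn (fun i => ∃ a, f i = Sum.inl a) ⟨i₀, a, h0⟩ ?_)
    rintro x y hxy ⟨a, ha⟩
    have h1 := hf x y hxy
    rw [ha] at h1
    rcases hy : f y with a' | b'
    · exact ⟨a', rfl⟩
    · rw [hy] at h1
      simp at h1
  · refine Or.inr (hD.conn (fun i => ∃ a, f i = Sum.inr a) ⟨i₀, b, h0⟩ ?_)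
    rintro x y hxy ⟨a, ha⟩
    have h1 := hf x y hxy
    rw [ha] at h1
    rcases hy : f y with a' | b'
    · rw [hy] at h1
      simp at h1
    · exact ⟨b', rfl⟩

/-- There is no monochromatic copy of `D` in the controlled graph. -/
theorem no_copy {p : Prop} {k : ℕ} {D : SimpleGraph (Fin k)} (hD : TC p D) (𝓛 : Set SG)
    (h𝓛 : ∀ x ∈ 𝓛, ¬ Sub D x.2) (a₀ b₀ : Fin k) (hab : D.Adj a₀ b₀) (c : Bool)
    (f : Fin k → XX k 𝓛) (hf : Mono (GX3 D 𝓛) (cX 𝓛 a₀ b₀) D c f) : False := by
  classical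
  obtain ⟨hinj, hE⟩ := hf
  obtain ⟨i₀⟩ := hD.ne
  rcases h0 : f i₀ with v₀ | ⟨x, i, b⟩
  · -- the copy of `D`
    have hall : ∀ i, ∃ v, f i = Sum.inl v := by
      refine hD.conn (fun i => ∃ v, f i = Sum.inl v) ⟨i₀, v₀, h0⟩ ?_
      rintro y z hyz ⟨v, hv⟩
      rcases (hE y z hyz).1 with ⟨_, v', _, _, h2⟩ | ⟨_, _, _, _, _, h1, _⟩
      · exact ⟨v', h2⟩
      · rw [hv] at h1
        simp at h1
    choose g hg using hall
    have hginj : Function.Injective g := fun i j hij => hinj (by rw [hg, hg, hij])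
    have hgE : ∀ i j, D.Adj i j → D.Adj (g i) (g j) := by
      intro i j hij
      rcases (hE i j hij).1 with ⟨v, v', h, h1, h2⟩ | ⟨_, _, _, _, _, h1, _⟩
      · rw [hg] at h1 h2
        rw [Sum.inl_injective h1, Sum.inl_injective h2]
        exact h
      · rw [hg] at h1
        simp at h1
    have hgc : ∀ i j, D.Adj i j →
        (decide ((g i = a₀ ∧ g j = b₀) ∨ (g i = b₀ ∧ g j = a₀))) = c := by
      intro i j hij
      have h := (hE i j hij).2
      rw [hg, hg] at h
      exact h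
    -- `g` is an automorphism
    have hsurj : Function.Surjective g := Finite.injective_iff_surjective.1 hginj
    let F : D.edgeSet → D.edgeSet := fun e =>
      ⟨e.1.map g, by
        obtain ⟨e, he⟩ := e
        induction e using Sym2.ind with
        | _ u v => exact hgE u v he⟩
    have hFinj : Function.Injective F := by
      intro e e' h
      have h1 : e.1.map g = e'.1.map g := congrArg Subtype.val h
      exact Subtype.ext (Sym2.map.injective hginj h1)
    have hFs : Function.Surjective F := Finite.injective_iff_surjective.1 hFinj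
    have hback : ∀ u v, D.Adj u v → ∃ i j, D.Adj i j ∧ g i = u ∧ g j = v := by
      intro u v huv
      obtain ⟨⟨e, he⟩, h1⟩ := hFs ⟨s(u, v), huv⟩
      have h2 : e.map g = s(u, v) := congrArg Subtype.val h1
      induction e using Sym2.ind with
      | _ i j =>
        have h3 : s(g i, g j) = s(u, v) := h2
        rcases Sym2.eq_iff.1 h3 with ⟨h4, h5⟩ | ⟨h4, h5⟩
        · exact ⟨i, j, he, h4, h5⟩
        · exact ⟨j, i, SimpleGraph.Adj.symm he, h5, h4⟩
    obtain ⟨i, j, hij, hi, hj⟩ := hback a₀ b₀ hab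
    have hc1 : c = true := by
      rw [← hgc i j hij]
      exact decide_eq_true (Or.inl ⟨hi, hj⟩)
    obtain ⟨w, hw, hwa⟩ := hD.nbr2 b₀ a₀
    obtain ⟨i', j', hij', hi', hj'⟩ := hback b₀ w hw
    have h5 := hgc i' j' hij'
    rw [hc1] at h5
    rcases of_decide_eq_true h5 with ⟨h6, _⟩ | ⟨_, h6⟩
    · rw [hi'] at h6
      exact hab.ne h6.symm
    · rw [hj'] at h6
      exact hwa h6
  · -- a small graph
    have hall : ∀ u, ∃ v : Fin x.1.1, f u = Sum.inr ⟨x, v, b⟩ := by
      refine hD.conn (fun u => ∃ v : Fin x.1.1, f u = Sum.inr ⟨x, v, b⟩) ⟨i₀, i, h0⟩ ?_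
      rintro y z hyz ⟨v, hv⟩
      rcases (hE y z hyz).1 with ⟨_, v', _, h1, _⟩ | ⟨x', i', j', b', _, h1, h2⟩
      · rw [hv] at h1
        simp at h1
      · rw [hv] at h1
        have h3 := Sigma.mk.inj (Sum.inr_injective h1)
        obtain ⟨h4, h5⟩ := h3
        subst h4
        have h6 := Prod.mk.inj (eq_of_heq h5)
        rw [← h6.2] at h2
        exact ⟨j', h2⟩
    choose g hg using hall
    refine h𝓛 x.1 x.2 ⟨g, fun u v huv => hinj (by rw [hg, hg, huv]), ?_⟩
    intro u v huv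
    rcases (hE u v huv).1 with ⟨_, _, _, h1, _⟩ | ⟨x', i', j', b', h, h1, h2⟩
    · rw [hg] at h1
      simp at h1
    · rw [hg] at h1 h2
      have h3 := Sigma.mk.inj (Sum.inr_injective h1)
      have h4 := Sigma.mk.inj (Sum.inr_injective h2)
      obtain ⟨h5, h6⟩ := h3
      subst h5
      have h7 := (Prod.mk.inj (eq_of_heq h6)).1
      have h8 := (Prod.mk.inj (eq_of_heq h4.2)).1
      rw [h7, h8]
      exact h

end Pa3

open Pa3 in
theorem pa3_proof (hPa : Pa2Statement) : Pa3Statement := by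
  classical
  intro p k n N D H 𝓛 hD hbip hfin h𝓛 hN1
  obtain ⟨Y, hY, P, c₁, hP⟩ := hPa p k n N D H 𝓛 hD hbip hfin h𝓛 hN1
  obtain ⟨a₀⟩ := hD.ne
  obtain ⟨b₀, hab⟩ := hD.nbr a₀
  obtain ⟨w₀, hw, hwa⟩ := hD.nbr2 b₀ a₀
  have hfin' : Finite 𝓛 := hfin
  let G := GX3 D 𝓛
  let e : Y ⊕ Fin n → (Y ⊕ XX k 𝓛) ⊕ Fin n := fun s => match s with
    | Sum.inl y => Sum.inl (Sum.inl y)
    | Sum.inr q => Sum.inr q
  have he : ∀ s, psi (e s) = (Sum.inl s : (Y ⊕ Fin n) ⊕ XX k 𝓛) := by
    rintro (y | q) <;> rfl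
  have heinj : Function.Injective e := by
    intro s t h
    have h1 := congrArg psi h
    rw [he, he] at h1
    exact Sum.inl_injective h1
  have hadj : ∀ s t, (NP P G).Adj s t ↔ (P ⊕g G).Adj (psi s) (psi t) := fun s t => Iff.rfl
  have headj : ∀ s t, P.Adj s t → (NP P G).Adj (e s) (e t) := by
    intro s t h
    rw [hadj, he, he]
    simpa using h
  refine ⟨Y ⊕ XX k 𝓛, inferInstance, NP P G,
    fun s t => cS c₁ (cX 𝓛 a₀ b₀) (psi s) (psi t), ?_⟩
  refine ⟨?_, ?_, ?_, ?_, ?_, ?_, ?_, ?_⟩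
  · -- pat
    intro q q'
    rw [← hP.pat q q', hadj]
    simp [psi]
  · -- symm
    intro x y
    exact cS_symm _ _ hP.symm (cX_symm 𝓛 a₀ b₀) _ _
  · -- red
    intro q y hy hc
    rw [hadj] at hy
    rcases y with (y | x) | q'
    · have h1 : P.Adj (Sum.inr q) (Sum.inl y) := by simpa [psi] using hy
      obtain ⟨q', h2⟩ := hP.red q (Sum.inl y) h1 hc
      simp at h2
    · simp [psi] at hy
    · exact ⟨q', rfl⟩
  · -- isred
    intro q q' h
    exact hP.isred q q' h
  · -- only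
    rintro c f ⟨hf, hfE⟩ v
    have hside := side hD P G (fun i => psi (f i)) (fun i j hij => (hfE i j hij).1)
    rcases hside with h | h
    · choose g hg using h
      have hginj : Function.Injective g := by
        intro i j hij
        refine hf (psi_inj ?_)
        show psi (f i) = psi (f j)
        rw [hg, hg, hij]
      have hmono : Mono P c₁ D c g := by
        refine ⟨hginj, fun i j hij => ?_⟩
        obtain ⟨h1, h2⟩ := hfE i j hij
        rw [hadj] at h1
        have hi : psi (f i) = Sum.inl (g i) := hg i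
        have hj : psi (f j) = Sum.inl (g j) := hg j
        rw [hi, hj] at h1
        have h2' : cS c₁ (cX 𝓛 a₀ b₀) (psi (f i)) (psi (f j)) = c := h2
        rw [hi, hj] at h2'
        exact ⟨by simpa using h1, h2'⟩
      obtain ⟨q, hq⟩ := hP.only c g hmono v
      have hv : psi (f v) = Sum.inl (g v) := hg v
      rw [hq] at hv
      refine ⟨q, psi_inj ?_⟩
      rw [hv]
      rfl
    · exfalso
      choose g hg using h
      have hginj : Function.Injective g := by
        intro i j hij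
        refine hf (psi_inj ?_)
        show psi (f i) = psi (f j)
        rw [hg, hg, hij]
      refine no_copy hD 𝓛 (fun x hx => (h𝓛 x hx).1) a₀ b₀ hab c g ⟨hginj, fun i j hij => ?_⟩
      obtain ⟨h1, h2⟩ := hfE i j hij
      rw [hadj] at h1
      have hi : psi (f i) = Sum.inr (g i) := hg i
      have hj : psi (f j) = Sum.inr (g j) := hg j
      rw [hi, hj] at h1
      have h2' : cS c₁ (cX 𝓛 a₀ b₀) (psi (f i)) (psi (f j)) = c := h2
      rw [hi, hj] at h2'
      exact ⟨by simpa using h1, h2'⟩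
  · -- bip
    intro hp
    obtain ⟨κ, hκ⟩ := hP.bip hp
    have hDb : Bip D := hD.bip hp
    have hxb : ∀ x : 𝓛, ∃ κ : Fin x.1.1 → Bool, ∀ i j, x.1.2.Adj i j → κ i ≠ κ j :=
      fun x => (h𝓛 x.1 x.2).2 hDb
    choose κx hκx using hxb
    obtain ⟨κD, hκD⟩ := hDb
    let cl : (Y ⊕ Fin n) ⊕ XX k 𝓛 → Bool := fun s => match s with
      | Sum.inl s => κ s
      | Sum.inr (Sum.inl v) => κD v
      | Sum.inr (Sum.inr t) => κx t.1 t.2.1
    refine ⟨fun s => cl (psi s), fun x y hxy => ?_⟩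
    rw [hadj] at hxy
    show cl (psi x) ≠ cl (psi y)
    generalize psi x = s at *
    generalize psi y = t at *
    rcases s with s | s <;> rcases t with t | t
    · exact hκ s t (by simpa using hxy)
    · simp at hxy
    · simp at hxy
    · have h1 : G.Adj s t := by simpa using hxy
      rcases h1 with ⟨v, v', h, h1, h2⟩ | ⟨x, i, j, b, h, h1, h2⟩
      · rw [h1, h2]
        exact hκD v v' h
      · rw [h1, h2]
        exact hκx x i j h
  · -- two
    refine ⟨Sum.inr (Sum.inl a₀), Sum.inr (Sum.inl b₀), fun h => ?_⟩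
    exact hab.ne (Sum.inl_injective (Sum.inr_injective h))
  · -- arr
    intro C β hC hβ
    have hctl : ∀ s t : XX k 𝓛, G.Adj s t →
        C (Sum.inl (Sum.inr s)) (Sum.inl (Sum.inr t)) = β (cX 𝓛 a₀ b₀ s t) := by
      intro s t h
      exact hβ (Sum.inr s) (Sum.inr t) (by rw [hadj]; simpa [psi] using h)
    have hctlN : ∀ s t : XX k 𝓛, G.Adj s t →
        (NP P G).Adj (Sum.inl (Sum.inr s)) (Sum.inl (Sum.inr t)) := by
      intro s t h
      rw [hadj]
      simpa [psi] using h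
    have hDG : ∀ i j, D.Adj i j → G.Adj (Sum.inl i) (Sum.inl j) :=
      fun i j h => Or.inl ⟨i, j, h, rfl, rfl⟩
    by_cases hβe : β false = β true
    · -- `D` in one colour
      have hββ : ∀ b, β b = β true := by
        intro b
        cases b
        · exact hβe
        · rfl
      refine Or.inl ⟨β true, fun v => Sum.inr (Sum.inl v), ?_, ?_⟩
      · intro v v' h
        exact Sum.inl_injective (Sum.inr_injective (Sum.inl_injective h))
      · intro i j hij
        exact ⟨hctlN _ _ (hDG i j hij), by rw [hctl _ _ (hDG i j hij), hββ]⟩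
    · have hsurjβ : ∀ c, ∃ b, β b = c := by
        intro c
        by_contra hcon
        push Not at hcon
        have h1 := hcon true
        have h2 := hcon false
        revert hβe h1 h2
        cases β false <;> cases β true <;> cases c <;> decide
      rcases hP.arr (fun s t => C (e s) (e t)) β (fun x y => hC _ _) hβe (by
        intro d d' h
        have h1 := hβ (Sum.inl d) (Sum.inl d') (headj _ _ h)
        exact h1) with h | ⟨c, h⟩
      · exact Or.inr (Or.inl h)
      · refine Or.inr (Or.inr ⟨c, ?_, ?_, ?_⟩)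
        · -- an edge
          obtain ⟨b, hb⟩ := hsurjβ c
          cases b
          · refine ⟨Sum.inr (Sum.inl b₀), Sum.inr (Sum.inl w₀), hctlN _ _ (hDG _ _ hw), ?_⟩
            rw [hctl _ _ (hDG _ _ hw), ← hb]
            refine congrArg β (decide_eq_false ?_)
            rintro (⟨h1, _⟩ | ⟨_, h1⟩)
            · exact hab.ne h1.symm
            · exact hwa h1
          · refine ⟨Sum.inr (Sum.inl a₀), Sum.inr (Sum.inl b₀), hctlN _ _ (hDG _ _ hab), ?_⟩
            rw [hctl _ _ (hDG _ _ hab), ← hb]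
            exact congrArg β (decide_eq_true (Or.inl ⟨rfl, rfl⟩))
        · -- the small graphs
          intro x hx
          obtain ⟨b, hb⟩ := hsurjβ c
          have hG : ∀ i j, x.2.Adj i j → G.Adj (Sum.inr ⟨⟨x, hx⟩, i, b⟩)
              (Sum.inr ⟨⟨x, hx⟩, j, b⟩) :=
            fun i j h => Or.inr ⟨⟨x, hx⟩, i, j, b, h, rfl, rfl⟩
          refine ⟨fun v => Sum.inr (Sum.inr ⟨⟨x, hx⟩, v, b⟩), ?_, ?_⟩
          · intro v v' h
            have h1 := Sum.inr_injective (Sum.inr_injective (Sum.inl_injective h))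
            exact (Prod.mk.inj (eq_of_heq (Sigma.mk.inj h1).2)).1
          · intro i j hij
            refine ⟨hctlN _ _ (hG i j hij), ?_⟩
            rw [hctl _ _ (hG i j hij), ← hb]
            refine congrArg β ?_
            show (b && b) = b
            exact Bool.and_self b
        · -- the copies of `D`
          intro a b hab'
          obtain ⟨f, hf1, hf2, hf3⟩ := h a b hab'
          have hinl : ∀ s, (∃ l, s = Sum.inl l) → ∃ l, e s = Sum.inl l := by
            rintro s ⟨l, rfl⟩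
            exact ⟨Sum.inl l, rfl⟩
          have hinr : ∀ s q, e s = Sum.inr q → s = Sum.inr q := by
            rintro (y | q') q h
            · have h' : (Sum.inl (Sum.inl y) : (Y ⊕ XX k 𝓛) ⊕ Fin n) = Sum.inr q := h
              simp at h'
            · have h' : (Sum.inr q' : (Y ⊕ XX k 𝓛) ⊕ Fin n) = Sum.inr q := h
              rw [Sum.inr_injective h']
          have hM : ∀ {U : Type} (A : SimpleGraph U) (g : U → Y ⊕ Fin n),
              Mono P (fun s t => C (e s) (e t)) A c g → Mono (NP P G) C A c (fun i => e (g i)) := by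
            intro U A g hg
            refine ⟨heinj.comp hg.1, fun i j hij => ⟨headj _ _ (hg.2 i j hij).1, ?_⟩⟩
            exact (hg.2 i j hij).2
          refine ⟨fun i => e (f i), hM D f hf1, fun v h1 h2 => hinl _ (hf2 v h1 h2), ?_⟩
          intro v q hq x hx w
          obtain ⟨g, hg1, hg2, hg3, hg4⟩ := hf3 v q (hinr _ _ hq) x hx w
          refine ⟨fun ν u => e (g ν u), fun ν => hM _ _ (hg1 ν), ?_, ?_, ?_⟩
          · intro ν
            show e (g ν w) = Sum.inr q
            rw [hg2]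
          · intro ν u hu
            exact hinl _ (hg3 ν u hu)
          · intro ν ν' u u' hu hh
            exact hg4 ν ν' u u' hu (heinj hh)

end MP3240Q
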