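import Mathlib
import Pool.Agent.Lib.MP_3240be_co.Q22.Defs

set_option autoImplicit false

/-!
# Theorem Q, row PIE: the gadget
-/

namespace MP3240Q

open Pool.Agent.Lib.MP_3240be_co.H82 (TC Good)
open Pool.Agent.Lib.MP_3240be_co.H36.Chrom (Sparse ArrowsT)

/-- The pattern, two reference edges and the extra graph. -/
def Bs {A X : Type} (P : SimpleGraph A) (Γ : SimpleGraph X) :
    SimpleGraph ((A ⊕ (Bool × Bool)) ⊕ X) where
  Adj x y := (∃ s t, P.Adj s t ∧ x = Sum.inl (Sum.inl s) ∧ y = Sum.inl (Sum.inl t)) ∨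
    (∃ c u v, u ≠ v ∧ x = Sum.inl (Sum.inr (c, u)) ∧ y = Sum.inl (Sum.inr (c, v))) ∨
    (∃ s t, Γ.Adj s t ∧ x = Sum.inr s ∧ y = Sum.inr t)
  symm := ⟨by
    rintro _ _ (⟨s, t, h, rfl, rfl⟩ | ⟨c, u, v, h, rfl, rfl⟩ | ⟨s, t, h, rfl, rfl⟩)
    · exact Or.inl ⟨t, s, h.symm, rfl, rfl⟩
    · exact Or.inr (Or.inl ⟨c, v, u, h.symm, rfl, rfl⟩)
    · exact Or.inr (Or.inr ⟨t, s, h.symm, rfl, rfl⟩)⟩
  loopless := ⟨by
    rintro x (⟨s, t, h, h1, h2⟩ | ⟨c, u, v, h, h1, h2⟩ | ⟨s, t, h, h1, h2⟩)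
    · exact h.ne (Sum.inl_injective (Sum.inl_injective (h1.symm.trans h2)))
    · exact h (Prod.ext_iff.1 (Sum.inr_injective (Sum.inl_injective (h1.symm.trans h2)))).2
    · exact h.ne (Sum.inr_injective (h1.symm.trans h2))⟩

section Facts

variable {A X : Type} {P : SimpleGraph A} {Γ : SimpleGraph X}

theorem Bs_pat {s t : A} : (Bs P Γ).Adj (Sum.inl (Sum.inl s)) (Sum.inl (Sum.inl t)) ↔
    P.Adj s t := by
  constructor
  · rintro (⟨s', t', h, h1, h2⟩ | ⟨c, u, v, h, h1, h2⟩ | ⟨s', t', h, h1, h2⟩)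
    · rw [Sum.inl_injective (Sum.inl_injective h1), Sum.inl_injective (Sum.inl_injective h2)]
      exact h
    · simp at h1
    · simp at h1
  · intro h
    exact Or.inl ⟨s, t, h, rfl, rfl⟩

theorem Bs_gam {s t : X} : (Bs P Γ).Adj (Sum.inr s) (Sum.inr t) ↔ Γ.Adj s t := by
  constructor
  · rintro (⟨s', t', h, h1, h2⟩ | ⟨c, u, v, h, h1, h2⟩ | ⟨s', t', h, h1, h2⟩)
    · simp at h1
    · simp at h1
    · rw [Sum.inr_injective h1, Sum.inr_injective h2]
      exact h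
  · intro h
    exact Or.inr (Or.inr ⟨s, t, h, rfl, rfl⟩)

theorem Bs_pat' {s : A} {y : (A ⊕ (Bool × Bool)) ⊕ X}
    (h : (Bs P Γ).Adj (Sum.inl (Sum.inl s)) y) : ∃ t, y = Sum.inl (Sum.inl t) := by
  rcases h with ⟨s', t', h, h1, h2⟩ | ⟨c, u, v, h, h1, h2⟩ | ⟨s', t', h, h1, h2⟩
  · exact ⟨t', h2⟩
  · simp at h1
  · simp at h1

theorem Bs_ref' {r : Bool × Bool} {y : (A ⊕ (Bool × Bool)) ⊕ X}
    (h : (Bs P Γ).Adj (Sum.inl (Sum.inr r)) y) : ∃ u, y = Sum.inl (Sum.inr (r.1, u)) := by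
  rcases h with ⟨s', t', h, h1, h2⟩ | ⟨c, u, v, h, h1, h2⟩ | ⟨s', t', h, h1, h2⟩
  · simp at h1
  · refine ⟨v, ?_⟩
    rw [h2, Sum.inr_injective (Sum.inl_injective h1)]
  · simp at h1

theorem Bs_gam' {s : X} {y : (A ⊕ (Bool × Bool)) ⊕ X}
    (h : (Bs P Γ).Adj (Sum.inr s) y) : ∃ t, y = Sum.inr t := by
  rcases h with ⟨s', t', h, h1, h2⟩ | ⟨c, u, v, h, h1, h2⟩ | ⟨s', t', h, h1, h2⟩
  · simp at h1
  · simp at h1
  · exact ⟨t', h2⟩

theorem Bs_cl {cl : A → Bool} {clX : X → Bool} (h1 : ∀ x y, P.Adj x y → cl x ≠ cl y)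
    (h2 : ∀ x y, Γ.Adj x y → clX x ≠ clX y) (x y : (A ⊕ (Bool × Bool)) ⊕ X)
    (h : (Bs P Γ).Adj x y) :
    Sum.elim (Sum.elim cl (fun r : Bool × Bool => !r.2)) clX x ≠
      Sum.elim (Sum.elim cl (fun r : Bool × Bool => !r.2)) clX y := by
  rcases h with ⟨s, t, h, rfl, rfl⟩ | ⟨c, u, v, h, rfl, rfl⟩ | ⟨s, t, h, rfl, rfl⟩
  · exact h1 s t h
  · show (!u) ≠ (!v)
    revert h
    cases u <;> cases v <;> decide
  · exact h2 s t h

/-- The colouring of the base. -/
def cbs (c₁ : A → A → Bool) (CΓ : X → X → Bool) :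
    ((A ⊕ (Bool × Bool)) ⊕ X) → ((A ⊕ (Bool × Bool)) ⊕ X) → Bool
  | Sum.inl (Sum.inl s), Sum.inl (Sum.inl t) => c₁ s t
  | Sum.inl (Sum.inr r), Sum.inl (Sum.inr r') => r.1 && r'.1
  | Sum.inr s, Sum.inr t => CΓ s t
  | _, _ => false

theorem cbs_symm {c₁ : A → A → Bool} {CΓ : X → X → Bool} (h1 : ∀ x y, c₁ x y = c₁ y x)
    (h2 : ∀ x y, CΓ x y = CΓ y x) (x y : (A ⊕ (Bool × Bool)) ⊕ X) :
    cbs c₁ CΓ x y = cbs c₁ CΓ y x := by
  rcases x with (s | r) | s <;> rcases y with (t | r') | t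
  · exact h1 s t
  · rfl
  · rfl
  · rfl
  · exact Bool.and_comm r.1 r'.1
  · rfl
  · rfl
  · rfl
  · exact h2 s t

/-- A monochromatic copy of `D` in the base lies in the pattern. -/
theorem mono_base {p : Prop} {k : ℕ} {D : SimpleGraph (Fin k)} (hD : TC p D)
    {c₁ : A → A → Bool} {CΓ : X → X → Bool} (h0 : ∀ c f, ¬ Mono Γ CΓ D c f) {b : Bool}
    {f : Fin k → (A ⊕ (Bool × Bool)) ⊕ X} (hf : Mono (Bs P Γ) (cbs c₁ CΓ) D b f) :
    ∃ g : Fin k → A, (∀ v, f v = Sum.inl (Sum.inl (g v))) ∧ Mono P c₁ D b g := by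
  obtain ⟨v₀⟩ := hD.ne
  rcases hv : f v₀ with (s | r) | s
  · have hall := hD.conn (fun y => ∃ s, f y = Sum.inl (Sum.inl s)) ⟨v₀, s, hv⟩ (by
      rintro y z hyz ⟨s, hs⟩
      have h1 := (hf.2 y z hyz).1
      rw [hs] at h1
      exact Bs_pat' h1)
    choose g hg using hall
    refine ⟨g, hg, ?_, ?_⟩
    · intro x y hxy
      exact hf.1 (by rw [hg, hg, hxy])
    · intro i j hij
      obtain ⟨h1, h2⟩ := hf.2 i j hij
      rw [hg i, hg j] at h1 h2
      exact ⟨Bs_pat.1 h1, h2⟩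
  · exfalso
    have hall := hD.conn (fun y => ∃ u, f y = Sum.inl (Sum.inr (r.1, u))) ⟨v₀, r.2, hv⟩ (by
      rintro y z hyz ⟨s, hs⟩
      have h1 := (hf.2 y z hyz).1
      rw [hs] at h1
      exact Bs_ref' (r := (r.1, s)) h1)
    choose g hg using hall
    obtain ⟨y, hyx, _⟩ := hD.third v₀ v₀
    obtain ⟨z, hzx, hzy⟩ := hD.third v₀ y
    have h1 : g y ≠ g v₀ := fun h => hyx (hf.1 (by rw [hg, hg, h]))
    have h2 : g z ≠ g v₀ := fun h => hzx (hf.1 (by rw [hg, hg, h]))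
    have h3 : g z ≠ g y := fun h => hzy (hf.1 (by rw [hg, hg, h]))
    revert h1 h2 h3
    cases g y <;> cases g v₀ <;> cases g z <;> simp
  · exfalso
    have hall := hD.conn (fun y => ∃ s, f y = Sum.inr s) ⟨v₀, s, hv⟩ (by
      rintro y z hyz ⟨s, hs⟩
      have h1 := (hf.2 y z hyz).1
      rw [hs] at h1
      exact Bs_gam' h1)
    choose g hg using hall
    refine h0 b g ⟨?_, ?_⟩
    · intro x y hxy
      exact hf.1 (by rw [hg, hg, hxy])
    · intro i j hij
      obtain ⟨h1, h2⟩ := hf.2 i j hij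
      rw [hg i, hg j] at h1 h2
      exact ⟨Bs_gam.1 h1, h2⟩

end Facts

/-- A copy of `D` without passengers gives everything except `K_{t,t}`. -/
theorem rich_of_copy {p : Prop} {k n N t : ℕ} {L : Type} {D : SimpleGraph (Fin k)} (hD : TC p D)
    {S : SimpleGraph (L ⊕ Fin n)} {C : L ⊕ Fin n → L ⊕ Fin n → Bool} {c : Bool} {f : Fin k → L}
    (hf : Mono S C D c (fun v => Sum.inl (f v)))
    (hk : ¬ Bip D → ∃ g : Fin t ⊕ Fin t → L, KK S C c t (fun i => Sum.inl (g i))) :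
    Rich D N t S C c where
  edge := by
    obtain ⟨w, hw⟩ := hD.nbr hD.ne.some
    exact ⟨_, _, (hf.2 _ _ hw).1, (hf.2 _ _ hw).2⟩
  cop := fun a b _ => ⟨fun v => Sum.inl (f v), hf, fun v _ _ => ⟨f v, rfl⟩, fun v q h => by
    cases h⟩
  kk := hk

/-- Row PIE. -/
theorem pie_proof (hPat : PatStatement) (hAtt : AttStatement) (hGam : GamStatement) :
    PieceStatement := by
  classical
  intro p k n N t D H hD hbip
  obtain ⟨Y, hY, P, c₁, hP⟩ := hPat p k n N D H hD hbip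
  -- the extra graph
  obtain ⟨X, hX, Γ, hΓp, ⟨CΓ, hCΓ, hΓ0⟩, hΓ⟩ : ∃ (X : Type) (_ : Finite X) (Γ : SimpleGraph X),
      (p → ∃ cl : X → Bool, ∀ x y, Γ.Adj x y → cl x ≠ cl y) ∧
      (∃ C : X → X → Bool, (∀ x y, C x y = C y x) ∧ ∀ c f, ¬ Mono Γ C D c f) ∧
      (¬ Bip D → ∀ C : X → X → Bool, (∀ x y, C x y = C y x) →
        (∃ c, (∃ f, Mono Γ C D c f) ∧ ∃ g, KK Γ C c t g) ∨ ∀ c, ∃ g, KK Γ C c t g) := by
    by_cases hB : Bip D
    · refine ⟨Empty, inferInstance, ⊥, fun _ => ⟨fun _ => true, fun x => x.elim⟩,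
        ⟨fun _ _ => true, fun _ _ => rfl, ?_⟩, fun h => absurd hB h⟩
      intro c f
      exact (f hD.ne.some).elim
    · obtain ⟨X, hX, Γ, h1, h2⟩ := hGam k t D hB
      exact ⟨X, hX, Γ, fun hp => absurd (hD.bip hp) hB, h1, fun _ => h2⟩
  -- the classes
  obtain ⟨cl, hcl⟩ : ∃ cl : Y ⊕ Fin n → Bool, p → ∀ x y, P.Adj x y → cl x ≠ cl y := by
    by_cases hp : p
    · obtain ⟨cl, h⟩ := hP.bip hp
      exact ⟨cl, fun _ => h⟩
    · exact ⟨fun _ => true, fun h => absurd h hp⟩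
  obtain ⟨clX, hclX⟩ : ∃ cl : X → Bool, p → ∀ x y, Γ.Adj x y → cl x ≠ cl y := by
    by_cases hp : p
    · obtain ⟨cl, h⟩ := hΓp hp
      exact ⟨cl, fun _ => h⟩
    · exact ⟨fun _ => true, fun h => absurd h hp⟩
  -- the senders
  let J := {q : Bool × Y × Y // P.Adj (Sum.inl q.2.1) (Sum.inl q.2.2) ∧
    c₁ (Sum.inl q.2.1) (Sum.inl q.2.2) = q.1 ∧ (p → cl (Sum.inl q.2.1) = true)}
  let Z : ((Y ⊕ Fin n) ⊕ (Bool × Bool)) ⊕ X → Prop := fun w => ∃ q, w = Sum.inl (Sum.inl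
    (Sum.inr q))
  obtain ⟨V, hV, F, ι, hι, hind, hA, hB, hL⟩ := hAtt p k D hD
    (((Y ⊕ Fin n) ⊕ (Bool × Bool)) ⊕ X) J (Bs P Γ) Z
    (fun j => Sum.inl (Sum.inl (Sum.inl j.1.2.1))) (fun j => Sum.inl (Sum.inl (Sum.inl j.1.2.2)))
    (fun j => Sum.inl (Sum.inr (j.1.1, false))) (fun j => Sum.inl (Sum.inr (j.1.1, true)))
    (fun j => Bs_pat.2 j.2.1)
    (fun j => Or.inr (Or.inl ⟨j.1.1, false, true, by decide, rfl, rfl⟩))
    (fun j => ⟨by simp, by simp, by simp, by simp⟩)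
    (fun j => ⟨fun h => by obtain ⟨t, ht⟩ := Bs_pat' h; simp at ht,
      fun h => by obtain ⟨t, ht⟩ := Bs_pat' h; simp at ht,
      fun h => by obtain ⟨t, ht⟩ := Bs_pat' h; simp at ht,
      fun h => by obtain ⟨t, ht⟩ := Bs_pat' h; simp at ht⟩)
    (fun j => ⟨by rintro ⟨q, hq⟩; simp at hq, by rintro ⟨q, hq⟩; simp at hq,
      by rintro ⟨q, hq⟩; simp at hq, by rintro ⟨q, hq⟩; simp at hq⟩)
    (fun hp => ⟨Sum.elim (Sum.elim cl (fun r : Bool × Bool => !r.2)) clX,
      Bs_cl (hcl hp) (hclX hp), fun j => j.2.2.2 hp⟩)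
  obtain ⟨Cs, hCs1, hCs2, hCs3⟩ := hB (cbs c₁ CΓ) (cbs_symm hP.symm hCΓ) (by
    rintro ⟨⟨c, d, d'⟩, h1, h2, h3⟩
    show c₁ (Sum.inl d) (Sum.inl d') = (c && c)
    rw [Bool.and_self]
    exact h2)
  -- the vertices of the gadget
  let pas : Fin n → V := fun q => ι (Sum.inl (Sum.inl (Sum.inr q)))
  have hpas : Function.Injective pas := fun q q' h =>
    Sum.inr_injective (Sum.inl_injective (Sum.inl_injective (hι h)))
  let L := {v : V // ∀ q, v ≠ pas q}
  let τ : L ⊕ Fin n → V := Sum.elim Subtype.val pas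
  have hτl : ∀ l : L, τ (Sum.inl l) = l.1 := fun _ => rfl
  have hτr : ∀ q, τ (Sum.inr q) = pas q := fun _ => rfl
  have hτi : Function.Injective τ := by
    rintro (l | q) (l' | q') h
    · exact congrArg Sum.inl (Subtype.ext h)
    · exact absurd h (l.2 q')
    · exact absurd h.symm (l'.2 q)
    · exact congrArg Sum.inr (hpas h)
  have hτs : Function.Surjective τ := by
    intro v
    by_cases hv : ∃ q, v = pas q
    · obtain ⟨q, hq⟩ := hv
      exact ⟨Sum.inr q, hq.symm⟩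
    · push Not at hv
      exact ⟨Sum.inl ⟨v, hv⟩, rfl⟩
  -- the vertices of the pattern and of the extra graph
  have hYL : ∀ d : Y, ∀ q, ι (Sum.inl (Sum.inl (Sum.inl d))) ≠ pas q := by
    intro d q h
    have := hι h
    simp at this
  have hXL : ∀ x : X, ∀ q, ι (Sum.inr x) ≠ pas q := by
    intro x q h
    have := hι h
    simp at this
  let yl : Y → L := fun d => ⟨ι (Sum.inl (Sum.inl (Sum.inl d))), hYL d⟩
  let xl : X → L := fun x => ⟨ι (Sum.inr x), hXL x⟩
  have hyl : Function.Injective yl := fun d d' h =>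
    Sum.inl_injective (Sum.inl_injective (Sum.inl_injective (hι (congrArg Subtype.val h))))
  have hxl : Function.Injective xl := fun d d' h =>
    Sum.inr_injective (hι (congrArg Subtype.val h))
  let σ : Y ⊕ Fin n → L ⊕ Fin n := Sum.map yl id
  have hσ : ∀ s, τ (σ s) = ι (Sum.inl (Sum.inl s)) := by
    rintro (d | q)
    · rfl
    · rfl
  have hσi : Function.Injective σ := by
    rintro (l | q) (l' | q') h
    · exact congrArg Sum.inl (hyl (Sum.inl_injective h))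
    · cases h
    · cases h
    · exact congrArg Sum.inr (Sum.inr_injective h)
  let S : SimpleGraph (L ⊕ Fin n) := F.comap τ
  have hS : ∀ x y, S.Adj x y ↔ F.Adj (τ x) (τ y) := fun _ _ => Iff.rfl
  have hSσ : ∀ s t, S.Adj (σ s) (σ t) ↔ P.Adj s t := by
    intro s t
    rw [hS, hσ, hσ, hind]
    exact Bs_pat
  have hSx : ∀ s t, S.Adj (Sum.inl (xl s)) (Sum.inl (xl t)) ↔ Γ.Adj s t := by
    intro s t
    rw [hS, hτl, hτl]
    exact (hind _ _).trans Bs_gam
  refine ⟨L, inferInstance, S, fun x y => Cs (τ x) (τ y), ?_⟩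
  refine
  { pat := ?_
    symm := fun x y => hCs1 _ _
    red := ?_
    isred := ?_
    only := ?_
    two := ?_
    arr := ?_ }
  · intro q q'
    rw [← hP.pat q q', ← hSσ (Sum.inr q) (Sum.inr q')]
    rfl
  · intro q y hadj hred
    rcases hL (Sum.inl (Sum.inl (Sum.inr q))) (τ y) hadj with ⟨v, hv⟩ | ⟨j, hj⟩
    · have h1 : F.Adj (ι (Sum.inl (Sum.inl (Sum.inr q)))) (ι v) := by
        rw [← hv]
        exact hadj
      have h2 := (hind _ _).1 h1
      obtain ⟨s, rfl⟩ := Bs_pat' h2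
      have h3 := Bs_pat.1 h2
      have h4 : c₁ (Sum.inr q) s = true := by
        have h5 : Cs (τ (Sum.inr q)) (τ y) = true := hred
        rw [hv] at h5
        have h6 := hCs2 (Sum.inl (Sum.inl (Sum.inr q))) (Sum.inl (Sum.inl s))
        exact h6.symm.trans h5
      obtain ⟨q', rfl⟩ := hP.red q s h3 h4
      exact ⟨q', hτi hv⟩
    · exfalso
      rcases hj with hj | hj | hj | hj
      · simp at hj
      · simp at hj
      · simp at hj
      · simp at hj
  · intro q q' hqq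
    exact (hCs2 (Sum.inl (Sum.inl (Sum.inr q))) (Sum.inl (Sum.inl (Sum.inr q')))).trans
      (hP.isred q q' hqq)
  · intro c f hf
    have h1 : Mono F Cs D c (fun v => τ (f v)) := ⟨hτi.comp hf.1, hf.2⟩
    choose g hg using hCs3 c _ h1
    have h2 : Mono (Bs P Γ) (cbs c₁ CΓ) D c g := by
      refine ⟨?_, ?_⟩
      · intro x y hxy
        exact h1.1 (by
          show τ (f x) = τ (f y)
          rw [hg, hg, hxy])
      · intro i j hij
        obtain ⟨h3, h4⟩ := h1.2 i j hij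
        simp only at h3 h4
        rw [hg, hg] at h3 h4
        exact ⟨(hind _ _).1 h3, (hCs2 _ _).symm.trans h4⟩
    obtain ⟨g', hg', hm⟩ := mono_base hD hΓ0 h2
    intro v
    obtain ⟨q, hq⟩ := hP.only c g' hm v
    refine ⟨q, hτi ?_⟩
    rw [hg, hg', hq]
    rfl
  · obtain ⟨l, l', hll⟩ := hP.two
    exact ⟨yl l, yl l', fun h => hll (hyl h)⟩
  · intro C hC
    let e : L ⊕ Fin n ≃ V := Equiv.ofBijective τ ⟨hτi, hτs⟩
    let C' : V → V → Bool := fun x y => C (e.symm x) (e.symm y)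
    have hC' : ∀ x y, C' (τ x) (τ y) = C x y := by
      intro x y
      show C (e.symm (e x)) (e.symm (e y)) = C x y
      rw [Equiv.symm_apply_apply, Equiv.symm_apply_apply]
    have hC'x : ∀ s t, C' (ι (Sum.inr s)) (ι (Sum.inr t)) = C (Sum.inl (xl s)) (Sum.inl (xl t)) :=
      fun s t => hC' (Sum.inl (xl s)) (Sum.inl (xl t))
    have hC'σ : ∀ s t, C' (ι (Sum.inl (Sum.inl s))) (ι (Sum.inl (Sum.inl t))) =
        C (σ s) (σ t) := by
      intro s t
      rw [← hσ, ← hσ, hC']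
    -- `K_{t,t}` in the extra graph
    have hkk : ∀ c g, KK Γ (fun s t => C' (ι (Sum.inr s)) (ι (Sum.inr t))) c t g →
        ∃ g : Fin t ⊕ Fin t → L, KK S C c t (fun i => Sum.inl (g i)) := by
      intro c g hg
      refine ⟨fun i => xl (g i), ?_, ?_⟩
      · intro i j hij
        exact hg.1 (hxl (Sum.inl_injective hij))
      · intro i j
        obtain ⟨h1, h2⟩ := hg.2 i j
        exact ⟨(hSx _ _).2 h1, (hC'x _ _).symm.trans h2⟩
    have hmo : ∀ c f, Mono Γ (fun s t => C' (ι (Sum.inr s)) (ι (Sum.inr t))) D c f →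
        Mono S C D c (fun v => Sum.inl (xl (f v))) := by
      intro c f hf
      refine ⟨?_, ?_⟩
      · intro i j hij
        exact hf.1 (hxl (Sum.inl_injective hij))
      · intro i j hij
        obtain ⟨h1, h2⟩ := hf.2 i j hij
        exact ⟨(hSx _ _).2 h1, (hC'x _ _).symm.trans h2⟩
    by_cases hcase : ∃ (b : Bool) (f : Fin k → L), Mono S C D b (fun v => Sum.inl (f v))
    · right
      obtain ⟨b, f, hf⟩ := hcase
      by_cases hB : Bip D
      · exact ⟨b, rich_of_copy hD hf (fun h => absurd hB h)⟩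
      · rcases hΓ hB (fun s t => C' (ι (Sum.inr s)) (ι (Sum.inr t))) (fun s t => hC _ _) with
          ⟨c, ⟨f', hf'⟩, g, hg⟩ | h
        · exact ⟨c, rich_of_copy hD (hmo c f' hf') (fun _ => hkk c g hg)⟩
        · obtain ⟨g, hg⟩ := h b
          exact ⟨b, rich_of_copy hD hf (fun _ => hkk b g hg)⟩
    · push Not at hcase
      -- the senders work
      have hforce := hA C' (fun x y => hC _ _) (by
        intro b f hf
        by_contra hcon
        push Not at hcon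
        have h1 : ∀ i, ∃ l : L, f i = τ (Sum.inl l) := by
          intro i
          refine ⟨⟨f i, fun q hq => ?_⟩, rfl⟩
          exact hcon i _ ⟨q, rfl⟩ hq
        choose g hg using h1
        refine hcase b g ⟨?_, ?_⟩
        · intro i j hij
          apply hf.1
          rw [hg, hg]
          exact congrArg τ hij
        · intro i j hij
          obtain ⟨h2, h3⟩ := hf.2 i j hij
          rw [hg i, hg j] at h2 h3
          exact ⟨(hS _ _).2 h2, (hC' _ _).symm.trans h3⟩)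
      have hφ : ∀ d d', P.Adj (Sum.inl d) (Sum.inl d') → C (σ (Sum.inl d)) (σ (Sum.inl d')) =
          (fun c => C' (ι (Sum.inl (Sum.inr (c, false)))) (ι (Sum.inl (Sum.inr (c, true)))))
            (c₁ (Sum.inl d) (Sum.inl d')) := by
        intro d d' h
        by_cases hd : p → cl (Sum.inl d) = true
        · have h1 := hforce ⟨(c₁ (Sum.inl d) (Sum.inl d'), d, d'), h, rfl, hd⟩
          rw [← hC'σ]
          exact h1
        · have hp : p := by
            by_contra hp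
            exact hd (fun h => absurd h hp)
          have h1 : ¬ cl (Sum.inl d) = true := fun h => hd (fun _ => h)
          have h2 := hcl hp _ _ h
          have h3 : cl (Sum.inl d') = true := by
            revert h1 h2
            cases cl (Sum.inl d) <;> cases cl (Sum.inl d') <;> decide
          have h4 := hforce ⟨(c₁ (Sum.inl d') (Sum.inl d), d', d), h.symm, rfl, fun _ => h3⟩
          rw [hC, hP.symm, ← hC'σ]
          exact h4
      rcases hP.arr (fun s t => C (σ s) (σ t))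
        (fun c => C' (ι (Sum.inl (Sum.inr (c, false)))) (ι (Sum.inl (Sum.inr (c, true)))))
        (fun s t => hC _ _) hφ with
        ⟨c, f, hf⟩ | ⟨c, hc⟩ | ⟨c, ⟨l, l', hl1, hl2⟩, hcop⟩
      · exfalso
        refine hcase c (fun v => yl (f v)) ⟨?_, ?_⟩
        · intro i j hij
          exact hf.1 (congrArg Sum.inl (hyl (Sum.inl_injective hij)))
        · intro i j hij
          obtain ⟨h1, h2⟩ := hf.2 i j hij
          exact ⟨(hSσ _ _).2 h1, h2⟩
      · left
        exact ⟨c, fun q q' h => hc q q' h⟩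
      · right
        refine ⟨c, ⟨yl l, yl l', (hSσ (Sum.inl l) (Sum.inl l')).2 hl1, hl2⟩, ?_, ?_⟩
        · intro a b hab
          obtain ⟨f, hf, hf1, hf2⟩ := hcop a b hab
          refine ⟨fun v => σ (f v), ⟨hσi.comp hf.1, ?_⟩, ?_, ?_⟩
          · intro i j hij
            obtain ⟨h1, h2⟩ := hf.2 i j hij
            exact ⟨(hSσ _ _).2 h1, h2⟩
          · intro v hva hvb
            obtain ⟨l, hl⟩ := hf1 v hva hvb
            exact ⟨yl l, by
              show σ (f v) = _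
              rw [hl]
              rfl⟩
          · intro v q hq
            have h1 : f v = Sum.inr q := by
              apply hσi
              exact hq
            obtain ⟨g, hg1, hg2⟩ := hf2 v q h1
            refine ⟨fun i => yl (g i), hyl.comp hg1, fun i => ?_⟩
            obtain ⟨h2, h3⟩ := hg2 i
            exact ⟨(hSσ (Sum.inr q) (Sum.inl (g i))).2 h2, h3⟩
        · intro hB
          rcases hΓ hB (fun s t => C' (ι (Sum.inr s)) (ι (Sum.inr t))) (fun s t => hC _ _) with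
            ⟨c', ⟨f', hf'⟩, g, hg⟩ | h
          · exact absurd (hmo c' f' hf') (hcase c' _)
          · obtain ⟨g, hg⟩ := h c
            exact hkk c g hg

end MP3240Q
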