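import Pool.Agent.Lib.MP_3240be_co.Q22.Defs

set_option autoImplicit false

/-!
# Theorem Q, row DTF: simple facts on D-trees
-/

namespace MP3240Q

theorem dtf_map_mem {α : Type} (G : SimpleGraph α) (T : SimpleGraph ℕ) (A : Set ℕ) (f : α ↪ ℕ)
    (hT : ∀ u v, T.Adj u v → u ∈ A ∧ v ∈ A) (u v : ℕ) (h : (T ⊔ G.map f).Adj u v) :
    u ∈ A ∪ Set.range f ∧ v ∈ A ∪ Set.range f := by
  rw [SimpleGraph.sup_adj] at h
  rcases h with h | h
  · exact ⟨Or.inl (hT u v h).1, Or.inl (hT u v h).2⟩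
  · rw [SimpleGraph.map_adj] at h
    obtain ⟨u', v', _, rfl, rfl⟩ := h
    exact ⟨Or.inr ⟨u', rfl⟩, Or.inr ⟨v', rfl⟩⟩

theorem dtf_bip_pendant (T : SimpleGraph ℕ) (A : Set ℕ) (y z : ℕ) (hy : y ∈ A) (hz : z ∉ A)
    (hT : ∀ u v, T.Adj u v → u ∈ A ∧ v ∈ A) (h : Bip T) :
    Bip (T ⊔ SimpleGraph.edge y z) := by
  obtain ⟨κ, hκ⟩ := h
  have hyz : y ≠ z := fun e => hz (e ▸ hy)
  have hA : ∀ u, u ∈ A → Function.update κ z (!κ y) u = κ u := by
    intro u hu
    have huz : u ≠ z := fun e => hz (e ▸ hu)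
    exact Function.update_of_ne huz _ _
  refine ⟨Function.update κ z (!κ y), ?_⟩
  intro u v huv
  rw [SimpleGraph.sup_adj] at huv
  rcases huv with huv | huv
  · rw [hA u (hT u v huv).1, hA v (hT u v huv).2]
    exact hκ u v huv
  · rw [SimpleGraph.edge_adj] at huv
    rcases huv.1 with ⟨rfl, rfl⟩ | ⟨rfl, rfl⟩
    · rw [hA _ hy, Function.update_self]
      cases κ _ <;> simp
    · rw [hA _ hy, Function.update_self]
      cases κ _ <;> simp

theorem dtf_bip_copy {k : ℕ} (D : SimpleGraph (Fin k)) (T : SimpleGraph ℕ) (A : Set ℕ)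
    (f : Fin k ↪ ℕ) (r : Fin k) (hr : f r ∈ A) (hnew : ∀ v, v ≠ r → f v ∉ A)
    (hT : ∀ u v, T.Adj u v → u ∈ A ∧ v ∈ A) (hD : Bip D) (h : Bip T) :
    Bip (T ⊔ D.map f) := by
  classical
  obtain ⟨κ, hκ⟩ := h
  obtain ⟨d, hd⟩ := hD
  have key : ∃ κ' : ℕ → Bool, (∀ x, x ∈ A → κ' x = κ x) ∧
      ∀ v, κ' (f v) = ((d v).xor ((κ (f r)).xor (d r))) := by
    refine ⟨fun x => if x ∈ A then κ x else
      if hx : ∃ v, f v = x then (d hx.choose).xor ((κ (f r)).xor (d r)) else true, ?_, ?_⟩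
    · intro x hx
      exact if_pos hx
    · intro v
      by_cases hv : f v ∈ A
      · have hvr : v = r := by
          by_contra hne
          exact hnew v hne hv
        subst hvr
        show (if f v ∈ A then κ (f v) else _) = _
        rw [if_pos hv]
        cases κ (f v) <;> cases d v <;> rfl
      · have hx : ∃ w, f w = f v := ⟨v, rfl⟩
        show (if f v ∈ A then κ (f v) else _) = _
        rw [if_neg hv, dif_pos hx, f.injective hx.choose_spec]
  obtain ⟨κ', hA, hf⟩ := key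
  refine ⟨κ', ?_⟩
  intro u v huv
  rw [SimpleGraph.sup_adj] at huv
  rcases huv with huv | huv
  · rw [hA u (hT u v huv).1, hA v (hT u v huv).2]
    exact hκ u v huv
  · rw [SimpleGraph.map_adj] at huv
    obtain ⟨u', v', hadj, rfl, rfl⟩ := huv
    rw [hf, hf]
    have := hd u' v' hadj
    revert this
    cases d u' <;> cases d v' <;> cases κ (f r) <;> cases d r <;> simp

theorem dtf_proof : DtfStatement := by
  intro k D T A F h
  induction h with
  | start y =>
    refine ⟨Set.finite_singleton y, ?_, subset_rfl, ?_⟩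
    · intro u v huv
      exact absurd huv (by simp)
    · intro _
      exact ⟨fun _ => true, fun x y hxy => absurd hxy (by simp)⟩
  | pendant T A F y z h hy hz ih =>
    obtain ⟨h1, h2, h3, h4⟩ := ih
    refine ⟨h1.insert z, ?_, Set.insert_subset_insert h3, ?_⟩
    · intro u v huv
      rw [SimpleGraph.sup_adj] at huv
      rcases huv with huv | huv
      · exact ⟨Or.inr (h2 u v huv).1, Or.inr (h2 u v huv).2⟩
      · rw [SimpleGraph.edge_adj] at huv
        rcases huv.1 with ⟨rfl, rfl⟩ | ⟨rfl, rfl⟩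
        · exact ⟨Or.inr hy, Or.inl rfl⟩
        · exact ⟨Or.inl rfl, Or.inr hy⟩
    · intro hD
      exact dtf_bip_pendant T A y z hy hz h2 (h4 hD)
  | copy T A F f r a b h hr hnew hab hra hrb ih =>
    obtain ⟨h1, h2, h3, h4⟩ := ih
    refine ⟨h1.union (Set.finite_range f), dtf_map_mem D T A f h2, ?_, ?_⟩
    · exact Set.union_subset_union h3 (Set.image_subset_range _ _)
    · intro hD
      exact dtf_bip_copy D T A f r (h3 hr) hnew h2 hD (h4 hD)
  | bip T A F t f r h hD hr hnew ih =>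
    obtain ⟨h1, h2, h3, h4⟩ := ih
    refine ⟨h1.union (Set.finite_range f), dtf_map_mem _ T A f h2, ?_, ?_⟩
    · exact Set.union_subset_union_left _ h3
    · intro hB
      exact absurd hB hD

end MP3240Q
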