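import Mathlib
import Pool.Agent.Lib.MP_3240be_co.Q22.Defs2

set_option autoImplicit false

/-!
# Theorem Q2, row GMB

The graph `Γ = K_(2h, m)` for bipartite `D`, where `h + 1` is the size of the smallest colour
class of `D`.
-/

namespace MP3240Q

namespace GmbAux

/-- A proper 2-colouring whose class `true` is as small as possible. -/
theorem exists_min {k : ℕ} (D : SimpleGraph (Fin k)) (hD : Bip D) :
    ∃ κ₀ : Fin k → Bool, (∀ x y, D.Adj x y → κ₀ x ≠ κ₀ y) ∧
      ∀ κ' : Fin k → Bool, (∀ x y, D.Adj x y → κ' x ≠ κ' y) →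
        Nat.card {v // κ₀ v = true} ≤ Nat.card {v // κ' v = true} := by
  obtain ⟨κ, hκ⟩ := hD
  obtain ⟨κ₀, h1, h2⟩ := Set.exists_min_image
    {κ' : Fin k → Bool | ∀ x y, D.Adj x y → κ' x ≠ κ' y}
    (fun κ' => Nat.card {v // κ' v = true}) (Set.toFinite _) ⟨κ, hκ⟩
  exact ⟨κ₀, h1, fun κ' h' => h2 κ' h'⟩

/-- The complete bipartite graph between hubs and lows. -/
def Kg (a m : ℕ) : SimpleGraph (Fin a ⊕ Fin m) := completeBipartiteGraph (Fin a) (Fin m)

theorem kg_adj {a m : ℕ} (x y : Fin a ⊕ Fin m) :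
    (Kg a m).Adj x y ↔ (∃ i j, x = Sum.inl i ∧ y = Sum.inr j) ∨
      ∃ i j, x = Sum.inr j ∧ y = Sum.inl i := by
  rcases x with x | x <;> rcases y with y | y <;> simp [Kg, completeBipartiteGraph]

theorem kg_bip (a m : ℕ) : Bip (Kg a m) := by
  refine ⟨fun x => x.isLeft, ?_⟩
  intro x y h
  rcases (kg_adj x y).1 h with ⟨i, j, rfl, rfl⟩ | ⟨i, j, rfl, rfl⟩ <;> simp

/-- A graph with a small class is monochromatic in many lows with a constant pattern. -/
theorem embed {a m t T : ℕ} (U : SimpleGraph (Fin t)) (κ : Fin t → Bool)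
    (hκ : ∀ x y, U.Adj x y → κ x ≠ κ y) (C : Fin a ⊕ Fin m → Fin a ⊕ Fin m → Bool)
    (hC : ∀ x y, C x y = C y x) (π : Fin a → Bool) (c : Bool)
    (hcard : Nat.card {v // κ v = true} ≤ Nat.card {i // π i = c}) (ht : t ≤ T)
    (g : Fin T → Fin m) (hg : Function.Injective g)
    (hpat : ∀ i j, C (Sum.inl i) (Sum.inr (g j)) = π i) :
    ∃ f, Mono (Kg a m) C U c f := by
  classical
  obtain ⟨e⟩ : Nonempty ({v // κ v = true} ↪ {i // π i = c}) := by
    apply Function.Embedding.nonempty_of_card_le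
    rw [← Nat.card_eq_fintype_card, ← Nat.card_eq_fintype_card]
    exact hcard
  refine ⟨fun v => if h : κ v = true then Sum.inl (e ⟨v, h⟩).1 else Sum.inr (g (Fin.castLE ht v)),
    ?_, ?_⟩
  · intro v w hvw
    by_cases hv : κ v = true <;> by_cases hw : κ w = true
    · simp only [hv, hw, dif_pos, Sum.inl.injEq] at hvw
      have := e.injective (Subtype.ext hvw)
      exact congrArg Subtype.val this
    · simp [hv, hw] at hvw
    · simp [hv, hw] at hvw
    · have hvw' : (Sum.inr (g (Fin.castLE ht v)) : Fin a ⊕ Fin m) =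
          Sum.inr (g (Fin.castLE ht w)) := by
        simpa only [dif_neg hv, dif_neg hw] using hvw
      exact Fin.castLE_injective ht (hg (Sum.inr.inj hvw'))
  · intro v w hvw
    have hne := hκ v w hvw
    by_cases hv : κ v = true <;> by_cases hw : κ w = true
    · rw [hv, hw] at hne
      exact absurd rfl hne
    · simp only [hv, hw, dif_pos]
      refine ⟨(kg_adj _ _).2 (Or.inl ⟨_, _, rfl, rfl⟩), ?_⟩
      exact (hpat _ _).trans (e ⟨v, hv⟩).2
    · simp only [hv, hw, dif_pos]
      refine ⟨(kg_adj _ _).2 (Or.inr ⟨_, _, rfl, rfl⟩), ?_⟩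
      exact (hC _ _).trans ((hpat _ _).trans (e ⟨w, hw⟩).2)
    · rw [Bool.not_eq_true] at hv hw
      rw [hv, hw] at hne
      exact absurd rfl hne

/-- The number of hubs of colour `true` in the good colouring. -/
theorem card_lt (h : ℕ) (c : Bool) :
    Nat.card {i : Fin (2 * h) // decide (i.1 < h) = c} = h := by
  have h1 : Nat.card {i : Fin (2 * h) // decide (i.1 < h) = true} = h := by
    have e : {i : Fin (2 * h) // decide (i.1 < h) = true} ≃ Fin h :=
      { toFun := fun i => ⟨i.1.1, by simpa using i.2⟩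
        invFun := fun i => ⟨⟨i.1, by omega⟩, by simp⟩
        left_inv := fun i => by simp
        right_inv := fun i => by simp }
    rw [Nat.card_congr e, Nat.card_fin]
  cases c with
  | true => exact h1
  | false =>
    have e : {i : Fin (2 * h) // decide (i.1 < h) = false} ≃ Fin h :=
      { toFun := fun i => ⟨i.1.1 - h, by
          have := i.2
          have h3 := i.1.2
          simp only [decide_eq_false_iff_not, not_lt] at this
          omega⟩
        invFun := fun i => ⟨⟨i.1 + h, by omega⟩, by simp⟩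
        left_inv := fun i => by
          have := i.2
          simp only [decide_eq_false_iff_not, not_lt] at this
          apply Subtype.ext
          apply Fin.ext
          simp only
          omega
        right_inv := fun i => by simp }
    rw [Nat.card_congr e, Nat.card_fin]

/-- The good colouring of `K_(2h, m)`. -/
def good (h m : ℕ) : Fin (2 * h) ⊕ Fin m → Fin (2 * h) ⊕ Fin m → Bool
  | Sum.inl i, Sum.inr _ => decide (i.1 < h)
  | Sum.inr _, Sum.inl i => decide (i.1 < h)
  | Sum.inl _, Sum.inl _ => true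
  | Sum.inr _, Sum.inr _ => true

theorem good_symm (h m : ℕ) (x y : Fin (2 * h) ⊕ Fin m) : good h m x y = good h m y x := by
  rcases x with x | x <;> rcases y with y | y <;> rfl

/-- The good colouring has no monochromatic `D`. -/
theorem good_none {k h m : ℕ} (D : SimpleGraph (Fin k))
    (hmin : ∀ κ' : Fin k → Bool, (∀ x y, D.Adj x y → κ' x ≠ κ' y) →
      h < Nat.card {v // κ' v = true}) (c : Bool) (f : Fin k → Fin (2 * h) ⊕ Fin m) :
    ¬ Mono (Kg (2 * h) m) (good h m) D c f := by
  classical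
  rintro ⟨hf, hadj⟩
  -- the class of non-isolated vertices at hubs
  let κ' : Fin k → Bool := fun v => decide ((∃ i, f v = Sum.inl i) ∧ ∃ w, D.Adj v w)
  have hκ' : ∀ v, κ' v = true ↔ (∃ i, f v = Sum.inl i) ∧ ∃ w, D.Adj v w := by
    intro v
    simp [κ']
  have hprop : ∀ x y, D.Adj x y → κ' x ≠ κ' y := by
    intro x y hxy heq
    obtain ⟨h1, -⟩ := hadj x y hxy
    rcases (kg_adj _ _).1 h1 with ⟨i, j, hx, hy⟩ | ⟨i, j, hx, hy⟩
    · have hx' : κ' x = true := (hκ' x).2 ⟨⟨i, hx⟩, y, hxy⟩
      rw [heq] at hx'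
      obtain ⟨⟨i', hi'⟩, -⟩ := (hκ' y).1 hx'
      rw [hy] at hi'
      cases hi'
    · have hy' : κ' y = true := (hκ' y).2 ⟨⟨i, hy⟩, x, hxy.symm⟩
      rw [← heq] at hy'
      obtain ⟨⟨i', hi'⟩, -⟩ := (hκ' x).1 hy'
      rw [hx] at hi'
      cases hi'
  have hle : Nat.card {v // κ' v = true} ≤
      Nat.card {i : Fin (2 * h) // decide (i.1 < h) = c} := by
    have key : ∀ v : {v // κ' v = true}, ∃ i : {i : Fin (2 * h) // decide (i.1 < h) = c},
        f v.1 = Sum.inl i.1 := by
      rintro ⟨v, hv⟩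
      obtain ⟨⟨i, hi⟩, w, hw⟩ := (hκ' v).1 hv
      obtain ⟨h1, h2⟩ := hadj v w hw
      rcases (kg_adj _ _).1 h1 with ⟨i', j, hx, hy⟩ | ⟨i', j, hx, hy⟩
      · rw [hx, hy] at h2
        exact ⟨⟨i', h2⟩, hx⟩
      · rw [hx] at hi
        cases hi
    choose F hF using key
    refine Nat.card_le_card_of_injective F ?_
    intro v w hvw
    apply Subtype.ext
    apply hf
    rw [hF v, hF w, hvw]
  rw [card_lt] at hle
  exact absurd (hmin κ' hprop) (not_lt.2 hle)

/-- The two colour classes of a pattern. -/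
theorem card_add {a : ℕ} (π : Fin a → Bool) :
    Nat.card {i // π i = true} + Nat.card {i // π i = false} = a := by
  classical
  have e : {i // π i = false} ≃ {i // ¬ π i = true} :=
    Equiv.subtypeEquivRight fun i => by simp
  rw [Nat.card_congr e, Nat.card_eq_fintype_card, Nat.card_eq_fintype_card,
    Fintype.card_subtype_compl, Fintype.card_fin]
  have : Fintype.card {i // π i = true} ≤ a := by
    simpa using Fintype.card_subtype_le (fun i => π i = true)
  omega

end GmbAux

open GmbAux in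
/-- Row GMB. -/
theorem gmb_proof : GmbStatement := by
  classical
  intro k D 𝓛 hD hfin hsmall hedge
  obtain ⟨κ₀, hκ₀, hmin⟩ := exists_min D hD
  obtain ⟨x₀, y₀, hxy⟩ := hedge
  have hpos : 0 < Nat.card {v // κ₀ v = true} := by
    have hne := hκ₀ x₀ y₀ hxy
    have : ∃ v, κ₀ v = true := by
      by_contra hcon
      push Not at hcon
      have h1 := hcon x₀
      have h2 := hcon y₀
      rw [ne_eq, Bool.not_eq_true] at h1 h2
      rw [h1, h2] at hne
      exact hne rfl
    obtain ⟨v, hv⟩ := this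
    have : Nonempty {v // κ₀ v = true} := ⟨⟨v, hv⟩⟩
    exact Nat.card_pos
  obtain ⟨h, hh⟩ : ∃ h, Nat.card {v // κ₀ v = true} = h + 1 := ⟨_, (Nat.succ_pred_eq_of_pos hpos).symm⟩
  -- a bound for the sizes
  obtain ⟨T, hT⟩ : ∃ T, ∀ x ∈ 𝓛, x.1 ≤ T := by
    obtain ⟨T, hT⟩ := (hfin.image (fun x : SG => x.1)).bddAbove
    exact ⟨T, fun x hx => hT ⟨x, hx, rfl⟩⟩
  set T' := max T k with hT'
  set m := Fintype.card (Fin (2 * h) → Bool) * T' with hm
  refine ⟨Fin (2 * h) ⊕ Fin m, inferInstance, Kg (2 * h) m, kg_bip _ _, ?_, ?_⟩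
  · refine ⟨good h m, good_symm h m, fun c f => good_none D (fun κ' hκ' => ?_) c f⟩
    have := hmin κ' hκ'
    omega
  · intro C hC
    let pat : Fin m → Fin (2 * h) → Bool := fun j i => C (Sum.inl i) (Sum.inr j)
    obtain ⟨π, hπ⟩ := Fintype.exists_le_card_fiber_of_mul_le_card pat (n := T')
      (by rw [Fintype.card_fin])
    obtain ⟨e⟩ : Nonempty (Fin T' ↪ {j // pat j = π}) := by
      apply Function.Embedding.nonempty_of_card_le
      rw [Fintype.card_fin, Fintype.card_subtype]
      exact hπ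
    have hg : Function.Injective (fun j => (e j).1) :=
      fun i j hij => e.injective (Subtype.ext hij)
    have hpat : ∀ i j, C (Sum.inl i) (Sum.inr (e j).1) = π i := fun i j =>
      congrFun (e j).2 i
    have hsm : ∀ c, h ≤ Nat.card {i // π i = c} →
        ∀ x ∈ 𝓛, Sub x.2 D ∨ ∃ g, Mono (Kg (2 * h) m) C x.2 c g := by
      intro c hc x hx
      rcases hsmall x hx with ⟨h1, -⟩ | ⟨κ, h1, h2⟩
      · exact Or.inl h1
      · refine Or.inr (embed x.2 κ h1 C hC π c ?_ ((hT x hx).trans (le_max_left T k)) _ hg hpat)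
        have := h2 κ₀ hκ₀
        omega
    have hadd := card_add π
    by_cases hcase : ∃ c, h + 1 ≤ Nat.card {i // π i = c}
    · obtain ⟨c, hc⟩ := hcase
      refine Or.inl ⟨c, ?_, hsm c (by omega)⟩
      exact embed D κ₀ hκ₀ C hC π c (by omega) (le_max_right T k) _ hg hpat
    · push Not at hcase
      refine Or.inr fun c => hsm c ?_
      have h1 := hcase true
      have h2 := hcase false
      cases c <;> omega

end MP3240Q
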