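import Mathlib
import Pool.Agent.Lib.MP_3240be_co.Q22.Defs

set_option autoImplicit false

/-!
# Theorem Q, row NFH: a colouring of the host without `H'`
-/

namespace MP3240Q

open Pool.Agent.Lib.MP_3240be_co.H82 (TC Good exists_colouring)
open Pool.Agent.Lib.MP_3240be_co.H36.Chrom (Sparse ArrowsT Leaf)

theorem em_inj' {L Q I M : Type} {δ : M → L → I} (hδ : ∀ m, Function.Injective (δ m)) (m : M) :
    Function.Injective (em δ m : L ⊕ Q → I ⊕ (M × Q)) := by
  rintro (l | q) (l' | q') h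
  · exact congrArg Sum.inl (hδ m (Sum.inl_injective h))
  · cases h
  · cases h
  · exact congrArg Sum.inr (Prod.ext_iff.1 (Sum.inr_injective h)).2

theorem em_shared {L Q I M : Type} {δ : M → L → I} {m m' : M} (hne : m ≠ m') {u u' : L ⊕ Q}
    (h : em δ m u = em δ m' u') : ∃ l l' : L, u = Sum.inl l ∧ u' = Sum.inl l' ∧
      δ m l = δ m' l' := by
  rcases u with l | q
  · rcases u' with l' | q'
    · exact ⟨l, l', rfl, rfl, Sum.inl_injective h⟩
    · cases h
  · rcases u' with l' | q'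
    · cases h
    · exact absurd (Prod.ext_iff.1 (Sum.inr_injective h)).1 hne

/-- Row NFH. -/
theorem nfh_proof (hOne : OneStatement) (hLin : LinStatement) : NfhStatement := by
  classical
  intro p k n n' N t D H H' hD hconn hyes hno L I M S C₀ δ hS hδ hsp harr
  have hlin : Lin δ := hLin L I M δ (k * k + 2) (by omega) hsp
  have hei : ∀ m, Function.Injective (em δ m : L ⊕ Fin n → I ⊕ (M × Fin n)) := em_inj' hδ
  -- the colouring of the host
  obtain ⟨C, hC1, hC2⟩ := exists_colouring (J := M) (U := fun _ => L ⊕ Fin n) (fun _ => S)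
    (fun m => em δ m) (fun _ => C₀) (fun _ => hS.symm) (by
      intro m m' u v u' v' huv hu'v' h1 h2
      by_cases hm : m = m'
      · subst hm
        rw [hei m h1, hei m h2]
      · exfalso
        obtain ⟨l, l', rfl, _, e1⟩ := em_shared hm h1
        obtain ⟨s, s', rfl, _, e2⟩ := em_shared hm h2
        have e3 := hδ m (hlin m m' l l' s s' hm e1 e2)
        rw [e3] at huv
        exact huv.ne rfl)
  obtain ⟨b, f', hf', hmono⟩ := harr C hC1
  obtain ⟨j, hj1, hj2⟩ := hyes
  -- the copy of `D`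
  have hfi : Function.Injective (fun v => f' (j v)) := hf'.comp hj1
  have hedge : ∀ x y, D.Adj x y → ∃ m u v, S.Adj u v ∧ em δ m u = f' (j x) ∧
      em δ m v = f' (j y) := by
    intro x y hxy
    exact (hmono _ _ (hj2 x y hxy)).1.2
  let mm : Fin k → Fin k → M := fun x y => if h : D.Adj x y then (hedge x y h).choose else
    (hedge (hD.ne.some) (hD.nbr hD.ne.some).choose (hD.nbr hD.ne.some).choose_spec).choose
  have hmm : ∀ x y, D.Adj x y → ∃ u v, S.Adj u v ∧ em δ (mm x y) u = f' (j x) ∧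
      em δ (mm x y) v = f' (j y) := by
    intro x y hxy
    have : mm x y = (hedge x y hxy).choose := dif_pos hxy
    rw [this]
    exact (hedge x y hxy).choose_spec
  obtain ⟨m, hm⟩ := hOne p k D hD M mm (fun m v => ∃ u, em δ m u = f' (j v))
    (fun x y hxy => by
      obtain ⟨u, v, _, h1, h2⟩ := hmm x y hxy
      exact ⟨⟨u, h1⟩, ⟨v, h2⟩⟩)
    (by
      intro T hT1 hT2
      obtain ⟨m, hmT, _, _, _, hleaf, _⟩ := hsp T hT1 (by omega)
      refine ⟨m, hmT, ?_⟩
      rintro x y ⟨u, hu⟩ ⟨v, hv⟩ ⟨m', hm'T, hm', u', hu'⟩ ⟨m'', hm''T, hm'', v', hv'⟩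
      obtain ⟨l, l', rfl, _, e1⟩ := em_shared (Ne.symm hm') (hu.trans hu'.symm)
      obtain ⟨s, s', rfl, _, e2⟩ := em_shared (Ne.symm hm'') (hv.trans hv'.symm)
      have e3 := hδ m (hleaf m' hm'T m'' hm''T hm' hm'' l l' s s' e1 e2)
      apply hfi
      show f' (j x) = f' (j y)
      rw [← hu, ← hv, e3])
  have hin : ∀ v, ∃ u, em δ m u = f' (j v) := by
    intro v
    obtain ⟨w, hw⟩ := hD.nbr v
    obtain ⟨u, u', _, h1, _⟩ := hmm v w hw
    rw [hm v w hw] at h1
    exact ⟨u, h1⟩
  choose g hg using hin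
  have hgi : Function.Injective g := by
    intro x y hxy
    apply hfi
    show f' (j x) = f' (j y)
    rw [← hg, ← hg, hxy]
  have hgm : Mono S C₀ D b g := by
    refine ⟨hgi, ?_⟩
    intro x y hxy
    obtain ⟨u, u', huu, h1, h2⟩ := hmm x y hxy
    rw [hm x y hxy] at h1 h2
    have e1 : u = g x := hei m (h1.trans (hg x).symm)
    have e2 : u' = g y := hei m (h2.trans (hg y).symm)
    rw [e1, e2] at huu
    refine ⟨huu, ?_⟩
    have h3 := hC2 m (g x) (g y) huu
    rw [hg, hg] at h3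
    rw [← h3]
    exact (hmono _ _ (hj2 x y hxy)).2
  have hpass := hS.only b g hgm
  -- the colour is red
  have hb : b = true := by
    obtain ⟨y, hxy⟩ := hD.nbr hD.ne.some
    obtain ⟨q, hq⟩ := hpass hD.ne.some
    obtain ⟨q', hq'⟩ := hpass y
    obtain ⟨h1, h2⟩ := hgm.2 _ _ hxy
    rw [hq, hq'] at h1 h2
    rw [← h2]
    exact hS.isred q q' ((hS.pat q q').1 h1)
  subst hb
  -- one step in the red graph
  have hstep : ∀ q y, (Gl S δ).Adj (Sum.inr (m, q)) y → C (Sum.inr (m, q)) y = true →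
      ∃ q', y = Sum.inr (m, q') ∧ H.Adj q q' := by
    rintro q y ⟨_, m', u, v, huv, h1, h2⟩ hc
    have e : m' = m ∧ u = Sum.inr q := by
      rcases u with l | q₁
      · cases h1
      · have h3 := Prod.ext_iff.1 (Sum.inr_injective h1)
        exact ⟨h3.1, congrArg Sum.inr h3.2⟩
    obtain ⟨rfl, rfl⟩ := e
    have h3 := hC2 m' (Sum.inr q) v huv
    rw [h2] at h3
    have h4 : C₀ (Sum.inr q) v = true := by
      rw [← h3]
      exact hc
    obtain ⟨q', rfl⟩ := hS.red q v huv h4
    exact ⟨q', h2.symm, (hS.pat q q').1 huv⟩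
  have hall : ∀ x, ∃ q, f' x = Sum.inr (m, q) := by
    intro x
    obtain ⟨w⟩ := hconn.preconnected (j hD.ne.some) x
    have main : ∀ (u v : Fin n') (w : H'.Walk u v), (∃ q, f' u = Sum.inr (m, q)) →
        ∃ q, f' v = Sum.inr (m, q) := by
      intro u v w
      induction w with
      | nil => exact fun h => h
      | cons hadj w ih =>
        rintro ⟨q, hq⟩
        apply ih
        obtain ⟨h1, h2⟩ := hmono _ _ hadj
        rw [hq] at h1 h2
        obtain ⟨q', h3, _⟩ := hstep q _ h1 h2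
        exact ⟨q', h3⟩
    refine main _ _ w ?_
    obtain ⟨q, hq⟩ := hpass hD.ne.some
    refine ⟨q, ?_⟩
    rw [← hg, hq]
    rfl
  choose r hr using hall
  apply hno
  refine ⟨r, ?_, ?_⟩
  · intro x y hxy
    exact hf' (by rw [hr, hr, hxy])
  · intro x y hxy
    obtain ⟨h1, h2⟩ := hmono _ _ hxy
    rw [hr x] at h1 h2
    obtain ⟨q', h3, h4⟩ := hstep _ _ h1 h2
    rw [hr y] at h3
    have h5 := (Prod.ext_iff.1 (Sum.inr_injective h3)).2
    simp only at h5
    rw [h5]
    exact h4

end MP3240Q
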