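import Mathlib
import Pool.Agent.Lib.MP_3240be_co.Q22.Defs2

set_option autoImplicit false

/-!
# Theorem Q2: row AL2
-/

namespace MP3240Q

/-- Row AL2. -/
theorem al2_proof (hcolst : ColStatement) : Al2Statement := by
  classical
  intro Λ P G M _ n K N Bl pr δ hτ hδ hhyp C β₀ β₁ hβ c
  -- the class of a point
  let Bad : G → Fin n → Fin K → Prop := fun i q v =>
    Fr2 Bl pr c q v ∧ C (Sum.inr q) (Sum.inl (GY.l c i v)) = β₁
  let cls : G → Option (Fin n × Fin K) := fun i =>
    if h : ∃ q v, Bad i q v then some (h.choose, h.choose_spec.choose) else none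
  have hnone : ∀ i, cls i = none → ∀ q v, Fr2 Bl pr c q v →
      C (Sum.inr q) (Sum.inl (GY.l c i v)) = β₀ := by
    intro i hi q v hf
    have h1 : ¬ ∃ q v, Bad i q v := by
      intro h
      simp only [cls, dif_pos h] at hi
      cases hi
    have h2 : C (Sum.inr q) (Sum.inl (GY.l c i v)) ≠ β₁ := fun h => h1 ⟨q, v, hf, h⟩
    revert h2 hβ
    cases C (Sum.inr q) (Sum.inl (GY.l c i v)) <;> cases β₀ <;> cases β₁ <;> simp
  have hsome : ∀ i q v, cls i = some (q, v) → Bad i q v := by
    intro i q v hi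
    by_cases h : ∃ q v, Bad i q v
    · simp only [cls, dif_pos h] at hi
      have h1 := Option.some.inj hi
      have hq : h.choose = q := congrArg Prod.fst h1
      have hv : h.choose_spec.choose = v := congrArg Prod.snd h1
      rw [← hv, ← hq]
      exact h.choose_spec.choose_spec
    · simp only [cls, dif_neg h] at hi
      cases hi
  obtain ⟨col, hcol⟩ := hcolst G (Option (Fin n × Fin K)) cls (N + 1)
  obtain ⟨m, hm⟩ := hhyp col
  obtain ⟨t0, t1, n01⟩ := hτ
  have hall : ∀ t, cls (δ m t) = cls (δ m t0) := by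
    intro t
    by_cases ht : t = t0
    · rw [ht]
    · exact (hcol _ _ (fun h => ht (hδ m h)) (hm t t0)).1
  obtain ⟨_, g, hg, hgc⟩ := hcol _ _ (fun h => n01 (hδ m h)) (hm t0 t1)
  rcases hc0 : cls (δ m t0) with _ | ⟨q, v⟩
  · left
    exact ⟨g, hg, fun s q v hf => hnone _ ((hgc s).trans hc0) q v hf⟩
  · right
    exact ⟨q, v, m, (hsome _ q v hc0).1, fun τ => (hsome _ q v ((hall τ).trans hc0)).2⟩

end MP3240Q
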