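import Mathlib
import Pool.Agent.Lib.MP_3240be_co.Q22.Defs2

set_option autoImplicit false

/-!
# Row BCD: a blob with two passengers
-/

namespace MP3240Q

/-- Row BCD. -/
theorem bcd_proof : BcdStatement := by
  intro Λ P G M n K N H Bl pr Rd rt δ C β₀ hC hcol c a b x u hab hxu ha hb hv hxuC ⟨g, _, hgc⟩
  classical
  set i₀ : G := g 0 with hi₀
  set F : Fin K → GY Λ P G M K N ⊕ Fin n := fun v =>
    if v = a then Sum.inr x else if v = b then Sum.inr u else Sum.inl (GY.l c i₀ v) with hF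
  have hFa : F a = Sum.inr x := by simp [hF]
  have hFb : F b = Sum.inr u := by simp [hF, hab.symm]
  have hFv : ∀ v, v ≠ a → v ≠ b → F v = Sum.inl (GY.l c i₀ v) := fun v h h' => by
    simp [hF, h, h']
  have hinj : Function.Injective F := by
    intro v v' h
    by_cases h1 : v = a
    · by_cases h2 : v' = a
      · rw [h1, h2]
      · by_cases h3 : v' = b
        · rw [h1, h3, hFa, hFb] at h
          exact absurd (Sum.inr_injective h) hxu.ne
        · rw [h1, hFa, hFv v' h2 h3] at h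
          cases h
    · by_cases h1' : v = b
      · by_cases h2 : v' = a
        · rw [h1', h2, hFa, hFb] at h
          exact absurd (Sum.inr_injective h).symm hxu.ne
        · by_cases h3 : v' = b
          · rw [h1', h3]
          · rw [h1', hFb, hFv v' h2 h3] at h
            cases h
      · by_cases h2 : v' = a
        · rw [h2, hFa, hFv v h1 h1'] at h
          cases h
        · by_cases h3 : v' = b
          · rw [h3, hFb, hFv v h1 h1'] at h
            cases h
          · rw [hFv v h1 h1', hFv v' h2 h3] at h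
            simp only [Sum.inl.injEq, GY.l.injEq] at h
            exact h.2.2
  have hE : ∀ v v', F v ≠ F v' → EB2 Bl pr (F v) (F v') → (Pt2 H Bl pr Rd rt δ).Adj (F v) (F v') :=
    by
    intro v v' h h'
    unfold Pt2
    rw [SimpleGraph.fromRel_adj]
    exact ⟨h, Or.inl (Or.inl h')⟩
  have hkey : ∀ v v', (Bl c).Adj v v' → v' ≠ a → v' ≠ b →
      EB2 Bl pr (F v) (F v') ∧ C (F v) (F v') = β₀ := by
    intro v v' hvv h1 h2
    have hn : pr c v' = none := hv v' h1 h2
    by_cases h3 : v = a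
    · subst h3
      have hfr : Fr2 Bl pr c x v' := ⟨v, hvv, ha, hn⟩
      rw [hFa, hFv v' h1 h2]
      exact ⟨Or.inr (Or.inl ⟨c, _, x, v', hfr, rfl, rfl⟩), hgc 0 x v' hfr⟩
    · by_cases h4 : v = b
      · subst h4
        have hfr : Fr2 Bl pr c u v' := ⟨v, hvv, hb, hn⟩
        rw [hFb, hFv v' h1 h2]
        exact ⟨Or.inr (Or.inl ⟨c, _, u, v', hfr, rfl, rfl⟩), hgc 0 u v' hfr⟩
      · rw [hFv v h3 h4, hFv v' h1 h2]
        have h5 : EB2 Bl pr (Sum.inl (GY.l c i₀ v) : GY Λ P G M K N ⊕ Fin n)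
            (Sum.inl (GY.l c i₀ v')) := Or.inl ⟨c, _, v, v', hvv, hv v h3 h4, hn, rfl, rfl⟩
        exact ⟨h5, hcol _ _ h5⟩
  have hP : (Pt2 H Bl pr Rd rt δ).Adj (Sum.inr x) (Sum.inr u) := by
    unfold Pt2
    rw [SimpleGraph.fromRel_adj]
    refine ⟨fun h => hxu.ne (Sum.inr_injective h), Or.inl (Or.inr (Or.inl ⟨x, u, hxu, rfl, rfl⟩))⟩
  refine ⟨F, ⟨hinj, fun v v' hvv => ?_⟩, hFa, hFb, fun v h h' => ⟨_, hFv v h h'⟩⟩
  have hne : F v ≠ F v' := fun h => hvv.ne (hinj h)
  by_cases h1 : v' = a ∨ v' = b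
  · by_cases h2 : v = a ∨ v = b
    · rcases h1 with h1 | h1 <;> rcases h2 with h2 | h2
      · exact absurd (h2.trans h1.symm) hvv.ne
      · rw [h1, h2, hFa, hFb]
        exact ⟨hP.symm, by rw [hC]; exact hxuC⟩
      · rw [h1, h2, hFa, hFb]
        exact ⟨hP, hxuC⟩
      · exact absurd (h2.trans h1.symm) hvv.ne
    · push Not at h2
      obtain ⟨h3, h4⟩ := hkey v' v hvv.symm h2.1 h2.2
      exact ⟨(hE v' v hne.symm h3).symm, by rw [hC]; exact h4⟩
  · push Not at h1
    obtain ⟨h3, h4⟩ := hkey v v' hvv h1.1 h1.2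
    exact ⟨hE v v' hne h3, h4⟩

end MP3240Q
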