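import Mathlib
import Pool.Agent.Lib.MP_3240be_co.Q22.Defs2

set_option autoImplicit false

/-!
# Row BCL: a blob with one passenger
-/

namespace MP3240Q

/-- Row BCL. -/
theorem bcl_proof : BclStatement := by
  intro Λ P G M n K N H Bl pr Rd rt δ C β₀ hC hcol c w q hw hv ⟨g, hg, hgc⟩
  classical
  set F : Fin N → Fin K → GY Λ P G M K N ⊕ Fin n := fun ν v =>
    if v = w then Sum.inr q else Sum.inl (GY.l c (g (Fin.castSucc ν)) v) with hF
  have hFw : ∀ ν, F ν w = Sum.inr q := fun ν => by simp [hF]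
  have hFv : ∀ ν v, v ≠ w → F ν v = Sum.inl (GY.l c (g (Fin.castSucc ν)) v) := fun ν v h => by
    simp [hF, h]
  refine ⟨F, fun ν => ?_, hFw, fun ν v h => ⟨_, hFv ν v h⟩, ?_⟩
  · have hinj : Function.Injective (F ν) := by
      intro v v' h
      by_cases h1 : v = w
      · by_cases h2 : v' = w
        · rw [h1, h2]
        · rw [h1, hFw, hFv ν v' h2] at h
          cases h
      · by_cases h2 : v' = w
        · rw [h2, hFw, hFv ν v h1] at h
          cases h
        · rw [hFv ν v h1, hFv ν v' h2] at h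
          simp only [Sum.inl.injEq, GY.l.injEq] at h
          exact h.2.2
    have hfr : ∀ v, (Bl c).Adj w v → v ≠ w → Fr2 Bl pr c q v := fun v h h' =>
      ⟨w, h, hw, hv v h'⟩
    have hkey : ∀ i j, (Bl c).Adj i j → EB2 Bl pr (F ν i) (F ν j) ∧ C (F ν i) (F ν j) = β₀ := by
      intro i j hij
      have hne : i ≠ j := hij.ne
      by_cases h1 : i = w
      · subst h1
        have h2 : j ≠ i := hne.symm
        rw [hFw, hFv ν j h2]
        exact ⟨Or.inr (Or.inl ⟨c, _, q, j, hfr j hij h2, rfl, rfl⟩), hgc _ q j (hfr j hij h2)⟩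
      · by_cases h2 : j = w
        · subst h2
          rw [hFw, hFv ν i h1]
          refine ⟨Or.inr (Or.inr ⟨c, _, q, i, hfr i hij.symm h1, rfl, rfl⟩), ?_⟩
          rw [hC]
          exact hgc _ q i (hfr i hij.symm h1)
        · rw [hFv ν i h1, hFv ν j h2]
          have h3 : EB2 Bl pr (Sum.inl (GY.l c (g (Fin.castSucc ν)) i) : GY Λ P G M K N ⊕ Fin n)
              (Sum.inl (GY.l c (g (Fin.castSucc ν)) j)) :=
            Or.inl ⟨c, _, i, j, hij, hv i h1, hv j h2, rfl, rfl⟩
          exact ⟨h3, hcol _ _ h3⟩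
    refine ⟨hinj, fun i j hij => ⟨?_, (hkey i j hij).2⟩⟩
    unfold Pt2
    rw [SimpleGraph.fromRel_adj]
    exact ⟨fun h => hij.ne (hinj h), Or.inl (Or.inl (hkey i j hij).1)⟩
  · intro ν ν' v v' h1 h
    by_cases h2 : v' = w
    · rw [h2, hFw, hFv ν v h1] at h
      cases h
    · rw [hFv ν v h1, hFv ν' v' h2] at h
      simp only [Sum.inl.injEq, GY.l.injEq] at h
      exact Fin.castSucc_injective N (hg h.2.1)

end MP3240Q
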