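import Mathlib
import Pool.Agent.Lib.MP_3240be_co.Q22.Defs2

set_option autoImplicit false

/-!
# Theorem Q2: row CNV
-/

namespace MP3240Q

/-- Row CNV. -/
theorem cnv_proof : CnvStatement := by
  intro k n N L D H 𝓛 S C₀ h
  refine ⟨h.pat, h.symm, h.red, h.isred, h.only, h.two, ?_⟩
  intro C hC
  rcases h.arr C hC with h1 | ⟨c, hc⟩
  · exact Or.inl h1
  · refine Or.inr ⟨c, hc.edge, ?_, ?_⟩
    · intro a b hab
      obtain ⟨f, hf, hf2, -⟩ := hc.cop a b hab
      exact ⟨f, hf, hf2, fun v q _ => ⟨fun i => i.elim0, fun i => i.elim0, fun i => i.elim0⟩⟩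
    · intro _
      refine ⟨Sum.elim (fun i => i.elim0) (fun i => i.elim0), ?_, fun i => i.elim0⟩
      intro i
      rcases i with i | i
      · exact i.elim0
      · exact i.elim0

end MP3240Q
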