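import Mathlib
import Pool.Agent.Lib.MP_3240be_co.Q22.Defs2

set_option autoImplicit false

/-!
# Row CP2: gluing a copy of `D`
-/

namespace MP3240Q

theorem cp2_em_inj {L Q I M : Type} {δ : M → L → I} (hδ : ∀ m, Function.Injective (δ m)) (m : M) :
    Function.Injective (em (Q := Q) δ m) := by
  intro s s' h
  rcases s with l | q <;> rcases s' with l' | q'
  · exact congrArg Sum.inl (hδ m (Sum.inl.inj h))
  · exact absurd h (by simp [em])
  · exact absurd h (by simp [em])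
  · have h2 := Sum.inr.inj h
    exact congrArg Sum.inr (Prod.mk.inj h2).2

theorem cp2_adj_em {L Q I M : Type} {S : SimpleGraph (L ⊕ Q)} {δ : M → L → I}
    (hδ : ∀ m, Function.Injective (δ m)) (m : M) {s s' : L ⊕ Q} (h : S.Adj s s') :
    (Gl S δ).Adj (em δ m s) (em δ m s') :=
  ⟨fun hh => h.ne (cp2_em_inj hδ m hh), m, s, s', h, rfl, rfl⟩

/-- Vertices that are already embedded keep the property of the field `all`. -/
theorem cp2_all_mono (hMon : MonStatement) {L Q I M : Type} (𝓛 : Set SG)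
    (S : SimpleGraph (L ⊕ Q)) (δ : M → L → I) (χ : M → Prop) (Cφ : L ⊕ Q → L ⊕ Q → Bool)
    (c : Bool) (N j : ℕ) (y : I ⊕ (M × Q))
    (h : (∃ x, y = Sum.inl x ∧ XS δ χ N (j + 1 + 1) x) ∨
      ∃ m q, y = Sum.inr (m, q) ∧ χ m ∧ (∀ l, XS δ χ N (j + 1 + 1) (δ m l)) ∧
        ∀ x ∈ 𝓛, ∀ w : Fin x.1, Hang x.2 S Cφ c N q w) :
    (∃ x, y = Sum.inl x ∧ XS δ χ N (j + 1) x) ∨
      ∃ m q, y = Sum.inr (m, q) ∧ χ m ∧ (∀ l, XS δ χ N (j + 1) (δ m l)) ∧
        ∀ x ∈ 𝓛, ∀ w : Fin x.1, Hang x.2 S Cφ c N q w := by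
  rcases h with ⟨x, hx, hxs⟩ | ⟨m, q, hy, hχ, hl, hh⟩
  · exact Or.inl ⟨x, hx, hMon L I M δ χ N (j + 1) x hxs⟩
  · exact Or.inr ⟨m, q, hy, hχ, fun l => hMon L I M δ χ N (j + 1) _ (hl l), hh⟩

theorem cp2_proof (hMon : MonStatement) (hFre : FreStatement) : Cp2Statement := by
  intro k N L Q I M D 𝓛 S δ C χ Cφ c hH j T A F g hAfin hAN hTA hFA hSt f r a b hr hnew hab
    hra hrb
  obtain ⟨e, ⟨heinj, heD⟩, hel, hehang⟩ := hH.rich.cop a b hab
  obtain ⟨lr, hlr⟩ := hel r hra hrb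
  obtain ⟨x, hx, hxs⟩ := hSt.free (f r) hr
  obtain ⟨m, hχ, hml, hmx, hmB⟩ := hFre N L Q I M δ χ hH.inj hH.lin (j + 1) x lr (g '' A)
    (hAfin.image g) (lt_of_le_of_lt (Set.ncard_image_le hAfin) hAN) hxs
  classical
  obtain ⟨g', hg'⟩ : ∃ g' : ℕ → I ⊕ (M × Q), g' = fun u =>
    if h : ∃ v, f v = u ∧ v ≠ r then em δ m (e h.choose) else g u := ⟨_, rfl⟩
  have gA : ∀ u ∈ A, g' u = g u := by
    intro u hu
    rw [hg']
    have hn : ¬ ∃ v, f v = u ∧ v ≠ r := by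
      rintro ⟨v, hv, hvr⟩
      exact hnew v hvr (hv ▸ hu)
    simp only [hn, dite_false]
  have gf : ∀ v, g' (f v) = em δ m (e v) := by
    intro v
    by_cases hv : v = r
    · subst hv
      rw [gA _ (hFA hr), hx, hlr]
      simp only [em, hml]
    · rw [hg']
      have hn : ∃ w, f w = f v ∧ w ≠ r := ⟨v, rfl, hv⟩
      simp only [hn, dite_true]
      have h1 : hn.choose = v := f.injective hn.choose_spec.1
      rw [h1]
  have key : ∀ u ∈ A, ∀ v, v ≠ r → g u ≠ em δ m (e v) := by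
    intro u hu v hv h
    have h1 := hmB (e v) (h ▸ Set.mem_image_of_mem g hu)
    exact hv (heinj (h1.trans hlr.symm))
  refine ⟨g', ?_, ?_, ?_, ?_⟩
  · -- injectivity
    have aux : ∀ u ∈ A, ∀ v, g' u = g' (f v) → u = f v := by
      intro u hu v h
      by_cases hv : v = r
      · subst hv
        rw [gA u hu, gA _ (hFA hr)] at h
        exact hSt.inj hu (hFA hr) h
      · rw [gA u hu, gf v] at h
        exact absurd h (key u hu v hv)
    rintro u (hu | ⟨v, rfl⟩) w (hw | ⟨v', rfl⟩) h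
    · rw [gA u hu, gA w hw] at h
      exact hSt.inj hu hw h
    · exact aux u hu v' h
    · exact (aux w hw v h.symm).symm
    · rw [gf, gf] at h
      rw [heinj (cp2_em_inj hH.inj m h)]
  · -- edges
    intro u v huv
    rw [SimpleGraph.sup_adj, SimpleGraph.map_adj] at huv
    rcases huv with huv | ⟨i, i', hii, rfl, rfl⟩
    · rw [gA u (hTA u v huv).1, gA v (hTA u v huv).2]
      exact hSt.adj u v huv
    · rw [gf, gf]
      obtain ⟨h1, h2⟩ := heD i i' hii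
      exact ⟨cp2_adj_em hH.inj m h1, (hH.col m hχ _ _).trans h2⟩
  · -- free vertices
    rintro u (hu | ⟨v, ⟨hva, hvb⟩, rfl⟩)
    · obtain ⟨y, hy, hys⟩ := hSt.free u hu
      exact ⟨y, (gA u (hFA hu)).trans hy, hMon L I M δ χ N (j + 1) y hys⟩
    · obtain ⟨l, hl⟩ := hel v hva hvb
      refine ⟨δ m l, ?_, hmx l⟩
      rw [gf, hl]
      rfl
  · -- all vertices
    rintro u (hu | ⟨v, rfl⟩)
    · rw [gA u hu]
      exact cp2_all_mono hMon 𝓛 S δ χ Cφ c N j _ (hSt.all u hu)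
    · rw [gf]
      rcases hev : e v with l | q
      · exact Or.inl ⟨δ m l, rfl, hmx l⟩
      · exact Or.inr ⟨m, q, rfl, hχ, hmx, hehang v q hev⟩

end MP3240Q
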