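import Mathlib
import Pool.Agent.Lib.MP_3240be_co.Q22.Defs2

set_option autoImplicit false

/-!
# Theorem Q2: row CST
-/

namespace MP3240Q

/-- Row CST. -/
theorem cst_proof : CstStatement := by
  intro L Q t K N h A S C c
  have key : ∀ f, Mono S C (A.map (Fin.castLEEmb h)) c f →
      Mono S C A c (fun v => f (Fin.castLE h v)) := by
    intro f hf
    refine ⟨?_, ?_⟩
    · intro v v' hv
      exact Fin.castLE_injective h (hf.1 hv)
    · intro i j hij
      exact hf.2 _ _ ((SimpleGraph.map_adj_apply (G := A) (f := Fin.castLEEmb h)).2 hij)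
  refine ⟨key, ?_⟩
  intro q w ⟨g, h1, h2, h3, h4⟩
  refine ⟨fun ν v => g ν (Fin.castLE h v), fun ν => key _ (h1 ν), h2, ?_, ?_⟩
  · intro ν v hv
    exact h3 ν _ (fun e => hv (Fin.castLE_injective h e))
  · intro ν ν' v v' hv e
    exact h4 ν ν' _ _ (fun e => hv (Fin.castLE_injective h e)) e

end MP3240Q
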