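import Mathlib
import Pool.Agent.Lib.MP_3240be_co.Q22.Defs2
import Pool.Agent.Lib.MP_3240be_co.Q22.Dtf

set_option autoImplicit false

/-!
# Row DT2: simple facts on D-trees
-/

namespace MP3240Q

theorem dt2_proof (hS : SmfStatement) : Dt2Statement := by
  intro k D T A F h
  induction h with
  | start y =>
    refine ⟨Set.finite_singleton y, ?_, subset_rfl, ?_⟩
    · intro u v huv
      exact absurd huv (by simp)
    · intro _
      exact ⟨fun _ => true, fun x y hxy => absurd hxy (by simp)⟩
  | small T A F t U f r h hU hr hnew ih =>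
    obtain ⟨h1, h2, h3, h4⟩ := ih
    refine ⟨h1.union (Set.finite_range f), dtf_map_mem U T A f h2, ?_, ?_⟩
    · exact Set.union_subset_union h3 (Set.image_subset_range _ _)
    · intro hD
      exact dtf_bip_copy U T A f r hr hnew h2 ((hS k t D U hU).2 hD) (h4 hD)
  | copy T A F f r a b h hr hnew hab hra hrb ih =>
    obtain ⟨h1, h2, h3, h4⟩ := ih
    refine ⟨h1.union (Set.finite_range f), dtf_map_mem D T A f h2, ?_, ?_⟩
    · exact Set.union_subset_union h3 (Set.image_subset_range _ _)
    · intro hD
      exact dtf_bip_copy D T A f r (h3 hr) hnew h2 hD (h4 hD)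

end MP3240Q
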