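import Mathlib
import Pool.Agent.Lib.MP_3240be_co.Q22.Defs2

set_option autoImplicit false

/-!
# Row EM2: induction on the D-tree
-/

namespace MP3240Q

theorem em2_xs_mono (hmon : MonStatement) {L I M : Type} {δ : M → L → I} {χ : M → Prop} {R : ℕ}
    {x : I} {i j : ℕ} (hij : i ≤ j) (h : XS δ χ R j x) : XS δ χ R i x := by
  induction j, hij using Nat.le_induction with
  | base => exact h
  | succ j _ ih => exact ih (hmon L I M δ χ R j x h)

theorem em2_proof (hMon : MonStatement) (hSmp : SmpStatement) (hSmq : SmqStatement)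
    (hCp : Cp2Statement) (hDt : Dt2Statement) : Em2Statement := by
  intro k D T A F h
  induction h with
  | start y =>
    refine ⟨∅, 1, Set.finite_empty, fun x hx => absurd hx (Set.notMem_empty x), ?_⟩
    intro 𝓛' N _ _ L Q I M S δ C χ Cφ c hH x j hx
    refine ⟨fun _ => Sum.inl x, ?_, ?_, ?_, ?_⟩
    · intro u hu v hv _
      rw [Set.mem_singleton_iff.1 hu, Set.mem_singleton_iff.1 hv]
    · intro u v huv
      exact absurd huv (by simp)
    · intro u _
      exact ⟨x, rfl, hx⟩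
    · intro u _
      exact Or.inl ⟨x, rfl, hx⟩
  | small T A F t U f r h hU hr hnew ih =>
    obtain ⟨𝓛, B, h𝓛, hs, hB⟩ := ih
    obtain ⟨hA, hT, hFA, -⟩ := hDt k D T A F h
    refine ⟨insert ⟨t, U⟩ 𝓛, B + A.ncard + 1, h𝓛.insert _, ?_, ?_⟩
    · rintro x (rfl | hx)
      · exact hU
      · exact hs x hx
    · intro 𝓛' N hsub hN L Q I M S δ C χ Cφ c hH x j hx
      obtain ⟨g, hg⟩ := hB 𝓛' N ((Set.subset_insert _ _).trans hsub) (by omega) L Q I M S δ C χ
        Cφ c hH x (j + 1) (em2_xs_mono hMon (by omega) hx)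
      have hmem : (⟨t, U⟩ : SG) ∈ 𝓛' := hsub (Set.mem_insert _ _)
      rcases hg.all (f r) hr with hp | hp
      · exact hSmp k N L Q I M D 𝓛' S δ C χ Cφ c hH j T A F g hA (by omega) hT hFA hg t U hmem
          f r hr hnew hp
      · exact hSmq k N L Q I M D 𝓛' S δ C χ Cφ c hH j T A F g hA (by omega) hT hFA hg t U hmem
          f r hr hnew hp
  | copy T A F f r a b h hr hnew hab hra hrb ih =>
    obtain ⟨𝓛, B, h𝓛, hs, hB⟩ := ih
    obtain ⟨hA, hT, hFA, -⟩ := hDt k D T A F h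
    refine ⟨𝓛, B + A.ncard + 1, h𝓛, hs, ?_⟩
    intro 𝓛' N hsub hN L Q I M S δ C χ Cφ c hH x j hx
    obtain ⟨g, hg⟩ := hB 𝓛' N hsub (by omega) L Q I M S δ C χ Cφ c hH x (j + 1)
      (em2_xs_mono hMon (by omega) hx)
    exact hCp k N L Q I M D 𝓛' S δ C χ Cφ c hH j T A F g hA (by omega) hT hFA hg f r a b hr
      hnew hab hra hrb

end MP3240Q
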