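import Mathlib
import Pool.Agent.Lib.MP_3240be_co.Q22.Defs2

set_option autoImplicit false

/-!
# Row FI2: the theorem
-/

namespace MP3240Q

open Pool.Agent.Lib.MP_3240be_co.H82 (TC Good)
open Pool.Agent.Lib.MP_3240be_co.H36.Chrom (Sparse ArrowsT)

theorem fi2_proof (hP : Piece2Statement) (hV : CnvStatement) (hT : TypStatement)
    (hE : Em2Statement) (hN : NfhStatement) (hL : LinStatement) (hF : Dt2Statement) :
    Main2Statement := by
  classical
  intro p k n n' D H H' hD hDH hHT hconn hHH' hno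
  obtain ⟨T, A, F, hDT, j, hj1, hj2, hj3⟩ := hHT
  obtain ⟨𝓛, B, h𝓛, hsm, hB⟩ := hE k D T A F hDT
  obtain ⟨-, -, -, hbip⟩ := hF k D T A F hDT
  have hbipH : p → Bip H := by
    intro hp
    obtain ⟨κ, hκ⟩ := hbip (hD.bip hp)
    exact ⟨fun x => κ (j x), fun x y hxy => hκ _ _ (hj3 x y hxy)⟩
  obtain ⟨L, hLf, S, C₀, hS⟩ := hP p k n (B + 1) D H 𝓛 hD hbipH h𝓛 hsm (by omega)
  obtain ⟨l0, l1, hl⟩ := hS.two
  obtain ⟨I, M, hI, hM, δ, hδ, hsp, hty⟩ :=
    hT (k * k + 2) (B + 1) (0 + B + 1) L (L ⊕ Fin n → L ⊕ Fin n → Bool) l0 l1 hl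
  have hlin : Lin δ := hL L I M δ (k * k + 2) (by omega) hsp
  refine ⟨I ⊕ (M × Fin n), inferInstance, Gl S δ, ?_, ?_⟩
  · intro C hC
    obtain ⟨φ, x, hx⟩ := hty (fun m s s' => C (em δ m s) (em δ m s'))
    -- one hyperedge of this type
    obtain ⟨g0, hg0, hg1⟩ := hx l0
    obtain ⟨hm, -, hm3⟩ := hg1 0
    have hφs : ∀ s s', φ s s' = φ s' s := by
      intro s s'
      have h1 : C (em δ (g0 0) s) (em δ (g0 0) s') = φ s s' := congrFun (congrFun hm s) s'
      have h2 : C (em δ (g0 0) s') (em δ (g0 0) s) = φ s' s := congrFun (congrFun hm s') s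
      rw [← h1, ← h2, hC]
    rcases hS.arr φ hφs with ⟨c, hc⟩ | ⟨c, hc⟩
    · -- the passengers of this gadget
      refine ⟨c, fun q => Sum.inr (g0 0, q), ?_, ?_⟩
      · intro q q' h
        exact congrArg Prod.snd (Sum.inr_injective h)
      · intro q q' hqq
        refine ⟨⟨?_, g0 0, Sum.inr q, Sum.inr q', (hS.pat q q').2 hqq, rfl, rfl⟩, ?_⟩
        · intro h
          exact hqq.ne (congrArg Prod.snd (Sum.inr_injective h))
        · rw [← hc q q' hqq, ← hm]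
          rfl
    · have hH : Host2 D 𝓛 (B + 1) S δ C
          (fun m => (fun s s' => C (em δ m s) (em δ m s')) = φ) φ c :=
        ⟨hδ, hlin, hC, fun m hm s s' => congrFun (congrFun hm s) s', hc⟩
      obtain ⟨g, hg⟩ := hB 𝓛 (B + 1) (Set.Subset.refl _) (by omega) L (Fin n) I M S δ C _ φ c
        hH (δ (g0 0) l0) 0 (hm3 l0)
      refine ⟨c, fun i => g (j i), ?_, fun x y hxy => hg.adj _ _ (hj3 x y hxy)⟩
      intro i i' h
      exact hj1 (hg.inj (hj2 i) (hj2 i') h)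
  · refine hN p k n n' 0 0 D H H' hD hconn ?_ hno L I M S C₀ δ
      (hV k n (B + 1) L D H 𝓛 S C₀ hS) hδ hsp
    obtain ⟨f, hf1, hf2⟩ := hDH
    obtain ⟨f', hf1', hf2'⟩ := hHH'
    exact ⟨fun x => f' (f x), hf1'.comp hf1, fun x y hxy => hf2' _ _ (hf2 x y hxy)⟩

end MP3240Q
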