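import Pool.Agent.Lib.MP_3240be_co.Q22.Defs2

set_option autoImplicit false

/-!
# Row GM2: the graph `Γ` for the small graphs
-/

namespace MP3240Q

open Pool.Agent.Lib.MP_3240be_co.H82 (TC Good)

/-- Row GM2. -/
theorem gm2_proof (hA : GmaStatement) (hB : GmbStatement) : Gm2Statement := by
  intro p k D 𝓛 hTC hfin hsm
  by_cases hD : Bip D
  · obtain ⟨x⟩ := hTC.ne
    obtain ⟨y, hy⟩ := hTC.nbr x
    obtain ⟨X, hX, Γ, hΓ, h⟩ := hB k D 𝓛 hD hfin hsm ⟨x, y, hy⟩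
    exact ⟨X, hX, Γ, fun _ => hΓ, h⟩
  · obtain ⟨X, hX, Γ, h⟩ := hA k D 𝓛 hD hfin hsm
    exact ⟨X, hX, Γ, fun hp => absurd (hTC.bip hp) hD, h⟩

end MP3240Q
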