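import Pool.Agent.Lib.MP_3240be_co.Q22.Defs2

set_option autoImplicit false

/-!
# Row GMA: the graph `Γ` for the small graphs, `D` not bipartite
-/

namespace MP3240Q

open Pool.Agent.Lib.MP_3240be_co.H82 (TC Good)

/-- A bipartite graph with at most `t` vertices is contained in `K_{t,t}`. -/
theorem gma_kk {X : Type} {Γ : SimpleGraph X} {C : X → X → Bool} (hC : ∀ x y, C x y = C y x)
    {c : Bool} {T t : ℕ} (ht : t ≤ T) {g : Fin T ⊕ Fin T → X} (hg : KK Γ C c T g)
    (U : SimpleGraph (Fin t)) (κ : Fin t → Bool) (hκ : ∀ x y, U.Adj x y → κ x ≠ κ y) :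
    ∃ f, Mono Γ C U c f := by
  let e : Fin t → Fin T ⊕ Fin T := fun v =>
    if κ v = true then Sum.inl (Fin.castLE ht v) else Sum.inr (Fin.castLE ht v)
  have e1 : ∀ v, κ v = true → e v = Sum.inl (Fin.castLE ht v) := fun v hv => by
    simp only [e, if_pos hv]
  have e2 : ∀ v, κ v = false → e v = Sum.inr (Fin.castLE ht v) := fun v hv => by
    have : ¬ κ v = true := by rw [hv]; decide
    simp only [e, if_neg this]
  have he : Function.Injective e := by
    intro v w hvw
    cases hv : κ v with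
    | true =>
      cases hw : κ w with
      | true =>
        rw [e1 v hv, e1 w hw] at hvw
        exact Fin.castLE_injective ht (Sum.inl_injective hvw)
      | false =>
        rw [e1 v hv, e2 w hw] at hvw
        exact absurd hvw (by simp)
    | false =>
      cases hw : κ w with
      | true =>
        rw [e2 v hv, e1 w hw] at hvw
        exact absurd hvw (by simp)
      | false =>
        rw [e2 v hv, e2 w hw] at hvw
        exact Fin.castLE_injective ht (Sum.inr_injective hvw)
  refine ⟨fun v => g (e v), hg.1.comp he, ?_⟩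
  intro v w hvw
  show Γ.Adj (g (e v)) (g (e w)) ∧ C (g (e v)) (g (e w)) = c
  cases hv : κ v with
  | true =>
    have hw : κ w = false := by
      cases hw : κ w with
      | true => exact absurd (hv.trans hw.symm) (hκ v w hvw)
      | false => rfl
    rw [e1 v hv, e2 w hw]
    exact hg.2 _ _
  | false =>
    have hw : κ w = true := by
      cases hw : κ w with
      | true => rfl
      | false => exact absurd (hv.trans hw.symm) (hκ v w hvw)
    rw [e2 v hv, e1 w hw]
    obtain ⟨h1, h2⟩ := hg.2 (Fin.castLE ht w) (Fin.castLE ht v)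
    exact ⟨h1.symm, by rw [hC]; exact h2⟩

/-- Row GMA. -/
theorem gma_proof (h : GamStatement) : GmaStatement := by
  classical
  intro k D 𝓛 hD hfin hsm
  obtain ⟨T, hT⟩ : ∃ T : ℕ, ∀ x ∈ 𝓛, x.1 ≤ T := by
    obtain ⟨T, hT⟩ := (hfin.image (fun x : SG => x.1)).bddAbove
    exact ⟨T, fun x hx => hT ⟨x, hx, rfl⟩⟩
  obtain ⟨X, hX, Γ, hgood, harr⟩ := h k T D hD
  have key : ∀ (C : X → X → Bool) (c : Bool), (∀ x y, C x y = C y x) →
      (∃ g, KK Γ C c T g) → ∀ x ∈ 𝓛, Sub x.2 D ∨ ∃ g, Mono Γ C x.2 c g := by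
    rintro C c hC ⟨g, hg⟩ x hx
    rcases hsm x hx with h1 | ⟨κ, hκ, -⟩
    · exact Or.inl h1.1
    · exact Or.inr (gma_kk hC (hT x hx) hg x.2 κ hκ)
  refine ⟨X, hX, Γ, hgood, ?_⟩
  intro C hC
  rcases harr C hC with ⟨c, h1, h2⟩ | h2
  · exact Or.inl ⟨c, h1, key C c hC h2⟩
  · exact Or.inr (fun c => key C c hC (h2 c))

end MP3240Q
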