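import Mathlib
import Pool.Agent.Lib.MP_3240be_co.Q22.Defs2

set_option autoImplicit false

/-!
# Row LBS: the concrete labels
-/

namespace MP3240Q

open Pool.Agent.Lib.MP_3240be_co.H82 (TC Good)

/-- A copy of `D` in `A.map ι` gives a copy of `D` in `A`. -/
theorem lbs_pull {k t K : ℕ} {D : SimpleGraph (Fin k)} {A : SimpleGraph (Fin t)} (h : t ≤ K)
    (hnb : ∀ i, ∃ j, D.Adj i j) (f : Fin k → Fin K) (hf : Function.Injective f)
    (hadj : ∀ i j, D.Adj i j → (A.map (Fin.castLEEmb h)).Adj (f i) (f j)) :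
    ∃ f' : Fin k → Fin t, Function.Injective f' ∧ (∀ i, f i = Fin.castLE h (f' i)) ∧
      ∀ i j, D.Adj i j → A.Adj (f' i) (f' j) := by
  have h1 : ∀ i, ∃ v : Fin t, f i = Fin.castLE h v := by
    intro i
    obtain ⟨j, hj⟩ := hnb i
    have := hadj i j hj
    rw [SimpleGraph.map_adj] at this
    obtain ⟨u, v, _, hu, _⟩ := this
    exact ⟨u, hu.symm⟩
  choose f' hf' using h1
  have hinj : Function.Injective (Fin.castLE h) := Fin.castLE_injective h
  refine ⟨f', ?_, hf', ?_⟩
  · intro i j hij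
    apply hf
    rw [hf', hf', hij]
  · intro i j hij
    have := hadj i j hij
    rw [SimpleGraph.map_adj] at this
    obtain ⟨u, v, huv, hu, hv⟩ := this
    rw [hf' i] at hu
    rw [hf' j] at hv
    have e1 : u = f' i := hinj hu
    have e2 : v = f' j := hinj hv
    rw [← e1, ← e2]
    exact huv

/-- An injective homomorphism of a finite graph into itself hits every edge. -/
theorem lbs_surj {k : ℕ} {D : SimpleGraph (Fin k)} (f : Fin k → Fin k)
    (hf : Function.Injective f) (hadj : ∀ i j, D.Adj i j → D.Adj (f i) (f j)) (a b : Fin k)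
    (hab : D.Adj a b) : ∃ i j, D.Adj i j ∧ f i = a ∧ f j = b := by
  have hbij : Function.Bijective f := Finite.injective_iff_bijective.1 hf
  let e : Equiv.Perm (Fin k) := Equiv.ofBijective f hbij
  have hpow : ∀ m : ℕ, ∀ i j, D.Adj i j → D.Adj ((e ^ m) i) ((e ^ m) j) := by
    intro m
    induction m with
    | zero => exact fun i j h => h
    | succ m ih =>
      intro i j h
      rw [pow_succ', Equiv.Perm.mul_apply, Equiv.Perm.mul_apply]
      exact hadj _ _ (ih i j h)
  have ho : e ^ orderOf e = 1 := pow_orderOf_eq_one e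
  have hpos : 0 < orderOf e := orderOf_pos e
  refine ⟨(e ^ (orderOf e - 1)) a, (e ^ (orderOf e - 1)) b, hpow _ a b hab, ?_, ?_⟩
  · change e ((e ^ (orderOf e - 1)) a) = a
    rw [← Equiv.Perm.mul_apply, ← pow_succ', Nat.sub_add_cancel hpos, ho]
    rfl
  · change e ((e ^ (orderOf e - 1)) b) = b
    rw [← Equiv.Perm.mul_apply, ← pow_succ', Nat.sub_add_cancel hpos, ho]
    rfl

/-- A proper colouring of `A` gives one of `A.map ι` that extends it. -/
theorem lbs_col {t K : ℕ} {A : SimpleGraph (Fin t)} (h : t ≤ K) (κ : Fin t → Bool)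
    (hκ : ∀ x y, A.Adj x y → κ x ≠ κ y) :
    ∃ κ' : Fin K → Bool, (∀ v, κ' (Fin.castLE h v) = κ v) ∧
      ∀ x y, (A.map (Fin.castLEEmb h)).Adj x y → κ' x ≠ κ' y := by
  classical
  have key : ∃ κ' : Fin K → Bool, ∀ v, κ' (Fin.castLE h v) = κ v := by
    refine ⟨fun x => if hx : x.1 < t then κ ⟨x.1, hx⟩ else true, ?_⟩
    intro v
    have hv : (Fin.castLE h v).1 < t := v.2
    simp only [hv, dif_pos]
    rfl
  obtain ⟨κ', h'⟩ := key
  refine ⟨κ', h', ?_⟩
  intro x y hxy
  rw [SimpleGraph.map_adj] at hxy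
  obtain ⟨u, v, huv, rfl, rfl⟩ := hxy
  have e1 : κ' (Fin.castLEEmb h u) = κ u := h' u
  have e2 : κ' (Fin.castLEEmb h v) = κ v := h' v
  rw [e1, e2]
  exact hκ u v huv

section Labels

variable {k n : ℕ} (D : SimpleGraph (Fin k)) (H : SimpleGraph (Fin n)) (𝓛 : Set SG)

/-- Blobs: copies of `D` minus the edge `a b` put at the edge `x u`; copies of small graphs
hanging at `x` in the role `w`. -/
abbrev LL : Type :=
  {c : (Fin n × Fin n) × (Fin k × Fin k) // H.Adj c.1.1 c.1.2 ∧ D.Adj c.2.1 c.2.2} ⊕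
    ((g : 𝓛) × (Fin g.1.1 × {x : Fin n // ∃ u, H.Adj x u}))

/-- Red pieces. -/
abbrev PP : Type := Fin k ⊕ ((g : 𝓛) × Fin g.1.1)

end Labels

theorem lbs_proof : LbsStatement := by
  classical
  intro p k n D H 𝓛 κH hD hκH h𝓛 hsm
  haveI : Finite 𝓛 := h𝓛
  -- every vertex of `D` has a neighbour
  have hnb : ∀ i, ∃ j, D.Adj i j := hD.nbr
  have hk3 : 2 ≤ k := by
    obtain ⟨x⟩ := hD.ne
    obtain ⟨z, hz, -⟩ := hD.third x x
    by_contra hcon
    apply hz
    apply Fin.ext
    have := x.2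
    have := z.2
    omega
  obtain ⟨K, hk, hs⟩ : ∃ K, k ≤ K ∧ ∀ x ∈ 𝓛, x.1 ≤ K := by
    obtain ⟨B, hB⟩ := (h𝓛.image (fun x : SG => x.1)).bddAbove
    refine ⟨max k B, le_max_left _ _, fun x hx => ?_⟩
    exact le_trans (hB ⟨x, hx, rfl⟩) (le_max_right _ _)
  have hinj : ∀ {t : ℕ} (h : t ≤ K), Function.Injective (Fin.castLE h) :=
    fun h => Fin.castLE_injective h
  let Bl : LL D H 𝓛 → SimpleGraph (Fin K) := fun c => match c with
    | Sum.inl _ => D.map (Fin.castLEEmb hk)
    | Sum.inr ⟨g, _⟩ => g.1.2.map (Fin.castLEEmb (hs g.1 g.2))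
  let pr : LL D H 𝓛 → Fin K → Option (Fin n) := fun c v => match c with
    | Sum.inl c => if v = Fin.castLE hk c.1.2.1 then some c.1.1.1 else
        if v = Fin.castLE hk c.1.2.2 then some c.1.1.2 else none
    | Sum.inr ⟨g, w, x⟩ => if v = Fin.castLE (hs g.1 g.2) w then some x.1 else none
  let Rd : PP (k := k) 𝓛 → SimpleGraph (Fin K) := fun c => match c with
    | Sum.inl _ => D.map (Fin.castLEEmb hk)
    | Sum.inr ⟨g, _⟩ => g.1.2.map (Fin.castLEEmb (hs g.1 g.2))
  let rt : PP (k := k) 𝓛 → Fin K := fun c => match c with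
    | Sum.inl w => Fin.castLE hk w
    | Sum.inr ⟨g, w⟩ => Fin.castLE (hs g.1 g.2) w
  have prl : ∀ c v, pr (Sum.inl c) v = if v = Fin.castLE hk c.1.2.1 then some c.1.1.1 else
        if v = Fin.castLE hk c.1.2.2 then some c.1.1.2 else none := fun _ _ => rfl
  have prr : ∀ g w x v, pr (Sum.inr ⟨g, w, x⟩) v =
      if v = Fin.castLE (hs g.1 g.2) w then some x.1 else none := fun _ _ _ _ => rfl
  refine ⟨K, hk, hs, LL D H 𝓛, PP (k := k) 𝓛, inferInstance, inferInstance, Bl, pr, Rd, rt,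
    ?_, hk3.trans hk, ⟨Sum.inl ⟨0, by omega⟩⟩, ?_, ?_, ?_, ?_⟩
  · -- the properties
    refine ⟨?_, ?_, ?_, ?_, ?_, ?_⟩
    · rintro (⟨⟨⟨x, u⟩, a, b⟩, hxu, hab⟩ | ⟨g, w, x, u, hxu⟩)
      · refine ⟨x, u, hxu, ?_⟩
        intro v q hq
        rw [prl] at hq
        split_ifs at hq with h1 h2
        · exact Or.inl (Option.some.inj hq).symm
        · exact Or.inr (Option.some.inj hq).symm
      · refine ⟨x, u, hxu, ?_⟩
        intro v q hq
        rw [prr] at hq
        split_ifs at hq with h1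
        exact Or.inl (Option.some.inj hq).symm
    · rintro (⟨⟨⟨x, u⟩, a, b⟩, hxu, hab⟩ | ⟨g, w, x, u, hxu⟩) v v' q hv hv'
      · rw [prl] at hv hv'
        have hne : x ≠ u := hxu.ne
        split_ifs at hv with h1 h2 <;> split_ifs at hv' with h3 h4
        · rw [h1, h3]
        · exact absurd ((Option.some.inj hv).trans (Option.some.inj hv').symm) hne
        · exact absurd ((Option.some.inj hv').trans (Option.some.inj hv).symm) hne
        · rw [h2, h4]
      · rw [prr] at hv hv'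
        split_ifs at hv with h1
        split_ifs at hv' with h2
        rw [h1, h2]
    · rintro (⟨⟨⟨x, u⟩, a, b⟩, hxu, hab⟩ | ⟨g, w, x, u, hxu⟩) ⟨f, hf, hadj⟩
      · obtain ⟨f', hf', hff, hadj'⟩ := lbs_pull hk hnb f hf (fun i j h => (hadj i j h).1)
        obtain ⟨i, j, hij, hi, hj⟩ := lbs_surj f' hf' hadj' a b hab
        have h2 := (hadj i j hij).2
        rw [prl, prl, hff, hff, hi, hj] at h2
        simp only [if_pos, reduceCtorEq, false_or] at h2
        split_ifs at h2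
      · obtain ⟨f', hf', hff, hadj'⟩ := lbs_pull (hs g.1 g.2) hnb f hf
          (fun i j h => (hadj i j h).1)
        exact (hsm g.1 g.2).1 ⟨f', hf', hadj'⟩
    · rintro (w | ⟨g, w⟩) ⟨f, hf, hno, hadj⟩
      · obtain ⟨f', hf', hff, hadj'⟩ := lbs_pull hk hnb f hf (fun i j h => hadj i j h)
        obtain ⟨i, hi⟩ := (Finite.injective_iff_surjective.1 hf') w
        exact hno i (by rw [hff, hi])
      · obtain ⟨f', hf', hff, hadj'⟩ := lbs_pull (hs g.1 g.2) hnb f hf
          (fun i j h => hadj i j h)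
        exact (hsm g.1 g.2).1 ⟨f', hf', hadj'⟩
    · intro hp
      obtain ⟨κD, hκD⟩ := hD.bip hp
      have hκH' := hκH hp
      rintro (⟨⟨⟨x, u⟩, a, b⟩, hxu, hab⟩ | ⟨g, w, x, u, hxu⟩)
      · obtain ⟨κ', h1, h2⟩ := lbs_col hk (fun v => (κD v).xor ((κD a).xor (κH x)))
          (A := D) (by
            intro v v' h
            have := hκD v v' h
            revert this
            cases κD v <;> cases κD v' <;> cases κD a <;> cases κH x <;> decide)
        refine ⟨κ', h2, ?_⟩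
        intro v q hq
        rw [prl] at hq
        split_ifs at hq with h3 h4
        · rw [h3, h1, ← Option.some.inj hq]
          show ((κD a).xor ((κD a).xor (κH x))) = κH x
          cases κD a <;> cases κH x <;> rfl
        · rw [h4, h1, ← Option.some.inj hq]
          have e1 := hκD a b hab
          have e2 := hκH' x u hxu
          show ((κD b).xor ((κD a).xor (κH x))) = κH u
          revert e1 e2
          cases κD a <;> cases κD b <;> cases κH x <;> cases κH u <;> decide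
      · obtain ⟨κU, hκU⟩ := (hsm g.1 g.2).2 ⟨κD, hκD⟩
        obtain ⟨κ', h1, h2⟩ := lbs_col (hs g.1 g.2) (fun v => (κU v).xor ((κU w).xor (κH x)))
          (A := g.1.2) (by
            intro v v' h
            have := hκU v v' h
            revert this
            cases κU v <;> cases κU v' <;> cases κU w <;> cases κH x <;> decide)
        refine ⟨κ', h2, ?_⟩
        intro v q hq
        rw [prr] at hq
        split_ifs at hq with h3
        rw [h3, h1, ← Option.some.inj hq]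
        show ((κU w).xor ((κU w).xor (κH x))) = κH x
        cases κU w <;> cases κH x <;> rfl
    · intro hp
      obtain ⟨κD, hκD⟩ := hD.bip hp
      rintro (w | ⟨g, w⟩)
      · obtain ⟨κ', -, h2⟩ := lbs_col hk κD hκD
        exact ⟨κ', h2⟩
      · obtain ⟨κU, hκU⟩ := (hsm g.1 g.2).2 ⟨κD, hκD⟩
        obtain ⟨κ', -, h2⟩ := lbs_col (hs g.1 g.2) κU hκU
        exact ⟨κ', h2⟩
  · intro x u a b hxu hab
    refine ⟨Sum.inl ⟨⟨⟨x, u⟩, a, b⟩, hxu, hab⟩, rfl, Or.inl ⟨?_, ?_⟩, ?_⟩
    · rw [prl, if_pos rfl]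
    · rw [prl, if_neg, if_pos rfl]
      intro h
      exact hab.ne (hinj hk h).symm
    · intro v h1 h2
      rw [prl, if_neg h1, if_neg h2]
  · intro x u hxu g hg w
    refine ⟨Sum.inr ⟨⟨g, hg⟩, w, x, u, hxu⟩, rfl, ?_, ?_⟩
    · exact (prr ⟨g, hg⟩ w ⟨x, u, hxu⟩ _).trans (if_pos rfl)
    · intro v h1
      exact (prr ⟨g, hg⟩ w ⟨x, u, hxu⟩ v).trans (if_neg h1)
  · intro w
    exact ⟨Sum.inl w, rfl, rfl⟩
  · intro g hg w
    exact ⟨Sum.inr ⟨⟨g, hg⟩, w⟩, rfl, rfl⟩

end MP3240Q
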