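import Mathlib
import Pool.Agent.Lib.MP_3240be_co.Q22.Defs

set_option autoImplicit false

/-!
# Theorem Q: row ALT
-/

namespace MP3240Q

/-- Row ALT. -/
theorem alt_proof (hcolst : ColStatement) : AltStatement := by
  classical
  intro n k N G M _ D Ok δ hk hδ hhyp C β₀ β₁ hβ c
  -- the class of a point
  let Bad : G → Fin n → Fin k → Prop := fun i q v =>
    Fr D Ok q c v ∧ C (Sum.inr q) (Sum.inl (GX.l c i v)) = β₁
  let cls : G → Option (Bool × Fin k) := fun i =>
    if h : ∃ q v, Bad i q v then some (decide (h.choose = c.x), h.choose_spec.choose) else none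
  let qb : Bool → Fin n := fun b => if b then c.x else c.u
  have hnone : ∀ i, cls i = none → ∀ q v, Fr D Ok q c v →
      C (Sum.inr q) (Sum.inl (GX.l c i v)) = β₀ := by
    intro i hi q v hf
    have h1 : ¬ ∃ q v, Bad i q v := by
      intro h
      simp only [cls, dif_pos h] at hi
      cases hi
    have h2 : C (Sum.inr q) (Sum.inl (GX.l c i v)) ≠ β₁ := fun h => h1 ⟨q, v, hf, h⟩
    revert h2 hβ
    cases C (Sum.inr q) (Sum.inl (GX.l c i v)) <;> cases β₀ <;> cases β₁ <;> simp
  have hsome : ∀ i b v, cls i = some (b, v) → Bad i (qb b) v := by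
    intro i b v hi
    by_cases h : ∃ q v, Bad i q v
    · simp only [cls, dif_pos h] at hi
      have h1 := Option.some.inj hi
      have hb : decide (h.choose = c.x) = b := congrArg Prod.fst h1
      have hv : h.choose_spec.choose = v := congrArg Prod.snd h1
      have h2 : Bad i h.choose v := by
        rw [← hv]
        exact h.choose_spec.choose_spec
      by_cases hx : h.choose = c.x
      · have hb' : b = true := by
          rw [← hb]
          exact decide_eq_true hx
        rw [hb']
        show Bad i c.x v
        rw [← hx]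
        exact h2
      · have hb' : b = false := by
          rw [← hb]
          exact decide_eq_false hx
        rw [hb']
        show Bad i c.u v
        have h3 : h.choose = c.u := by
          rcases h2.1.2.2.2 with h4 | h4
          · exact absurd h4.1 hx
          · exact h4.1
        rw [← h3]
        exact h2
    · simp only [cls, dif_neg h] at hi
      cases hi
  obtain ⟨col, hcol⟩ := hcolst G (Option (Bool × Fin k)) cls N
  obtain ⟨m, hm⟩ := hhyp col
  let t0 : Fin k := ⟨0, by omega⟩
  let t1 : Fin k := ⟨1, by omega⟩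
  have n01 : t0 ≠ t1 := by simp [t0, t1]
  have hall : ∀ t, cls (δ m t) = cls (δ m t0) := by
    intro t
    by_cases ht : t = t0
    · rw [ht]
    · exact (hcol _ _ (fun h => ht (hδ m h)) (hm t t0)).1
  obtain ⟨_, g, hg, hgc⟩ := hcol _ _ (fun h => n01 (hδ m h)) (hm t0 t1)
  rcases hc0 : cls (δ m t0) with _ | ⟨b, v⟩
  · left
    exact ⟨⟨δ m t0, fun q v hf => hnone _ hc0 q v hf⟩, g, hg,
      fun s q v hf => hnone _ ((hgc s).trans hc0) q v hf⟩
  · right
    exact ⟨qb b, v, g, m, hg, (hsome _ b v hc0).1,
      fun s => (hsome _ b v ((hgc s).trans hc0)).2,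
      fun y => (hsome _ b v ((hall y).trans hc0)).2⟩

end MP3240Q
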