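import Mathlib
import Pool.Agent.Lib.MP_3240be_co.Q22.Defs
import Pool.Agent.Lib.MP_3240be_co.H82.Attach

set_option autoImplicit false

/-!
# Theorem Q, row ATT: attaching long positive senders, with passengers

The file H82/Attach with the set `Z` of passengers: a copy of `H` inside a sender avoids `Z`.
-/

namespace MP3240Q

open Pool.Agent.Lib.MP_3240be_co.H82

theorem att_proof : AttStatement := by
  classical
  intro p n H hH W J _ _ G Z p₁ p₂ q₁ q₂ hp hq hpq hnon hZ hb
  obtain ⟨U, hU, S, e₁, e₂, f₁, f₂, ℓ, hℓ, he, hf, hℓ1, hℓ2, hℓ3, hℓ4, hb₁, ⟨d, hd, hdg⟩,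
    hforce⟩ :=
    exists_long H hH (n + 2)
  have ne1 : e₁ ≠ f₁ := fun h => by rw [← h] at hℓ3; omega
  have ne2 : e₁ ≠ f₂ := fun h => by rw [← h] at hℓ4; omega
  have ne3 : e₂ ≠ f₁ := fun h => by rw [← h] at hℓ3; omega
  have ne4 : e₂ ≠ f₂ := fun h => by rw [← h] at hℓ4; omega
  have nn1 : ¬ S.Adj e₁ f₁ := fun h => by have := hℓ _ _ h; omega
  have nn2 : ¬ S.Adj e₁ f₂ := fun h => by have := hℓ _ _ h; omega
  have nn3 : ¬ S.Adj e₂ f₁ := fun h => by have := hℓ _ _ h; omega
  have nn4 : ¬ S.Adj e₂ f₂ := fun h => by have := hℓ _ _ h; omega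
  let T : U → Prop := fun u => u = e₁ ∨ u = e₂ ∨ u = f₁ ∨ u = f₂
  obtain ⟨t, t1, t2, t3, t4⟩ : ∃ t : J → U → W, (∀ j, t j e₁ = p₁ j) ∧ (∀ j, t j e₂ = p₂ j) ∧
      (∀ j, t j f₁ = q₁ j) ∧ ∀ j, t j f₂ = q₂ j := by
    refine ⟨fun j u => if u = e₁ then p₁ j else if u = e₂ then p₂ j else if u = f₁ then q₁ j else
      q₂ j, fun j => if_pos rfl, fun j => ?_, fun j => ?_, fun j => ?_⟩
    · simp only [if_neg he.ne.symm, if_true]
    · simp only [if_neg ne1.symm, if_neg ne3.symm, if_true]
    · simp only [if_neg ne2.symm, if_neg ne4.symm, if_neg hf.ne.symm]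
  have T1 : T e₁ := Or.inl rfl
  have T2 : T e₂ := Or.inr (Or.inl rfl)
  have T3 : T f₁ := Or.inr (Or.inr (Or.inl rfl))
  have T4 : T f₂ := Or.inr (Or.inr (Or.inr rfl))
  have ht : ∀ j u v, T u → T v → t j u = t j v → u = v := by
    intro j
    obtain ⟨a1, a2, a3, a4⟩ := hpq j
    have b1 := (hp j).ne
    have b2 := (hq j).ne
    rintro u v (rfl | rfl | rfl | rfl) (rfl | rfl | rfl | rfl) h <;>
      simp only [t1, t2, t3, t4] at h
    · rfl
    · exact absurd h b1
    · exact absurd h a1
    · exact absurd h a2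
    · exact absurd h.symm b1
    · rfl
    · exact absurd h a3
    · exact absurd h a4
    · exact absurd h.symm a1
    · exact absurd h.symm a3
    · rfl
    · exact absurd h b2
    · exact absurd h.symm a2
    · exact absurd h.symm a4
    · exact absurd h.symm b2
    · rfl
  have hG : ∀ j u v, T u → T v → (S.Adj u v ↔ G.Adj (t j u) (t j v)) := by
    intro j
    obtain ⟨a1, a2, a3, a4⟩ := hnon j
    have b1 := hp j
    have b2 := hq j
    rintro u v (rfl | rfl | rfl | rfl) (rfl | rfl | rfl | rfl) <;>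
      simp only [t1, t2, t3, t4]
    · exact ⟨fun h => absurd rfl h.ne, fun h => absurd rfl h.ne⟩
    · exact ⟨fun _ => b1, fun _ => he⟩
    · exact ⟨fun h => absurd h nn1, fun h => absurd h a1⟩
    · exact ⟨fun h => absurd h nn2, fun h => absurd h a2⟩
    · exact ⟨fun _ => b1.symm, fun _ => he.symm⟩
    · exact ⟨fun h => absurd rfl h.ne, fun h => absurd rfl h.ne⟩
    · exact ⟨fun h => absurd h nn3, fun h => absurd h a3⟩
    · exact ⟨fun h => absurd h nn4, fun h => absurd h a4⟩
    · exact ⟨fun h => absurd h.symm nn1, fun h => absurd h.symm a1⟩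
    · exact ⟨fun h => absurd h.symm nn3, fun h => absurd h.symm a3⟩
    · exact ⟨fun h => absurd rfl h.ne, fun h => absurd rfl h.ne⟩
    · exact ⟨fun _ => b2, fun _ => hf⟩
    · exact ⟨fun h => absurd h.symm nn2, fun h => absurd h.symm a2⟩
    · exact ⟨fun h => absurd h.symm nn4, fun h => absurd h.symm a4⟩
    · exact ⟨fun _ => b2.symm, fun _ => hf.symm⟩
    · exact ⟨fun h => absurd rfl h.ne, fun h => absurd rfl h.ne⟩
  have hbip : p → ∃ cl : W ⊕ (J × U) → Bool, ∀ x y, (Att G S T t ht).Adj x y → cl x ≠ cl y := by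
    intro hp'
    obtain ⟨cl₀, h1, h2⟩ := hb hp'
    obtain ⟨cl₁, h3, h4⟩ := hb₁ hp'
    obtain ⟨cl, h5, _⟩ := Att_bip (G := G) (S := S) (T := T) (t := t) ht cl₀ h1 cl₁ h3
      (fun j => xor (cl₁ e₁) (cl₀ (p₁ j))) (by
        intro j u hu
        have h6 := h1 _ _ (hp j)
        have h7 := h1 _ _ (hq j)
        have h8 := h3 _ _ he
        have h9 := h3 _ _ hf
        have h10 := h2 j
        show _ = xor (cl₁ u) (xor (cl₁ e₁) (cl₀ (p₁ j)))
        rcases hu with rfl | rfl | rfl | rfl
        · rw [t1]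
          cases cl₁ u <;> cases cl₀ (p₁ j) <;> rfl
        · rw [t2]
          revert h6 h8
          cases cl₁ e₁ <;> cases cl₁ u <;> cases cl₀ (p₁ j) <;> cases cl₀ (p₂ j) <;> decide
        · rw [t3, ← h10]
          revert h4
          cases cl₁ e₁ <;> cases cl₁ u <;> cases cl₀ (p₁ j) <;> decide
        · rw [t4]
          rw [← h10] at h7
          revert h4 h7 h9
          cases cl₁ e₁ <;> cases cl₁ f₁ <;> cases cl₁ u <;> cases cl₀ (p₁ j) <;>
            cases cl₀ (q₂ j) <;> decide)
    exact ⟨cl, h5⟩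
  refine ⟨W ⊕ (J × U), inferInstance, Att G S T t ht, Sum.inl, Sum.inl_injective,
    fun u v => ⟨Att_base_ind ht hG, Att_base ht⟩, ?_, ?_, ?_⟩
  · intro C hC hCg j
    have hgood : Good H S (fun u v => C (ia T t j u) (ia T t j v)) := by
      intro b f hf hcon
      obtain ⟨i, z, hz, hiz⟩ := hCg b (fun i => ia T t j (f i)) ⟨(ia_inj ht j).comp hf,
        fun i i' hii => ⟨Att_piece ht (hcon i i' hii).1, (hcon i i' hii).2⟩⟩
      obtain ⟨h1, h2⟩ := ia_eq_inl hiz
      obtain ⟨z1, z2, z3, z4⟩ := hZ j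
      rw [← h2] at hz
      rcases h1 with h1 | h1 | h1 | h1
      · rw [h1, t1] at hz
        exact z1 hz
      · rw [h1, t2] at hz
        exact z2 hz
      · rw [h1, t3] at hz
        exact z3 hz
      · rw [h1, t4] at hz
        exact z4 hz
    have k := hforce (fun u v => C (ia T t j u) (ia T t j v)) (fun u v => hC _ _) hgood
    simp only [ia_pos T1, ia_pos T2, ia_pos T3, ia_pos T4, t1, t2, t3, t4] at k
    exact k.2 trivial
  · intro c hc hcpq
    have hex : ∀ j, ∃ d' : U → U → Bool, (∀ x y, d' x y = d' y x) ∧ Good H S d' ∧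
        d' e₁ e₂ = c (p₁ j) (p₂ j) := by
      intro j
      by_cases h : d e₁ e₂ = c (p₁ j) (p₂ j)
      · exact ⟨d, hd, hdg, h⟩
      · refine ⟨fun x y => !d x y, fun x y => congrArg _ (hd x y), hdg.not, ?_⟩
        show (!d e₁ e₂) = c (p₁ j) (p₂ j)
        revert h
        cases d e₁ e₂ <;> cases c (p₁ j) (p₂ j) <;> decide
    choose D hD hDg hDe using hex
    have hDf : ∀ j, D j f₁ f₂ = c (q₁ j) (q₂ j) := by
      intro j
      rw [← (hforce (D j) (hD j) (hDg j)).2 rfl, hDe, hcpq]
    obtain ⟨C, hC1, hC2, hC3⟩ := Att_colour (S := S) (T := T) (t := t) ht c hc D hD (by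
      rintro j u v (rfl | rfl | rfl | rfl) (rfl | rfl | rfl | rfl) h <;>
        simp only [t1, t2, t3, t4]
      · exact absurd rfl h.ne
      · exact hDe j
      · exact absurd h nn1
      · exact absurd h nn2
      · rw [hD, hDe, hc]
      · exact absurd rfl h.ne
      · exact absurd h nn3
      · exact absurd h nn4
      · exact absurd h.symm nn1
      · exact absurd h.symm nn3
      · exact absurd rfl h.ne
      · exact hDf j
      · exact absurd h.symm nn2
      · exact absurd h.symm nn4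
      · rw [hD, hDf, hc]
      · exact absurd rfl h.ne)
    refine ⟨C, hC1, hC2, ?_⟩
    rintro b f ⟨hfi, hmono⟩
    refine Att_mono (H := H) ht hH.nbr hG (d := D) hDg hC3 f hfi b ?_ hmono
    intro i0 j u hi0 hTu
    -- an unoccupied level
    obtain ⟨s, hs1, hs2, hs⟩ : ∃ s, 1 ≤ s ∧ s ≤ n + 1 ∧
        ∀ i v, f i = Sum.inr (j, v) → ℓ v ≠ s := by
      by_contra hcon
      push Not at hcon
      have : Nonempty (Fin n) := ⟨i0⟩
      choose! g hg using hcon
      let φ : Fin (n + 1) → Fin n := fun s => g (s.1 + 1)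
      have hφ : Function.Injective φ := by
        intro s s' hss
        obtain ⟨v, hv1, hv2⟩ := hg (s.1 + 1) (by omega) (by omega)
        obtain ⟨v', hv1', hv2'⟩ := hg (s'.1 + 1) (by omega) (by omega)
        have e1 : g (s.1 + 1) = g (s'.1 + 1) := hss
        rw [e1, hv1'] at hv1
        have e2 := (Prod.ext_iff.1 (Sum.inr_injective hv1)).2
        simp only at e2
        rw [← e2, hv2'] at hv2
        exact Fin.ext (by omega)
      have := Fintype.card_le_of_injective φ hφ
      simp at this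
    have hℓu := hs i0 u hi0
    rcases lt_or_gt_of_ne hℓu with hlt | hgt
    · -- the low part
      have hall := hH.sepf f hfi (Sum.inl (p₁ j)) (Sum.inl (p₂ j)) (fun hp' => by
          obtain ⟨cl, h1⟩ := hbip hp'
          exact ⟨cl, fun x y hxy => h1 _ _ (hmono x y hxy).1, h1 _ _ (Att_base ht (hp j))⟩)
        (fun i => ∃ v, ¬ T v ∧ f i = Sum.inr (j, v) ∧ ℓ v < s)
        ⟨i0, by rw [hi0]; simp, by rw [hi0]; simp, u, hTu, hi0, hlt⟩ (by
          rintro x y hy1 hy2 hxy ⟨v, hv, hx, hlv⟩
          have h3 := (hmono x y hxy).1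
          rw [hx] at h3
          obtain ⟨v', hadj, hv'⟩ := Att_private ht h3
          have h4 := hℓ _ _ hadj
          by_cases hT : T v'
          · exfalso
            rw [ia_pos hT] at hv'
            rcases hT with rfl | rfl | rfl | rfl
            · rw [t1] at hv'
              exact hy1 hv'
            · rw [t2] at hv'
              exact hy2 hv'
            · omega
            · omega
          · rw [ia_neg hT] at hv'
            have h5 := hs y v' hv'
            exact ⟨v', hT, hv', by omega⟩)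
      intro i
      by_cases c1 : f i = Sum.inl (p₁ j)
      · exact ⟨e₁, by rw [ia_pos T1, t1, c1]⟩
      · by_cases c2 : f i = Sum.inl (p₂ j)
        · exact ⟨e₂, by rw [ia_pos T2, t2, c2]⟩
        · obtain ⟨v, hv, hi, _⟩ := hall i c1 c2
          exact ⟨v, by rw [ia_neg hv, hi]⟩
    · -- the high part
      have hall := hH.sepf f hfi (Sum.inl (q₁ j)) (Sum.inl (q₂ j)) (fun hp' => by
          obtain ⟨cl, h1⟩ := hbip hp'
          exact ⟨cl, fun x y hxy => h1 _ _ (hmono x y hxy).1, h1 _ _ (Att_base ht (hq j))⟩)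
        (fun i => ∃ v, ¬ T v ∧ f i = Sum.inr (j, v) ∧ s < ℓ v)
        ⟨i0, by rw [hi0]; simp, by rw [hi0]; simp, u, hTu, hi0, hgt⟩ (by
          rintro x y hy1 hy2 hxy ⟨v, hv, hx, hlv⟩
          have h3 := (hmono x y hxy).1
          rw [hx] at h3
          obtain ⟨v', hadj, hv'⟩ := Att_private ht h3
          have h4 := hℓ _ _ hadj.symm
          by_cases hT : T v'
          · exfalso
            rw [ia_pos hT] at hv'
            rcases hT with rfl | rfl | rfl | rfl
            · omega
            · omega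
            · rw [t3] at hv'
              exact hy1 hv'
            · rw [t4] at hv'
              exact hy2 hv'
          · rw [ia_neg hT] at hv'
            have h5 := hs y v' hv'
            exact ⟨v', hT, hv', by omega⟩)
      intro i
      by_cases c1 : f i = Sum.inl (q₁ j)
      · exact ⟨f₁, by rw [ia_pos T3, t3, c1]⟩
      · by_cases c2 : f i = Sum.inl (q₂ j)
        · exact ⟨f₂, by rw [ia_pos T4, t4, c2]⟩
        · obtain ⟨v, hv, hi, _⟩ := hall i c1 c2
          exact ⟨v, by rw [ia_neg hv, hi]⟩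
  · intro u w h
    rcases w with v | ⟨j, v⟩
    · exact Or.inl ⟨v, rfl⟩
    · obtain ⟨x, hx1, hx2⟩ := Att_base_nbr ht h
      refine Or.inr ⟨j, ?_⟩
      rcases hx1 with rfl | rfl | rfl | rfl
      · exact Or.inl (by rw [← hx2, t1])
      · exact Or.inr (Or.inl (by rw [← hx2, t2]))
      · exact Or.inr (Or.inr (Or.inl (by rw [← hx2, t3])))
      · exact Or.inr (Or.inr (Or.inr (by rw [← hx2, t4])))

end MP3240Q
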