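import Pool.Agent.Lib.MP_3240be_co.Q22.Defs

set_option autoImplicit false

namespace MP3240Q

/-- Row BST. -/
theorem bst_proof (hmon : MonStatement) (hfnb : FnbStatement) (hfre : FreStatement) :
    BstStatement := by
  classical
  intro k N t L Q I M D S δ C χ Cφ c hH hD j T A F g hA hAN hT hFA hSt t' f r htt hrF hrA
  obtain ⟨g₀, hg₀, hkk⟩ := hH.rich.kk hD
  have hg₀' : Function.Injective g₀ := by
    intro a b hab
    apply hg₀
    show (Sum.inl (g₀ a) : L ⊕ Q) = Sum.inl (g₀ b)
    rw [hab]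
  -- the inclusion of the small complete bipartite graph
  let ca : Fin t' ⊕ Fin t' → Fin t ⊕ Fin t := Sum.map (Fin.castLE htt) (Fin.castLE htt)
  have hca : Function.Injective ca :=
    Sum.map_injective.2 ⟨Fin.castLE_injective htt, Fin.castLE_injective htt⟩
  obtain ⟨x, hx1, hx2⟩ := hSt.free (f r) hrF
  have hB : (g '' A).Finite := hA.image g
  have hB' : (g '' A).ncard < N := lt_of_le_of_lt (Set.ncard_image_le hA) hAN
  obtain ⟨m, hm1, hm2, hm3, hm4⟩ := hfre N L Q I M δ χ hH.inj hH.lin (j + 1) x (g₀ (ca r))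
    (g '' A) hB hB' hx2
  -- the new embedding
  let p : Fin t' ⊕ Fin t' → I := fun s => δ m (g₀ (ca s))
  have hp : Function.Injective p := (hH.inj m).comp (hg₀'.comp hca)
  let g' : ℕ → I ⊕ (M × Q) := fun v =>
    if v ∈ A then g v else if hv : ∃ s, f s = v then Sum.inl (p hv.choose) else g v
  have hgA : ∀ u ∈ A, g' u = g u := fun u hu => if_pos hu
  have hgf : ∀ s, g' (f s) = Sum.inl (p s) := by
    intro s
    by_cases hs : s = r
    · subst hs
      rw [hgA _ (hFA hrF), hx1]
      show Sum.inl x = Sum.inl (δ m (g₀ (ca s)))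
      rw [hm2]
    · have h1 : f s ∉ A := hrA s hs
      have h2 : ∃ s', f s' = f s := ⟨s, rfl⟩
      show (if f s ∈ A then g (f s) else if hv : ∃ s', f s' = f s then
        (Sum.inl (p hv.choose) : I ⊕ (M × Q)) else g (f s)) = _
      rw [if_neg h1, dif_pos h2, f.injective h2.choose_spec]
  have hkey : ∀ s, s ≠ r → ∀ u ∈ A, g u ≠ Sum.inl (p s) := by
    intro s hs u hu he
    have h1 := hm4 (Sum.inl (g₀ (ca s))) ⟨u, hu, he⟩
    exact hs (hca (hg₀' (Sum.inl_injective h1)))
  refine ⟨g', ?_, ?_, ?_, ?_⟩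
  · intro u hu v hv huv
    by_cases huA : u ∈ A
    · by_cases hvA : v ∈ A
      · rw [hgA u huA, hgA v hvA] at huv
        exact hSt.inj huA hvA huv
      · rcases hv with hv | ⟨s, rfl⟩
        · exact absurd hv hvA
        · have hs : s ≠ r := fun e => hvA (e ▸ hFA hrF)
          rw [hgA u huA, hgf s] at huv
          exact absurd huv (hkey s hs u huA)
    · rcases hu with hu | ⟨s, rfl⟩
      · exact absurd hu huA
      · have hs : s ≠ r := fun e => huA (e ▸ hFA hrF)
        by_cases hvA : v ∈ A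
        · rw [hgA v hvA, hgf s] at huv
          exact absurd huv.symm (hkey s hs v hvA)
        · rcases hv with hv | ⟨s', rfl⟩
          · exact absurd hv hvA
          · rw [hgf s, hgf s'] at huv
            rw [hp (Sum.inl_injective huv)]
  · have hadj : ∀ i i' : Fin t', (Gl S δ).Adj (g' (f (Sum.inl i))) (g' (f (Sum.inr i'))) ∧
        C (g' (f (Sum.inl i))) (g' (f (Sum.inr i'))) = c := by
      intro i i'
      rw [hgf, hgf]
      obtain ⟨h1, h2⟩ := hkk (Fin.castLE htt i) (Fin.castLE htt i')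
      refine ⟨⟨?_, m, _, _, h1, rfl, rfl⟩, ?_⟩
      · intro he
        exact absurd (hp (Sum.inl_injective he)) (by simp)
      · have h3 := hH.col m hm1 (Sum.inl (g₀ (Sum.inl (Fin.castLE htt i))))
          (Sum.inl (g₀ (Sum.inr (Fin.castLE htt i'))))
        exact h3.trans h2
    intro u v huv
    rw [SimpleGraph.sup_adj] at huv
    rcases huv with huv | huv
    · obtain ⟨hu, hv⟩ := hT u v huv
      rw [hgA u hu, hgA v hv]
      exact hSt.adj u v huv
    · rw [SimpleGraph.map_adj] at huv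
      obtain ⟨a, b, hab, rfl, rfl⟩ := huv
      rcases a with a | a <;> rcases b with b | b
      · simp at hab
      · exact hadj a b
      · exact ⟨(hadj b a).1.symm, by rw [hH.symm]; exact (hadj b a).2⟩
      · simp at hab
  · intro u hu
    rcases hu with hu | ⟨s, rfl⟩
    · obtain ⟨x', h1, h2⟩ := hSt.free u hu
      exact ⟨x', by rw [hgA u (hFA hu)]; exact h1, hmon L I M δ χ N (j + 1) x' h2⟩
    · exact ⟨p s, hgf s, hm3 _⟩
  · intro u hu
    by_cases huA : u ∈ A
    · obtain ⟨h', h1, h2⟩ := hSt.nb u huA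
      exact ⟨h', h1, fun s => ⟨hmon L I M δ χ N j _ (h2 s).1,
        by rw [hgA u huA]; exact (h2 s).2⟩⟩
    · rcases hu with hu | ⟨s, rfl⟩
      · exact absurd hu huA
      · obtain ⟨h', h1, h2⟩ := hfnb k N t L Q I M D S δ C χ Cφ c hH j (p s) (hm3 _)
        exact ⟨h', h1, fun i => by rw [hgf]; exact h2 i⟩

end MP3240Q
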