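import Pool.Agent.Lib.MP_3240be_co.Q22.Defs

set_option autoImplicit false

/-!
# Theorem Q, row COL: enumerate the small classes injectively
-/

namespace MP3240Q

theorem col_proof : ColStatement := by
  intro G K _ cls N
  classical
  have h : ∀ κ : K, ∃ e : G → Fin (N + 1),
      (∃ g : Fin N → G, Function.Injective g ∧ ∀ s, cls (g s) = κ) ∨
        ∀ i j, cls i = κ → cls j = κ → e i = e j → i = j := by
    intro κ
    have : Fintype {i : G // cls i = κ} := Fintype.ofFinite _
    by_cases hN : N ≤ Fintype.card {i : G // cls i = κ}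
    · obtain ⟨f⟩ : Nonempty (Fin N ↪ {i : G // cls i = κ}) :=
        Function.Embedding.nonempty_of_card_le (by rw [Fintype.card_fin]; exact hN)
      exact ⟨fun _ => 0, Or.inl ⟨fun s => (f s).1,
        fun s t hst => f.injective (Subtype.ext hst), fun s => (f s).2⟩⟩
    · obtain ⟨f⟩ : Nonempty ({i : G // cls i = κ} ↪ Fin (N + 1)) :=
        Function.Embedding.nonempty_of_card_le (by rw [Fintype.card_fin]; omega)
      refine ⟨fun i => if hi : cls i = κ then f ⟨i, hi⟩ else 0, Or.inr fun i j hi hj hij => ?_⟩
      simp only [hi, hj, dif_pos] at hij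
      exact congrArg Subtype.val (f.injective hij)
  choose e he using h
  refine ⟨fun i => (cls i, e (cls i) i), fun i j hij hc => ?_⟩
  have h1 : cls i = cls j := congrArg Prod.fst hc
  have h2 : e (cls i) i = e (cls j) j := congrArg Prod.snd hc
  refine ⟨h1, ?_⟩
  rcases he (cls i) with hr | hr
  · exact hr
  · exact absurd (hr i j rfl h1.symm (by rw [h2, h1])) hij

end MP3240Q
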