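import Mathlib
import Pool.Agent.Lib.MP_3240be_co.Q22.Defs

set_option autoImplicit false

/-!
# Row CPY: gluing a copy of `D`
-/

namespace MP3240Q

theorem em_inj {L Q I M : Type} {δ : M → L → I} (hδ : ∀ m, Function.Injective (δ m)) (m : M) :
    Function.Injective (em (Q := Q) δ m) := by
  intro s s' h
  rcases s with l | q <;> rcases s' with l' | q'
  · exact congrArg Sum.inl (hδ m (Sum.inl.inj h))
  · exact absurd h (by simp [em])
  · exact absurd h (by simp [em])
  · have h2 := Sum.inr.inj h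
    exact congrArg Sum.inr (Prod.mk.inj h2).2

theorem gl_adj_em {L Q I M : Type} {S : SimpleGraph (L ⊕ Q)} {δ : M → L → I}
    (hδ : ∀ m, Function.Injective (δ m)) (m : M) {s s' : L ⊕ Q} (h : S.Adj s s') :
    (Gl S δ).Adj (em δ m s) (em δ m s') :=
  ⟨fun hh => h.ne (em_inj hδ m hh), m, s, s', h, rfl, rfl⟩

theorem cpy_proof (hMon : MonStatement) (hFnb : FnbStatement) (hFre : FreStatement) :
    CpyStatement := by
  intro k N t L Q I M D S δ C χ Cφ c hH j T A F g hAfin hAN hTA hFA hSt f r a b hr hnew hab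
    hra hrb
  obtain ⟨e, ⟨heinj, heD⟩, hel, henb⟩ := hH.rich.cop a b hab
  obtain ⟨lr, hlr⟩ := hel r hra hrb
  obtain ⟨x, hx, hxs⟩ := hSt.free (f r) hr
  obtain ⟨m, hχ, hml, hmx, hmB⟩ := hFre N L Q I M δ χ hH.inj hH.lin (j + 1) x lr (g '' A)
    (hAfin.image g) (lt_of_le_of_lt (Set.ncard_image_le hAfin) hAN) hxs
  classical
  obtain ⟨g', hg'⟩ : ∃ g' : ℕ → I ⊕ (M × Q), g' = fun u =>
    if h : ∃ v, f v = u ∧ v ≠ r then em δ m (e h.choose) else g u := ⟨_, rfl⟩
  have gA : ∀ u ∈ A, g' u = g u := by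
    intro u hu
    rw [hg']
    have hn : ¬ ∃ v, f v = u ∧ v ≠ r := by
      rintro ⟨v, hv, hvr⟩
      exact hnew v hvr (hv ▸ hu)
    simp only [hn, dite_false]
  have gf : ∀ v, g' (f v) = em δ m (e v) := by
    intro v
    by_cases hv : v = r
    · subst hv
      rw [gA _ (hFA hr), hx, hlr]
      simp only [em, hml]
    · rw [hg']
      have hn : ∃ w, f w = f v ∧ w ≠ r := ⟨v, rfl, hv⟩
      simp only [hn, dite_true]
      have h1 : hn.choose = v := f.injective hn.choose_spec.1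
      rw [h1]
  have key : ∀ u ∈ A, ∀ v, v ≠ r → g u ≠ em δ m (e v) := by
    intro u hu v hv h
    have h1 := hmB (e v) (h ▸ Set.mem_image_of_mem g hu)
    exact hv (heinj (h1.trans hlr.symm))
  refine ⟨g', ?_, ?_, ?_, ?_⟩
  · -- injectivity
    have aux : ∀ u ∈ A, ∀ v, g' u = g' (f v) → u = f v := by
      intro u hu v h
      by_cases hv : v = r
      · subst hv
        rw [gA u hu, gA _ (hFA hr)] at h
        exact hSt.inj hu (hFA hr) h
      · rw [gA u hu, gf v] at h
        exact absurd h (key u hu v hv)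
    rintro u (hu | ⟨v, rfl⟩) w (hw | ⟨v', rfl⟩) h
    · rw [gA u hu, gA w hw] at h
      exact hSt.inj hu hw h
    · exact aux u hu v' h
    · exact (aux w hw v h.symm).symm
    · rw [gf, gf] at h
      rw [heinj (em_inj hH.inj m h)]
  · -- edges
    intro u v huv
    rw [SimpleGraph.sup_adj, SimpleGraph.map_adj] at huv
    rcases huv with huv | ⟨i, i', hii, rfl, rfl⟩
    · rw [gA u (hTA u v huv).1, gA v (hTA u v huv).2]
      exact hSt.adj u v huv
    · rw [gf, gf]
      obtain ⟨h1, h2⟩ := heD i i' hii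
      exact ⟨gl_adj_em hH.inj m h1, (hH.col m hχ _ _).trans h2⟩
  · -- free vertices
    rintro u (hu | ⟨v, ⟨hva, hvb⟩, rfl⟩)
    · obtain ⟨y, hy, hys⟩ := hSt.free u hu
      exact ⟨y, (gA u (hFA hu)).trans hy, hMon L I M δ χ N (j + 1) y hys⟩
    · obtain ⟨l, hl⟩ := hel v hva hvb
      refine ⟨δ m l, ?_, hmx l⟩
      rw [gf, hl]
      rfl
  · -- neighbours
    have hA : ∀ u ∈ A, ∃ h : Fin N → I, Function.Injective h ∧
        ∀ i, XS δ χ N j (h i) ∧ (Gl S δ).Adj (g' u) (Sum.inl (h i)) ∧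
          C (g' u) (Sum.inl (h i)) = c := by
      intro u hu
      obtain ⟨h, hinj, hh⟩ := hSt.nb u hu
      refine ⟨h, hinj, fun i => ?_⟩
      rw [gA u hu]
      exact ⟨hMon L I M δ χ N j _ (hh i).1, (hh i).2⟩
    rintro u (hu | ⟨v, rfl⟩)
    · exact hA u hu
    · rw [gf]
      rcases hev : e v with l | q
      · exact hFnb k N t L Q I M D S δ C χ Cφ c hH j (δ m l) (hmx l)
      · obtain ⟨h0, h0inj, hh0⟩ := henb v q hev
        refine ⟨fun i => δ m (h0 i), fun i i' hi => h0inj (hH.inj m hi), fun i => ?_⟩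
        obtain ⟨h1, h2⟩ := hh0 i
        refine ⟨hMon L I M δ χ N j _ (hmx _), ?_, ?_⟩
        · exact gl_adj_em hH.inj m h1
        · exact (hH.col m hχ (Sum.inr q) (Sum.inl (h0 i))).trans h2

end MP3240Q
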