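import Pool.Agent.Lib.MP_3240be_co.Q22.Defs

set_option autoImplicit false

namespace MP3240Q

theorem xs_mono (hmon : MonStatement) {L I M : Type} {δ : M → L → I} {χ : M → Prop} {R : ℕ}
    {x : I} {i j : ℕ} (hij : i ≤ j) (h : XS δ χ R j x) : XS δ χ R i x := by
  induction j, hij using Nat.le_induction with
  | base => exact h
  | succ j _ ih => exact ih (hmon L I M δ χ R j x h)

/-- The induction. -/
def EmbAux {k : ℕ} (D : SimpleGraph (Fin k)) (T : SimpleGraph ℕ) (A F : Set ℕ) : Prop :=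
  ∃ B : ℕ, ∀ (N t : ℕ), B ≤ N → B ≤ t → ∀ (L Q I M : Type) (S : SimpleGraph (L ⊕ Q))
    (δ : M → L → I) (C : I ⊕ (M × Q) → I ⊕ (M × Q) → Bool) (χ : M → Prop)
    (Cφ : L ⊕ Q → L ⊕ Q → Bool) (c : Bool), Host D N t S δ C χ Cφ c →
    ∀ x j, XS δ χ N (j + B) x → ∃ g : ℕ → I ⊕ (M × Q), St S δ C χ c N j T A F g

theorem emb_aux (hmon : MonStatement) (hfnb : FnbStatement) (hpen : PenStatement)
    (hcpy : CpyStatement) (hbst : BstStatement) (hdtf : DtfStatement) {k : ℕ}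
    (D : SimpleGraph (Fin k)) (T : SimpleGraph ℕ) (A F : Set ℕ) (h : DTree D T A F) :
    EmbAux D T A F := by
  induction h with
  | start y =>
    refine ⟨1, ?_⟩
    intro N t _ _ L Q I M S δ C χ Cφ c hH x j hx
    obtain ⟨h', h1, h2⟩ := hfnb k N t L Q I M D S δ C χ Cφ c hH j x hx
    refine ⟨fun _ => Sum.inl x, ?_, ?_, ?_, ?_⟩
    · intro u hu v hv _
      rw [Set.mem_singleton_iff.1 hu, Set.mem_singleton_iff.1 hv]
    · intro u v huv
      exact absurd huv (by simp)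
    · intro u _
      exact ⟨x, rfl, hx⟩
    · intro u _
      exact ⟨h', h1, h2⟩
  | pendant T A F y z h hy hz ih =>
    obtain ⟨B, hB⟩ := ih
    obtain ⟨hA, hT, hFA, -⟩ := hdtf k D T A F h
    refine ⟨B + A.ncard + 1, ?_⟩
    intro N t hN ht L Q I M S δ C χ Cφ c hH x j hx
    obtain ⟨g, hg⟩ := hB N t (by omega) (by omega) L Q I M S δ C χ Cφ c hH x (j + 1)
      (xs_mono hmon (by omega) hx)
    exact hpen k N t L Q I M D S δ C χ Cφ c hH j T A F g hA (by omega) hT hFA hg y z hy hz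
  | copy T A F f r a b h hr hnew hab hra hrb ih =>
    obtain ⟨B, hB⟩ := ih
    obtain ⟨hA, hT, hFA, -⟩ := hdtf k D T A F h
    refine ⟨B + A.ncard + 1, ?_⟩
    intro N t hN ht L Q I M S δ C χ Cφ c hH x j hx
    obtain ⟨g, hg⟩ := hB N t (by omega) (by omega) L Q I M S δ C χ Cφ c hH x (j + 1)
      (xs_mono hmon (by omega) hx)
    exact hcpy k N t L Q I M D S δ C χ Cφ c hH j T A F g hA (by omega) hT hFA hg f r a b hr
      hnew hab hra hrb
  | bip T A F t' f r h hD hr hnew ih =>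
    obtain ⟨B, hB⟩ := ih
    obtain ⟨hA, hT, hFA, -⟩ := hdtf k D T A F h
    refine ⟨B + A.ncard + 1 + t', ?_⟩
    intro N t hN ht L Q I M S δ C χ Cφ c hH x j hx
    obtain ⟨g, hg⟩ := hB N t (by omega) (by omega) L Q I M S δ C χ Cφ c hH x (j + 1)
      (xs_mono hmon (by omega) hx)
    exact hbst k N t L Q I M D S δ C χ Cφ c hH hD j T A F g hA (by omega) hT hFA hg t' f r
      (by omega) hr hnew

/-- Row EMB. -/
theorem emb_proof (hmon : MonStatement) (hfnb : FnbStatement) (hpen : PenStatement)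
    (hcpy : CpyStatement) (hbst : BstStatement) (hdtf : DtfStatement) : EmbStatement := by
  intro k D T A F h
  obtain ⟨B, hB⟩ := emb_aux hmon hfnb hpen hcpy hbst hdtf D T A F h
  refine ⟨B, ?_⟩
  intro N t hN ht L Q I M S δ C χ Cφ c hH x j hj hx
  obtain ⟨g, hg⟩ := hB N t hN ht L Q I M S δ C χ Cφ c hH x 0 (xs_mono hmon (by omega) hx)
  exact ⟨g, hg.inj, hg.adj⟩

end MP3240Q
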