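import Pool.Agent.Lib.MP_3240be_co.Q22.Defs

/-!
# Board WCQ, rows FNB and FRE (helper80)
-/

set_option autoImplicit false

namespace MP3240Q

open Pool.Agent.Lib.MP_3240be_co.H82 (TC Good)
open Pool.Agent.Lib.MP_3240be_co.H36.Chrom (Sparse ArrowsT)

/-- Row FNB. -/
theorem fnb_proof : FnbStatement := by
  intro k N t L Q I M D S δ C χ Cφ c hH j x hx
  obtain ⟨l, l', hadj, hcol⟩ := hH.rich.edge
  have hll : l ≠ l' := by
    rintro rfl
    exact S.loopless.irrefl _ hadj
  obtain ⟨g, hg, hg'⟩ := hx l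
  refine ⟨fun i => δ (g i) l', ?_, ?_⟩
  · intro i i' hii
    by_contra hne
    have h1 : g i ≠ g i' := fun h => hne (hg h)
    have h2 : δ (g i) l = δ (g i') l := (hg' i).2.1.trans (hg' i').2.1.symm
    exact hll (hH.inj _ (hH.lin _ _ _ _ _ _ h1 h2 hii))
  · intro i
    obtain ⟨hχ, hxl, hXS⟩ := hg' i
    have h1 : em (Q := Q) δ (g i) (Sum.inl l) = Sum.inl x := by
      show Sum.inl (δ (g i) l) = Sum.inl x
      rw [hxl]
    have h2 : em (Q := Q) δ (g i) (Sum.inl l') = Sum.inl (δ (g i) l') := rfl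
    refine ⟨hXS l', ⟨?_, g i, Sum.inl l, Sum.inl l', hadj, h1, h2⟩, ?_⟩
    · intro h
      have h3 : x = δ (g i) l' := Sum.inl.inj h
      rw [← hxl] at h3
      exact hll (hH.inj _ h3)
    · rw [← h1, ← h2, hH.col _ hχ]
      exact hcol

/-- Row FRE. -/
theorem fre_proof : FreStatement := by
  intro N L Q I M δ χ hinj hlin j x l B hB hBN hx
  obtain ⟨g, hg, hg'⟩ := hx l
  by_contra hcon
  have hbad : ∀ i : Fin N, ∃ s : L ⊕ Q, em δ (g i) s ∈ B ∧ s ≠ Sum.inl l := by
    intro i
    by_contra h1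
    apply hcon
    refine ⟨g i, (hg' i).1, (hg' i).2.1, (hg' i).2.2, ?_⟩
    intro s hs
    by_contra h2
    exact h1 ⟨s, hs, h2⟩
  choose s hs using hbad
  have hinj' : Function.Injective (fun i : Fin N => em δ (g i) (s i)) := by
    intro i i' hii
    by_contra hne
    have h1 : g i ≠ g i' := fun h => hne (hg h)
    have h2 : δ (g i) l = δ (g i') l := (hg' i).2.1.trans (hg' i').2.1.symm
    have hii' : em δ (g i) (s i) = em δ (g i') (s i') := hii
    have h3 := (hs i).2
    cases hsi : s i with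
    | inl l1 =>
      cases hsi' : s i' with
      | inl l2 =>
        rw [hsi, hsi'] at hii'
        have h4 : δ (g i) l1 = δ (g i') l2 := Sum.inl.inj hii'
        have h5 := hinj _ (hlin _ _ _ _ _ _ h1 h4 h2)
        apply h3
        rw [hsi, h5]
      | inr q2 =>
        rw [hsi, hsi'] at hii'
        exact absurd hii' (by simp [em])
    | inr q1 =>
      cases hsi' : s i' with
      | inl l2 =>
        rw [hsi, hsi'] at hii'
        exact absurd hii' (by simp [em])
      | inr q2 =>
        rw [hsi, hsi'] at hii'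
        have h4 : (g i, q1) = (g i', q2) := Sum.inr.inj hii'
        exact h1 (Prod.ext_iff.mp h4).1
  have hsub : Set.range (fun i : Fin N => em δ (g i) (s i)) ⊆ B := by
    rintro _ ⟨i, rfl⟩
    exact (hs i).1
  have hcard : (Set.range (fun i : Fin N => em δ (g i) (s i))).ncard = N := by
    rw [← Set.image_univ, Set.ncard_image_of_injective _ hinj', Set.ncard_univ,
      Nat.card_eq_fintype_card, Fintype.card_fin]
  have h6 := Set.ncard_le_ncard hsub hB
  omega

end MP3240Q
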