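import Mathlib
import Pool.Agent.Lib.MP_3240be_co.Q22.Defs
import Pool.Agent.Lib.MP_3240be_co.H36.Chrom.Canonical

/-!
# Theorem Q, row GAM
-/

set_option autoImplicit false

namespace MP3240Q

open Finset

/-- Homogeneous parts: for every colouring of the pairs of `Fin r × Fin R` there are `N` members
of every part such that the colour of a pair in different parts depends only on the parts. -/
theorem parts_homog (r N : ℕ) (hr : 0 < r) (hN : 0 < N) :
    ∃ R : ℕ, ∀ C : Fin r × Fin R → Fin r × Fin R → Bool, (∀ x y, C x y = C y x) →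
      ∃ (g : Fin r → Fin N → Fin R) (ω : Fin r → Fin r → Bool),
        (∀ i, Function.Injective (g i)) ∧
        (∀ i j, ω i j = ω j i) ∧
        ∀ i j, i ≠ j → ∀ s s', C (i, g i s) (j, g j s') = ω i j := by
  classical
  obtain ⟨R, hR⟩ := Pool.Agent.Lib.MP_3240be_co.H36.Chrom.ramsey_fin
    (Fin r → Fin r → Bool) (r * N)
  refine ⟨R, fun C hC => ?_⟩
  rcases Nat.eq_zero_or_pos R with h0 | h0
  · exfalso
    obtain ⟨S, hS1, hS2, _⟩ := hR (fun _ _ _ => false)
    subst h0
    rw [Finset.range_zero, Finset.subset_empty] at hS1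
    subst hS1
    rw [Finset.card_empty] at hS2
    have := Nat.mul_pos hr hN
    omega
  let v : ℕ → Fin R := fun s => ⟨s % R, Nat.mod_lt _ h0⟩
  obtain ⟨S, hS1, hS2, hS3⟩ := hR (fun K i j => if h : K.Nonempty then
    C (i, v (K.min' h)) (j, v (K.max' h)) else false)
  have hSlt : ∀ s ∈ S, s < R := fun s hs => Finset.mem_range.1 (hS1 hs)
  let e := S.orderEmbOfFin hS2
  have hidx : ∀ (i : Fin r) (s : Fin N), (i : ℕ) * N + s < r * N := by
    intro i s
    have h1 := i.2
    have h2 := s.2
    calc (i : ℕ) * N + s < (i : ℕ) * N + N := by omega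
      _ = ((i : ℕ) + 1) * N := by ring
      _ ≤ r * N := Nat.mul_le_mul_right _ h1
  let ch : Fin r → Fin N → ℕ := fun i s => e ⟨(i : ℕ) * N + s, hidx i s⟩
  have hch : ∀ i s, ch i s ∈ S := fun i s => Finset.orderEmbOfFin_mem _ _ _
  have hv : ∀ i s, ((v (ch i s) : Fin R) : ℕ) = ch i s := fun i s =>
    Nat.mod_eq_of_lt (hSlt _ (hch i s))
  have hlt : ∀ i j s s', i < j → ch i s < ch j s' := by
    intro i j s s' hij
    refine (OrderEmbedding.lt_iff_lt e).2 ?_
    rw [Fin.mk_lt_mk]
    have h1 : (i : ℕ) + 1 ≤ j := hij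
    have h2 := s.2
    calc (i : ℕ) * N + s < (i : ℕ) * N + N := by omega
      _ = ((i : ℕ) + 1) * N := by ring
      _ ≤ (j : ℕ) * N := Nat.mul_le_mul_right _ h1
      _ ≤ (j : ℕ) * N + s' := by omega
  have key : ∃ ω : Fin r → Fin r → Bool, ∀ i j s s', i < j →
      C (i, v (ch i s)) (j, v (ch j s')) = ω i j := by
    by_cases h2 : ∃ i j : Fin r, i < j
    · obtain ⟨i0, j0, h0'⟩ := h2
      let s0 : Fin N := ⟨0, hN⟩
      refine ⟨fun i j => C (i, v (ch i0 s0)) (j, v (ch j0 s0)), ?_⟩
      intro i j s s' hij
      have a1 := hlt i j s s' hij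
      have a2 := hlt i0 j0 s0 s0 h0'
      have hcard : ∀ a b : ℕ, a < b → ({a, b} : Finset ℕ).card = 2 := fun a b hab =>
        Finset.card_pair hab.ne
      have hsub : ∀ i s j s', ({ch i s, ch j s'} : Finset ℕ) ⊆ S := by
        intro i s j s' x hx
        rw [Finset.mem_insert, Finset.mem_singleton] at hx
        rcases hx with rfl | rfl
        · exact hch _ _
        · exact hch _ _
      have h3 := hS3 {ch i s, ch j s'} {ch i0 s0, ch j0 s0} (hsub _ _ _ _) (hsub _ _ _ _)
        (by rw [hcard _ _ a1, hcard _ _ a2])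
      have hne : ∀ a b : ℕ, ({a, b} : Finset ℕ).Nonempty := fun a b => ⟨a, by simp⟩
      have hmin : ∀ a b : ℕ, a < b → ({a, b} : Finset ℕ).min' (hne a b) = a := by
        intro a b hab
        apply le_antisymm
        · exact Finset.min'_le _ _ (by simp)
        · refine Finset.le_min' _ _ _ ?_
          intro y hy
          rw [Finset.mem_insert, Finset.mem_singleton] at hy
          rcases hy with rfl | rfl
          · exact le_rfl
          · exact hab.le
      have hmax : ∀ a b : ℕ, a < b → ({a, b} : Finset ℕ).max' (hne a b) = b := by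
        intro a b hab
        apply le_antisymm
        · refine Finset.max'_le _ _ _ ?_
          intro y hy
          rw [Finset.mem_insert, Finset.mem_singleton] at hy
          rcases hy with rfl | rfl
          · exact hab.le
          · exact le_rfl
        · exact Finset.le_max' _ _ (by simp)
      have h4 := congrFun (congrFun h3 i) j
      simp only [hne, dif_pos] at h4
      rw [hmin _ _ a1, hmax _ _ a1, hmin _ _ a2, hmax _ _ a2] at h4
      exact h4
    · refine ⟨fun _ _ => false, ?_⟩
      intro i j s s' hij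
      exact absurd ⟨i, j, hij⟩ h2
  obtain ⟨ω, hω⟩ := key
  refine ⟨fun i s => v (ch i s), fun i j => if i < j then ω i j else ω j i, ?_, ?_, ?_⟩
  · intro i s s' h
    have h1 : ch i s = ch i s' := by
      rw [← hv i s, ← hv i s']
      exact congrArg Fin.val h
    have h2 := e.injective h1
    rw [Fin.mk.injEq] at h2
    exact Fin.ext (by omega)
  · intro i j
    rcases lt_trichotomy i j with h | h | h
    · simp [h, not_lt.2 h.le]
    · subst h
      rfl
    · simp [h, not_lt.2 h.le]
  · intro i j hij s s'
    rcases lt_or_gt_of_ne hij with h | h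
    · simp only [h, if_true]
      exact hω i j s s' h
    · simp only [not_lt.2 h.le, if_false]
      rw [hC]
      exact hω j i s' s h

theorem gam_proof : GamStatement := by
  classical
  intro k t D hD
  -- the chromatic number
  have hex : ∃ r, D.Colorable r := ⟨k, by simpa using D.colorable_of_fintype⟩
  set r := Nat.find hex with hr
  have hcol : D.Colorable r := Nat.find_spec hex
  have hmin : ∀ r', r' < r → ¬ D.Colorable r' := fun r' h => Nat.find_min hex h
  have hn2 : ¬ D.Colorable 2 := by
    rintro ⟨κ⟩
    apply hD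
    refine ⟨fun x => decide (κ x = 0), ?_⟩
    intro x y hxy heq
    have h1 := κ.valid hxy
    have h2 := decide_eq_decide.1 heq
    apply h1
    generalize κ x = a at h2
    generalize κ y = b at h2
    revert h2
    fin_cases a <;> fin_cases b <;> simp
  have hr3 : 3 ≤ r := by
    by_contra h
    exact hn2 (hcol.mono (by omega))
  set N := t + k + 1 with hN
  obtain ⟨R, hR⟩ := parts_homog r N (by omega) (by omega)
  let Γ : SimpleGraph (Fin r × Fin R) :=
    { Adj := fun x y => x.1 ≠ y.1
      symm := ⟨fun _ _ h => h.symm⟩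
      loopless := ⟨fun _ h => h rfl⟩ }
  let z : Fin r := ⟨0, by omega⟩
  refine ⟨Fin r × Fin R, inferInstance, Γ, ⟨fun x y => decide (x.1 = z) != decide (y.1 = z),
    ?_, ?_⟩, ?_⟩
  · intro x y
    change (decide (x.1 = z) != decide (y.1 = z)) = (decide (y.1 = z) != decide (x.1 = z))
    cases decide (x.1 = z) <;> cases decide (y.1 = z) <;> rfl
  · intro c f hf
    cases c with
    | true =>
      apply hn2
      refine ⟨SimpleGraph.Coloring.mk (fun v => if (f v).1 = z then (0 : Fin 2) else 1) ?_⟩
      intro i j hij heq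
      have h1 := (hf.2 i j hij).2
      by_cases h2 : (f i).1 = z <;> by_cases h3 : (f j).1 = z <;> simp [h2, h3] at h1 heq
    | false =>
      apply hmin (r - 1) (by omega)
      have h2 : ∀ i j, D.Adj i j → (f i).1 ≠ z := by
        intro i j hij h3
        have h1 := (hf.2 i j hij).2
        have h4 : (f i).1 ≠ (f j).1 := (hf.2 i j hij).1
        have h5 : (f j).1 ≠ z := fun h => h4 (h3.trans h.symm)
        simp [h3, h5] at h1
      refine ⟨SimpleGraph.Coloring.mk (fun v => (⟨((f v).1 : ℕ) - 1, by
        have := (f v).1.2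
        omega⟩ : Fin (r - 1))) ?_⟩
      intro i j hij heq
      rw [Fin.mk.injEq] at heq
      have h3 := h2 i j hij
      have h4 := h2 j i hij.symm
      have h5 : ((f i).1 : ℕ) ≠ 0 := fun h => h3 (Fin.ext h)
      have h6 : ((f j).1 : ℕ) ≠ 0 := fun h => h4 (Fin.ext h)
      have h7 : (f i).1 ≠ (f j).1 := (hf.2 i j hij).1
      exact h7 (Fin.ext (by omega))
  · intro C hC
    obtain ⟨g, ω, hg, hω, hgω⟩ := hR C hC
    have hKK : ∀ i j, i ≠ j → ∃ g', KK Γ C (ω i j) t g' := by
      intro i j hij
      refine ⟨fun s => match s with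
        | Sum.inl a => (i, g i (Fin.castLE (by omega) a))
        | Sum.inr a => (j, g j (Fin.castLE (by omega) a)), ?_, ?_⟩
      · rintro (a | a) (b | b) h
        · rw [Prod.mk.injEq] at h
          rw [Fin.castLE_injective _ (hg i h.2)]
        · rw [Prod.mk.injEq] at h
          exact absurd h.1 hij
        · rw [Prod.mk.injEq] at h
          exact absurd h.1.symm hij
        · rw [Prod.mk.injEq] at h
          rw [Fin.castLE_injective _ (hg j h.2)]
      · intro a b
        exact ⟨hij, hgω i j hij _ _⟩
    by_cases hall : ∃ c, ∀ i j, i ≠ j → ω i j = c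
    · obtain ⟨c, hc⟩ := hall
      left
      refine ⟨c, ?_, ?_⟩
      · obtain ⟨κ⟩ := hcol
        refine ⟨fun v => (κ v, g (κ v) (Fin.castLE (by omega) v)), ?_, ?_⟩
        · intro v w h
          rw [Prod.mk.injEq] at h
          obtain ⟨h1, h2⟩ := h
          rw [h1] at h2
          exact Fin.castLE_injective _ (hg _ h2)
        · intro v w hvw
          have h1 := κ.valid hvw
          exact ⟨h1, (hgω _ _ h1 _ _).trans (hc _ _ h1)⟩
      · have h01 : z ≠ (⟨1, by omega⟩ : Fin r) := by
          intro h
          rw [Fin.mk.injEq] at h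
          omega
        have := hKK _ _ h01
        rwa [hc _ _ h01] at this
    · right
      push Not at hall
      intro c
      obtain ⟨i, j, hij, hne⟩ := hall (!c)
      have := hKK i j hij
      have h1 : ω i j = c := by
        revert hne
        cases ω i j <;> cases c <;> simp
      rwa [h1] at this

end MP3240Q
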