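import Pool.Agent.Lib.MP_3240be_co.Q22.Defs

/-!
# Board WCQ, row LIN (and MON)
-/

set_option autoImplicit false

namespace MP3240Q

open Pool.Agent.Lib.MP_3240be_co.H36.Chrom (Sparse)

/-- Row LIN. -/
theorem lin_proof : LinStatement := by
  classical
  intro L I M δ g hg hS m m' t t' s s' hne h1 h2
  have hc : ({m, m'} : Finset M).card = 2 := Finset.card_pair hne
  obtain ⟨a, ha, b, hb, hab, hla, hlb⟩ := hS {m, m'} (by omega) (by omega)
  have key : ∀ c ∈ ({m, m'} : Finset M), Pool.Agent.Lib.MP_3240be_co.H36.Chrom.Leaf δ {m, m'} c := by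
    intro c hc'
    rw [Finset.mem_insert, Finset.mem_singleton] at ha hb hc'
    rcases ha with rfl | rfl <;> rcases hb with rfl | rfl
    · exact absurd rfl hab
    · rcases hc' with rfl | rfl
      · exact hla
      · exact hlb
    · rcases hc' with rfl | rfl
      · exact hlb
      · exact hla
    · exact absurd rfl hab
  have hm := key m (by simp)
  have hm' : m' ∈ ({m, m'} : Finset M) := by simp
  exact hm m' hm' m' hm' hne.symm hne.symm t t' s s' h1 h2

/-- Row MON. -/
theorem mon_proof : MonStatement := by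
  intro L I M δ χ R j
  induction j with
  | zero => intro x _; trivial
  | succ j ih =>
    intro x hx l
    obtain ⟨g, hg, hg'⟩ := hx l
    exact ⟨g, hg, fun i => ⟨(hg' i).1, (hg' i).2.1, fun l' => ih _ ((hg' i).2.2 l')⟩⟩

end MP3240Q
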