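import Pool.Agent.Lib.MP_3240be_co.Q22.Defs

set_option autoImplicit false

/-!
# Theorem Q, row MCO: red passengers or the required copies of `D` in one colour
-/

namespace MP3240Q

theorem mco_proof (h1 : AltStatement) (h2 : McbStatement) (h3 : McrStatement) :
    McoStatement := by
  intro p n k N G M _ D H Ok a₀ b₀ δ hTC hOk hOk2 hδ hcol C hC β₀ β₁ hβ hB hR
  by_cases hq : ∀ q q', H.Adj q q' → C (Sum.inr q) (Sum.inr q') = β₁
  · exact Or.inl hq
  push Not at hq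
  obtain ⟨x, u, hxu, hne⟩ := hq
  have hxu0 : C (Sum.inr x) (Sum.inr u) = β₀ := by
    revert hne hβ
    generalize C (Sum.inr x) (Sum.inr u) = c
    cases c <;> cases β₀ <;> cases β₁ <;> simp
  right
  by_cases hall : ∀ a b, D.Adj a b → Cop D (Pt D H Ok a₀ b₀ δ) C β₀ N a b
  · exact ⟨β₀, hall⟩
  push Not at hall
  obtain ⟨a, b, hab, hno⟩ := hall
  have hk : 2 ≤ k := by
    have ha := a.2
    have hb := b.2
    have hne : (a : ℕ) ≠ (b : ℕ) := fun h => hab.ne (Fin.ext h)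
    omega
  refine ⟨β₁, fun w b' _ => ?_⟩
  rcases hOk2 x u a b w hxu hab with hc | hc
  · rcases h1 n k N G M D Ok δ hk hδ hcol C β₀ β₁ hβ ⟨x, u, a, b, w⟩ with hbc | hrc
    · exact absurd (h2 p n k N G M D H Ok a₀ b₀ δ hTC hOk C hC β₀ hB _ hc hxu0 hbc) hno
    · exact h3 p n k N G M D H Ok a₀ b₀ δ hTC hδ C hC β₁ hR _ hrc b'
  · rcases h1 n k N G M D Ok δ hk hδ hcol C β₀ β₁ hβ ⟨u, x, a, b, w⟩ with hbc | hrc
    · exact absurd (h2 p n k N G M D H Ok a₀ b₀ δ hTC hOk C hC β₀ hB _ hc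
        ((hC _ _).trans hxu0) hbc) hno
    · exact h3 p n k N G M D H Ok a₀ b₀ δ hTC hδ C hC β₁ hR _ hrc b'

end MP3240Q
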