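import Pool.Agent.Lib.MP_3240be_co.Q22.Defs

set_option autoImplicit false

/-!
# Row MCR: the copies of `D` that use a hyperedge
-/

namespace MP3240Q

open Pool.Agent.Lib.MP_3240be_co.H82 (TC)

section Mcr

variable {n k : ℕ} {G M : Type} {D : SimpleGraph (Fin k)} {H : SimpleGraph (Fin n)}
  {Ok : Lab n k → Prop} {a₀ b₀ : Fin k} {δ : M → Fin k → G}

theorem mcr_rho_inj (hδ : ∀ m, Function.Injective (δ m)) {c : Lab n k} {m : M} {v y y' : Fin k}
    (h : rho D δ c m v y = rho D δ c m v y') : y = y' := by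
  classical
  unfold rho at h
  by_cases h1 : D.Adj c.w y <;> by_cases h2 : D.Adj c.w y'
  · rw [if_pos h1, if_pos h2] at h
    simp only [GX.l.injEq, true_and, and_true] at h
    exact hδ m h
  · rw [if_pos h1, if_neg h2] at h
    exact absurd h (by simp)
  · rw [if_neg h1, if_pos h2] at h
    exact absurd h (by simp)
  · rw [if_neg h1, if_neg h2] at h
    simp only [GX.r.injEq, true_and] at h
    exact h

theorem mcr_rho_of_adj {c : Lab n k} {m : M} {v y : Fin k} (h : D.Adj c.w y) :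
    rho D δ c m v y = GX.l c (δ m y) v := by
  unfold rho
  rw [if_pos h]

end Mcr

theorem mcr_proof : McrStatement := by
  classical
  intro p n k N G M D H Ok a₀ b₀ δ hD hδ C hC β₁ hβ c hRC b
  obtain ⟨q, v, g, m, hg, hF, hgC, hmC⟩ := hRC
  have hOk : Ok c := hF.1
  let f : Fin k → GX n k G M ⊕ Fin n := fun y =>
    if y = c.w then Sum.inr q else Sum.inl (rho D δ c m v y)
  have fw : f c.w = Sum.inr q := by simp only [f, if_true]
  have fy : ∀ y, y ≠ c.w → f y = Sum.inl (rho D δ c m v y) := by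
    intro y hy
    simp only [f, if_neg hy]
  have hfi : Function.Injective f := by
    intro y y' hyy
    by_cases c1 : y = c.w
    · by_cases c2 : y' = c.w
      · rw [c1, c2]
      · rw [c1, fw, fy y' c2] at hyy
        simp at hyy
    · by_cases c2 : y' = c.w
      · rw [c2, fw, fy y c1] at hyy
        simp at hyy
      · rw [fy y c1, fy y' c2] at hyy
        exact mcr_rho_inj hδ (Sum.inl_injective hyy)
  have hadj : ∀ s t : GX n k G M ⊕ Fin n, s ≠ t →
      (EB D Ok a₀ b₀ s t ∨ ER D H Ok a₀ b₀ δ s t) → (Pt D H Ok a₀ b₀ δ).Adj s t := by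
    intro s t hne h
    unfold Pt
    rw [SimpleGraph.fromRel_adj]
    exact ⟨hne, Or.inl h⟩
  have hstar : ∀ y, D.Adj c.w y →
      (Pt D H Ok a₀ b₀ δ).Adj (Sum.inr q) (Sum.inl (rho D δ c m v y)) ∧
      C (Sum.inr q) (Sum.inl (rho D δ c m v y)) = β₁ := by
    intro y hy
    rw [mcr_rho_of_adj hy]
    exact ⟨hadj _ _ (by simp) (Or.inl (Or.inr (Or.inr (Or.inl ⟨q, c, _, v, hF, rfl, rfl⟩)))),
      hmC y⟩
  refine ⟨f, ⟨hfi, ?_⟩, ?_, ?_⟩
  · intro s t hst
    by_cases c1 : s = c.w
    · have c2 : t ≠ c.w := fun h => hst.ne (c1.trans h.symm)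
      rw [c1, fw, fy t c2]
      exact hstar t (c1 ▸ hst)
    · by_cases c2 : t = c.w
      · obtain ⟨k1, k2⟩ := hstar s (c2 ▸ hst.symm)
        rw [c2, fw, fy s c1]
        exact ⟨k1.symm, by rw [hC]; exact k2⟩
      · have hne : f s ≠ f t := fun h => hst.ne (hfi h)
        rw [fy s c1, fy t c2] at hne ⊢
        have hE : ER D H Ok a₀ b₀ δ (Sum.inl (rho D δ c m v s)) (Sum.inl (rho D δ c m v t)) :=
          Or.inr (Or.inr ⟨c, m, v, s, t, hOk, hF.2.1, hF.2.2.1, c1, c2, hst, rfl, rfl⟩)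
        exact ⟨hadj _ _ hne (Or.inr hE), hβ _ _ hE⟩
  · intro y h1 _
    exact ⟨_, fy y h1⟩
  · intro y q' hy
    by_cases c1 : y = c.w
    · rw [c1, fw] at hy
      have hq := Sum.inr_injective hy
      rw [← hq]
      refine ⟨fun s => GX.l c (g s) v, ?_, ?_⟩
      · intro s s' hss
        simp only [GX.l.injEq, true_and, and_true] at hss
        exact hg hss
      · intro s
        exact ⟨hadj _ _ (by simp) (Or.inl (Or.inr (Or.inr (Or.inl ⟨q, c, _, v, hF, rfl, rfl⟩)))),
          hgC s⟩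
    · rw [fy y c1] at hy
      simp at hy

end MP3240Q
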