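import Pool.Agent.Lib.MP_3240be_co.Q22.Defs
import Pool.Agent.Lib.MP_3240be_co.H36.Chrom.Gadget

set_option autoImplicit false

/-!
# Row NBL: there is no blue copy of `D`

Port of `no_blue` in H82/Gadget82.
-/

namespace MP3240Q

open Pool.Agent.Lib.MP_3240be_co.H82 (TC Good)
open Pool.Agent.Lib.MP_3240be_co.H36.Chrom (surj_edge)

theorem nbl_proof : NblStatement := by
  intro p n k G M D H Ok a₀ b₀ hD hab hOk hcl f hf hE
  by_cases hz : ∃ p v, f p = Sum.inl (GX.z v)
  · -- everything in the copy of `D` minus an edge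
    have hall := hD.conn (fun p => ∃ v, f p = Sum.inl (GX.z v)) hz (by
      rintro p q hpq ⟨v, hv⟩
      rcases hE p q hpq with ⟨_, v', _, _, _, _, ht⟩ | ⟨c, i, _, _, _, _, _, _, _, _, hs, _⟩ |
        ⟨_, _, _, _, _, hs, _⟩ | ⟨_, _, _, _, _, _, hs⟩
      · exact ⟨v', ht⟩
      · rw [hv] at hs
        simp at hs
      · rw [hv] at hs
        simp at hs
      · rw [hv] at hs
        simp at hs)
    choose h hh using hall
    have hinj : Function.Injective h := by
      intro p q hpq
      apply hf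
      rw [hh, hh, hpq]
    have hadj : ∀ p q, D.Adj p q → D.Adj (h p) (h q) ∧ ¬ (h p = a₀ ∧ h q = b₀) := by
      intro p q hpq
      rcases hE p q hpq with ⟨v, v', k1, k2, _, hs, ht⟩ |
        ⟨c, i, _, _, _, _, _, _, _, _, hs, _⟩ | ⟨_, _, _, _, _, hs, _⟩ |
        ⟨_, _, _, _, _, _, hs⟩
      · rw [hh] at hs ht
        simp only [Sum.inl.injEq, GX.z.injEq] at hs ht
        rw [hs, ht]
        exact ⟨k1, k2⟩
      · rw [hh] at hs
        simp at hs
      · rw [hh] at hs
        simp at hs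
      · rw [hh] at hs
        simp at hs
    obtain ⟨p, q, hpq, e1, e2⟩ := surj_edge h hinj (fun p q hpq => (hadj p q hpq).1) a₀ b₀ hab
    exact (hadj p q hpq).2 ⟨e1, e2⟩
  · push Not at hz
    -- a vertex in a blocking copy
    have hex : ∃ p c i v, Ok c ∧ f p = Sum.inl (GX.l c i v) := by
      obtain ⟨q, hq⟩ := hD.nbr a₀
      rcases hE a₀ q hq with ⟨v, _, _, _, _, hs, _⟩ | ⟨c, i, v, _, k1, _, _, _, _, _, hs, _⟩ |
        ⟨_, c, i, v, k1, _, ht⟩ | ⟨_, c, i, v, k1, _, hs⟩
      · exact absurd hs (hz a₀ v)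
      · exact ⟨a₀, c, i, v, k1, hs⟩
      · exact ⟨q, c, i, v, k1.1, ht⟩
      · exact ⟨a₀, c, i, v, k1.1, hs⟩
    obtain ⟨p0, c, i, v0, hc', hp0⟩ := hex
    obtain ⟨hxu, habc⟩ := hOk c hc'
    have hall := hD.sepf f hf (Sum.inr c.x) (Sum.inr c.u) (fun hp => by
        obtain ⟨cl, h1, h2⟩ := hcl hp
        exact ⟨cl, fun p q hpq => h1 _ _ (hE p q hpq), h2 c.x c.u hxu⟩)
      (fun p => ∃ v, f p = Sum.inl (GX.l c i v))
      ⟨p0, by rw [hp0]; simp, by rw [hp0]; simp, v0, hp0⟩ (by
        rintro p q hq1 hq2 hpq ⟨v, hv⟩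
        rcases hE p q hpq with ⟨_, _, _, _, _, hs, _⟩ |
          ⟨c', i', v1, v2, _, _, _, _, _, _, hs, ht⟩ | ⟨_, _, _, _, _, hs, _⟩ |
          ⟨e, c', i', v1, k1, ht, hs⟩
        · rw [hv] at hs
          simp at hs
        · rw [hv] at hs
          simp only [Sum.inl.injEq, GX.l.injEq] at hs
          obtain ⟨h1, h2, _⟩ := hs
          rw [← h1, ← h2] at ht
          exact ⟨v2, ht⟩
        · rw [hv] at hs
          simp at hs
        · rw [hv] at hs
          simp only [Sum.inl.injEq, GX.l.injEq] at hs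
          obtain ⟨h1, h2, _⟩ := hs
          rcases k1.2.2.2 with ⟨hc, _⟩ | ⟨hc, _⟩
          · exact absurd (by rw [ht, hc, h1]) hq1
          · exact absurd (by rw [ht, hc, h1]) hq2)
    -- the induced map to `D` minus the edge `ab`
    have hmap : ∀ p, ∃ d, (f p = Sum.inl (GX.l c i d) ∧ d ≠ c.a ∧ d ≠ c.b) ∨
        (f p = Sum.inr c.x ∧ d = c.a) ∨ (f p = Sum.inr c.u ∧ d = c.b) := by
      intro p
      by_cases h1 : f p = Sum.inr c.x
      · exact ⟨c.a, Or.inr (Or.inl ⟨h1, rfl⟩)⟩
      by_cases h2 : f p = Sum.inr c.u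
      · exact ⟨c.b, Or.inr (Or.inr ⟨h2, rfl⟩)⟩
      obtain ⟨d, hd⟩ := hall p h1 h2
      refine ⟨d, Or.inl ⟨hd, ?_⟩⟩
      obtain ⟨q, hq⟩ := hD.nbr p
      rcases hE p q hq with ⟨v, _, _, _, _, hs, _⟩ |
        ⟨c', i', v1, v2, _, _, k3, k4, _, _, hs, ht⟩ | ⟨_, _, _, _, _, hs, _⟩ |
        ⟨_, c', i', v1, k1, _, hs⟩
      · rw [hd] at hs
        simp at hs
      · rw [hd] at hs
        simp only [Sum.inl.injEq, GX.l.injEq] at hs
        rw [hs.1, hs.2.2]
        exact ⟨k3, k4⟩
      · rw [hd] at hs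
        simp at hs
      · rw [hd] at hs
        simp only [Sum.inl.injEq, GX.l.injEq] at hs
        rw [hs.1, hs.2.2]
        exact ⟨k1.2.1, k1.2.2.1⟩
    choose h hh using hmap
    have hab' := habc.ne
    have hinj : Function.Injective h := by
      intro p q hpq
      rcases hh p with ⟨h1, h2, h3⟩ | ⟨h1, h2⟩ | ⟨h1, h2⟩ <;>
        rcases hh q with ⟨k1, k2, k3⟩ | ⟨k1, k2⟩ | ⟨k1, k2⟩
      · exact hf (by rw [h1, k1, hpq])
      · exact absurd (hpq.trans k2) h2
      · exact absurd (hpq.trans k2) h3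
      · exact absurd (hpq.symm.trans h2) k2
      · exact hf (by rw [h1, k1])
      · exact absurd (h2.symm.trans (hpq.trans k2)) hab'
      · exact absurd (hpq.symm.trans h2) k3
      · exact absurd (k2.symm.trans (hpq.symm.trans h2)) hab'
      · exact hf (by rw [h1, k1])
    have hadj : ∀ p q, D.Adj p q → D.Adj (h p) (h q) ∧ ¬ (h p = c.a ∧ h q = c.b) := by
      intro p q hpq
      rcases hE p q hpq with ⟨v, _, _, _, _, hs, _⟩ |
        ⟨c', i', v1, v2, k1, k2, k3, k4, k5, k6, hs, ht⟩ |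
        ⟨e, c', i', v1, k1, hs, ht⟩ | ⟨e, c', i', v1, k1, ht, hs⟩
      · exact absurd hs (hz p v)
      · rcases hh p with ⟨h1, h2, h3⟩ | ⟨h1, h2⟩ | ⟨h1, h2⟩
        · rcases hh q with ⟨j1, j2, j3⟩ | ⟨j1, j2⟩ | ⟨j1, j2⟩
          · rw [h1] at hs
            rw [j1] at ht
            simp only [Sum.inl.injEq, GX.l.injEq] at hs ht
            rw [hs.2.2, ht.2.2, hs.1]
            exact ⟨k2, fun h => k3 h.1⟩
          · rw [j1] at ht
            simp at ht
          · rw [j1] at ht
            simp at ht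
        · rw [h1] at hs
          simp at hs
        · rw [h1] at hs
          simp at hs
      · -- p a passenger, q in the blocking copy
        rcases hh q with ⟨j1, j2, j3⟩ | ⟨j1, j2⟩ | ⟨j1, j2⟩
        · rw [j1] at ht
          simp only [Sum.inl.injEq, GX.l.injEq] at ht
          obtain ⟨hc1, hi1, hv⟩ := ht
          rw [← hc1] at k1
          rcases hh p with ⟨h1, h2, h3⟩ | ⟨h1, h2⟩ | ⟨h1, h2⟩
          · rw [h1] at hs
            simp at hs
          · rw [h1] at hs
            simp only [Sum.inr.injEq] at hs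
            rcases k1.2.2.2 with ⟨hc, hadj⟩ | ⟨hc, hadj⟩
            · rw [h2, hv]
              exact ⟨hadj, fun h => k1.2.2.1 h.2⟩
            · exact absurd (hs.trans hc) hxu.ne
          · rw [h1] at hs
            simp only [Sum.inr.injEq] at hs
            rcases k1.2.2.2 with ⟨hc, hadj⟩ | ⟨hc, hadj⟩
            · exact absurd (hs.trans hc).symm hxu.ne
            · rw [h2, hv]
              exact ⟨hadj, fun h => hab' h.1.symm⟩
        · rw [j1] at ht
          simp at ht
        · rw [j1] at ht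
          simp at ht
      · -- q a passenger, p in the blocking copy
        rcases hh p with ⟨j1, j2, j3⟩ | ⟨j1, j2⟩ | ⟨j1, j2⟩
        · rw [j1] at hs
          simp only [Sum.inl.injEq, GX.l.injEq] at hs
          obtain ⟨hc1, hi1, hv⟩ := hs
          rw [← hc1] at k1
          rcases hh q with ⟨h1, h2, h3⟩ | ⟨h1, h2⟩ | ⟨h1, h2⟩
          · rw [h1] at ht
            simp at ht
          · rw [h1] at ht
            simp only [Sum.inr.injEq] at ht
            rcases k1.2.2.2 with ⟨hc, hadj⟩ | ⟨hc, hadj⟩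
            · rw [h2, hv]
              exact ⟨hadj.symm, fun h => hab' h.2⟩
            · exact absurd (ht.trans hc) hxu.ne
          · rw [h1] at ht
            simp only [Sum.inr.injEq] at ht
            rcases k1.2.2.2 with ⟨hc, hadj⟩ | ⟨hc, hadj⟩
            · exact absurd (ht.trans hc).symm hxu.ne
            · rw [h2, hv]
              exact ⟨hadj.symm, fun h => k1.2.1 h.1⟩
        · rw [j1] at hs
          simp at hs
        · rw [j1] at hs
          simp at hs
    obtain ⟨p, q, hpq, e1, e2⟩ := surj_edge h hinj (fun p q hpq => (hadj p q hpq).1) c.a c.b habc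
    exact (hadj p q hpq).2 ⟨e1, e2⟩

end MP3240Q
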