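import Mathlib
import Pool.Agent.Lib.MP_3240be_co.Q22.Defs

set_option autoImplicit false

/-!
# Theorem Q: row ONE

A copy of `D` in a union of pieces glued at single vertices along a sparse family lies in one
piece.
-/

namespace MP3240Q

open Pool.Agent.Lib.MP_3240be_co.H82 (TC)

/-- Row ONE. -/
theorem one_proof : OneStatement := by
  classical
  intro p k D hD M mm In hIn hleaf
  obtain ⟨x0⟩ := hD.ne
  obtain ⟨y0, hxy0⟩ := hD.nbr x0
  let S : Finset M := ((Finset.univ : Finset (Fin k × Fin k)).filter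
    (fun p => D.Adj p.1 p.2)).image (fun p => mm p.1 p.2)
  have hS : ∀ i j, D.Adj i j → mm i j ∈ S := fun i j hij =>
    Finset.mem_image.2 ⟨(i, j), Finset.mem_filter.2 ⟨Finset.mem_univ _, hij⟩, rfl⟩
  have hScard : S.card ≤ k * k := by
    refine Finset.card_image_le.trans ((Finset.card_filter_le _ _).trans ?_)
    rw [Finset.card_univ, Fintype.card_prod, Fintype.card_fin]
  by_cases hS2 : 2 ≤ S.card
  · exfalso
    obtain ⟨m, hm, hI1⟩ := hleaf S hS2 hScard
    obtain ⟨⟨p1, q1⟩, hpq1, hpqm⟩ := Finset.mem_image.1 hm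
    have hadj1 : D.Adj p1 q1 := (Finset.mem_filter.1 hpq1).2
    simp only at hpqm
    have hin1 := hIn p1 q1 hadj1
    rw [hpqm] at hin1
    have hI : ∀ i j, (In m i ∧ ∃ m' ∈ S, m' ≠ m ∧ In m' i) →
        (In m j ∧ ∃ m' ∈ S, m' ≠ m ∧ In m' j) → i = j := fun i j hi hj =>
      hI1 i j hi.1 hj.1 hi.2 hj.2
    have hall := hD.sep1 (fun i => In m i ∧ ∃ m' ∈ S, m' ≠ m ∧ In m' i) hI (fun i => In m i) (by
      by_cases h1 : In m p1 ∧ ∃ m' ∈ S, m' ≠ m ∧ In m' p1
      · exact ⟨q1, fun h2 => hadj1.ne (hI _ _ h1 h2), hin1.2⟩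
      · exact ⟨p1, h1, hin1.1⟩) (by
      intro i j hi _ hij hmi
      by_cases h1 : mm i j = m
      · have := (hIn i j hij).2
        rwa [h1] at this
      · exact absurd ⟨hmi, mm i j, hS i j hij, h1, (hIn i j hij).1⟩ hi)
    -- another piece
    obtain ⟨m', hm', hne'⟩ : ∃ m' ∈ S, m' ≠ m := by
      by_contra hcon
      push Not at hcon
      have : S ⊆ {m} := fun l hl => Finset.mem_singleton.2 (hcon l hl)
      have := Finset.card_le_card this
      rw [Finset.card_singleton] at this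
      omega
    obtain ⟨⟨p2, q2⟩, hpq2, hpqm2⟩ := Finset.mem_image.1 hm'
    have hadj2 : D.Adj p2 q2 := (Finset.mem_filter.1 hpq2).2
    simp only at hpqm2
    have hin2 := hIn p2 q2 hadj2
    rw [hpqm2] at hin2
    have hI2 : ∀ i, In m' i → In m i ∧ ∃ m' ∈ S, m' ≠ m ∧ In m' i := by
      intro i hi
      by_contra hc
      exact hc ⟨hall i hc, m', hm', hne', hi⟩
    exact hadj2.ne (hI _ _ (hI2 _ hin2.1) (hI2 _ hin2.2))
  · refine ⟨mm x0 y0, fun i j hij => ?_⟩
    by_contra hne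
    apply hS2
    exact Finset.one_lt_card.2 ⟨_, hS i j hij, _, hS x0 y0 hxy0, hne⟩

end MP3240Q
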