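import Mathlib
import Pool.Agent.Lib.MP_3240be_co.Q22.Defs
import Pool.Agent.Lib.MP_3240be_co.H36.Chrom.Hyper

set_option autoImplicit false

/-!
# Row PAT: the pattern
-/

namespace MP3240Q

open Pool.Agent.Lib.MP_3240be_co.H82 (TC Good)
open Pool.Agent.Lib.MP_3240be_co.H36.Chrom (Sparse ArrowsT good)

theorem pat_proof (hS : SymStatement) (hN : NblStatement) (hR : RpaStatement)
    (hP : PbiStatement) (hM : McoStatement) : PatStatement := by
  classical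
  intro p k n N D H hD hbip
  obtain ⟨a₀⟩ := hD.ne
  obtain ⟨b₀, hab⟩ := hD.nbr a₀
  have : Nonempty (Option (Bool × Fin k) × Fin (N + 1)) := ⟨(none, 0)⟩
  obtain ⟨G, M, hG, hMf, δ, hδ, hcol, hsp⟩ :=
    good (k * k) (Fin k) (Option (Bool × Fin k) × Fin (N + 1))
  have hsp' : Sparse (k * k) δ := fun S h1 h2 => hsp S h1 (by omega)
  obtain ⟨κD, κH, hκ⟩ : ∃ (κD : Fin k → Bool) (κH : Fin n → Bool), p →
      (∀ x y, D.Adj x y → κD x ≠ κD y) ∧ (∀ x y, H.Adj x y → κH x ≠ κH y) := by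
    by_cases hp : p
    · obtain ⟨κD, h1⟩ := hD.bip hp
      obtain ⟨κH, h2⟩ := hbip hp
      exact ⟨κD, κH, fun _ => ⟨h1, h2⟩⟩
    · exact ⟨fun _ => true, fun _ => true, fun h => absurd h hp⟩
  let Ok : Lab n k → Prop := fun c => H.Adj c.x c.u ∧ D.Adj c.a c.b ∧ (p → κH c.x = κD c.a)
  have hOk1 : ∀ c, Ok c → H.Adj c.x c.u ∧ D.Adj c.a c.b := fun c h => ⟨h.1, h.2.1⟩
  have hOk2 : ∀ x u a b w, H.Adj x u → D.Adj a b → Ok ⟨x, u, a, b, w⟩ ∨ Ok ⟨u, x, a, b, w⟩ := by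
    intro x u a b w hxu hab'
    by_cases hp : p
    · have h1 := (hκ hp).2 x u hxu
      by_cases h2 : κH x = κD a
      · exact Or.inl ⟨hxu, hab', fun _ => h2⟩
      · refine Or.inr ⟨hxu.symm, hab', fun _ => ?_⟩
        show κH u = κD a
        revert h1 h2
        cases κH x <;> cases κH u <;> cases κD a <;> decide
    · exact Or.inl ⟨hxu, hab', fun h => absurd h hp⟩
  have hs := hS n k G M D H Ok a₀ b₀ δ hab.ne hδ
  have hBs : ∀ s t, EB D Ok a₀ b₀ (s : GX n k G M ⊕ Fin n) t → EB D Ok a₀ b₀ t s :=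
    fun s t => (hs s t).1
  have hRs : ∀ s t, ER D H Ok a₀ b₀ δ s t → ER D H Ok a₀ b₀ δ t s := fun s t => (hs s t).2.1
  have hBi : ∀ s, ¬ EB D Ok a₀ b₀ (s : GX n k G M ⊕ Fin n) s := fun s => (hs s s).2.2.1
  have hRi : ∀ s, ¬ ER D H Ok a₀ b₀ δ s s := fun s => (hs s s).2.2.2.1
  have hdisj : ∀ s t, EB D Ok a₀ b₀ s t → ¬ ER D H Ok a₀ b₀ δ s t := fun s t => (hs s t).2.2.2.2
  have hPt : ∀ s t, (Pt D H Ok a₀ b₀ δ).Adj s t ↔
      (EB D Ok a₀ b₀ s t ∨ ER D H Ok a₀ b₀ δ s t) := by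
    intro s t
    rw [Pt, SimpleGraph.fromRel_adj]
    constructor
    · rintro ⟨_, (h | h) | (h | h)⟩
      · exact Or.inl h
      · exact Or.inr h
      · exact Or.inl (hBs _ _ h)
      · exact Or.inr (hRs _ _ h)
    · intro h
      refine ⟨?_, Or.inl h⟩
      rintro rfl
      rcases h with h | h
      · exact hBi _ h
      · exact hRi _ h
  have hERq : ∀ q t, ER D H Ok a₀ b₀ δ (Sum.inr q) t → ∃ q', H.Adj q q' ∧ t = Sum.inr q' := by
    rintro q t (⟨_, _, _, h, _⟩ | ⟨q1, q2, h1, h2, h3⟩ | ⟨_, _, _, _, _, _, _, _, _, _, _, h, _⟩)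
    · simp at h
    · refine ⟨q2, ?_, h3⟩
      rw [Sum.inr_injective h2]
      exact h1
    · simp at h
  have hEBq : ∀ q q', ¬ EB D Ok a₀ b₀ (Sum.inr q : GX n k G M ⊕ Fin n) (Sum.inr q') := by
    rintro q q' (⟨_, _, _, _, _, h, _⟩ | ⟨_, _, _, _, _, _, _, _, _, _, h, _⟩ |
      ⟨_, _, _, _, _, _, h⟩ | ⟨_, _, _, _, _, _, h⟩)
    · simp at h
    · simp at h
    · simp at h
    · simp at h
  have hHER : ∀ q q', H.Adj q q' →
      ER D H Ok a₀ b₀ δ (Sum.inr q) (Sum.inr q') := fun q q' h =>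
    Or.inr (Or.inl ⟨q, q', h, rfl, rfl⟩)
  obtain ⟨cl, hcl⟩ : ∃ cl : GX n k G M ⊕ Fin n → Bool, p →
      (∀ s t, EB D Ok a₀ b₀ s t → cl s ≠ cl t) ∧
      (∀ s t, ER D H Ok a₀ b₀ δ s t → cl s ≠ cl t) ∧ ∀ q, cl (Sum.inr q) = κH q := by
    by_cases hp : p
    · obtain ⟨cl, h⟩ := hP n k G M D H Ok a₀ b₀ δ κD κH (hκ hp).1 (hκ hp).2 hab
        (fun c h => ⟨h.1, h.2.1, h.2.2 hp⟩)
      exact ⟨cl, fun _ => h⟩
    · exact ⟨fun _ => true, fun h => absurd h hp⟩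
  -- another edge of `D`
  obtain ⟨v₁, hv₁, hv₁a⟩ := hD.nbr2 b₀ a₀
  have hEz : EB D Ok a₀ b₀ (Sum.inl (GX.z b₀) : GX n k G M ⊕ Fin n) (Sum.inl (GX.z v₁)) :=
    Or.inl ⟨b₀, v₁, hv₁, fun h => hab.ne h.1.symm, fun h => hv₁a h.2, rfl, rfl⟩
  have hRz : ER D H Ok a₀ b₀ δ (Sum.inl (GX.z a₀)) (Sum.inl (GX.z b₀)) :=
    Or.inl ⟨a₀, b₀, Or.inl ⟨rfl, rfl⟩, rfl, rfl⟩
  refine ⟨GX n k G M, inferInstance, Pt D H Ok a₀ b₀ δ,
    fun s t => decide (ER D H Ok a₀ b₀ δ s t), ?_⟩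
  refine ⟨?_, ?_, ?_, ?_, ?_, ?_, ?_, ?_⟩
  · -- pat
    intro q q'
    rw [hPt]
    constructor
    · rintro (h | h)
      · exact absurd h (hEBq q q')
      · obtain ⟨q'', h1, h2⟩ := hERq _ _ h
        rw [Sum.inr_injective h2]
        exact h1
    · intro h
      exact Or.inr (hHER q q' h)
  · -- symm
    intro x y
    exact decide_eq_decide.2 ⟨hRs x y, hRs y x⟩
  · -- red
    intro q y _ h
    obtain ⟨q', _, h2⟩ := hERq q y (of_decide_eq_true h)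
    exact ⟨q', h2⟩
  · -- isred
    intro q q' h
    exact decide_eq_true (hHER q q' h)
  · -- only
    rintro c f ⟨hf, hfE⟩ v
    rcases Bool.eq_false_or_eq_true c with hc | hc
    · subst hc
      exact hR p n k G M D H Ok a₀ b₀ δ hD hsp' f hf
        (fun i j hij => of_decide_eq_true (hfE i j hij).2) v
    · exfalso
      subst hc
      refine hN p n k G M D H Ok a₀ b₀ hD hab hOk1 (fun hp => ⟨cl, (hcl hp).1, ?_⟩) f hf ?_
      · intro x u hxu
        rw [(hcl hp).2.2, (hcl hp).2.2]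
        exact (hκ hp).2 x u hxu
      · intro i j hij
        obtain ⟨h1, h2⟩ := hfE i j hij
        rcases (hPt _ _).1 h1 with h | h
        · exact h
        · exact absurd h (of_decide_eq_false h2)
  · -- bip
    intro hp
    refine ⟨cl, fun x y hxy => ?_⟩
    rcases (hPt x y).1 hxy with h | h
    · exact (hcl hp).1 x y h
    · exact (hcl hp).2.1 x y h
  · -- two
    exact ⟨GX.z a₀, GX.z b₀, fun h => hab.ne (GX.z.inj h)⟩
  · -- arr
    intro C β hC hβ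
    have h0 : ∀ d d', EB D Ok a₀ b₀ (Sum.inl d) (Sum.inl d' : GX n k G M ⊕ Fin n) →
        C (Sum.inl d) (Sum.inl d') = β false := by
      intro d d' h
      rw [hβ d d' ((hPt _ _).2 (Or.inl h)), decide_eq_false (hdisj _ _ h)]
    have h1 : ∀ d d', ER D H Ok a₀ b₀ δ (Sum.inl d) (Sum.inl d') →
        C (Sum.inl d) (Sum.inl d') = β true := by
      intro d d' h
      rw [hβ d d' ((hPt _ _).2 (Or.inr h)), decide_eq_true h]
    by_cases hβe : β false = β true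
    · -- the copy of `D` with one red edge
      refine Or.inl ⟨β true, fun v => GX.z v, ?_, ?_⟩
      · intro v v' h
        exact GX.z.inj (Sum.inl_injective h)
      · intro i j hij
        by_cases hr : (i = a₀ ∧ j = b₀) ∨ (i = b₀ ∧ j = a₀)
        · have hE : ER D H Ok a₀ b₀ δ (Sum.inl (GX.z i)) (Sum.inl (GX.z j)) :=
            Or.inl ⟨i, j, hr, rfl, rfl⟩
          exact ⟨(hPt _ _).2 (Or.inr hE), h1 _ _ hE⟩
        · have hE : EB D Ok a₀ b₀ (Sum.inl (GX.z i) : GX n k G M ⊕ Fin n)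
              (Sum.inl (GX.z j)) :=
            Or.inl ⟨i, j, hij, fun h => hr (Or.inl h), fun h => hr (Or.inr h), rfl, rfl⟩
          exact ⟨(hPt _ _).2 (Or.inl hE), by rw [h0 _ _ hE, hβe]⟩
    · rcases hM p n k N G M D H Ok a₀ b₀ δ hD hOk1 hOk2 hδ hcol C hC (β false) (β true) hβe
        h0 h1 with h | ⟨c, h⟩
      · exact Or.inr (Or.inl ⟨β true, h⟩)
      · refine Or.inr (Or.inr ⟨c, ?_, h⟩)
        by_cases hc : β false = c
        · exact ⟨_, _, (hPt _ _).2 (Or.inl hEz), by rw [h0 _ _ hEz, hc]⟩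
        · refine ⟨_, _, (hPt _ _).2 (Or.inr hRz), ?_⟩
          rw [h1 _ _ hRz]
          revert hβe hc
          cases β false <;> cases β true <;> cases c <;> decide

end MP3240Q
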