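import Mathlib
import Pool.Agent.Lib.MP_3240be_co.Q22.Defs

set_option autoImplicit false

/-!
# Theorem Q: row PBI

A proper 2-colouring of the pattern.
-/

namespace MP3240Q

/-- The 2-colouring of the pattern. -/
def pbiCol {n k : ℕ} {G M : Type} (κD : Fin k → Bool) (κH : Fin n → Bool) :
    GX n k G M ⊕ Fin n → Bool
  | Sum.inl (GX.z v) => κD v
  | Sum.inl (GX.l _ _ v) => κD v
  | Sum.inl (GX.r c _ v y) => xor (κD v) (decide (κD y = κD c.w))
  | Sum.inr q => κH q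

theorem pbiCol_rho {n k : ℕ} {G M : Type} (D : SimpleGraph (Fin k)) (δ : M → Fin k → G)
    (κD : Fin k → Bool) (κH : Fin n → Bool) (hκD : ∀ x y, D.Adj x y → κD x ≠ κD y)
    (c : Lab n k) (m : M) (v y : Fin k) :
    pbiCol κD κH (Sum.inl (rho D δ c m v y)) = xor (κD v) (decide (κD y = κD c.w)) := by
  unfold rho
  split_ifs with h
  · have h' := hκD _ _ h
    have h2 : ¬ (κD y = κD c.w) := fun h3 => h' h3.symm
    simp [pbiCol, h2]
  · rfl

theorem pbi_bool_aux {a b c d : Bool} (h1 : a ≠ b) (h2 : c ≠ d) (h3 : a = c) : b = d := by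
  revert h1 h2 h3; cases a <;> cases b <;> cases c <;> cases d <;> decide

theorem pbi_xor_aux {v a b w : Bool} (h : a ≠ b) :
    xor v (decide (a = w)) ≠ xor v (decide (b = w)) := by
  revert h; cases v <;> cases a <;> cases b <;> cases w <;> decide

/-- Row PBI. -/
theorem pbi_proof : PbiStatement := by
  intro n k G M D H Ok a₀ b₀ δ κD κH hκD hκH hab hOk
  have fr : ∀ q c v, Fr D Ok q c v → κH q ≠ κD v := by
    rintro q c v ⟨hok, _, _, h⟩
    obtain ⟨h1, h2, h3⟩ := hOk c hok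
    rcases h with ⟨rfl, h⟩ | ⟨rfl, h⟩
    · rw [h3]
      exact hκD _ _ h
    · rw [pbi_bool_aux (hκH _ _ h1) (hκD _ _ h2) h3]
      exact hκD _ _ h
  refine ⟨pbiCol κD κH, ?_, ?_, fun q => rfl⟩
  · rintro s t (⟨v, v', h, _, _, rfl, rfl⟩ | ⟨c, i, v, v', _, h, _, _, _, _, rfl, rfl⟩ |
      ⟨q, c, i, v, h, rfl, rfl⟩ | ⟨q, c, i, v, h, rfl, rfl⟩)
    · exact hκD _ _ h
    · exact hκD _ _ h
    · exact fr q c v h
    · exact (fr q c v h).symm
  · rintro s t (⟨v, v', h, rfl, rfl⟩ | ⟨q, q', h, rfl, rfl⟩ |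
      ⟨c, m, v, y, y', _, _, _, _, _, h, rfl, rfl⟩)
    · rcases h with ⟨rfl, rfl⟩ | ⟨rfl, rfl⟩
      · exact hκD _ _ hab
      · exact hκD _ _ hab.symm
    · exact hκH _ _ h
    · rw [pbiCol_rho D δ κD κH hκD, pbiCol_rho D δ κD κH hκD]
      exact pbi_xor_aux (hκD _ _ h)

end MP3240Q
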