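import Pool.Agent.Lib.MP_3240be_co.Q22.Defs

set_option autoImplicit false

namespace MP3240Q

/-- Row PEN. -/
theorem pen_proof (hmon : MonStatement) (hfnb : FnbStatement) : PenStatement := by
  classical
  intro k N t L Q I M D S δ C χ Cφ c hH j T A F g hA hAN hT hFA hSt y z hy hz
  obtain ⟨h, hinj, hh⟩ := hSt.nb y hy
  -- an unused neighbour
  have hex : ∃ i, Sum.inl (h i) ∉ g '' A := by
    by_contra hcon
    push Not at hcon
    have hsub : Set.range (fun i => (Sum.inl (h i) : I ⊕ (M × Q))) ⊆ g '' A := by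
      rintro _ ⟨i, rfl⟩
      exact hcon i
    have hinj' : Function.Injective (fun i => (Sum.inl (h i) : I ⊕ (M × Q))) := by
      intro a b hab
      exact hinj (Sum.inl_injective hab)
    have h1 : (Set.range (fun i => (Sum.inl (h i) : I ⊕ (M × Q)))).ncard ≤ (g '' A).ncard :=
      Set.ncard_le_ncard hsub (hA.image g)
    have h2 : (g '' A).ncard ≤ A.ncard := Set.ncard_image_le hA
    have h3 : (Set.range (fun i => (Sum.inl (h i) : I ⊕ (M × Q)))).ncard = N := by
      rw [← Set.image_univ, Set.ncard_image_of_injective _ hinj', Set.ncard_univ, Nat.card_fin]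
    omega
  obtain ⟨i, hi⟩ := hex
  have hyz : y ≠ z := fun e => hz (e ▸ hy)
  have hne : ∀ u ∈ A, u ≠ z := fun u hu e => hz (e ▸ hu)
  have hg' : ∀ u ∈ A, Function.update g z (Sum.inl (h i)) u = g u := fun u hu =>
    Function.update_of_ne (hne u hu) _ _
  have hgz : Function.update g z (Sum.inl (h i)) z = Sum.inl (h i) := Function.update_self _ _ _
  refine ⟨Function.update g z (Sum.inl (h i)), ?_, ?_, ?_, ?_⟩
  · intro u hu v hv huv
    rcases Set.mem_insert_iff.1 hu with hu' | hu'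
    · rcases Set.mem_insert_iff.1 hv with hv' | hv'
      · rw [hu', hv']
      · rw [hu', hgz, hg' v hv'] at huv
        exact absurd ⟨v, hv', huv.symm⟩ hi
    · rcases Set.mem_insert_iff.1 hv with hv' | hv'
      · rw [hv', hgz, hg' u hu'] at huv
        exact absurd ⟨u, hu', huv⟩ hi
      · rw [hg' u hu', hg' v hv'] at huv
        exact hSt.inj hu' hv' huv
  · intro u v huv
    rw [SimpleGraph.sup_adj] at huv
    rcases huv with huv | huv
    · obtain ⟨hu, hv⟩ := hT u v huv
      rw [hg' u hu, hg' v hv]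
      exact hSt.adj u v huv
    · rw [SimpleGraph.edge_adj] at huv
      obtain ⟨huv, -⟩ := huv
      rcases huv with ⟨h1, h2⟩ | ⟨h1, h2⟩
      · rw [h1, h2, hg' y hy, hgz]
        exact ⟨(hh i).2.1, (hh i).2.2⟩
      · rw [h1, h2, hg' y hy, hgz]
        exact ⟨(hh i).2.1.symm, by rw [hH.symm]; exact (hh i).2.2⟩
  · intro u hu
    rcases Set.mem_insert_iff.1 hu with rfl | hu
    · exact ⟨h i, hgz, (hh i).1⟩
    · obtain ⟨x, hx1, hx2⟩ := hSt.free u hu
      exact ⟨x, by rw [hg' u (hFA hu)]; exact hx1, hmon L I M δ χ N (j + 1) x hx2⟩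
  · intro u hu
    rcases Set.mem_insert_iff.1 hu with rfl | hu
    · obtain ⟨h', h1, h2⟩ := hfnb k N t L Q I M D S δ C χ Cφ c hH j (h i) (hh i).1
      exact ⟨h', h1, fun s => by rw [hgz]; exact h2 s⟩
    · obtain ⟨h', h1, h2⟩ := hSt.nb u hu
      exact ⟨h', h1, fun s => ⟨hmon L I M δ χ N j _ (h2 s).1, by rw [hg' u hu]; exact (h2 s).2⟩⟩

end MP3240Q
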