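import Mathlib
import Pool.Agent.Lib.MP_3240be_co.Q22.Defs

set_option autoImplicit false

/-!
# Theorem Q: row RPA

A red copy of `D` lies on the passengers.
-/

namespace MP3240Q

open Pool.Agent.Lib.MP_3240be_co.H82 (TC)
open Pool.Agent.Lib.MP_3240be_co.H36.Chrom (Sparse Leaf)

section Rpa

variable {n k : ℕ} {G M : Type} {D : SimpleGraph (Fin k)} {δ : M → Fin k → G}

/-- The label and the vertex of a point of a red piece. -/
def rpaLab : GX n k G M → Option (Lab n k × Fin k)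
  | GX.z _ => none
  | GX.l c _ v => some (c, v)
  | GX.r c _ v _ => some (c, v)

theorem rpa_lab (c : Lab n k) (m : M) (v y : Fin k) :
    rpaLab (rho D δ c m v y) = some (c, v) := by
  classical
  unfold rho
  by_cases h : D.Adj c.w y
  · rw [if_pos h]
    rfl
  · rw [if_neg h]
    rfl

/-- A common point of two different red pieces. -/
theorem rpa_common (c : Lab n k) (m m' : M) (v y y' : Fin k) (hne : m ≠ m')
    (h : rho D δ c m v y = rho D δ c m' v y') :
    δ m y = δ m' y' ∧ rho D δ c m v y = GX.l c (δ m y) v := by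
  classical
  unfold rho at h
  by_cases h1 : D.Adj c.w y
  · have e1 : rho D δ c m v y = GX.l c (δ m y) v := by
      unfold rho
      rw [if_pos h1]
    refine ⟨?_, e1⟩
    by_cases h2 : D.Adj c.w y'
    · rw [if_pos h1, if_pos h2] at h
      simpa using h
    · rw [if_pos h1, if_neg h2] at h
      exact absurd h (by simp)
  · exfalso
    by_cases h2 : D.Adj c.w y'
    · rw [if_neg h1, if_pos h2] at h
      exact absurd h (by simp)
    · rw [if_neg h1, if_neg h2] at h
      simp only [GX.r.injEq, true_and] at h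
      exact hne h.1

end Rpa

/-- Row RPA. -/
theorem rpa_proof (hone : OneStatement) : RpaStatement := by
  classical
  intro p n k G M D H Ok a₀ b₀ δ hD hsp f hf hE
  by_cases hq : ∃ i q, f i = Sum.inr q
  · refine hD.conn (fun i => ∃ q, f i = Sum.inr q) hq ?_
    rintro i j hij ⟨q, hq⟩
    rcases hE i j hij with ⟨_, _, _, hs, _⟩ | ⟨_, q', _, _, ht⟩ |
      ⟨_, _, _, _, _, _, _, _, _, _, _, hs, _⟩
    · rw [hq] at hs
      simp at hs
    · exact ⟨q', ht⟩
    · rw [hq] at hs
      simp at hs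
  exfalso
  push Not at hq
  by_cases hz : ∃ i v, f i = Sum.inl (GX.z v)
  · -- at most two vertices
    have hno : ∀ i (c : Lab n k) (m : M) (v y v' : Fin k),
        f i = Sum.inl (GX.z v') → f i = Sum.inl (rho D δ c m v y) → False := by
      intro i c m v y v' h1 h2
      rw [h1] at h2
      have h3 := congrArg rpaLab (Sum.inl_injective h2)
      rw [rpa_lab] at h3
      simp [rpaLab] at h3
    have hz' : ∃ i, f i = Sum.inl (GX.z a₀) ∨ f i = Sum.inl (GX.z b₀) := by
      obtain ⟨i, v, hv⟩ := hz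
      obtain ⟨j, hij⟩ := hD.nbr i
      refine ⟨i, ?_⟩
      rcases hE i j hij with ⟨v1, v2, hv12, hs, _⟩ | ⟨q, _, _, hs, _⟩ |
        ⟨c, m, v1, y, _, _, _, _, _, _, _, hs, _⟩
      · rcases hv12 with ⟨rfl, _⟩ | ⟨rfl, _⟩
        · exact Or.inl hs
        · exact Or.inr hs
      · exact absurd hs (hq _ _)
      · exact (hno i c m v1 y v hv hs).elim
    have hall := hD.conn (fun i => f i = Sum.inl (GX.z a₀) ∨ f i = Sum.inl (GX.z b₀)) hz' (by
      intro i j hij hi
      rcases hE i j hij with ⟨v1, v2, hv12, _, ht⟩ | ⟨q, _, _, hs, _⟩ |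
        ⟨c, m, v1, y, _, _, _, _, _, _, _, hs, _⟩
      · rcases hv12 with ⟨_, rfl⟩ | ⟨_, rfl⟩
        · exact Or.inr ht
        · exact Or.inl ht
      · exact absurd hs (hq _ _)
      · rcases hi with hi | hi
        · exact (hno i c m v1 y a₀ hi hs).elim
        · exact (hno i c m v1 y b₀ hi hs).elim)
    -- three different vertices
    obtain ⟨i, _, _⟩ := hz
    obtain ⟨i2, h21, _⟩ := hD.third i i
    obtain ⟨i3, h31, h32⟩ := hD.third i i2
    rcases hall i with e1 | e1 <;> rcases hall i2 with e2 | e2 <;> rcases hall i3 with e3 | e3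
    · exact h21 (hf (e2.trans e1.symm))
    · exact h21 (hf (e2.trans e1.symm))
    · exact h31 (hf (e3.trans e1.symm))
    · exact h32 (hf (e3.trans e2.symm))
    · exact h32 (hf (e3.trans e2.symm))
    · exact h31 (hf (e3.trans e1.symm))
    · exact h21 (hf (e2.trans e1.symm))
    · exact h21 (hf (e2.trans e1.symm))
  push Not at hz
  -- all edges in red pieces
  have hpc : ∀ i j, D.Adj i j → ∃ (c : Lab n k) (m : M) (v y y' : Fin k), y ≠ c.w ∧ y' ≠ c.w ∧
      f i = Sum.inl (rho D δ c m v y) ∧ f j = Sum.inl (rho D δ c m v y') := by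
    intro i j hij
    rcases hE i j hij with ⟨v1, _, _, hs, _⟩ | ⟨q', _, _, hs, _⟩ |
      ⟨c, m, v, y, y', h1, h2, h3, h4, h5, h6, hs, ht⟩
    · exact absurd hs (hz _ _)
    · exact absurd hs (hq _ _)
    · exact ⟨c, m, v, y, y', h4, h5, hs, ht⟩
  obtain ⟨x0⟩ := hD.ne
  obtain ⟨x1, hx01⟩ := hD.nbr x0
  obtain ⟨c, m0, v, y0, y0', -, -, hf0, hf0'⟩ := hpc x0 x1 hx01
  have hallx := hD.conn (fun i => ∃ d, f i = Sum.inl d ∧ rpaLab d = some (c, v))
    ⟨x0, _, hf0, rpa_lab _ _ _ _⟩ (by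
      rintro i j hij ⟨d, hd1, hd2⟩
      obtain ⟨c1, m1, v1, y1, y1', -, -, h1, h2⟩ := hpc i j hij
      rw [hd1] at h1
      have := Sum.inl_injective h1
      rw [this, rpa_lab] at hd2
      exact ⟨_, h2, by rw [rpa_lab, hd2]⟩)
  have hpc' : ∀ i j, ∃ m, D.Adj i j → ∃ y y', y ≠ c.w ∧ y' ≠ c.w ∧
      f i = Sum.inl (rho D δ c m v y) ∧ f j = Sum.inl (rho D δ c m v y') := by
    intro i j
    by_cases hij : D.Adj i j
    · obtain ⟨c1, m1, v1, y1, y1', e1, e2, h1, h2⟩ := hpc i j hij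
      obtain ⟨d, hd1, hd2⟩ := hallx i
      rw [h1] at hd1
      rw [← Sum.inl_injective hd1, rpa_lab] at hd2
      simp only [Option.some.injEq, Prod.mk.injEq] at hd2
      obtain ⟨rfl, rfl⟩ := hd2
      exact ⟨m1, fun _ => ⟨y1, y1', e1, e2, h1, h2⟩⟩
    · exact ⟨m0, fun h => absurd h hij⟩
  choose mm hmm using hpc'
  obtain ⟨m, hm⟩ := hone p k D hD M mm
    (fun m i => ∃ y, y ≠ c.w ∧ f i = Sum.inl (rho D δ c m v y)) (by
      intro i j hij
      obtain ⟨y, y', h1, h2, h3, h4⟩ := hmm i j hij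
      exact ⟨⟨y, h1, h3⟩, ⟨y', h2, h4⟩⟩) (by
      intro S hS2 hScard
      obtain ⟨m, hm, -, -, -, hleaf, -⟩ := hsp S hS2 hScard
      refine ⟨m, hm, ?_⟩
      rintro i j ⟨y, hy, hiy⟩ ⟨z, hz', hjz⟩ ⟨m', hm', hne', y', hy', hiy'⟩
        ⟨m'', hm'', hne'', z', hz'', hjz'⟩
      have k1 := rpa_common c m m' v y y' hne'.symm
        (Sum.inl_injective (hiy.symm.trans hiy'))
      have k2 := rpa_common c m m'' v z z' hne''.symm
        (Sum.inl_injective (hjz.symm.trans hjz'))
      have k3 := hleaf m' hm' m'' hm'' hne' hne'' y y' z z' k1.1 k2.1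
      apply hf
      rw [hiy, hjz, k1.2, k2.2, k3])
  -- a single piece has too few vertices
  have h2 : ∀ i, ∃ y, y ≠ c.w ∧ f i = Sum.inl (rho D δ c m v y) := by
    intro i
    obtain ⟨j, hij⟩ := hD.nbr i
    obtain ⟨y, y', h1, h2, h3, h4⟩ := hmm i j hij
    rw [hm i j hij] at h3
    exact ⟨y, h1, h3⟩
  choose g hg1 hg2 using h2
  have hginj : Function.Injective g := by
    intro i j hij
    apply hf
    rw [hg2, hg2, hij]
  obtain ⟨i, hi⟩ := (Finite.injective_iff_surjective.1 hginj) c.w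
  exact hg1 i hi

end MP3240Q
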