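import Pool.Agent.Lib.MP_3240be_co.Q22.Defs

set_option autoImplicit false

/-!
# Row SYM: the two kinds of edges of the pattern are symmetric, disjoint and have no loops
-/

namespace MP3240Q

section Sym

variable {n k : ℕ} {G M : Type} {D : SimpleGraph (Fin k)} {H : SimpleGraph (Fin n)}
  {Ok : Lab n k → Prop} {a₀ b₀ : Fin k} {δ : M → Fin k → G}

theorem sym_EB_symm {s t : GX n k G M ⊕ Fin n} (h : EB D Ok a₀ b₀ s t) : EB D Ok a₀ b₀ t s := by
  rcases h with ⟨v, v', h1, h2, h3, hs, ht⟩ | ⟨c, i, v, v', h1, h2, h3, h4, h5, h6, hs, ht⟩ |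
    ⟨q, c, i, v, h1, hs, ht⟩ | ⟨q, c, i, v, h1, hs, ht⟩
  · exact Or.inl ⟨v', v, h1.symm, fun h => h3 ⟨h.2, h.1⟩, fun h => h2 ⟨h.2, h.1⟩, ht, hs⟩
  · exact Or.inr (Or.inl ⟨c, i, v', v, h1, h2.symm, h5, h6, h3, h4, ht, hs⟩)
  · exact Or.inr (Or.inr (Or.inr ⟨q, c, i, v, h1, hs, ht⟩))
  · exact Or.inr (Or.inr (Or.inl ⟨q, c, i, v, h1, hs, ht⟩))

theorem sym_ER_symm {s t : GX n k G M ⊕ Fin n} (h : ER D H Ok a₀ b₀ δ s t) :
    ER D H Ok a₀ b₀ δ t s := by
  rcases h with ⟨v, v', h1, hs, ht⟩ | ⟨q, q', h1, hs, ht⟩ |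
    ⟨c, m, v, y, y', h1, h2, h3, h4, h5, h6, hs, ht⟩
  · exact Or.inl ⟨v', v, by tauto, ht, hs⟩
  · exact Or.inr (Or.inl ⟨q', q, h1.symm, ht, hs⟩)
  · exact Or.inr (Or.inr ⟨c, m, v, y', y, h1, h2, h3, h5, h4, h6.symm, ht, hs⟩)

theorem sym_EB_irrefl (s : GX n k G M ⊕ Fin n) : ¬ EB D Ok a₀ b₀ s s := by
  rintro (⟨v, v', h1, h2, h3, hs, ht⟩ | ⟨c, i, v, v', h1, h2, h3, h4, h5, h6, hs, ht⟩ |
    ⟨q, c, i, v, h1, hs, ht⟩ | ⟨q, c, i, v, h1, hs, ht⟩)
  · rw [hs] at ht
    simp only [Sum.inl.injEq, GX.z.injEq] at ht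
    exact h1.ne ht
  · rw [hs] at ht
    simp only [Sum.inl.injEq, GX.l.injEq, true_and] at ht
    exact h2.ne ht
  · rw [hs] at ht
    simp at ht
  · rw [hs] at ht
    simp at ht

/-- The red copy `rho` is injective in its last argument. -/
theorem sym_rho_inj (hδ : ∀ m, Function.Injective (δ m)) {c : Lab n k} {m : M} {v y y' : Fin k}
    (h : rho D δ c m v y = rho D δ c m v y') : y = y' := by
  classical
  unfold rho at h
  by_cases h1 : D.Adj c.w y <;> by_cases h2 : D.Adj c.w y'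
  · rw [if_pos h1, if_pos h2] at h
    simp only [GX.l.injEq, true_and, and_true] at h
    exact hδ m h
  · rw [if_pos h1, if_neg h2] at h
    exact absurd h (by simp)
  · rw [if_neg h1, if_pos h2] at h
    exact absurd h (by simp)
  · rw [if_neg h1, if_neg h2] at h
    simp only [GX.r.injEq, true_and] at h
    exact h

/-- The two possible forms of `rho`. -/
theorem sym_rho_label (c : Lab n k) (m : M) (v y : Fin k) :
    (∃ i, rho D δ c m v y = GX.l c i v) ∨ rho D δ c m v y = GX.r c m v y := by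
  classical
  unfold rho
  by_cases h1 : D.Adj c.w y
  · exact Or.inl ⟨δ m y, by rw [if_pos h1]⟩
  · exact Or.inr (by rw [if_neg h1])

theorem sym_ER_irrefl (hab : a₀ ≠ b₀) (hδ : ∀ m, Function.Injective (δ m))
    (s : GX n k G M ⊕ Fin n) : ¬ ER D H Ok a₀ b₀ δ s s := by
  rintro (⟨v, v', h1, hs, ht⟩ | ⟨q, q', h1, hs, ht⟩ |
    ⟨c, m, v, y, y', h1, h2, h3, h4, h5, h6, hs, ht⟩)
  · rw [hs] at ht
    simp only [Sum.inl.injEq, GX.z.injEq] at ht
    rcases h1 with ⟨rfl, rfl⟩ | ⟨rfl, rfl⟩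
    · exact hab ht
    · exact hab ht.symm
  · rw [hs] at ht
    simp only [Sum.inr.injEq] at ht
    exact h1.ne ht
  · rw [hs] at ht
    exact h6.ne (sym_rho_inj hδ (Sum.inl_injective ht))

theorem sym_E_disj {s t : GX n k G M ⊕ Fin n} (h : EB D Ok a₀ b₀ s t)
    (h' : ER D H Ok a₀ b₀ δ s t) : False := by
  rcases h' with ⟨v, v', h1, hs, ht⟩ | ⟨q, q', h1, hs, ht⟩ |
    ⟨c, m, v, y, y', h1, h2, h3, h4, h5, h6, hs, ht⟩
  · rcases h with ⟨p, p', k1, k2, k3, js, jt⟩ | ⟨d, i, p, p', k1, k2, k3, k4, k5, k6, js, jt⟩ |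
      ⟨q, d, i, p, k1, js, jt⟩ | ⟨q, d, i, p, k1, js, jt⟩
    · rw [hs] at js
      rw [ht] at jt
      simp only [Sum.inl.injEq, GX.z.injEq] at js jt
      subst js jt
      rcases h1 with h1 | h1
      · exact k2 h1
      · exact k3 h1
    · rw [hs] at js
      simp at js
    · rw [hs] at js
      simp at js
    · rw [ht] at js
      simp at js
  · rcases h with ⟨p, p', k1, k2, k3, js, jt⟩ | ⟨d, i, p, p', k1, k2, k3, k4, k5, k6, js, jt⟩ |
      ⟨q, d, i, p, k1, js, jt⟩ | ⟨q, d, i, p, k1, js, jt⟩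
    · rw [hs] at js
      simp at js
    · rw [hs] at js
      simp at js
    · rw [ht] at jt
      simp at jt
    · rw [hs] at jt
      simp at jt
  · rcases h with ⟨p, p', k1, k2, k3, js, jt⟩ | ⟨d, i, p, p', k1, k2, k3, k4, k5, k6, js, jt⟩ |
      ⟨q, d, i, p, k1, js, jt⟩ | ⟨q, d, i, p, k1, js, jt⟩
    · rw [hs] at js
      rcases sym_rho_label (D := D) (δ := δ) c m v y with ⟨i', hi'⟩ | hi'
      · rw [hi'] at js
        simp at js
      · rw [hi'] at js
        simp at js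
    · rw [hs] at js
      rw [ht] at jt
      have e1 : v = p := by
        rcases sym_rho_label (D := D) (δ := δ) c m v y with ⟨i', hi'⟩ | hi'
        · rw [hi'] at js
          simp only [Sum.inl.injEq, GX.l.injEq] at js
          exact js.2.2
        · rw [hi'] at js
          simp at js
      have e2 : v = p' := by
        rcases sym_rho_label (D := D) (δ := δ) c m v y' with ⟨i', hi'⟩ | hi'
        · rw [hi'] at jt
          simp only [Sum.inl.injEq, GX.l.injEq] at jt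
          exact jt.2.2
        · rw [hi'] at jt
          simp at jt
      exact k2.ne (e1.symm.trans e2)
    · rw [hs] at js
      simp at js
    · rw [ht] at js
      simp at js

end Sym

/-- Row SYM. -/
theorem sym_proof : SymStatement := by
  intro n k G M D H Ok a₀ b₀ δ hab hδ s t
  exact ⟨sym_EB_symm, sym_ER_symm, sym_EB_irrefl s, sym_ER_irrefl hab hδ s,
    fun h h' => sym_E_disj h h'⟩

end MP3240Q
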