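import Mathlib
import Pool.Agent.Lib.MP_3240be_co.Q22.Defs
import Pool.Agent.Lib.MP_3240be_co.Q22.Lin

set_option autoImplicit false

/-!
# Row TYP: types of hyperedges
-/

namespace MP3240Q

open Pool.Agent.Lib.MP_3240be_co.H36.Chrom (Sparse ArrowsT)

/-- If a point does not allow `N` steps then some role is bad at some level `j < N`. -/
theorem typ_bad {L I M : Type} (δ : M → L → I) (χ : M → Prop) (R : ℕ) [Finite M] :
    ∀ (N : ℕ) (x : I), ¬ XS δ χ R N x → ∃ (j : Fin N) (l : L),
      XS δ χ R j x ∧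
      {m : M | χ m ∧ δ m l = x ∧ ∀ l', XS δ χ R j (δ m l')}.ncard < R := by
  intro N
  induction N with
  | zero => exact fun x h => absurd trivial h
  | succ N ih =>
    intro x h
    by_cases hN : XS δ χ R N x
    · have h' : ¬ ∀ l : L, ∃ g : Fin R → M, Function.Injective g ∧
        ∀ i, χ (g i) ∧ δ (g i) l = x ∧ ∀ l', XS δ χ R N (δ (g i) l') := h
      push Not at h'
      obtain ⟨l, hl⟩ := h'
      refine ⟨Fin.last N, l, hN, ?_⟩
      by_contra hcon
      rw [not_lt] at hcon
      have hfin : Set.Finite {m : M | χ m ∧ δ m l = x ∧ ∀ l', XS δ χ R (Fin.last N) (δ m l')} :=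
        Set.toFinite _
      obtain ⟨s, hs, hcard⟩ := Set.exists_subset_card_eq hcon
      have hsf : s.Finite := hfin.subset hs
      have hc : Nat.card s = R := by rw [Nat.card_coe_set_eq]; exact hcard
      haveI : Finite s := hsf
      have e : s ≃ Fin R := Finite.equivFinOfCardEq hc
      obtain ⟨i, hi⟩ := hl (fun i => (e.symm i).1)
        (fun i i' hii => e.symm.injective (Subtype.ext hii))
      have := hs (e.symm i).2
      obtain ⟨h1, h2, h3⟩ := this
      obtain ⟨l', hl'⟩ := hi h1 h2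
      exact hl' (h3 l')
    · obtain ⟨j, l, h1, h2⟩ := ih x hN
      exact ⟨j.castSucc, l, h1, h2⟩

theorem typ_proof (hH : HypStatement) : TypStatement := by
  classical
  intro g R N L Φ _ _ l0 l1 hl
  haveI := Fintype.ofFinite Φ
  obtain ⟨I, M, hI, hM, δ, hδ, hsp, hmain⟩ :=
    hH g (Fintype.card Φ * R) L (Option (Φ → Fin N × L)) l0 l1 hl
  refine ⟨I, M, hI, hM, δ, hδ, hsp, ?_⟩
  intro χ
  by_contra hcon
  push Not at hcon
  have hb := fun (φ : Φ) (x : I) => typ_bad δ (fun m => χ m = φ) R N x (hcon φ x)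
  choose j l h1 h2 using hb
  obtain ⟨m, hm1, hm2⟩ := hmain (fun x => some (fun φ => (j φ x, l φ x)))
    (fun x => Finset.univ.biUnion (fun φ => (Set.toFinite {m : M | χ m = φ ∧ δ m (l φ x) = x ∧
      ∀ l', XS δ (fun m => χ m = φ) R (j φ x) (δ m l')}).toFinset)) (by
      intro x
      refine Finset.card_biUnion_le_card_mul _ _ _ ?_
      intro φ _
      rw [← Set.ncard_eq_toFinset_card]
      exact (h2 φ x).le)
  have hlab : ∀ t t', j (χ m) (δ m t) = j (χ m) (δ m t') ∧ l (χ m) (δ m t) = l (χ m) (δ m t') := by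
    intro t t'
    have := congrFun (Option.some.inj (hm1 t t')) (χ m)
    exact Prod.mk.inj this
  refine hm2 (l (χ m) (δ m l0)) ?_
  rw [Finset.mem_biUnion]
  refine ⟨χ m, Finset.mem_univ _, ?_⟩
  rw [Set.Finite.mem_toFinset]
  refine ⟨rfl, ?_, ?_⟩
  · rw [(hlab (l (χ m) (δ m l0)) l0).2]
  · intro l'
    rw [(hlab (l (χ m) (δ m l0)) l').1]
    exact h1 (χ m) (δ m l')

end MP3240Q
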