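import Mathlib
import Pool.Agent.Lib.MP_3240be_co.Q22.Fin
import Pool.Agent.Lib.MP_3240be_co.Q22.Pie
import Pool.Agent.Lib.MP_3240be_co.Q22.Pat
import Pool.Agent.Lib.MP_3240be_co.Q22.Sym
import Pool.Agent.Lib.MP_3240be_co.Q22.Nbl
import Pool.Agent.Lib.MP_3240be_co.Q22.Rpa
import Pool.Agent.Lib.MP_3240be_co.Q22.Pbi
import Pool.Agent.Lib.MP_3240be_co.Q22.Mco
import Pool.Agent.Lib.MP_3240be_co.Q22.Alt
import Pool.Agent.Lib.MP_3240be_co.Q22.Col
import Pool.Agent.Lib.MP_3240be_co.Q22.Mcb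
import Pool.Agent.Lib.MP_3240be_co.Q22.Mcr
import Pool.Agent.Lib.MP_3240be_co.Q22.One
import Pool.Agent.Lib.MP_3240be_co.Q22.Att
import Pool.Agent.Lib.MP_3240be_co.Q22.Gam
import Pool.Agent.Lib.MP_3240be_co.Q22.Typ
import Pool.Agent.Lib.MP_3240be_co.Q22.Emb
import Pool.Agent.Lib.MP_3240be_co.Q22.Lin
import Pool.Agent.Lib.MP_3240be_co.Q22.Fnb
import Pool.Agent.Lib.MP_3240be_co.Q22.Pen
import Pool.Agent.Lib.MP_3240be_co.Q22.Cpy
import Pool.Agent.Lib.MP_3240be_co.Q22.Bst
import Pool.Agent.Lib.MP_3240be_co.Q22.Dtf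
import Pool.Agent.Lib.MP_3240be_co.Q22.Nfh
import Pool.Agent.Lib.MP_3240be_co.H43.Hyp

set_option autoImplicit false

/-!
# Theorem Q, first version (assembly of the rows)
-/

namespace MP3240Q

theorem hyp_proof : HypStatement := MP3240W.hyp_proof

theorem main_proof : MainStatement :=
  fin_proof
    (pie_proof
      (pat_proof sym_proof nbl_proof (rpa_proof one_proof) pbi_proof
        (mco_proof (alt_proof col_proof) mcb_proof mcr_proof)) att_proof gam_proof)
    (typ_proof hyp_proof)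
    (emb_proof mon_proof fnb_proof (pen_proof mon_proof fnb_proof)
      (cpy_proof mon_proof fnb_proof fre_proof) (bst_proof mon_proof fnb_proof fre_proof)
      dtf_proof)
    (nfh_proof one_proof lin_proof) lin_proof dtf_proof

end MP3240Q
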