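import Pool.Agent.Lib.MP_3240be_co.Q22.Defs2

set_option autoImplicit false

/-!
# Row NB2: there is no blue copy of `D`
-/

namespace MP3240Q

open Pool.Agent.Lib.MP_3240be_co.H82 (TC Good)

theorem nb2_proof : Nb2Statement := by
  intro p Λ P G M k n K N D H Bl pr Rd rt κH hD hL hcl f hf hE
  -- a vertex in a blob
  have hex : ∃ p0 c i v, f p0 = Sum.inl (GY.l c i v) := by
    obtain ⟨a₀⟩ := hD.ne
    obtain ⟨q, hq⟩ := hD.nbr a₀
    rcases hE a₀ q hq with ⟨c, i, v, _, _, _, _, hs, _⟩ | ⟨c, i, _, v, _, _, ht⟩ |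
      ⟨c, i, _, v, _, _, hs⟩
    · exact ⟨a₀, c, i, v, hs⟩
    · exact ⟨q, c, i, v, ht⟩
    · exact ⟨a₀, c, i, v, hs⟩
  obtain ⟨p0, c, i, v0, hp0⟩ := hex
  obtain ⟨x, u, hxu, hpas⟩ := hL.two c
  have hall := hD.sepf f hf (Sum.inr x) (Sum.inr u) (fun hp => by
      obtain ⟨cl, h1, h2⟩ := hcl hp
      exact ⟨cl, fun p q hpq => h1 _ _ (hE p q hpq), h2 x u hxu⟩)
    (fun p => ∃ v, f p = Sum.inl (GY.l c i v))
    ⟨p0, by rw [hp0]; simp, by rw [hp0]; simp, v0, hp0⟩ (by
      rintro p q hq1 hq2 hpq ⟨v, hv⟩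
      rcases hE p q hpq with ⟨c', i', v1, v2, _, _, _, hs, ht⟩ | ⟨_, _, _, _, _, hs, _⟩ |
        ⟨c', i', q', v1, k1, ht, hs⟩
      · rw [hv] at hs
        simp only [Sum.inl.injEq, GY.l.injEq] at hs
        obtain ⟨h1, h2, _⟩ := hs
        rw [← h1, ← h2] at ht
        exact ⟨v2, ht⟩
      · rw [hv] at hs
        simp at hs
      · rw [hv] at hs
        simp only [Sum.inl.injEq, GY.l.injEq] at hs
        obtain ⟨h1, _, _⟩ := hs
        obtain ⟨v₀, _, k2, _⟩ := k1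
        rw [← h1] at k2
        rcases hpas v₀ q' k2 with h | h
        · exact absurd (by rw [ht, h]) hq1
        · exact absurd (by rw [ht, h]) hq2)
  have hcls : ∀ p, (∃ v, f p = Sum.inl (GY.l c i v)) ∨ ∃ q, f p = Sum.inr q := by
    intro p
    by_cases h1 : f p = Sum.inr x
    · exact Or.inr ⟨x, h1⟩
    by_cases h2 : f p = Sum.inr u
    · exact Or.inr ⟨u, h2⟩
    exact Or.inl (hall p h1 h2)
  -- the induced map to the blob
  have hmap : ∀ p, ∃ d, (f p = Sum.inl (GY.l c i d) ∧ pr c d = none) ∨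
      (∃ q, f p = Sum.inr q ∧ pr c d = some q) := by
    intro p
    obtain ⟨q, hq⟩ := hD.nbr p
    rcases hE p q hq with ⟨c', i', v1, v2, _, k2, _, hs, _⟩ | ⟨c', i', q', v1, k1, hs, ht⟩ |
      ⟨c', i', q', v1, k1, _, hs⟩
    · rcases hcls p with ⟨v, hv⟩ | ⟨q', hq'⟩
      · refine ⟨v, Or.inl ⟨hv, ?_⟩⟩
        rw [hv] at hs
        simp only [Sum.inl.injEq, GY.l.injEq] at hs
        rw [hs.1, hs.2.2]
        exact k2
      · rw [hq'] at hs
        simp at hs
    · rcases hcls q with ⟨v, hv⟩ | ⟨q'', hq''⟩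
      · rw [hv] at ht
        simp only [Sum.inl.injEq, GY.l.injEq] at ht
        obtain ⟨v₀, _, k3, _⟩ := k1
        rw [← ht.1] at k3
        exact ⟨v₀, Or.inr ⟨q', hs, k3⟩⟩
      · rw [hq''] at ht
        simp at ht
    · rcases hcls p with ⟨v, hv⟩ | ⟨q'', hq''⟩
      · refine ⟨v, Or.inl ⟨hv, ?_⟩⟩
        rw [hv] at hs
        simp only [Sum.inl.injEq, GY.l.injEq] at hs
        obtain ⟨_, _, _, k4⟩ := k1
        rw [hs.1, hs.2.2]
        exact k4
      · rw [hq''] at hs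
        simp at hs
  choose h hh using hmap
  apply hL.bfree c
  refine ⟨h, ?_, ?_⟩
  · intro p q hpq
    rcases hh p with ⟨h1, h2⟩ | ⟨q1, h1, h2⟩ <;> rcases hh q with ⟨k1, k2⟩ | ⟨q2, k1, k2⟩
    · exact hf (by rw [h1, k1, hpq])
    · rw [hpq, k2] at h2
      simp at h2
    · rw [hpq, k2] at h2
      simp at h2
    · rw [hpq, k2] at h2
      simp only [Option.some.injEq] at h2
      exact hf (by rw [h1, k1, h2])
  · intro p q hpq
    rcases hE p q hpq with ⟨c', i', v1, v2, k1, k2, k3, hs, ht⟩ |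
      ⟨c', i', q', v1, k1, hs, ht⟩ | ⟨c', i', q', v1, k1, ht, hs⟩
    · rcases hh p with ⟨h1, h2⟩ | ⟨q1, h1, h2⟩
      · rcases hh q with ⟨j1, j2⟩ | ⟨q2, j1, j2⟩
        · rw [h1] at hs
          rw [j1] at ht
          simp only [Sum.inl.injEq, GY.l.injEq] at hs ht
          rw [← hs.1, ← hs.2.2, ← ht.2.2] at k1
          exact ⟨k1, Or.inl h2⟩
        · rw [j1] at ht
          simp at ht
      · rw [h1] at hs
        simp at hs
    · rcases hh p with ⟨h1, h2⟩ | ⟨q1, h1, h2⟩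
      · rw [h1] at hs
        simp at hs
      · rcases hh q with ⟨j1, j2⟩ | ⟨q2, j1, j2⟩
        · rw [h1] at hs
          rw [j1] at ht
          simp only [Sum.inl.injEq, Sum.inr.injEq, GY.l.injEq] at hs ht
          obtain ⟨v₀, k3, k4, k5⟩ := k1
          rw [← ht.1] at k3 k4
          rw [← hs] at k4
          have := hL.inj c v₀ (h p) q1 k4 h2
          rw [this, ← ht.2.2] at k3
          exact ⟨k3, Or.inr j2⟩
        · rw [j1] at ht
          simp at ht
    · rcases hh q with ⟨h1, h2⟩ | ⟨q1, h1, h2⟩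
      · rw [h1] at ht
        simp at ht
      · rcases hh p with ⟨j1, j2⟩ | ⟨q2, j1, j2⟩
        · rw [h1] at ht
          rw [j1] at hs
          simp only [Sum.inl.injEq, Sum.inr.injEq, GY.l.injEq] at hs ht
          obtain ⟨v₀, k3, k4, k5⟩ := k1
          rw [← hs.1] at k3 k4
          rw [← ht] at k4
          have := hL.inj c v₀ (h q) q1 k4 h2
          rw [this, ← hs.2.2] at k3
          exact ⟨k3.symm, Or.inl j2⟩
        · rw [j1] at hs
          simp at hs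

end MP3240Q
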