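import Mathlib
import Pool.Agent.Lib.MP_3240be_co.Q22.Defs2
import Pool.Agent.Lib.MP_3240be_co.H36.Chrom.Hyper

set_option autoImplicit false

/-!
# Row PA2: the second pattern
-/

namespace MP3240Q

open Pool.Agent.Lib.MP_3240be_co.H82 (TC Good)
open Pool.Agent.Lib.MP_3240be_co.H36.Chrom (Sparse ArrowsT good)

theorem pa2_proof (hS : Sy2Statement) (hN : Nb2Statement) (hR : Rp2Statement)
    (hP : Pb2Statement) (hA : Al2Statement) (hRc : RclStatement) (hBc : BclStatement)
    (hBd : BcdStatement) (hLb : LbsStatement) (hCs : CstStatement) : Pa2Statement := by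
  classical
  intro p k n N D H 𝓛 hD hbip hfin h𝓛 hN1
  obtain ⟨κH, hκH⟩ : ∃ κH : Fin n → Bool, p → ∀ x y, H.Adj x y → κH x ≠ κH y := by
    by_cases hp : p
    · obtain ⟨κ, h⟩ := hbip hp
      exact ⟨κ, fun _ => h⟩
    · exact ⟨fun _ => true, fun h => absurd h hp⟩
  obtain ⟨K, hk, hs, Λ, P, hΛf, hPf, Bl, pr, Rd, rt, hL, hK, ⟨ρ₀⟩, hA1, hA2, hC1, hC2⟩ :=
    hLb p k n D H 𝓛 κH hD hκH hfin h𝓛
  have : Nonempty (Option (Fin n × Fin K) × Fin (N + 2)) := ⟨(none, 0)⟩
  obtain ⟨G, M, hG, hMf, δ, hδ, hcol, hsp⟩ :=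
    good (k * k) (P × Fin N × Fin K) (Option (Fin n × Fin K) × Fin (N + 2))
  have hsp' : Sparse (k * k) δ := fun S h1 h2 => hsp S h1 (by omega)
  have hs2 := hS Λ P G M n K N H Bl pr Rd rt δ hδ
  have hBs : ∀ s t, EB2 Bl pr (s : GY Λ P G M K N ⊕ Fin n) t → EB2 Bl pr t s :=
    fun s t => (hs2 s t).1
  have hRs : ∀ s t, ER2 H pr Rd rt δ s t → ER2 H pr Rd rt δ t s := fun s t => (hs2 s t).2.1
  have hBi : ∀ s, ¬ EB2 Bl pr (s : GY Λ P G M K N ⊕ Fin n) s := fun s => (hs2 s s).2.2.1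
  have hRi : ∀ s, ¬ ER2 H pr Rd rt δ s s := fun s => (hs2 s s).2.2.2.1
  have hdisj : ∀ s t, EB2 Bl pr s t → ¬ ER2 H pr Rd rt δ s t := fun s t => (hs2 s t).2.2.2.2
  have hPt : ∀ s t, (Pt2 H Bl pr Rd rt δ).Adj s t ↔
      (EB2 Bl pr s t ∨ ER2 H pr Rd rt δ s t) := by
    intro s t
    rw [Pt2, SimpleGraph.fromRel_adj]
    constructor
    · rintro ⟨_, (h | h) | (h | h)⟩
      · exact Or.inl h
      · exact Or.inr h
      · exact Or.inl (hBs _ _ h)
      · exact Or.inr (hRs _ _ h)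
    · intro h
      refine ⟨?_, Or.inl h⟩
      rintro rfl
      rcases h with h | h
      · exact hBi _ h
      · exact hRi _ h
  have hERq : ∀ q t, ER2 H pr Rd rt δ (Sum.inr q) t → ∃ q', H.Adj q q' ∧ t = Sum.inr q' := by
    rintro q t (⟨q1, q2, h1, h2, h3⟩ | ⟨_, _, _, _, _, _, _, _, _, _, _, h, _⟩)
    · refine ⟨q2, ?_, h3⟩
      rw [Sum.inr_injective h2]
      exact h1
    · simp at h
  have hEBq : ∀ q q', ¬ EB2 Bl pr (Sum.inr q : GY Λ P G M K N ⊕ Fin n) (Sum.inr q') := by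
    rintro q q' (⟨_, _, _, _, _, _, _, h, _⟩ | ⟨_, _, _, _, _, _, h⟩ | ⟨_, _, _, _, _, _, h⟩)
    · simp at h
    · simp at h
    · simp at h
  have hHER : ∀ q q', H.Adj q q' →
      ER2 H pr Rd rt δ (Sum.inr q) (Sum.inr q') := fun q q' h =>
    Or.inl ⟨q, q', h, rfl, rfl⟩
  obtain ⟨cl, hcl⟩ : ∃ cl : GY Λ P G M K N ⊕ Fin n → Bool, p →
      (∀ s t, EB2 Bl pr s t → cl s ≠ cl t) ∧
      (∀ s t, ER2 H pr Rd rt δ s t → cl s ≠ cl t) ∧ ∀ q, cl (Sum.inr q) = κH q := by
    by_cases hp : p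
    · obtain ⟨cl, h⟩ := hP p Λ P G M k n K N D H Bl pr Rd rt κH δ hp hL (hκH hp)
      exact ⟨cl, fun _ => h⟩
    · exact ⟨fun _ => true, fun h => absurd h hp⟩
  refine ⟨GY Λ P G M K N, inferInstance, Pt2 H Bl pr Rd rt δ,
    fun s t => decide (ER2 H pr Rd rt δ s t), ?_⟩
  refine ⟨?_, ?_, ?_, ?_, ?_, ?_, ?_⟩
  · -- pat
    intro q q'
    rw [hPt]
    constructor
    · rintro (h | h)
      · exact absurd h (hEBq q q')
      · obtain ⟨q'', h1, h2⟩ := hERq _ _ h
        rw [Sum.inr_injective h2]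
        exact h1
    · intro h
      exact Or.inr (hHER q q' h)
  · -- symm
    intro x y
    exact decide_eq_decide.2 ⟨hRs x y, hRs y x⟩
  · -- red
    intro q y _ h
    obtain ⟨q', _, h2⟩ := hERq q y (of_decide_eq_true h)
    exact ⟨q', h2⟩
  · -- isred
    intro q q' h
    exact decide_eq_true (hHER q q' h)
  · -- only
    rintro c f ⟨hf, hfE⟩ v
    rcases Bool.eq_false_or_eq_true c with hc | hc
    · subst hc
      exact hR p Λ P G M k n K N D H Bl pr Rd rt κH δ hD hL hδ hsp' f hf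
        (fun i j hij => of_decide_eq_true (hfE i j hij).2) v
    · exfalso
      subst hc
      refine hN p Λ P G M k n K N D H Bl pr Rd rt κH hD hL
        (fun hp => ⟨cl, (hcl hp).1, ?_⟩) f hf ?_
      · intro x u hxu
        rw [(hcl hp).2.2, (hcl hp).2.2]
        exact hκH hp x u hxu
      · intro i j hij
        obtain ⟨h1, h2⟩ := hfE i j hij
        rcases (hPt _ _).1 h1 with h | h
        · exact h
        · exact absurd h (of_decide_eq_false h2)
  · -- bip
    intro hp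
    refine ⟨cl, fun x y hxy => ?_⟩
    rcases (hPt x y).1 hxy with h | h
    · exact (hcl hp).1 x y h
    · exact (hcl hp).2.1 x y h
  · -- arr
    intro C β hC hne hβ
    have h0 : ∀ d d', EB2 Bl pr (Sum.inl d : GY Λ P G M K N ⊕ Fin n) (Sum.inl d') →
        C (Sum.inl d) (Sum.inl d') = β false := by
      intro d d' h
      rw [hβ d d' ((hPt _ _).2 (Or.inl h)), decide_eq_false (hdisj _ _ h)]
    have h1 : ∀ d d', ER2 H pr Rd rt δ (Sum.inl d) (Sum.inl d') →
        C (Sum.inl d) (Sum.inl d') = β true := by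
      intro d d' h
      rw [hβ d d' ((hPt _ _).2 (Or.inr h)), decide_eq_true h]
    have hττ : ∃ τ τ' : P × Fin N × Fin K, τ ≠ τ' := by
      refine ⟨(ρ₀, ⟨0, by omega⟩, ⟨0, by omega⟩), (ρ₀, ⟨0, by omega⟩, ⟨1, by omega⟩), ?_⟩
      intro h
      simp at h
    have hal := hA Λ P G M n K N Bl pr δ hττ hδ hcol C (β false) (β true) hne
    by_cases hRC : ∃ c q v m, Fr2 Bl pr c q v ∧
        ∀ τ, C (Sum.inr q) (Sum.inl (GY.l c (δ m τ) v)) = β true
    · right
      obtain ⟨c, q, v, m, hF, hm⟩ := hRC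
      refine ⟨β true, fun a b hab => ?_⟩
      have hang := hRc Λ P G M n K N H Bl pr Rd rt δ hδ C (β true) hC h1 c q v m hF hm
      obtain ⟨ρ, hρ1, hρ2⟩ := hC1 a
      have hD1 := hang ρ
      rw [hρ1, hρ2] at hD1
      obtain ⟨g, hg1, hg2, hg3, hg4⟩ :=
        (hCs _ _ k K N hk D (Pt2 H Bl pr Rd rt δ) C (β true)).2 q a hD1
      refine ⟨g ⟨0, by omega⟩, hg1 _, fun v hva _ => hg3 _ v hva, ?_⟩
      intro v' q' hv' x hx w
      by_cases hva : v' = a
      · rw [hva, hg2] at hv'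
        rw [← Sum.inr_injective hv']
        obtain ⟨ρ', hρ1', hρ2'⟩ := hC2 x hx w
        have hx1 := hang ρ'
        rw [hρ1', hρ2'] at hx1
        exact (hCs _ _ x.1 K N (hs x hx) x.2 (Pt2 H Bl pr Rd rt δ) C (β true)).2 q w hx1
      · exfalso
        obtain ⟨l, hl⟩ := hg3 ⟨0, by omega⟩ v' hva
        rw [hl] at hv'
        simp at hv'
    · have hBC : ∀ c, ∃ g : Fin (N + 1) → G, Function.Injective g ∧ ∀ s q v, Fr2 Bl pr c q v →
          C (Sum.inr q) (Sum.inl (GY.l c (g s) v)) = β false := by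
        intro c
        rcases hal c with h | h
        · exact h
        · exact absurd ⟨c, h⟩ hRC
      by_cases hQ : ∀ q q', H.Adj q q' → C (Sum.inr q) (Sum.inr q') = β true
      · exact Or.inl ⟨β true, hQ⟩
      right
      push Not at hQ
      obtain ⟨x, u, hxu, hCxu⟩ := hQ
      have hCxu' : C (Sum.inr x) (Sum.inr u) = β false := by
        revert hCxu hne
        cases C (Sum.inr x) (Sum.inr u) <;> cases β false <;> cases β true <;> simp
      have hang : ∀ x u, H.Adj x u → ∀ g ∈ 𝓛, ∀ w : Fin (Sigma.fst g),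
          Hang (Sigma.snd g) (Pt2 H Bl pr Rd rt δ) C (β false) N x w := by
        intro x u hxu g hg w
        obtain ⟨c, hc1, hc2, hc3⟩ := hA2 x u hxu g hg w
        have h2 := hBc Λ P G M n K N H Bl pr Rd rt δ C (β false) hC h0 c _ x hc2 hc3 (hBC c)
        rw [hc1] at h2
        exact (hCs _ _ g.1 K N (hs g hg) g.2 (Pt2 H Bl pr Rd rt δ) C (β false)).2 x w h2
      refine ⟨β false, fun a b hab => ?_⟩
      obtain ⟨c, hc1, hc2, hc3⟩ := hA1 x u a b hxu hab
      have key : ∀ x u, H.Adj x u → C (Sum.inr x) (Sum.inr u) = β false →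
          pr c (Fin.castLE hk a) = some x → pr c (Fin.castLE hk b) = some u →
          Cop2 D 𝓛 (Pt2 H Bl pr Rd rt δ) C (β false) N a b := by
        intro x u hxu hCxu hca hcb
        have hne' : Fin.castLE hk a ≠ Fin.castLE hk b := fun h =>
          hab.ne (Fin.castLE_injective hk h)
        obtain ⟨f, hf1, hf2, hf3, hf4⟩ := hBd Λ P G M n K N H Bl pr Rd rt δ C (β false) hC h0
          c _ _ x u hne' hxu hca hcb hc3 hCxu (hBC c)
        rw [hc1] at hf1
        refine ⟨fun v => f (Fin.castLE hk v),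
          (hCs _ _ k K N hk D (Pt2 H Bl pr Rd rt δ) C (β false)).1 f hf1, ?_, ?_⟩
        · intro v hva hvb
          exact hf4 _ (fun h => hva (Fin.castLE_injective hk h))
            (fun h => hvb (Fin.castLE_injective hk h))
        · intro v q hv g hg w
          change f (Fin.castLE hk v) = Sum.inr q at hv
          by_cases hva : v = a
          · rw [hva, hf2] at hv
            rw [← Sum.inr_injective hv]
            exact hang x u hxu g hg w
          by_cases hvb : v = b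
          · rw [hvb, hf3] at hv
            rw [← Sum.inr_injective hv]
            exact hang u x hxu.symm g hg w
          · exfalso
            obtain ⟨l, hl⟩ := hf4 _ (fun h => hva (Fin.castLE_injective hk h))
              (fun h => hvb (Fin.castLE_injective hk h))
            rw [hl] at hv
            simp at hv
      rcases hc2 with ⟨hca, hcb⟩ | ⟨hca, hcb⟩
      · exact key x u hxu hCxu' hca hcb
      · exact key u x hxu.symm (by rw [hC]; exact hCxu') hca hcb

end MP3240Q
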