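import Mathlib
import Pool.Agent.Lib.MP_3240be_co.Q22.Defs2

set_option autoImplicit false

/-!
# Theorem Q2: row PB2

A proper 2-colouring of the second pattern.
-/

namespace MP3240Q

/-- The 2-colouring of the second pattern. -/
def pb2Col {Λ P G M : Type} {n K N : ℕ} (κB : Λ → Fin K → Bool) (κR : P → Fin K → Bool)
    (rt : P → Fin K) (κH : Fin n → Bool) : GY Λ P G M K N ⊕ Fin n → Bool
  | Sum.inl (GY.l c _ v) => κB c v
  | Sum.inl (GY.r c v ρ _ _ y) => xor (κB c v) (decide (κR ρ y = κR ρ (rt ρ)))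
  | Sum.inr q => κH q

theorem pb2Col_rho {Λ P G M : Type} {n K N : ℕ} (Rd : P → SimpleGraph (Fin K)) (rt : P → Fin K)
    (δ : M → P × Fin N × Fin K → G) (κB : Λ → Fin K → Bool) (κR : P → Fin K → Bool)
    (κH : Fin n → Bool) (hκR : ∀ ρ y y', (Rd ρ).Adj y y' → κR ρ y ≠ κR ρ y')
    (c : Λ) (v : Fin K) (ρ : P) (ν : Fin N) (m : M) (y : Fin K) :
    pb2Col κB κR rt κH (Sum.inl (rho2 Rd rt δ c v ρ ν m y)) =
      xor (κB c v) (decide (κR ρ y = κR ρ (rt ρ))) := by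
  unfold rho2
  split_ifs with h
  · have h' := hκR ρ _ _ h
    have h2 : ¬ (κR ρ y = κR ρ (rt ρ)) := fun h3 => h' h3.symm
    simp [pb2Col, h2]
  · rfl

theorem pb2_xor_aux {v a b w : Bool} (h : a ≠ b) :
    xor v (decide (a = w)) ≠ xor v (decide (b = w)) := by
  revert h; cases v <;> cases a <;> cases b <;> cases w <;> decide

/-- Row PB2. -/
theorem pb2_proof : Pb2Statement := by
  intro p Λ P G M k n K N D H Bl pr Rd rt κH δ hp hL hκH
  choose κB hκB hκB' using hL.bbip hp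
  choose κR hκR using hL.rbip hp
  have fr : ∀ c q v, Fr2 Bl pr c q v → κH q ≠ κB c v := by
    rintro c q v ⟨v₀, h1, h2, _⟩
    rw [← hκB' c v₀ q h2]
    exact hκB c _ _ h1
  refine ⟨pb2Col κB κR rt κH, ?_, ?_, fun q => rfl⟩
  · rintro s t (⟨c, i, v, v', h, _, _, rfl, rfl⟩ | ⟨c, i, q, v, h, rfl, rfl⟩ |
      ⟨c, i, q, v, h, rfl, rfl⟩)
    · exact hκB c _ _ h
    · exact fr c q v h
    · exact (fr c q v h).symm
  · rintro s t (⟨q, q', h, rfl, rfl⟩ | ⟨c, v, ρ, ν, m, y, y', _, _, _, h, rfl, rfl⟩)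
    · exact hκH _ _ h
    · rw [pb2Col_rho Rd rt δ κB κR κH hκR, pb2Col_rho Rd rt δ κB κR κH hκR]
      exact pb2_xor_aux (hκR ρ _ _ h)

end MP3240Q
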