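import Mathlib
import Pool.Agent.Lib.MP_3240be_co.Q22.Defs2
import Pool.Agent.Lib.MP_3240be_co.Q22.Pie

set_option autoImplicit false

/-!
# Theorem Q2, row PI2: the gadget, second version
-/

namespace MP3240Q

open Pool.Agent.Lib.MP_3240be_co.H82 (TC Good)
open Pool.Agent.Lib.MP_3240be_co.H36.Chrom (Sparse ArrowsT)

namespace Pi2

/-- A small graph does not contain `D` and is bipartite if `D` is. -/
theorem small_facts {k t : ℕ} {D : SimpleGraph (Fin k)} {U : SimpleGraph (Fin t)}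
    (h : Small D U) : ¬ Sub D U ∧ (Bip D → Bip U) := by
  rcases h with ⟨⟨f, hf, hadj⟩, h2⟩ | ⟨κ, h1, h2⟩
  · refine ⟨h2, ?_⟩
    rintro ⟨κ, hκ⟩
    exact ⟨fun v => κ (f v), fun x y h => hκ _ _ (hadj x y h)⟩
  · refine ⟨?_, fun _ => ⟨κ, h1⟩⟩
    rintro ⟨f, hf, hadj⟩
    have h3 := h2 (fun v => κ (f v)) (fun x y h => h1 _ _ (hadj x y h))
    refine absurd h3 (not_lt.2 ?_)
    exact Nat.card_le_card_of_injective
      (fun v : {v // κ (f v) = true} => (⟨f v.1, v.2⟩ : {v // κ v = true}))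
      (fun v w h => Subtype.ext (hf (congrArg Subtype.val h)))

/-- Composition of a subgraph with a monochromatic copy. -/
theorem mono_sub {U V W : Type} {A : SimpleGraph U} {B : SimpleGraph V} {S : SimpleGraph W}
    {C : W → W → Bool} {c : Bool} {f : V → W} (hf : Mono S C B c f) (h : Sub A B) :
    ∃ g : U → V, Mono S C A c (fun v => f (g v)) := by
  obtain ⟨g, hg, hadj⟩ := h
  exact ⟨g, hf.1.comp hg, fun i j hij => hf.2 _ _ (hadj i j hij)⟩

/-- A copy of `D` without passengers, together with the small graphs. -/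
theorem rich_of_copy2 {p : Prop} {k n N : ℕ} {L : Type} {D : SimpleGraph (Fin k)} (hD : TC p D)
    {𝓛 : Set SG} {S : SimpleGraph (L ⊕ Fin n)} {C : L ⊕ Fin n → L ⊕ Fin n → Bool} {c : Bool}
    {f : Fin k → L} (hf : Mono S C D c (fun v => Sum.inl (f v)))
    (hs : ∀ x ∈ 𝓛, Sub x.2 D ∨ ∃ g : Fin x.1 → L, Mono S C x.2 c (fun v => Sum.inl (g v))) :
    Rich2 D 𝓛 N S C c where
  edge := by
    obtain ⟨w, hw⟩ := hD.nbr hD.ne.some
    exact ⟨_, _, (hf.2 _ _ hw).1, (hf.2 _ _ hw).2⟩
  small := by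
    intro x hx
    rcases hs x hx with h | h
    · obtain ⟨g, hg⟩ := mono_sub hf h
      exact ⟨fun v => f (g v), hg⟩
    · exact h
  cop := fun a b _ => ⟨fun v => Sum.inl (f v), hf, fun v _ _ => ⟨f v, rfl⟩, fun v q h => by
    cases h⟩

end Pi2

open Pi2 in
/-- Row PI2. -/
theorem pi2_proof (hPa3 : Pa3Statement) (hAtt : AttStatement) (hGm2 : Gm2Statement) :
    Piece2Statement := by
  classical
  intro p k n N D H 𝓛 hD hbip h𝓛 hsm hN
  obtain ⟨Y, hY, P, c₁, hP⟩ := hPa3 p k n N D H 𝓛 hD hbip h𝓛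
    (fun x hx => small_facts (hsm x hx)) hN
  -- the extra graph
  obtain ⟨X, hX, Γ, hΓp, ⟨CΓ, hCΓ, hΓ0⟩, hΓ⟩ := hGm2 p k D 𝓛 hD h𝓛 hsm
  -- the classes
  obtain ⟨cl, hcl⟩ : ∃ cl : Y ⊕ Fin n → Bool, p → ∀ x y, P.Adj x y → cl x ≠ cl y := by
    by_cases hp : p
    · obtain ⟨cl, h⟩ := hP.bip hp
      exact ⟨cl, fun _ => h⟩
    · exact ⟨fun _ => true, fun h => absurd h hp⟩
  obtain ⟨clX, hclX⟩ : ∃ cl : X → Bool, p → ∀ x y, Γ.Adj x y → cl x ≠ cl y := by
    by_cases hp : p
    · obtain ⟨cl, h⟩ := hΓp hp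
      exact ⟨cl, fun _ => h⟩
    · exact ⟨fun _ => true, fun h => absurd h hp⟩
  -- the senders
  let J := {q : Bool × Y × Y // P.Adj (Sum.inl q.2.1) (Sum.inl q.2.2) ∧
    c₁ (Sum.inl q.2.1) (Sum.inl q.2.2) = q.1 ∧ (p → cl (Sum.inl q.2.1) = true)}
  let Z : ((Y ⊕ Fin n) ⊕ (Bool × Bool)) ⊕ X → Prop := fun w => ∃ q, w = Sum.inl (Sum.inl
    (Sum.inr q))
  obtain ⟨V, hV, F, ι, hι, hind, hA, hB, hL⟩ := hAtt p k D hD
    (((Y ⊕ Fin n) ⊕ (Bool × Bool)) ⊕ X) J (Bs P Γ) Z
    (fun j => Sum.inl (Sum.inl (Sum.inl j.1.2.1))) (fun j => Sum.inl (Sum.inl (Sum.inl j.1.2.2)))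
    (fun j => Sum.inl (Sum.inr (j.1.1, false))) (fun j => Sum.inl (Sum.inr (j.1.1, true)))
    (fun j => Bs_pat.2 j.2.1)
    (fun j => Or.inr (Or.inl ⟨j.1.1, false, true, by decide, rfl, rfl⟩))
    (fun j => ⟨by simp, by simp, by simp, by simp⟩)
    (fun j => ⟨fun h => by obtain ⟨t, ht⟩ := Bs_pat' h; simp at ht,
      fun h => by obtain ⟨t, ht⟩ := Bs_pat' h; simp at ht,
      fun h => by obtain ⟨t, ht⟩ := Bs_pat' h; simp at ht,
      fun h => by obtain ⟨t, ht⟩ := Bs_pat' h; simp at ht⟩)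
    (fun j => ⟨by rintro ⟨q, hq⟩; simp at hq, by rintro ⟨q, hq⟩; simp at hq,
      by rintro ⟨q, hq⟩; simp at hq, by rintro ⟨q, hq⟩; simp at hq⟩)
    (fun hp => ⟨Sum.elim (Sum.elim cl (fun r : Bool × Bool => !r.2)) clX,
      Bs_cl (hcl hp) (hclX hp), fun j => j.2.2.2 hp⟩)
  obtain ⟨Cs, hCs1, hCs2, hCs3⟩ := hB (cbs c₁ CΓ) (cbs_symm hP.symm hCΓ) (by
    rintro ⟨⟨c, d, d'⟩, h1, h2, h3⟩
    show c₁ (Sum.inl d) (Sum.inl d') = (c && c)
    rw [Bool.and_self]
    exact h2)
  -- the vertices of the gadget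
  let pas : Fin n → V := fun q => ι (Sum.inl (Sum.inl (Sum.inr q)))
  have hpas : Function.Injective pas := fun q q' h =>
    Sum.inr_injective (Sum.inl_injective (Sum.inl_injective (hι h)))
  let L := {v : V // ∀ q, v ≠ pas q}
  let τ : L ⊕ Fin n → V := Sum.elim Subtype.val pas
  have hτl : ∀ l : L, τ (Sum.inl l) = l.1 := fun _ => rfl
  have hτr : ∀ q, τ (Sum.inr q) = pas q := fun _ => rfl
  have hτi : Function.Injective τ := by
    rintro (l | q) (l' | q') h
    · exact congrArg Sum.inl (Subtype.ext h)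
    · exact absurd h (l.2 q')
    · exact absurd h.symm (l'.2 q)
    · exact congrArg Sum.inr (hpas h)
  have hτs : Function.Surjective τ := by
    intro v
    by_cases hv : ∃ q, v = pas q
    · obtain ⟨q, hq⟩ := hv
      exact ⟨Sum.inr q, hq.symm⟩
    · push Not at hv
      exact ⟨Sum.inl ⟨v, hv⟩, rfl⟩
  -- the vertices of the pattern and of the extra graph
  have hYL : ∀ d : Y, ∀ q, ι (Sum.inl (Sum.inl (Sum.inl d))) ≠ pas q := by
    intro d q h
    have := hι h
    simp at this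
  have hXL : ∀ x : X, ∀ q, ι (Sum.inr x) ≠ pas q := by
    intro x q h
    have := hι h
    simp at this
  let yl : Y → L := fun d => ⟨ι (Sum.inl (Sum.inl (Sum.inl d))), hYL d⟩
  let xl : X → L := fun x => ⟨ι (Sum.inr x), hXL x⟩
  have hyl : Function.Injective yl := fun d d' h =>
    Sum.inl_injective (Sum.inl_injective (Sum.inl_injective (hι (congrArg Subtype.val h))))
  have hxl : Function.Injective xl := fun d d' h =>
    Sum.inr_injective (hι (congrArg Subtype.val h))
  let σ : Y ⊕ Fin n → L ⊕ Fin n := Sum.map yl id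
  have hσ : ∀ s, τ (σ s) = ι (Sum.inl (Sum.inl s)) := by
    rintro (d | q)
    · rfl
    · rfl
  have hσi : Function.Injective σ := by
    rintro (l | q) (l' | q') h
    · exact congrArg Sum.inl (hyl (Sum.inl_injective h))
    · cases h
    · cases h
    · exact congrArg Sum.inr (Sum.inr_injective h)
  let S : SimpleGraph (L ⊕ Fin n) := F.comap τ
  have hS : ∀ x y, S.Adj x y ↔ F.Adj (τ x) (τ y) := fun _ _ => Iff.rfl
  have hSσ : ∀ s t, S.Adj (σ s) (σ t) ↔ P.Adj s t := by
    intro s t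
    rw [hS, hσ, hσ, hind]
    exact Bs_pat
  have hSx : ∀ s t, S.Adj (Sum.inl (xl s)) (Sum.inl (xl t)) ↔ Γ.Adj s t := by
    intro s t
    rw [hS, hτl, hτl]
    exact (hind _ _).trans Bs_gam
  refine ⟨L, inferInstance, S, fun x y => Cs (τ x) (τ y), ?_⟩
  refine
  { pat := ?_
    symm := fun x y => hCs1 _ _
    red := ?_
    isred := ?_
    only := ?_
    two := ?_
    arr := ?_ }
  · intro q q'
    rw [← hP.pat q q', ← hSσ (Sum.inr q) (Sum.inr q')]
    rfl
  · intro q y hadj hred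
    rcases hL (Sum.inl (Sum.inl (Sum.inr q))) (τ y) hadj with ⟨v, hv⟩ | ⟨j, hj⟩
    · have h1 : F.Adj (ι (Sum.inl (Sum.inl (Sum.inr q)))) (ι v) := by
        rw [← hv]
        exact hadj
      have h2 := (hind _ _).1 h1
      obtain ⟨s, rfl⟩ := Bs_pat' h2
      have h3 := Bs_pat.1 h2
      have h4 : c₁ (Sum.inr q) s = true := by
        have h5 : Cs (τ (Sum.inr q)) (τ y) = true := hred
        rw [hv] at h5
        have h6 := hCs2 (Sum.inl (Sum.inl (Sum.inr q))) (Sum.inl (Sum.inl s))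
        exact h6.symm.trans h5
      obtain ⟨q', rfl⟩ := hP.red q s h3 h4
      exact ⟨q', hτi hv⟩
    · exfalso
      rcases hj with hj | hj | hj | hj
      · simp at hj
      · simp at hj
      · simp at hj
      · simp at hj
  · intro q q' hqq
    exact (hCs2 (Sum.inl (Sum.inl (Sum.inr q))) (Sum.inl (Sum.inl (Sum.inr q')))).trans
      (hP.isred q q' hqq)
  · intro c f hf
    have h1 : Mono F Cs D c (fun v => τ (f v)) := ⟨hτi.comp hf.1, hf.2⟩
    choose g hg using hCs3 c _ h1
    have h2 : Mono (Bs P Γ) (cbs c₁ CΓ) D c g := by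
      refine ⟨?_, ?_⟩
      · intro x y hxy
        exact h1.1 (by
          show τ (f x) = τ (f y)
          rw [hg, hg, hxy])
      · intro i j hij
        obtain ⟨h3, h4⟩ := h1.2 i j hij
        simp only at h3 h4
        rw [hg, hg] at h3 h4
        exact ⟨(hind _ _).1 h3, (hCs2 _ _).symm.trans h4⟩
    obtain ⟨g', hg', hm⟩ := mono_base hD hΓ0 h2
    intro v
    obtain ⟨q, hq⟩ := hP.only c g' hm v
    refine ⟨q, hτi ?_⟩
    rw [hg, hg', hq]
    rfl
  · obtain ⟨l, l', hll⟩ := hP.two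
    exact ⟨yl l, yl l', fun h => hll (hyl h)⟩
  · intro C hC
    let e : L ⊕ Fin n ≃ V := Equiv.ofBijective τ ⟨hτi, hτs⟩
    let C' : V → V → Bool := fun x y => C (e.symm x) (e.symm y)
    have hC' : ∀ x y, C' (τ x) (τ y) = C x y := by
      intro x y
      show C (e.symm (e x)) (e.symm (e y)) = C x y
      rw [Equiv.symm_apply_apply, Equiv.symm_apply_apply]
    have hC'x : ∀ s t, C' (ι (Sum.inr s)) (ι (Sum.inr t)) = C (Sum.inl (xl s)) (Sum.inl (xl t)) :=
      fun s t => hC' (Sum.inl (xl s)) (Sum.inl (xl t))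
    have hC'σ : ∀ s t, C' (ι (Sum.inl (Sum.inl s))) (ι (Sum.inl (Sum.inl t))) =
        C (σ s) (σ t) := by
      intro s t
      rw [← hσ, ← hσ, hC']
    have hmo : ∀ (u : ℕ) (U : SimpleGraph (Fin u)) (c : Bool) (f : Fin u → X),
        Mono Γ (fun s t => C' (ι (Sum.inr s)) (ι (Sum.inr t))) U c f →
        Mono S C U c (fun v => Sum.inl (xl (f v))) := by
      intro u U c f hf
      refine ⟨?_, ?_⟩
      · intro i j hij
        exact hf.1 (hxl (Sum.inl_injective hij))
      · intro i j hij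
        obtain ⟨h1, h2⟩ := hf.2 i j hij
        exact ⟨(hSx _ _).2 h1, (hC'x _ _).symm.trans h2⟩
    by_cases hcase : ∃ (b : Bool) (f : Fin k → L), Mono S C D b (fun v => Sum.inl (f v))
    · right
      obtain ⟨b, f, hf⟩ := hcase
      rcases hΓ (fun s t => C' (ι (Sum.inr s)) (ι (Sum.inr t))) (fun s t => hC _ _) with
        ⟨c, ⟨f', hf'⟩, h⟩ | h
      · refine ⟨c, rich_of_copy2 hD (hmo k D c f' hf') (fun x hx => ?_)⟩
        rcases h x hx with h1 | ⟨g, hg⟩
        · exact Or.inl h1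
        · exact Or.inr ⟨_, hmo _ _ c g hg⟩
      · refine ⟨b, rich_of_copy2 hD hf (fun x hx => ?_)⟩
        rcases h b x hx with h1 | ⟨g, hg⟩
        · exact Or.inl h1
        · exact Or.inr ⟨_, hmo _ _ b g hg⟩
    · push Not at hcase
      -- the senders work
      have hforce := hA C' (fun x y => hC _ _) (by
        intro b f hf
        by_contra hcon
        push Not at hcon
        have h1 : ∀ i, ∃ l : L, f i = τ (Sum.inl l) := by
          intro i
          refine ⟨⟨f i, fun q hq => ?_⟩, rfl⟩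
          exact hcon i _ ⟨q, rfl⟩ hq
        choose g hg using h1
        refine hcase b g ⟨?_, ?_⟩
        · intro i j hij
          apply hf.1
          rw [hg, hg]
          exact congrArg τ hij
        · intro i j hij
          obtain ⟨h2, h3⟩ := hf.2 i j hij
          rw [hg i, hg j] at h2 h3
          exact ⟨(hS _ _).2 h2, (hC' _ _).symm.trans h3⟩)
      have hφ : ∀ d d', P.Adj (Sum.inl d) (Sum.inl d') → C (σ (Sum.inl d)) (σ (Sum.inl d')) =
          (fun c => C' (ι (Sum.inl (Sum.inr (c, false)))) (ι (Sum.inl (Sum.inr (c, true)))))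
            (c₁ (Sum.inl d) (Sum.inl d')) := by
        intro d d' h
        by_cases hd : p → cl (Sum.inl d) = true
        · have h1 := hforce ⟨(c₁ (Sum.inl d) (Sum.inl d'), d, d'), h, rfl, hd⟩
          rw [← hC'σ]
          exact h1
        · have hp : p := by
            by_contra hp
            exact hd (fun h => absurd h hp)
          have h1 : ¬ cl (Sum.inl d) = true := fun h => hd (fun _ => h)
          have h2 := hcl hp _ _ h
          have h3 : cl (Sum.inl d') = true := by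
            revert h1 h2
            cases cl (Sum.inl d) <;> cases cl (Sum.inl d') <;> decide
          have h4 := hforce ⟨(c₁ (Sum.inl d') (Sum.inl d), d', d), h.symm, rfl, fun _ => h3⟩
          rw [hC, hP.symm, ← hC'σ]
          exact h4
      have hmoσ : ∀ (u : ℕ) (U : SimpleGraph (Fin u)) (c : Bool) (f : Fin u → Y ⊕ Fin n),
          Mono P (fun s t => C (σ s) (σ t)) U c f → Mono S C U c (fun v => σ (f v)) := by
        intro u U c f hf
        refine ⟨hσi.comp hf.1, ?_⟩
        intro i j hij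
        obtain ⟨h1, h2⟩ := hf.2 i j hij
        exact ⟨(hSσ _ _).2 h1, h2⟩
      rcases hP.arr (fun s t => C (σ s) (σ t))
        (fun c => C' (ι (Sum.inl (Sum.inr (c, false)))) (ι (Sum.inl (Sum.inr (c, true)))))
        (fun s t => hC _ _) hφ with
        ⟨c, f, hf⟩ | ⟨c, hc⟩ | ⟨c, ⟨l, l', hl1, hl2⟩, hsmall, hcop⟩
      · exact absurd (hmoσ k D c _ hf) (hcase c (fun v => yl (f v)))
      · left
        exact ⟨c, fun q q' h => hc q q' h⟩
      · right
        refine ⟨c, ⟨yl l, yl l', (hSσ (Sum.inl l) (Sum.inl l')).2 hl1, hl2⟩, ?_, ?_⟩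
        · intro x hx
          obtain ⟨f, hf⟩ := hsmall x hx
          exact ⟨fun v => yl (f v), hmoσ _ _ c _ hf⟩
        · intro a b hab
          obtain ⟨f, hf, hf1, hf2⟩ := hcop a b hab
          refine ⟨fun v => σ (f v), hmoσ _ _ c f hf, ?_, ?_⟩
          · intro v hva hvb
            obtain ⟨l, hl⟩ := hf1 v hva hvb
            exact ⟨yl l, by
              show σ (f v) = _
              rw [hl]
              rfl⟩
          · intro v q hq x hx w
            have h1 : f v = Sum.inr q := by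
              apply hσi
              exact hq
            obtain ⟨g, hg1, hg2, hg3, hg4⟩ := hf2 v q h1 x hx w
            refine ⟨fun ν v => σ (g ν v), fun ν => hmoσ _ _ c _ (hg1 ν), ?_, ?_, ?_⟩
            · intro ν
              show σ (g ν w) = _
              rw [hg2]
              rfl
            · intro ν v hv
              obtain ⟨l, hl⟩ := hg3 ν v hv
              exact ⟨yl l, by
                show σ (g ν v) = _
                rw [hl]
                rfl⟩
            · intro ν ν' v v' hv h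
              exact hg4 ν ν' v v' hv (hσi h)

end MP3240Q
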