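import Pool.Agent.Lib.MP_3240be_co.Q22.Defs2

set_option autoImplicit false

/-!
# Row RCL: red pieces at a passenger
-/

namespace MP3240Q

section Rcl

variable {Λ P G M : Type} {K N : ℕ} {Rd : P → SimpleGraph (Fin K)} {rt : P → Fin K}
  {δ : M → P × Fin N × Fin K → G}

theorem rcl_rho_of_adj {c : Λ} {v : Fin K} {ρ : P} {ν : Fin N} {m : M} {y : Fin K}
    (h : (Rd ρ).Adj (rt ρ) y) :
    rho2 Rd rt δ c v ρ ν m y = GY.l c (δ m (ρ, ν, y)) v := by
  unfold rho2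
  rw [if_pos h]

theorem rcl_rho_inj (hδ : ∀ m, Function.Injective (δ m)) {c : Λ} {v : Fin K} {ρ : P}
    {ν ν' : Fin N} {m : M} {y y' : Fin K}
    (h : rho2 Rd rt δ c v ρ ν m y = rho2 Rd rt δ c v ρ ν' m y') : ν = ν' ∧ y = y' := by
  classical
  unfold rho2 at h
  by_cases h1 : (Rd ρ).Adj (rt ρ) y <;> by_cases h2 : (Rd ρ).Adj (rt ρ) y'
  · rw [if_pos h1, if_pos h2] at h
    simp only [GY.l.injEq, true_and, and_true] at h
    have h3 := hδ m h
    simp only [Prod.mk.injEq, true_and] at h3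
    exact h3
  · rw [if_pos h1, if_neg h2] at h
    exact absurd h (by simp)
  · rw [if_neg h1, if_pos h2] at h
    exact absurd h (by simp)
  · rw [if_neg h1, if_neg h2] at h
    simp only [GY.r.injEq, true_and] at h
    exact h

end Rcl

theorem rcl_proof : RclStatement := by
  classical
  intro Λ P G M n K N H Bl pr Rd rt δ hδ C β₁ hC hβ c q v m hF hmC ρ
  have hprv : pr c v = none := by
    obtain ⟨v₀, _, _, h⟩ := hF
    exact h
  let f : Fin N → Fin K → GY Λ P G M K N ⊕ Fin n := fun ν y =>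
    if y = rt ρ then Sum.inr q else Sum.inl (rho2 Rd rt δ c v ρ ν m y)
  have fw : ∀ ν, f ν (rt ρ) = Sum.inr q := by
    intro ν
    simp only [f, if_true]
  have fy : ∀ ν y, y ≠ rt ρ → f ν y = Sum.inl (rho2 Rd rt δ c v ρ ν m y) := by
    intro ν y hy
    simp only [f, if_neg hy]
  have hadj : ∀ s t : GY Λ P G M K N ⊕ Fin n, s ≠ t →
      (EB2 Bl pr s t ∨ ER2 H pr Rd rt δ s t) → (Pt2 H Bl pr Rd rt δ).Adj s t := by
    intro s t hne h
    unfold Pt2
    rw [SimpleGraph.fromRel_adj]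
    exact ⟨hne, Or.inl h⟩
  have hinj : ∀ ν, Function.Injective (f ν) := by
    intro ν y y' hyy
    by_cases c1 : y = rt ρ
    · by_cases c2 : y' = rt ρ
      · rw [c1, c2]
      · rw [c1, fw, fy ν y' c2] at hyy
        simp at hyy
    · by_cases c2 : y' = rt ρ
      · rw [c2, fw, fy ν y c1] at hyy
        simp at hyy
      · rw [fy ν y c1, fy ν y' c2] at hyy
        exact (rcl_rho_inj hδ (Sum.inl_injective hyy)).2
  have hstar : ∀ ν y, (Rd ρ).Adj (rt ρ) y →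
      (Pt2 H Bl pr Rd rt δ).Adj (Sum.inr q) (Sum.inl (rho2 Rd rt δ c v ρ ν m y)) ∧
      C (Sum.inr q) (Sum.inl (rho2 Rd rt δ c v ρ ν m y)) = β₁ := by
    intro ν y hy
    rw [rcl_rho_of_adj hy]
    exact ⟨hadj _ _ (by simp) (Or.inl (Or.inr (Or.inl ⟨c, _, q, v, hF, rfl, rfl⟩))), hmC _⟩
  refine ⟨f, ?_, fw, ?_, ?_⟩
  · intro ν
    refine ⟨hinj ν, ?_⟩
    intro s t hst
    by_cases c1 : s = rt ρ
    · have c2 : t ≠ rt ρ := fun h => hst.ne (c1.trans h.symm)
      rw [c1, fw, fy ν t c2]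
      exact hstar ν t (c1 ▸ hst)
    · by_cases c2 : t = rt ρ
      · obtain ⟨k1, k2⟩ := hstar ν s (c2 ▸ hst.symm)
        rw [c2, fw, fy ν s c1]
        exact ⟨k1.symm, by rw [hC]; exact k2⟩
      · have hne : f ν s ≠ f ν t := fun h => hst.ne (hinj ν h)
        rw [fy ν s c1, fy ν t c2] at hne ⊢
        have hE : ER2 H pr Rd rt δ (Sum.inl (rho2 Rd rt δ c v ρ ν m s))
            (Sum.inl (rho2 Rd rt δ c v ρ ν m t)) :=
          Or.inr ⟨c, v, ρ, ν, m, s, t, hprv, c1, c2, hst, rfl, rfl⟩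
        exact ⟨hadj _ _ hne (Or.inr hE), hβ _ _ hE⟩
  · intro ν y h1
    exact ⟨_, fy ν y h1⟩
  · intro ν ν' y y' hy hyy
    rw [fy ν y hy] at hyy
    by_cases c2 : y' = rt ρ
    · rw [c2, fw] at hyy
      simp at hyy
    · rw [fy ν' y' c2] at hyy
      exact (rcl_rho_inj hδ (Sum.inl_injective hyy)).1

end MP3240Q
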