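import Mathlib
import Pool.Agent.Lib.MP_3240be_co.Q22.Defs2

set_option autoImplicit false

/-!
# Theorem Q2: row RP2

A red copy of `D` lies on the passengers.
-/

namespace MP3240Q

open Pool.Agent.Lib.MP_3240be_co.H82 (TC)
open Pool.Agent.Lib.MP_3240be_co.H36.Chrom (Sparse Leaf)

section Rp2

variable {Λ P G M : Type} {K N : ℕ} {Rd : P → SimpleGraph (Fin K)} {rt : P → Fin K}
  {δ : M → P × Fin N × Fin K → G}

/-- The label and the vertex of a point. -/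
def rp2Lab : GY Λ P G M K N → Λ × Fin K
  | GY.l c _ v => (c, v)
  | GY.r c v _ _ _ _ => (c, v)

theorem rp2_lab (c : Λ) (v : Fin K) (ρ : P) (ν : Fin N) (m : M) (y : Fin K) :
    rp2Lab (rho2 Rd rt δ c v ρ ν m y) = (c, v) := by
  classical
  unfold rho2
  by_cases h : (Rd ρ).Adj (rt ρ) y
  · rw [if_pos h]
    rfl
  · rw [if_neg h]
    rfl

/-- A common point of two different red pieces. -/
theorem rp2_common (c : Λ) (v : Fin K) (ρ ρ' : P) (ν ν' : Fin N) (m m' : M) (y y' : Fin K)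
    (hne : m ≠ m') (h : rho2 Rd rt δ c v ρ ν m y = rho2 Rd rt δ c v ρ' ν' m' y') :
    δ m (ρ, ν, y) = δ m' (ρ', ν', y') ∧
      rho2 Rd rt δ c v ρ ν m y = GY.l c (δ m (ρ, ν, y)) v := by
  classical
  unfold rho2 at h
  by_cases h1 : (Rd ρ).Adj (rt ρ) y
  · have e1 : rho2 Rd rt δ c v ρ ν m y = GY.l c (δ m (ρ, ν, y)) v := by
      unfold rho2
      rw [if_pos h1]
    refine ⟨?_, e1⟩
    by_cases h2 : (Rd ρ').Adj (rt ρ') y'
    · rw [if_pos h1, if_pos h2] at h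
      simpa using h
    · rw [if_pos h1, if_neg h2] at h
      exact absurd h (by simp)
  · exfalso
    by_cases h2 : (Rd ρ').Adj (rt ρ') y'
    · rw [if_neg h1, if_pos h2] at h
      exact absurd h (by simp)
    · rw [if_neg h1, if_neg h2] at h
      injection h with _ _ _ _ h5 _
      exact hne h5

/-- The points of a hyperedge are different. -/
theorem rp2_inj (c : Λ) (v : Fin K) (ρ ρ' : P) (ν ν' : Fin N) (m : M) (y y' : Fin K)
    (hδ : Function.Injective (δ m))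
    (h : rho2 Rd rt δ c v ρ ν m y = rho2 Rd rt δ c v ρ' ν' m y') :
    ρ = ρ' ∧ ν = ν' ∧ y = y' := by
  classical
  unfold rho2 at h
  by_cases h1 : (Rd ρ).Adj (rt ρ) y <;> by_cases h2 : (Rd ρ').Adj (rt ρ') y'
  · rw [if_pos h1, if_pos h2] at h
    injection h with _ h3 _
    have h4 := hδ h3
    simp only [Prod.mk.injEq] at h4
    exact h4
  · rw [if_pos h1, if_neg h2] at h
    exact absurd h (by simp)
  · rw [if_neg h1, if_pos h2] at h
    exact absurd h (by simp)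
  · rw [if_neg h1, if_neg h2] at h
    injection h with _ _ h3 h4 _ h6
    exact ⟨h3, h4, h6⟩

end Rp2

/-- Row RP2. -/
theorem rp2_proof (hone : OneStatement) : Rp2Statement := by
  classical
  intro p Λ P G M k n K N D H Bl pr Rd rt κH δ hD hL hδ hsp f hf hE
  by_cases hq : ∃ i q, f i = Sum.inr q
  · refine hD.conn (fun i => ∃ q, f i = Sum.inr q) hq ?_
    rintro i j hij ⟨q, hq⟩
    rcases hE i j hij with ⟨_, q', _, _, ht⟩ | ⟨_, _, _, _, _, _, _, _, _, _, _, hs, _⟩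
    · exact ⟨q', ht⟩
    · rw [hq] at hs
      simp at hs
  exfalso
  push Not at hq
  -- all edges in red pieces
  have hpc : ∀ i j, D.Adj i j → ∃ (c : Λ) (v : Fin K) (ρ : P) (ν : Fin N) (m : M)
      (y y' : Fin K), y ≠ rt ρ ∧ y' ≠ rt ρ ∧ (Rd ρ).Adj y y' ∧
      f i = Sum.inl (rho2 Rd rt δ c v ρ ν m y) ∧ f j = Sum.inl (rho2 Rd rt δ c v ρ ν m y') := by
    intro i j hij
    rcases hE i j hij with ⟨q', _, _, hs, _⟩ |
      ⟨c, v, ρ, ν, m, y, y', _, h2, h3, h4, hs, ht⟩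
    · exact absurd hs (hq _ _)
    · exact ⟨c, v, ρ, ν, m, y, y', h2, h3, h4, hs, ht⟩
  obtain ⟨x0⟩ := hD.ne
  obtain ⟨x1, hx01⟩ := hD.nbr x0
  obtain ⟨c, v, ρ0, ν0, m0, y0, y0', -, -, -, hf0, hf0'⟩ := hpc x0 x1 hx01
  have hallx := hD.conn (fun i => ∃ d, f i = Sum.inl d ∧ rp2Lab d = (c, v))
    ⟨x0, _, hf0, rp2_lab _ _ _ _ _ _⟩ (by
      rintro i j hij ⟨d, hd1, hd2⟩
      obtain ⟨c1, v1, ρ1, ν1, m1, y1, y1', -, -, -, h1, h2⟩ := hpc i j hij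
      rw [hd1] at h1
      have := Sum.inl_injective h1
      rw [this, rp2_lab] at hd2
      exact ⟨_, h2, by rw [rp2_lab, hd2]⟩)
  have hpc' : ∀ i j, ∃ m, D.Adj i j → ∃ ρ ν y y', y ≠ rt ρ ∧ y' ≠ rt ρ ∧ (Rd ρ).Adj y y' ∧
      f i = Sum.inl (rho2 Rd rt δ c v ρ ν m y) ∧
      f j = Sum.inl (rho2 Rd rt δ c v ρ ν m y') := by
    intro i j
    by_cases hij : D.Adj i j
    · obtain ⟨c1, v1, ρ1, ν1, m1, y1, y1', e1, e2, e3, h1, h2⟩ := hpc i j hij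
      obtain ⟨d, hd1, hd2⟩ := hallx i
      rw [h1] at hd1
      rw [← Sum.inl_injective hd1, rp2_lab] at hd2
      simp only [Prod.mk.injEq] at hd2
      obtain ⟨rfl, rfl⟩ := hd2
      exact ⟨m1, fun _ => ⟨ρ1, ν1, y1, y1', e1, e2, e3, h1, h2⟩⟩
    · exact ⟨m0, fun h => absurd h hij⟩
  choose mm hmm using hpc'
  obtain ⟨m, hm⟩ := hone p k D hD M mm
    (fun m i => ∃ ρ ν y, f i = Sum.inl (rho2 Rd rt δ c v ρ ν m y)) (by
      intro i j hij
      obtain ⟨ρ, ν, y, y', _, _, _, h3, h4⟩ := hmm i j hij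
      exact ⟨⟨ρ, ν, y, h3⟩, ⟨ρ, ν, y', h4⟩⟩) (by
      intro S hS2 hScard
      obtain ⟨m, hm, -, -, -, hleaf, -⟩ := hsp S hS2 hScard
      refine ⟨m, hm, ?_⟩
      rintro i j ⟨ρ, ν, y, hiy⟩ ⟨ρ1, ν1, z, hjz⟩ ⟨m', hm', hne', ρ', ν', y', hiy'⟩
        ⟨m'', hm'', hne'', ρ1', ν1', z', hjz'⟩
      have k1 := rp2_common c v ρ ρ' ν ν' m m' y y' hne'.symm
        (Sum.inl_injective (hiy.symm.trans hiy'))
      have k2 := rp2_common c v ρ1 ρ1' ν1 ν1' m m'' z z' hne''.symm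
        (Sum.inl_injective (hjz.symm.trans hjz'))
      have k3 := hleaf m' hm' m'' hm'' hne' hne'' (ρ, ν, y) (ρ', ν', y') (ρ1, ν1, z)
        (ρ1', ν1', z') k1.1 k2.1
      apply hf
      rw [hiy, hjz, k1.2, k2.2, k3])
  -- a single hyperedge: all edges in one piece
  have hpm : ∀ i j, D.Adj i j → ∃ ρ ν y y', y ≠ rt ρ ∧ y' ≠ rt ρ ∧ (Rd ρ).Adj y y' ∧
      f i = Sum.inl (rho2 Rd rt δ c v ρ ν m y) ∧
      f j = Sum.inl (rho2 Rd rt δ c v ρ ν m y') := by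
    intro i j hij
    obtain ⟨ρ, ν, y, y', h1, h2, h3, h4, h5⟩ := hmm i j hij
    rw [hm i j hij] at h4 h5
    exact ⟨ρ, ν, y, y', h1, h2, h3, h4, h5⟩
  obtain ⟨ρ1, ν1, y1, y1', k1, k2, k3, k4, k5⟩ := hpm x0 x1 hx01
  have hall2 := hD.conn (fun i => ∃ y, y ≠ rt ρ1 ∧ f i = Sum.inl (rho2 Rd rt δ c v ρ1 ν1 m y))
    ⟨x0, y1, k1, k4⟩ (by
      rintro i j hij ⟨y, hy, hfi⟩
      obtain ⟨ρ, ν, z, z', h1, h2, h3, h4, h5⟩ := hpm i j hij
      obtain ⟨e1, e2, e3⟩ := rp2_inj c v ρ1 ρ ν1 ν m y z (hδ m)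
        (Sum.inl_injective (hfi.symm.trans h4))
      subst e1 e2
      exact ⟨z', h2, h5⟩)
  choose g hg1 hg2 using hall2
  apply hL.rfree ρ1
  refine ⟨g, ?_, hg1, ?_⟩
  · intro i j hij
    apply hf
    rw [hg2, hg2, hij]
  · intro i j hij
    obtain ⟨ρ, ν, z, z', h1, h2, h3, h4, h5⟩ := hpm i j hij
    obtain ⟨e1, e2, e3⟩ := rp2_inj c v ρ1 ρ ν1 ν m (g i) z (hδ m)
      (Sum.inl_injective ((hg2 i).symm.trans h4))
    subst e1 e2
    obtain ⟨-, -, e6⟩ := rp2_inj c v ρ1 ρ1 ν1 ν1 m (g j) z' (hδ m)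
      (Sum.inl_injective ((hg2 j).symm.trans h5))
    rw [e3, e6]
    exact h3

end MP3240Q
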