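import Mathlib
import Pool.Agent.Lib.MP_3240be_co.Q22.Defs2
import Pool.Agent.Lib.MP_3240be_co.Q22.Cpy

set_option autoImplicit false

/-!
# Theorem Q2, row SMP: a small graph glued at a point
-/

namespace MP3240Q

theorem smp_proof (hMon : MonStatement) (hFre : FreStatement) : SmpStatement := by
  intro k N L Q I M D 𝓛 S δ C χ Cφ c hH j T A F g hAfin hAN hTA hFA hSt t U hU f r hr hnew
    ⟨x, hx, hxs⟩
  obtain ⟨e, heinj, heD⟩ := hH.rich.small ⟨t, U⟩ hU
  obtain ⟨m, hχ, hml, hmx, hmB⟩ := hFre N L Q I M δ χ hH.inj hH.lin (j + 1) x (e r) (g '' A)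
    (hAfin.image g) (lt_of_le_of_lt (Set.ncard_image_le hAfin) hAN) hxs
  classical
  obtain ⟨g', hg'⟩ : ∃ g' : ℕ → I ⊕ (M × Q), g' = fun u =>
    if h : ∃ v, f v = u ∧ v ≠ r then em δ m (Sum.inl (e h.choose)) else g u := ⟨_, rfl⟩
  have gA : ∀ u ∈ A, g' u = g u := by
    intro u hu
    rw [hg']
    have hn : ¬ ∃ v, f v = u ∧ v ≠ r := by
      rintro ⟨v, hv, hvr⟩
      exact hnew v hvr (hv ▸ hu)
    simp only [hn, dite_false]
  have gf : ∀ v, g' (f v) = em δ m (Sum.inl (e v)) := by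
    intro v
    by_cases hv : v = r
    · subst hv
      rw [gA _ hr, hx]
      simp only [em, hml]
    · rw [hg']
      have hn : ∃ w, f w = f v ∧ w ≠ r := ⟨v, rfl, hv⟩
      simp only [hn, dite_true]
      have h1 : hn.choose = v := f.injective hn.choose_spec.1
      rw [h1]
  have key : ∀ u ∈ A, ∀ v, v ≠ r → g u ≠ em δ m (Sum.inl (e v)) := by
    intro u hu v hv h
    have h1 := hmB (Sum.inl (e v)) (h ▸ Set.mem_image_of_mem g hu)
    exact hv (heinj h1)
  refine ⟨g', ?_, ?_, ?_, ?_⟩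
  · -- injectivity
    have aux : ∀ u ∈ A, ∀ v, g' u = g' (f v) → u = f v := by
      intro u hu v h
      by_cases hv : v = r
      · subst hv
        rw [gA u hu, gA _ hr] at h
        exact hSt.inj hu hr h
      · rw [gA u hu, gf v] at h
        exact absurd h (key u hu v hv)
    rintro u (hu | ⟨v, rfl⟩) w (hw | ⟨v', rfl⟩) h
    · rw [gA u hu, gA w hw] at h
      exact hSt.inj hu hw h
    · exact aux u hu v' h
    · exact (aux w hw v h.symm).symm
    · rw [gf, gf] at h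
      rw [heinj (em_inj hH.inj m h)]
  · -- edges
    intro u v huv
    rw [SimpleGraph.sup_adj, SimpleGraph.map_adj] at huv
    rcases huv with huv | ⟨i, i', hii, rfl, rfl⟩
    · rw [gA u (hTA u v huv).1, gA v (hTA u v huv).2]
      exact hSt.adj u v huv
    · rw [gf, gf]
      obtain ⟨h1, h2⟩ := heD i i' hii
      exact ⟨gl_adj_em hH.inj m h1, (hH.col m hχ _ _).trans h2⟩
  · -- free vertices
    rintro u (hu | ⟨v, hv, rfl⟩)
    · obtain ⟨y, hy, hys⟩ := hSt.free u hu
      exact ⟨y, (gA u (hFA hu)).trans hy, hMon L I M δ χ N (j + 1) y hys⟩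
    · exact ⟨δ m (e v), gf v, hmx (e v)⟩
  · -- all vertices
    rintro u (hu | ⟨v, rfl⟩)
    · rcases hSt.all u hu with ⟨y, hy, hys⟩ | ⟨m', q, h1, h2, h3, h4⟩
      · exact Or.inl ⟨y, (gA u hu).trans hy, hMon L I M δ χ N (j + 1) y hys⟩
      · exact Or.inr ⟨m', q, (gA u hu).trans h1, h2,
          fun l => hMon L I M δ χ N (j + 1) _ (h3 l), h4⟩
    · exact Or.inl ⟨δ m (e v), gf v, hmx (e v)⟩

end MP3240Q
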