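import Pool.Agent.Lib.MP_3240be_co.Q22.Defs2

set_option autoImplicit false

/-!
# Row SMQ: a small graph glued at a passenger
-/

namespace MP3240Q

theorem smq_proof (hMon : MonStatement) : SmqStatement := by
  classical
  intro k N L Q I M D 𝓛 S δ C χ Cφ c hH j T A F g hA hN hT hFA hS t U hU f r hr hnew hg
  obtain ⟨m, q, hgr, hχ, hX, hHang⟩ := hg
  have hmon : ∀ i x, XS δ χ N (i + 1) x → XS δ χ N i x := fun i x h => hMon L I M δ χ N i x h
  obtain ⟨h, h1, h2, h3, h4⟩ := hHang ⟨t, U⟩ hU r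
  have hem : Function.Injective (em δ m : L ⊕ Q → I ⊕ (M × Q)) := by
    rintro (l | q') (l' | q'') he
    · exact congrArg Sum.inl (hH.inj m (Sum.inl_injective he))
    · simp [em] at he
    · simp [em] at he
    · simp only [em, Sum.inr.injEq, Prod.mk.injEq, true_and] at he
      rw [he]
  -- a copy that avoids the old vertices
  have hfree : ∃ ν, ∀ v, v ≠ r → em δ m (h ν v) ∉ g '' A := by
    by_contra hcon
    push Not at hcon
    choose w hw1 hw2 using hcon
    have hinj : Function.Injective (fun ν => em δ m (h ν (w ν))) := by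
      intro ν ν' he
      exact h4 ν ν' (w ν) (w ν') (hw1 ν) (hem he)
    have hfin : (g '' A).Finite := hA.image g
    have hle : N ≤ (g '' A).ncard := by
      have hsub : Set.range (fun ν => em δ m (h ν (w ν))) ⊆ g '' A := by
        rintro _ ⟨ν, rfl⟩
        exact hw2 ν
      have hc := Set.ncard_le_ncard hsub hfin
      rw [Set.ncard_range_of_injective hinj, Nat.card_eq_fintype_card, Fintype.card_fin] at hc
      exact hc
    have hle2 := Set.ncard_image_le (f := g) hA
    omega
  obtain ⟨ν, hν⟩ := hfree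
  let g' : ℕ → I ⊕ (M × Q) := fun u =>
    if u ∈ A then g u else if hu : ∃ v, f v = u then em δ m (h ν hu.choose) else g u
  have gA : ∀ u ∈ A, g' u = g u := by
    intro u hu
    simp only [g', if_pos hu]
  have gf : ∀ v, g' (f v) = em δ m (h ν v) := by
    intro v
    by_cases hv : v = r
    · rw [hv, gA _ hr, hgr, h2 ν]
      rfl
    · have hu : ∃ v', f v' = f v := ⟨v, rfl⟩
      have e : hu.choose = v := f.injective hu.choose_spec
      simp only [g', if_neg (hnew v hv)]
      rw [dif_pos hu, e]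
  have gnew : ∀ v, v ≠ r → g' (f v) ∉ g '' A := by
    intro v hv
    rw [gf]
    exact hν v hv
  have hmono := h1 ν
  have hfg : ∀ v v', g' (f v) = g' (f v') → v = v' := by
    intro v v' he
    rw [gf, gf] at he
    exact hmono.1 (hem he)
  refine ⟨g', ?_, ?_, ?_, ?_⟩
  · -- injectivity
    rintro u hu u' hu' he
    have key : ∀ u u', u ∈ A → u' ∉ A → (∃ v, f v = u') → g' u = g' u' → False := by
      rintro u _ hu hu' ⟨v, rfl⟩ he
      have hv : v ≠ r := by
        rintro rfl
        exact hu' hr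
      refine gnew v hv ⟨u, hu, ?_⟩
      rw [← gA u hu, he]
    by_cases c1 : u ∈ A
    · by_cases c2 : u' ∈ A
      · rw [gA u c1, gA u' c2] at he
        exact hS.inj c1 c2 he
      · exact (key u u' c1 c2 (hu'.resolve_left c2) he).elim
    · by_cases c2 : u' ∈ A
      · exact (key u' u c2 c1 (hu.resolve_left c1) he.symm).elim
      · obtain ⟨v, rfl⟩ := hu.resolve_left c1
        obtain ⟨v', rfl⟩ := hu'.resolve_left c2
        rw [hfg v v' he]
  · -- edges
    intro u v huv
    rw [SimpleGraph.sup_adj] at huv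
    rcases huv with huv | huv
    · obtain ⟨hu, hv⟩ := hT u v huv
      rw [gA u hu, gA v hv]
      exact hS.adj u v huv
    · rw [SimpleGraph.map_adj] at huv
      obtain ⟨a, b, hab, rfl, rfl⟩ := huv
      obtain ⟨k1, k2⟩ := hmono.2 a b hab
      rw [gf, gf]
      refine ⟨⟨fun he => hab.ne (hmono.1 (hem he)), m, _, _, k1, rfl, rfl⟩, ?_⟩
      rw [hH.col m hχ]
      exact k2
  · -- free vertices
    rintro u (hu | ⟨v, hv, rfl⟩)
    · obtain ⟨x, hx1, hx2⟩ := hS.free u hu
      exact ⟨x, by rw [gA u (hFA hu)]; exact hx1, hmon _ _ hx2⟩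
    · obtain ⟨l, hl⟩ := h3 ν v hv
      refine ⟨δ m l, ?_, hmon _ _ (hX l)⟩
      rw [gf, hl]
      rfl
  · -- all vertices
    have old : ∀ u ∈ A, (∃ x, g' u = Sum.inl x ∧ XS δ χ N (j + 1) x) ∨
        ∃ m q, g' u = Sum.inr (m, q) ∧ χ m ∧ (∀ l, XS δ χ N (j + 1) (δ m l)) ∧
          ∀ x ∈ 𝓛, ∀ w : Fin x.1, Hang x.2 S Cφ c N q w := by
      intro u hu
      rw [gA u hu]
      rcases hS.all u hu with ⟨x, hx1, hx2⟩ | ⟨m', q', e1, e2, e3, e4⟩
      · exact Or.inl ⟨x, hx1, hmon _ _ hx2⟩
      · exact Or.inr ⟨m', q', e1, e2, fun l => hmon _ _ (e3 l), e4⟩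
    rintro u (hu | ⟨v, rfl⟩)
    · exact old u hu
    · by_cases hv : v = r
      · rw [hv]
        exact old _ hr
      · obtain ⟨l, hl⟩ := h3 ν v hv
        refine Or.inl ⟨δ m l, ?_, hmon _ _ (hX l)⟩
        rw [gf, hl]
        rfl

end MP3240Q
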