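import Mathlib
import Pool.Agent.Lib.MP_3240be_co.Q22.Main
import Pool.Agent.Lib.MP_3240be_co.Q22.Fi2
import Pool.Agent.Lib.MP_3240be_co.Q22.Pi2
import Pool.Agent.Lib.MP_3240be_co.Q22.Cnv
import Pool.Agent.Lib.MP_3240be_co.Q22.Em2
import Pool.Agent.Lib.MP_3240be_co.Q22.Dt2
import Pool.Agent.Lib.MP_3240be_co.Q22.Cp2
import Pool.Agent.Lib.MP_3240be_co.Q22.Smp
import Pool.Agent.Lib.MP_3240be_co.Q22.Smq
import Pool.Agent.Lib.MP_3240be_co.Q22.Gma
import Pool.Agent.Lib.MP_3240be_co.Q22.Gmb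
import Pool.Agent.Lib.MP_3240be_co.Q22.Gm2
import Pool.Agent.Lib.MP_3240be_co.Q22.Pa2
import Pool.Agent.Lib.MP_3240be_co.Q22.Nb2
import Pool.Agent.Lib.MP_3240be_co.Q22.Rp2
import Pool.Agent.Lib.MP_3240be_co.Q22.Pb2
import Pool.Agent.Lib.MP_3240be_co.Q22.Al2
import Pool.Agent.Lib.MP_3240be_co.Q22.Rcl
import Pool.Agent.Lib.MP_3240be_co.Q22.Bcl
import Pool.Agent.Lib.MP_3240be_co.Q22.Bcd
import Pool.Agent.Lib.MP_3240be_co.Q22.Cst
import Pool.Agent.Lib.MP_3240be_co.Q22.Sy2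
import Pool.Agent.Lib.MP_3240be_co.Q22.Lbs
import Pool.Agent.Lib.MP_3240be_co.Q22.Pa3

set_option autoImplicit false

/-!
# Theorem Q2 (assembly of the rows)
-/

namespace MP3240Q

theorem smf_proof : SmfStatement := fun _ _ _ _ h => Pi2.small_facts h

theorem main2_proof : Main2Statement :=
  fi2_proof
    (pi2_proof
      (pa3_proof (pa2_proof sy2_proof nb2_proof (rp2_proof one_proof) pb2_proof
        (al2_proof col_proof) rcl_proof bcl_proof bcd_proof lbs_proof cst_proof))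
      att_proof (gm2_proof (gma_proof gam_proof) gmb_proof))
    cnv_proof (typ_proof hyp_proof)
    (em2_proof mon_proof (smp_proof mon_proof fre_proof) (smq_proof mon_proof)
      (cp2_proof mon_proof fre_proof) (dt2_proof smf_proof))
    (nfh_proof one_proof lin_proof) lin_proof (dt2_proof smf_proof)

end MP3240Q
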