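import Pool.Agent.Lib.MP_3240be_co.Q22.Defs

set_option autoImplicit false

/-!
# Row MCB: the copies of `D` that use a blocking copy
-/

namespace MP3240Q

open Pool.Agent.Lib.MP_3240be_co.H82 (TC)

section Mcb

variable {n k : ℕ} {G M : Type} {D : SimpleGraph (Fin k)} {H : SimpleGraph (Fin n)}
  {Ok : Lab n k → Prop} {a₀ b₀ : Fin k} {δ : M → Fin k → G}

theorem mcb_adj_of_EB {s t : GX n k G M ⊕ Fin n} (hne : s ≠ t) (h : EB D Ok a₀ b₀ s t) :
    (Pt D H Ok a₀ b₀ δ).Adj s t := by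
  unfold Pt
  rw [SimpleGraph.fromRel_adj]
  exact ⟨hne, Or.inl (Or.inl h)⟩

theorem mcb_adj_of_ER {s t : GX n k G M ⊕ Fin n} (hne : s ≠ t) (h : ER D H Ok a₀ b₀ δ s t) :
    (Pt D H Ok a₀ b₀ δ).Adj s t := by
  unfold Pt
  rw [SimpleGraph.fromRel_adj]
  exact ⟨hne, Or.inl (Or.inr h)⟩

theorem mcb_nb {N : ℕ} {C : GX n k G M ⊕ Fin n → GX n k G M ⊕ Fin n → Bool} {β : Bool}
    {c : Lab n k} {q : Fin n} {v : Fin k} (hF : Fr D Ok q c v) (g : Fin N → G)
    (hg : Function.Injective g)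
    (h : ∀ s, C (Sum.inr q) (Sum.inl (GX.l c (g s) v)) = β) :
    Nb (Pt D H Ok a₀ b₀ δ) C β N (Sum.inr q) := by
  refine ⟨fun s => GX.l c (g s) v, ?_, ?_⟩
  · intro s s' hss
    simp only [GX.l.injEq, true_and, and_true] at hss
    exact hg hss
  · intro s
    refine ⟨mcb_adj_of_EB (by simp) ?_, h s⟩
    exact Or.inr (Or.inr (Or.inl ⟨q, c, g s, v, hF, rfl, rfl⟩))

end Mcb

theorem mcb_proof : McbStatement := by
  classical
  intro p n k N G M D H Ok a₀ b₀ δ hD hOk C hC β₀ hβ c hc hxuC hBC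
  obtain ⟨⟨i, hi⟩, g, hg, hgC⟩ := hBC
  obtain ⟨hxu, hab⟩ := hOk c hc
  let f : Fin k → GX n k G M ⊕ Fin n := fun v =>
    if v = c.a then Sum.inr c.x else if v = c.b then Sum.inr c.u else Sum.inl (GX.l c i v)
  have fa : f c.a = Sum.inr c.x := by simp only [f, if_true]
  have fb : f c.b = Sum.inr c.u := by
    simp only [f, if_true]
    rw [if_neg hab.ne.symm]
  have fv : ∀ v, v ≠ c.a → v ≠ c.b → f v = Sum.inl (GX.l c i v) := by
    intro v h1 h2
    simp only [f, if_neg h1, if_neg h2]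
  have hfi : Function.Injective f := by
    intro v v' hvv
    by_cases c1 : v = c.a
    · by_cases c2 : v' = c.a
      · rw [c1, c2]
      · by_cases c3 : v' = c.b
        · rw [c1, c3, fa, fb] at hvv
          exact absurd (Sum.inr_injective hvv) hxu.ne
        · rw [c1, fa, fv v' c2 c3] at hvv
          simp at hvv
    · by_cases c2 : v = c.b
      · by_cases c3 : v' = c.a
        · rw [c2, c3, fa, fb] at hvv
          exact absurd (Sum.inr_injective hvv).symm hxu.ne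
        · by_cases c4 : v' = c.b
          · rw [c2, c4]
          · rw [c2, fb, fv v' c3 c4] at hvv
            simp at hvv
      · rw [fv v c1 c2] at hvv
        by_cases c3 : v' = c.a
        · rw [c3, fa] at hvv
          simp at hvv
        · by_cases c4 : v' = c.b
          · rw [c4, fb] at hvv
            simp at hvv
          · rw [fv v' c3 c4] at hvv
            simpa using hvv
  have hedge : ∀ s t, D.Adj s t → (s = c.a ∧ t = c.b) ∨ (t ≠ c.a ∧ t ≠ c.b) →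
      (Pt D H Ok a₀ b₀ δ).Adj (f s) (f t) ∧ C (f s) (f t) = β₀ := by
    intro s t hst hcase
    have hne : f s ≠ f t := fun h => hst.ne (hfi h)
    rcases hcase with ⟨hs, ht⟩ | ⟨ht1, ht2⟩
    · rw [hs, ht] at hne ⊢
      rw [fa, fb] at hne ⊢
      exact ⟨mcb_adj_of_ER hne (Or.inr (Or.inl ⟨c.x, c.u, hxu, rfl, rfl⟩)), hxuC⟩
    · by_cases c1 : s = c.a
      · have hF : Fr D Ok c.x c t := ⟨hc, ht1, ht2, Or.inl ⟨rfl, c1 ▸ hst⟩⟩
        rw [c1, fa, fv t ht1 ht2] at hne ⊢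
        exact ⟨mcb_adj_of_EB hne (Or.inr (Or.inr (Or.inl ⟨c.x, c, i, t, hF, rfl, rfl⟩))),
          hi _ _ hF⟩
      · by_cases c2 : s = c.b
        · have hF : Fr D Ok c.u c t := ⟨hc, ht1, ht2, Or.inr ⟨rfl, c2 ▸ hst⟩⟩
          rw [c2, fb, fv t ht1 ht2] at hne ⊢
          exact ⟨mcb_adj_of_EB hne (Or.inr (Or.inr (Or.inl ⟨c.u, c, i, t, hF, rfl, rfl⟩))),
            hi _ _ hF⟩
        · have hE : EB D Ok a₀ b₀ (Sum.inl (GX.l c i s) : GX n k G M ⊕ Fin n)
              (Sum.inl (GX.l c i t)) :=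
            Or.inr (Or.inl ⟨c, i, s, t, hc, hst, c1, c2, ht1, ht2, rfl, rfl⟩)
          rw [fv s c1 c2, fv t ht1 ht2] at hne ⊢
          exact ⟨mcb_adj_of_EB hne hE, hβ _ _ hE⟩
  have hrev : ∀ s t, (Pt D H Ok a₀ b₀ δ).Adj (f t) (f s) ∧ C (f t) (f s) = β₀ →
      (Pt D H Ok a₀ b₀ δ).Adj (f s) (f t) ∧ C (f s) (f t) = β₀ := by
    rintro s t ⟨h1, h2⟩
    exact ⟨h1.symm, by rw [hC]; exact h2⟩
  refine ⟨f, ⟨hfi, ?_⟩, ?_, ?_⟩
  · intro s t hst
    by_cases c1 : t = c.a ∨ t = c.b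
    · by_cases c2 : s = c.a ∨ s = c.b
      · rcases c1 with c1 | c1 <;> rcases c2 with c2 | c2
        · exact absurd (c2.trans c1.symm) hst.ne
        · exact hrev s t (hedge t s hst.symm (Or.inl ⟨c1, c2⟩))
        · exact hedge s t hst (Or.inl ⟨c2, c1⟩)
        · exact absurd (c2.trans c1.symm) hst.ne
      · push Not at c2
        exact hrev s t (hedge t s hst.symm (Or.inr c2))
    · push Not at c1
      exact hedge s t hst (Or.inr c1)
  · intro v h1 h2
    exact ⟨_, fv v h1 h2⟩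
  · intro v q hv
    obtain ⟨va, hva, hvab⟩ := hD.nbr2 c.a c.b
    obtain ⟨vb, hvb, hvba⟩ := hD.nbr2 c.b c.a
    by_cases c1 : v = c.a
    · rw [c1, fa] at hv
      have hq := Sum.inr_injective hv
      have hF : Fr D Ok q c va := ⟨hc, hva.ne.symm, hvab, Or.inl ⟨hq.symm, hva⟩⟩
      exact mcb_nb hF g hg fun s => hgC s q va hF
    · by_cases c2 : v = c.b
      · rw [c2, fb] at hv
        have hq := Sum.inr_injective hv
        have hF : Fr D Ok q c vb := ⟨hc, hvba, hvb.ne.symm, Or.inr ⟨hq.symm, hvb⟩⟩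
        exact mcb_nb hF g hg fun s => hgC s q vb hF
      · rw [fv v c1 c2] at hv
        simp at hv

end MP3240Q
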