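import Pool.Agent.Lib.MP_3240be_co.Q22.Defs2

set_option autoImplicit false

/-!
# Row SY2: the two kinds of edges of the pattern are symmetric, disjoint and have no loops
-/

namespace MP3240Q

section Sy2

variable {Λ P G M : Type} {n K N : ℕ} {H : SimpleGraph (Fin n)} {Bl : Λ → SimpleGraph (Fin K)}
  {pr : Λ → Fin K → Option (Fin n)} {Rd : P → SimpleGraph (Fin K)} {rt : P → Fin K}
  {δ : M → P × Fin N × Fin K → G}

theorem sy2_EB_symm {s t : GY Λ P G M K N ⊕ Fin n} (h : EB2 Bl pr s t) : EB2 Bl pr t s := by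
  rcases h with ⟨c, i, v, v', h1, h2, h3, hs, ht⟩ | ⟨c, i, q, v, h1, hs, ht⟩ |
    ⟨c, i, q, v, h1, hs, ht⟩
  · exact Or.inl ⟨c, i, v', v, h1.symm, h3, h2, ht, hs⟩
  · exact Or.inr (Or.inr ⟨c, i, q, v, h1, hs, ht⟩)
  · exact Or.inr (Or.inl ⟨c, i, q, v, h1, hs, ht⟩)

theorem sy2_ER_symm {s t : GY Λ P G M K N ⊕ Fin n} (h : ER2 H pr Rd rt δ s t) :
    ER2 H pr Rd rt δ t s := by
  rcases h with ⟨q, q', h1, hs, ht⟩ | ⟨c, v, ρ, ν, m, y, y', h1, h2, h3, h4, hs, ht⟩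
  · exact Or.inl ⟨q', q, h1.symm, ht, hs⟩
  · exact Or.inr ⟨c, v, ρ, ν, m, y', y, h1, h3, h2, h4.symm, ht, hs⟩

theorem sy2_EB_irrefl (s : GY Λ P G M K N ⊕ Fin n) : ¬ EB2 Bl pr s s := by
  rintro (⟨c, i, v, v', h1, h2, h3, hs, ht⟩ | ⟨c, i, q, v, h1, hs, ht⟩ |
    ⟨c, i, q, v, h1, hs, ht⟩)
  · rw [hs] at ht
    simp only [Sum.inl.injEq, GY.l.injEq, true_and] at ht
    exact h1.ne ht
  · rw [hs] at ht
    simp at ht
  · rw [hs] at ht
    simp at ht

/-- The red copy `rho2` is injective in its last argument. -/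
theorem sy2_rho_inj (hδ : ∀ m, Function.Injective (δ m)) {c : Λ} {v : Fin K} {ρ : P}
    {ν : Fin N} {m : M} {y y' : Fin K}
    (h : rho2 Rd rt δ c v ρ ν m y = rho2 Rd rt δ c v ρ ν m y') : y = y' := by
  classical
  unfold rho2 at h
  by_cases h1 : (Rd ρ).Adj (rt ρ) y <;> by_cases h2 : (Rd ρ).Adj (rt ρ) y'
  · rw [if_pos h1, if_pos h2] at h
    simp only [GY.l.injEq, true_and, and_true] at h
    have h3 := hδ m h
    simp only [Prod.mk.injEq, true_and] at h3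
    exact h3
  · rw [if_pos h1, if_neg h2] at h
    exact absurd h (by simp)
  · rw [if_neg h1, if_pos h2] at h
    exact absurd h (by simp)
  · rw [if_neg h1, if_neg h2] at h
    simp only [GY.r.injEq, true_and] at h
    exact h

/-- The two possible forms of `rho2`. -/
theorem sy2_rho_label (c : Λ) (v : Fin K) (ρ : P) (ν : Fin N) (m : M) (y : Fin K) :
    (∃ i, rho2 Rd rt δ c v ρ ν m y = GY.l c i v) ∨
      rho2 Rd rt δ c v ρ ν m y = GY.r c v ρ ν m y := by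
  classical
  unfold rho2
  by_cases h1 : (Rd ρ).Adj (rt ρ) y
  · exact Or.inl ⟨δ m (ρ, ν, y), by rw [if_pos h1]⟩
  · exact Or.inr (by rw [if_neg h1])

/-- At the same `m` the value of `rho2` determines `c`, `v`, `ρ`, `ν`, `y`. -/
theorem sy2_rho_det (hδ : ∀ m, Function.Injective (δ m)) {c c' : Λ} {v v' : Fin K} {ρ ρ' : P}
    {ν ν' : Fin N} {m : M} {y y' : Fin K}
    (h : rho2 Rd rt δ c v ρ ν m y = rho2 Rd rt δ c' v' ρ' ν' m y') :
    c = c' ∧ v = v' ∧ ρ = ρ' ∧ ν = ν' ∧ y = y' := by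
  classical
  unfold rho2 at h
  by_cases h1 : (Rd ρ).Adj (rt ρ) y <;> by_cases h2 : (Rd ρ').Adj (rt ρ') y'
  · rw [if_pos h1, if_pos h2] at h
    simp only [GY.l.injEq] at h
    have h3 := hδ m h.2.1
    simp only [Prod.mk.injEq] at h3
    exact ⟨h.1, h.2.2, h3.1, h3.2.1, h3.2.2⟩
  · rw [if_pos h1, if_neg h2] at h
    exact absurd h (by simp)
  · rw [if_neg h1, if_pos h2] at h
    exact absurd h (by simp)
  · rw [if_neg h1, if_neg h2] at h
    simp only [GY.r.injEq, true_and] at h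
    exact ⟨h.1, h.2.1, h.2.2.1, h.2.2.2.1, h.2.2.2.2⟩

/-- The position of `rho2` if it is a vertex of a blob. -/
theorem sy2_rho_eq_l {c : Λ} {v : Fin K} {ρ : P} {ν : Fin N} {m : M} {y : Fin K} {c' : Λ}
    {i : G} {v' : Fin K} (h : rho2 Rd rt δ c v ρ ν m y = GY.l c' i v') : c = c' ∧ v = v' := by
  rcases sy2_rho_label (Rd := Rd) (rt := rt) (δ := δ) c v ρ ν m y with ⟨j, hj⟩ | hj
  · rw [hj] at h
    simp only [GY.l.injEq] at h
    exact ⟨h.1, h.2.2⟩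
  · rw [hj] at h
    exact absurd h (by simp)

theorem sy2_ER_irrefl (hδ : ∀ m, Function.Injective (δ m)) (s : GY Λ P G M K N ⊕ Fin n) :
    ¬ ER2 H pr Rd rt δ s s := by
  rintro (⟨q, q', h1, hs, ht⟩ | ⟨c, v, ρ, ν, m, y, y', h1, h2, h3, h4, hs, ht⟩)
  · rw [hs] at ht
    simp only [Sum.inr.injEq] at ht
    exact h1.ne ht
  · rw [hs] at ht
    exact h4.ne (sy2_rho_inj hδ (Sum.inl_injective ht))

theorem sy2_E_disj {s t : GY Λ P G M K N ⊕ Fin n} (h : EB2 Bl pr s t)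
    (h' : ER2 H pr Rd rt δ s t) : False := by
  rcases h' with ⟨q, q', h1, hs, ht⟩ | ⟨c, v, ρ, ν, m, y, y', h1, h2, h3, h4, hs, ht⟩
  · rcases h with ⟨d, i, p, p', k1, k2, k3, js, jt⟩ | ⟨d, i, q₁, p, k1, js, jt⟩ |
      ⟨d, i, q₁, p, k1, js, jt⟩
    · rw [hs] at js
      simp at js
    · rw [ht] at jt
      simp at jt
    · rw [hs] at jt
      simp at jt
  · rcases h with ⟨d, i, p, p', k1, k2, k3, js, jt⟩ | ⟨d, i, q₁, p, k1, js, jt⟩ |
      ⟨d, i, q₁, p, k1, js, jt⟩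
    · rw [hs] at js
      rw [ht] at jt
      exact k1.ne ((sy2_rho_eq_l (Sum.inl_injective js)).2.symm.trans
        (sy2_rho_eq_l (Sum.inl_injective jt)).2)
    · rw [hs] at js
      simp at js
    · rw [ht] at js
      simp at js

end Sy2

/-- Row SY2. -/
theorem sy2_proof : Sy2Statement := by
  intro Λ P G M n K N H Bl pr Rd rt δ hδ s t
  exact ⟨sy2_EB_symm, sy2_ER_symm, sy2_EB_irrefl s, sy2_ER_irrefl hδ s,
    fun h h' => sy2_E_disj h h'⟩

end MP3240Q
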